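import Pool.Agent.Lib.U21.Rows

/-!
# U21, row ASM: assembly (helper67)
-/

set_option autoImplicit false

open scoped ComplexConjugate
open Complex Pool.Agent.HCM

namespace Pool.Agent.U21

noncomputable section

namespace Asmx

section closure

variable {κ : Type} {K : κ → Type} [∀ k, Field (K k)] [∀ k, NumberField (K k)] {n : κ → ℕ}
  {J : κ → Type} {Φ : Ty K n J} {a : ∀ k, Fin (n k) → K k} {s : κ → Bool}

/-- The span of the generated classes. -/
def GS (Φ : Ty K n J) (a : ∀ k, Fin (n k) → K k) (s : κ → Bool) (c : ℕ) (P : Type) :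
    Submodule ℚ ((P → Lt K n J) → ℂ) := Submodule.span ℚ {f | Gen Φ a s c P f}

/-- A linear operation which maps generators to generators maps spans to spans. -/
theorem op_mem {c c' : ℕ} {P P' : Type}
    (L : ((P → Lt K n J) → ℂ) →ₗ[ℚ] ((P' → Lt K n J) → ℂ))
    (hL : ∀ u, Gen Φ a s c P u → Gen Φ a s c' P' (L u)) {u : (P → Lt K n J) → ℂ}
    (hu : u ∈ GS Φ a s c P) : L u ∈ GS Φ a s c' P' := by
  unfold GS at hu ⊢
  have h1 : (Submodule.span ℚ {f | Gen Φ a s c P f}).map L ≤
      Submodule.span ℚ {f | Gen Φ a s c' P' f} := by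
    rw [Submodule.map_span]
    refine Submodule.span_mono ?_
    rintro _ ⟨f, hf, rfl⟩
    exact hL f hf
  exact h1 (Submodule.mem_map_of_mem hu)

theorem mul_mem {c : ℕ} {P : Type} {δ : (Fin 2 → Lt K n J) → ℂ} (hδ : IsH11 Φ a s δ)
    {u : (P → Lt K n J) → ℂ} (hu : u ∈ GS Φ a s c P) :
    (fun t : Fin 2 ⊕ P → Lt K n J => δ (fun i => t (Sum.inl i)) * u fun j => t (Sum.inr j)) ∈
      GS Φ a s (c + 1) (Fin 2 ⊕ P) := by
  let L : ((P → Lt K n J) → ℂ) →ₗ[ℚ] ((Fin 2 ⊕ P → Lt K n J) → ℂ) :=
    { toFun := fun u t => δ (fun i => t (Sum.inl i)) * u fun j => t (Sum.inr j)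
      map_add' := fun u v => by
        funext t
        simp only [Pi.add_apply, mul_add]
      map_smul' := fun q u => by
        funext t
        simp only [Pi.smul_apply, RingHom.id_apply, mul_smul_comm] }
  exact op_mem L (fun u hu => Gen.mul c P δ u hδ hu) hu

theorem perm_mem {c : ℕ} {P P' : Type} (e : P ≃ P') {u : (P → Lt K n J) → ℂ}
    (hu : u ∈ GS Φ a s c P) : (fun t : P' → Lt K n J => u fun i => t (e i)) ∈ GS Φ a s c P' := by
  let L : ((P → Lt K n J) → ℂ) →ₗ[ℚ] ((P' → Lt K n J) → ℂ) :=
    { toFun := fun u t => u fun i => t (e i)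
      map_add' := fun u v => rfl
      map_smul' := fun q u => rfl }
  exact op_mem L (fun u hu => Gen.perm c P P' e u hu) hu

theorem weak_mem {c : ℕ} {P : Type} {u : (P → Lt K n J) → ℂ}
    (hu : u ∈ GS Φ a s (c - 1 + 1) P) : u ∈ GS Φ a s c P := by
  rcases Nat.eq_zero_or_pos c with h | h
  · subst h
    exact op_mem LinearMap.id (fun u hu => Gen.weak 0 P u hu) hu
  · rwa [Nat.sub_add_cancel h] at hu

theorem det_mem {c : ℕ} {P : Type} {k : κ} {i j : P} (hs : s k = false) (hn : n k = 3)
    (hij : i ≠ j) {u : (P → Lt K n J) → ℂ} (hu : u ∈ GS Φ a s c P) :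
    dt a k i j u ∈ GS Φ a s c P := by
  let L : ((P → Lt K n J) → ℂ) →ₗ[ℚ] ((P → Lt K n J) → ℂ) :=
    { toFun := dt a k i j
      map_add' := fun u v => by
        funext t
        simp only [dt, Pi.add_apply]
        rw [← Finset.sum_add_distrib]
        refine Finset.sum_congr rfl fun τ _ => ?_
        rw [← Finset.sum_add_distrib]
        refine Finset.sum_congr rfl fun g _ => ?_
        rw [← Finset.sum_add_distrib]
        refine Finset.sum_congr rfl fun g' _ => ?_
        split_ifs
        · rw [← Finset.sum_add_distrib]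
          exact Finset.sum_congr rfl fun z _ => by rw [mul_add]
        · rw [add_zero]
      map_smul' := fun q u => by
        funext t
        simp only [dt, Pi.smul_apply, RingHom.id_apply]
        rw [Finset.smul_sum]
        refine Finset.sum_congr rfl fun τ _ => ?_
        rw [Finset.smul_sum]
        refine Finset.sum_congr rfl fun g _ => ?_
        rw [Finset.smul_sum]
        refine Finset.sum_congr rfl fun g' _ => ?_
        split_ifs
        · rw [Finset.smul_sum]
          exact Finset.sum_congr rfl fun z _ => by rw [mul_smul_comm]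
        · rw [smul_zero] }
  exact op_mem L (fun u hu => Gen.det c P k i j u hs hn hij hu) hu

end closure

theorem exists_equiv {P : Type} (i j : P) (hij : i ≠ j) :
    ∃ e : P ≃ Fin 2 ⊕ {x : P // x ≠ i ∧ x ≠ j}, e i = Sum.inl 0 ∧ e j = Sum.inl 1 := by
  classical
  refine ⟨{ toFun := fun x => if h : x = i then Sum.inl 0 else
              if h' : x = j then Sum.inl 1 else Sum.inr ⟨x, h, h'⟩
            invFun := fun y => Sum.elim (fun m => if m = 0 then i else j) (fun x => x.1) y
            left_inv := ?_
            right_inv := ?_ }, ?_, ?_⟩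
  · intro x
    by_cases h : x = i
    · subst h
      simp
    · by_cases h' : x = j
      · subst h'
        simp [h]
      · simp [h, h']
  · rintro (m | x)
    · by_cases hm : m = 0
      · subst hm
        simp
      · have h1 : m = 1 := by omega
        subst h1
        simp [Ne.symm hij]
    · simp [x.2.1, x.2.2]
  · simp
  · simp [Ne.symm hij]

section main

variable {κ : Type} [Finite κ] {K : κ → Type} [∀ k, Field (K k)] [∀ k, NumberField (K k)]
  [∀ k, NumberField.IsCMField (K k)] {n : κ → ℕ} {J : κ → Type} [∀ k, Finite (J k)]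
  [Fintype (Lt K n J)] {Φ : Ty K n J} {a : ∀ k, Fin (n k) → K k} {s : κ → Bool}
  {D : LS (Lt K n J)}

theorem key (hF : FAC) (hD : DET) (hS : SPL) (hU : SUP) (hT : TRN) (hX : REX) (hO : OMS)
    (hdat : IsDat Φ a s) (hls : IsLS a s D) (r : ℕ) :
    ∀ (P : Type) [Fintype P] (c : ℕ) (R : Submodule ℚ ((P → Lt K n J) → ℂ)), IsSub Φ a s c R →
      (∀ u ∈ R, ∀ t, u t ≠ 0 → nA t ≤ r) → ∀ u ∈ R, u ∈ GS Φ a s c P := by
  classical
  induction r using Nat.strong_induction_on with
  | _ r ih =>
    intro P _ c R hR hr u hu
    obtain ⟨R₁, R₀, hR₁, hR₀, hr₁, hk₀, hdec⟩ := hO κ K n J Φ a s D hdat hls P c r R hR hr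
    obtain ⟨v, hv, w, hw, rfl⟩ := hdec u hu
    refine Submodule.add_mem _ ?_ ?_
    · exact hS κ K n J Φ a s P c v (hR₀.rat hv)
        (hU κ K n J Φ a s D hdat hls P c R₀ hR₀ hk₀ v hv)
    -- the two kinds of terms of `Ω w`
    have hA : ∀ i j : P, i ≠ j → (fun t => D.pr i j w t +
        (if n (t i).1.1 = 2 then D.an i j w t else 0)) ∈ GS Φ a s c P := by
      intro i j hij
      obtain ⟨P', _, e, hei, hej⟩ : ∃ (P' : Type) (_ : Fintype P') (e : P ≃ Fin 2 ⊕ P'),
          e i = Sum.inl 0 ∧ e j = Sum.inl 1 := by
        obtain ⟨e, hei, hej⟩ := exists_equiv i j hij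
        exact ⟨_, inferInstance, e, hei, hej⟩
      obtain ⟨C, hC, hCu, hCp⟩ := hX κ K n J Φ a s D P (Fin 2 ⊕ P') e
      obtain ⟨N, δ, Cm, hδ, hCm, hsum⟩ := hF κ K n J Φ a s D hdat hls P'
      have h1 : (fun t => D.pr i j w t + (if n (t i).1.1 = 2 then D.an i j w t else 0)) =
          fun t => (fun t' : Fin 2 ⊕ P' → Lt K n J => ∑ m, δ m (fun x => t' (Sum.inl x)) *
            Cm m (C w) fun x => t' (Sum.inr x)) fun x => t (e.symm x) := by
        funext t
        have h2 := hsum (C w) fun x => t (e.symm x)
        have h3 := hCp i j w fun x => t (e.symm x)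
        rw [hei, hej] at h3
        simp only [Equiv.symm_apply_apply] at h3
        rw [h3.1, h3.2] at h2
        have h4 : e.symm (Sum.inl 0) = i := by rw [← hei, Equiv.symm_apply_apply]
        rw [h4] at h2
        exact h2
      rw [h1]
      refine perm_mem e.symm (u := fun t' : Fin 2 ⊕ P' → Lt K n J =>
        ∑ m, δ m (fun x => t' (Sum.inl x)) * Cm m (C w) fun x => t' (Sum.inr x)) ?_
      have h5 : (fun t' : Fin 2 ⊕ P' → Lt K n J =>
          ∑ m, δ m (fun x => t' (Sum.inl x)) * Cm m (C w) fun x => t' (Sum.inr x)) =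
          ∑ m, fun t' : Fin 2 ⊕ P' → Lt K n J =>
            δ m (fun x => t' (Sum.inl x)) * Cm m (C w) fun x => t' (Sum.inr x) := by
        funext t'
        rw [Finset.sum_apply]
      rw [h5]
      refine Submodule.sum_mem _ fun m _ => weak_mem (mul_mem (hδ m) ?_)
      -- the contraction
      have h6 := hT κ K n J Φ a s P (Fin 2 ⊕ P') 0 0 c C hC R₁ hR₁
      have h7 := hT κ K n J Φ a s (Fin 2 ⊕ P') P' 1 2 (c - 0) (Cm m) (hCm m) _ h6
      rw [Nat.sub_zero] at h7
      by_cases hr2 : 2 ≤ r
      · refine ih (r - 2) (by omega) P' (c - 1) _ h7 ?_ _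
          ⟨C w, ⟨w, hw, rfl⟩, rfl⟩
        rintro _ ⟨_, ⟨w', hw', rfl⟩, rfl⟩ t' ht'
        obtain ⟨t₁, ht₁, -, -, hn₁⟩ := (hCm m).sup _ t' ht'
        obtain ⟨t₂, ht₂, -, -, hn₂⟩ := hC.sup _ t₁ ht₁
        have h8 := hr₁ w' hw' t₂ ht₂
        omega
      · have h9 : Cm m (C w) = 0 := by
          funext t'
          by_contra ht'
          obtain ⟨t₁, ht₁, -, -, hn₁⟩ := (hCm m).sup _ t' ht'
          obtain ⟨t₂, ht₂, -, -, hn₂⟩ := hC.sup _ t₁ ht₁
          have h8 := hr₁ w hw t₂ ht₂
          omega
        rw [h9]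
        exact Submodule.zero_mem _
    have hB : ∀ (k : κ) (i j : P), s k = false → n k = 3 → i ≠ j →
        (fun t => if (t i).1.1 = k then D.an i j w t else 0) ∈ GS Φ a s c P := by
      intro k i j hs hn hij
      obtain ⟨C, hC, hCu⟩ := hD κ K n J Φ a s D hdat hls P k i j hs hn hij
      have h1 : (fun t => if (t i).1.1 = k then D.an i j w t else 0) = dt a k i j (C w) := by
        funext t
        rw [← hCu w t]
      rw [h1]
      refine det_mem hs hn hij ?_
      have h6 := hT κ K n J Φ a s P P 0 1 c C hC R₁ hR₁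
      rw [Nat.sub_zero] at h6
      by_cases hr2 : 1 ≤ r
      · refine ih (r - 1) (by omega) P c _ h6 ?_ _ ⟨w, hw, rfl⟩
        rintro _ ⟨w', hw', rfl⟩ t' ht'
        obtain ⟨t₁, ht₁, -, -, hn₁⟩ := hC.sup _ t' ht'
        have h8 := hr₁ w' hw' t₁ ht₁
        omega
      · have h9 : C w = 0 := by
          funext t'
          by_contra ht'
          obtain ⟨t₁, ht₁, -, -, hn₁⟩ := hC.sup _ t' ht'
          have h8 := hr₁ w hw t₁ ht₁
          omega
        rw [h9]
        exact Submodule.zero_mem _
    have := Fintype.ofFinite κ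
    have h1 : D.om w = ∑ i, ∑ j, if i ≠ j then
        (fun t => D.pr i j w t + (if n (t i).1.1 = 2 then D.an i j w t else 0)) +
          ∑ k, (if s k = false ∧ n k = 3 then
            (fun t => if (t i).1.1 = k then D.an i j w t else 0) else 0) else 0 := by
      funext t
      unfold LS.om
      rw [Finset.sum_apply]
      refine Finset.sum_congr rfl fun i _ => ?_
      rw [Finset.sum_apply]
      refine Finset.sum_congr rfl fun j _ => ?_
      by_cases hij : i ≠ j
      · rw [if_pos hij, if_pos hij, Pi.add_apply, Finset.sum_apply, add_assoc]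
        congr 1
        by_cases han : D.an i j w t = 0
        · rw [han, ite_self, zero_add]
          symm
          refine Finset.sum_eq_zero fun k _ => ?_
          split_ifs with h2
          · simp only [han, ite_self]
          · rfl
        · -- a letter of a unitary block
          have h2 : D.S (t i) (t j) ∧ ¬ D.sp (t i) := by
            by_contra h3
            exact han (if_neg h3)
          have h3 : s (t i).1.1 = false := by
            have h4 := h2.2
            rw [hls.hsp] at h4
            exact Bool.eq_false_iff.2 h4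
          rcases hdat.blk _ h3 with h4 | h4
          · rw [if_pos h4.1]
            have h5 : ∑ k, (if s k = false ∧ n k = 3 then
                (fun t => if (t i).1.1 = k then D.an i j w t else 0) else 0 :
                  (P → Lt K n J) → ℂ) t = 0 := by
              refine Finset.sum_eq_zero fun k _ => ?_
              by_cases h6 : s k = false ∧ n k = 3
              · rw [if_pos h6]
                simp only
                rw [if_neg]
                rintro rfl
                have h7 := h4.1
                rw [h6.2] at h7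
                exact absurd h7 (by norm_num)
              · rw [if_neg h6]
                rfl
            rw [h5, add_zero]
          · rw [if_neg (by rw [h4.1]; norm_num), zero_add]
            rw [Finset.sum_eq_single (t i).1.1]
            · rw [if_pos ⟨h3, h4.1⟩]
              simp
            · intro k _ hk
              by_cases h6 : s k = false ∧ n k = 3
              · rw [if_pos h6]
                simp only
                rw [if_neg (Ne.symm hk)]
              · rw [if_neg h6]
                rfl
            · intro h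
              exact absurd (Finset.mem_univ _) h
      · rw [if_neg hij, if_neg hij]
        rfl
    rw [h1]
    refine Submodule.sum_mem _ fun i _ => Submodule.sum_mem _ fun j _ => ?_
    by_cases hij : i ≠ j
    · rw [if_pos hij]
      refine Submodule.add_mem _ (hA i j hij) (Submodule.sum_mem _ fun k _ => ?_)
      by_cases h6 : s k = false ∧ n k = 3
      · rw [if_pos h6]
        exact hB k i j h6.1 h6.2 hij
      · rw [if_neg h6]
        exact Submodule.zero_mem _
    · rw [if_neg hij]
      exact Submodule.zero_mem _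

end main

end Asmx

/-- Row ASM. -/
theorem asm (hL : LSX) (hF : FAC) (hD : DET) (hS : SPL) (hU : SUP) (hT : TRN) (hX : REX)
    (hO : OMS) : GHU := by
  intro κ _ K _ _ _ n J _ Φ a s hdat P _ c R hR u hu
  have : Fintype (Lt K n J) := Fintype.ofFinite _
  obtain ⟨D, hls⟩ := hL κ K n J Φ a s hdat
  refine Asmx.key hF hD hS hU hT hX hO hdat hls (Fintype.card P) P c R hR ?_ u hu
  intro u _ t _
  unfold nA
  have h1 := Set.ncard_le_ncard (Set.subset_univ {i | ¬ isB (t i)}) Set.finite_univ
  rwa [Set.ncard_univ, Nat.card_eq_fintype_card] at h1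

end

end Pool.Agent.U21
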