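import Pool.Agent.Lib.U21.StatB
import Pool.Agent.Lib.GG.CmvF

/-!
# U21, row CMB: rational tensors of coniveau `c` on `B` come from ball quotients
-/

set_option autoImplicit false

open scoped ComplexConjugate
open Complex Pool.Agent.HCM Pool.Agent.RAT

namespace Pool.Agent.U21

namespace Cmbx

section

variable {κ : Type} {K : κ → Type} [∀ k, Field (K k)] {n : κ → ℕ} {J : κ → Type} {q : ℕ}

open Classical in
/-- the extension of `v` to the words in the letters of `B^q`, by zero -/
noncomputable def dia (v : (Fin q → Lt K n J) → ℂ) (T : Fin q → LBq K J q) : ℂ :=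
  if ∀ j, (T j).1.1 = j then v fun j => inB ⟨(T j).1.2, (T j).2⟩ else 0

open Classical in
/-- the loop in the factor `j` of `B^q` -/
noncomputable def xj (x : Fin q → Lp K n J) (j : Fin q) :
    ∀ i : Fin q × Σ k, Option (J k), K i.2.1 :=
  fun i => if i.1 = j then x j ⟨i.2.1, Sum.inr i.2.2⟩ else 0

theorem dia_tens (x : Fin q → Lp K n J) :
    dia (fun t : Fin q → Lt K n J => ∏ i, lp (x i) (t i)) =
      fun T => ∏ i ∈ (Finset.univ : Finset (Fin q)), GG.perB (T i) (xj x i) := by
  classical
  funext T
  unfold dia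
  split_ifs with h
  · refine Finset.prod_congr rfl fun j _ => ?_
    unfold GG.perB xj lp inB
    rw [if_pos (h j)]
  · push Not at h
    obtain ⟨j, hj⟩ := h
    symm
    refine Finset.prod_eq_zero (Finset.mem_univ j) ?_
    unfold GG.perB xj
    rw [if_neg hj, map_zero]

theorem dia_mem {v : (Fin q → Lt K n J) → ℂ} (hv : v ∈ TQ K n J (Fin q)) :
    dia v ∈ GG.RTn (GG.perB (K := fun i : Fin q × Σ k, Option (J k) => K i.2.1))
      (Finset.univ : Finset (Fin q)) := by
  unfold TQ at hv
  induction hv using Submodule.span_induction with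
  | mem y hy =>
    obtain ⟨x, rfl⟩ := hy
    exact Submodule.subset_span ⟨fun i => xj x i, (dia_tens x).symm⟩
  | zero =>
    have h0 : dia (0 : (Fin q → Lt K n J) → ℂ) = 0 := by
      funext T
      unfold dia
      simp
    rw [h0]
    exact Submodule.zero_mem _
  | add y z _ _ hy hz =>
    have h0 : dia (y + z) = dia y + dia z := by
      funext T
      simp only [dia, Pi.add_apply]
      split_ifs <;> simp
    rw [h0]
    exact Submodule.add_mem _ hy hz
  | smul a y _ hy =>
    have h0 : dia (a • y) = a • dia y := by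
      funext T
      simp only [dia, Pi.smul_apply]
      split_ifs <;> simp
    rw [h0]
    exact Submodule.smul_mem _ _ hy

theorem alt_dia (v : (Fin q → Lt K n J) → ℂ) (t : Fin q → LB K J) :
    GG.alt (dia v) (fun j => atB j (t j)) = v fun j => inB (t j) := by
  classical
  unfold GG.alt
  rw [Finset.sum_eq_single (1 : Equiv.Perm (Fin q))]
  · have h1 : dia v ((fun j => atB j (t j)) ∘ ⇑(1 : Equiv.Perm (Fin q))) =
        v fun j => inB (t j) := by
      have h2 : ∀ j : Fin q,
          (((fun j => atB j (t j)) ∘ ⇑(1 : Equiv.Perm (Fin q))) j).1.1 = j := fun j => rfl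
      unfold dia
      rw [if_pos h2]
      rfl
    rw [h1, Equiv.Perm.sign_one]
    simp
  · intro σ _ hσ
    have h1 : dia v ((fun j => atB j (t j)) ∘ ⇑σ) = 0 := by
      unfold dia
      rw [if_neg]
      intro h
      exact hσ (Equiv.ext fun j => h j)
    rw [h1, mul_zero]
  · intro h
    exact absurd (Finset.mem_univ _) h

end

end Cmbx

open Cmbx

/-- **Row CMB.** -/
theorem cmb : CMB := by
  intro κ _ K _ _ _ n J _ Φ hΦ c l v hv hB hc
  refine ⟨hB, GG.alt (dia v), ?_, fun t => (alt_dia v t).symm⟩
  refine GG.rowCMV (Fin (2 * c + l) × Σ k, Option (J k)) (fun i => K i.2.1)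
    (PB Φ (2 * c + l)) c l (fun i => hΦ _) (dia v) (dia_mem hv) ?_
  intro w hw
  have h1 : ∀ j, (w j).1.1 = j := by
    by_contra h
    exact hw (if_neg h)
  have h2 : v (fun j => inB ⟨(w j).1.2, (w j).2⟩) ≠ 0 := by
    unfold dia at hw
    rwa [if_pos h1] at hw
  have h3 := hc _ h2
  exact ⟨h3.2, h3.1⟩

end Pool.Agent.U21
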