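import Pool.Agent.Lib.U21.OMG

/-!
# U21, row CMT: the root vectors commute with the projections (helper87)
-/

set_option autoImplicit false

open scoped ComplexConjugate
open Complex Pool.Agent.HCM Finset

namespace Pool.Agent.U21

namespace Cmtx

open Omgx

section

variable {Y P : Type}

open Classical in
/-- The matrix `e_(y, y')` at one place. -/
noncomputable def E (l : P) (y y' : Y) (u : (P → Y) → ℂ) (t : P → Y) : ℂ :=
  if t l = y then u (up t l y') else 0

theorem eL_eq [Fintype P] (y y' : Y) (u : (P → Y) → ℂ) : eL y y' u = ∑ l, E l y y' u := by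
  classical
  funext t
  rw [Finset.sum_apply]
  rfl

/-- The function of two letters at the places `i` and `j`. -/
noncomputable def W (t : P → Y) (i j : P) (u : (P → Y) → ℂ) (p q : Y) : ℂ := u (up (up t i p) j q)

theorem W_self (t : P → Y) (i j : P) (u : (P → Y) → ℂ) : u t = W t i j u (t i) (t j) := by
  unfold W
  rw [up_self]

theorem up_ij {t : P → Y} {i j : P} (hij : i ≠ j) (p q y : Y) :
    up (up (up t i p) j q) i y = up (up t i y) j q := by
  funext l
  by_cases hi : l = i
  · rw [hi, up_same, up_ne _ _ hij, up_same]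
  · rw [up_ne _ _ hi]
    by_cases hj : l = j
    · rw [hj, up_same, up_same]
    · rw [up_ne _ _ hj, up_ne _ _ hj, up_ne _ _ hi, up_ne _ _ hi]

theorem up_jj (t : P → Y) (i j : P) (p q y : Y) :
    up (up (up t i p) j q) j y = up (up t i p) j y := by
  funext l
  by_cases hj : l = j
  · rw [hj, up_same, up_same]
  · rw [up_ne _ _ hj, up_ne _ _ hj, up_ne _ _ hj]

theorem up_l {t : P → Y} {i j l : P} (hi : l ≠ i) (hj : l ≠ j) (p q y : Y) :
    up (up (up t l y) i p) j q = up (up (up t i p) j q) l y := by
  funext m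
  by_cases hm : m = l
  · rw [hm, up_ne _ _ hj, up_ne _ _ hi, up_same, up_same]
  · rw [up_ne _ _ hm]
    by_cases hmj : m = j
    · rw [hmj, up_same, up_same]
    · rw [up_ne _ _ hmj, up_ne _ _ hmj]
      by_cases hmi : m = i
      · rw [hmi, up_same, up_same]
      · rw [up_ne _ _ hmi, up_ne _ _ hmi, up_ne _ _ hm]

open Classical in
theorem W_Ei {i j : P} (hij : i ≠ j) (t : P → Y) (y y' : Y) (u : (P → Y) → ℂ) (p q : Y) :
    W t i j (E i y y' u) p q = if p = y then W t i j u y' q else 0 := by
  unfold W E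
  rw [up_ne _ _ hij, up_same, up_ij hij]

open Classical in
theorem W_Ej (i j : P) (t : P → Y) (y y' : Y) (u : (P → Y) → ℂ) (p q : Y) :
    W t i j (E j y y' u) p q = if q = y then W t i j u p y' else 0 := by
  unfold W E
  rw [up_same, up_jj]

end

section

variable {Y P : Type} [Fintype Y] (D : LS Y)

open Classical in
theorem W_pr {i j : P} (hij : i ≠ j) (t : P → Y) (u : (P → Y) → ℂ) (p q : Y) :
    W t i j (D.pr i j u) p q = if q = D.bar p ∧ D.S p p then
      ((D.N p : ℂ) * D.a p)⁻¹ *
        ∑ z, (if D.S p z then D.a z else 0) * W t i j u z (D.bar z) else 0 := by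
  unfold W LS.pr
  rw [up_same, up_ne _ _ hij, up_same]
  refine if_congr Iff.rfl ?_ rfl
  congr 1
  refine sum_congr rfl fun z _ => ?_
  rw [up_up]
  by_cases hz : D.S p z
  · rw [if_pos hz, if_pos hz]
  · rw [if_neg hz, if_neg hz, zero_mul]

omit [Fintype Y] in
open Classical in
theorem W_an {i j : P} (hij : i ≠ j) (t : P → Y) (u : (P → Y) → ℂ) (p q : Y) :
    W t i j (D.an i j u) p q = if D.S p q ∧ ¬ D.sp p then
      (W t i j u p q - W t i j u q p) / 2 else 0 := by
  unfold W LS.an
  rw [up_same, up_ne _ _ hij, up_same, up_up]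

theorem pr_E {i j l : P} (hi : l ≠ i) (hj : l ≠ j) (y y' : Y) (u : (P → Y) → ℂ) :
    E l y y' (D.pr i j u) = D.pr i j (E l y y' u) := by
  classical
  funext t
  unfold E LS.pr
  beta_reduce
  have h1 : up t l y' i = t i := up_ne _ _ hi.symm
  have h2 : up t l y' j = t j := up_ne _ _ hj.symm
  have h3 : ∀ p q : Y, up (up t i p) j q l = t l := fun p q => by
    rw [up_ne _ _ hj, up_ne _ _ hi]
  rw [h1, h2]
  by_cases ht : t l = y
  · rw [if_pos ht]
    refine if_congr Iff.rfl ?_ rfl
    congr 1
    refine sum_congr rfl fun z _ => ?_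
    refine if_congr Iff.rfl ?_ rfl
    rw [up_l hi hj, if_pos (show up (up t i z) j (D.bar z) l = y by rw [h3, ht])]
  · rw [if_neg ht]
    by_cases hc : t j = D.bar (t i) ∧ D.S (t i) (t i)
    · rw [if_pos hc]
      symm
      refine mul_eq_zero_of_right _ (sum_eq_zero fun z _ => ?_)
      by_cases hz : D.S (t i) z
      · rw [if_pos hz, if_neg (show ¬ up (up t i z) j (D.bar z) l = y by rw [h3]; exact ht),
          mul_zero]
      · rw [if_neg hz]
    · rw [if_neg hc]

omit [Fintype Y] in
theorem an_E {i j l : P} (hi : l ≠ i) (hj : l ≠ j) (y y' : Y) (u : (P → Y) → ℂ) :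
    E l y y' (D.an i j u) = D.an i j (E l y y' u) := by
  classical
  funext t
  unfold E LS.an
  beta_reduce
  have h1 : up t l y' i = t i := up_ne _ _ hi.symm
  have h2 : up t l y' j = t j := up_ne _ _ hj.symm
  have h3 : ∀ p q : Y, up (up t i p) j q l = t l := fun p q => by
    rw [up_ne _ _ hj, up_ne _ _ hi]
  rw [h1, h2]
  by_cases ht : t l = y
  · rw [if_pos ht]
    refine if_congr Iff.rfl ?_ rfl
    rw [if_pos ht, up_l hi hj, if_pos (show up (up t i (t j)) j (t i) l = y by rw [h3, ht])]
  · rw [if_neg ht]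
    by_cases hc : D.S (t i) (t j) ∧ ¬ D.sp (t i)
    · rw [if_pos hc, if_neg ht, if_neg (show ¬ up (up t i (t j)) j (t i) l = y by rw [h3]; exact ht)]
      simp
    · rw [if_neg hc]

theorem pr_add (i j : P) (u v : (P → Y) → ℂ) : D.pr i j (u + v) = D.pr i j u + D.pr i j v := by
  classical
  funext t
  simp only [LS.pr, Pi.add_apply]
  by_cases h : t j = D.bar (t i) ∧ D.S (t i) (t i)
  · rw [if_pos h, if_pos h, if_pos h, ← mul_add, ← sum_add_distrib]
    congr 1
    refine sum_congr rfl fun y _ => ?_
    by_cases hy : D.S (t i) y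
    · rw [if_pos hy, if_pos hy, if_pos hy, mul_add]
    · rw [if_neg hy, if_neg hy, if_neg hy, add_zero]
  · rw [if_neg h, if_neg h, if_neg h, add_zero]

theorem pr_smul (i j : P) (c : ℂ) (u : (P → Y) → ℂ) : D.pr i j (c • u) = c • D.pr i j u := by
  classical
  funext t
  simp only [LS.pr, Pi.smul_apply, smul_eq_mul]
  by_cases h : t j = D.bar (t i) ∧ D.S (t i) (t i)
  · rw [if_pos h, if_pos h, Finset.mul_sum, Finset.mul_sum, Finset.mul_sum]
    refine sum_congr rfl fun y _ => ?_
    by_cases hy : D.S (t i) y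
    · rw [if_pos hy, if_pos hy]
      ring
    · rw [if_neg hy, if_neg hy]
      ring
  · rw [if_neg h, if_neg h, mul_zero]

omit [Fintype Y] in
theorem an_add (i j : P) (u v : (P → Y) → ℂ) : D.an i j (u + v) = D.an i j u + D.an i j v := by
  classical
  funext t
  simp only [LS.an, Pi.add_apply]
  split_ifs
  · ring
  · ring

omit [Fintype Y] in
theorem an_smul (i j : P) (c : ℂ) (u : (P → Y) → ℂ) : D.an i j (c • u) = c • D.an i j u := by
  classical
  funext t
  simp only [LS.an, Pi.smul_apply, smul_eq_mul]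
  split_ifs
  · ring
  · ring

omit [Fintype Y] in
/-- The general argument: an additive operator which commutes with the places other than `i`, `j`
and with the sum of the two places. -/
theorem comm_of [Fintype P] {i j : P} (hij : i ≠ j) (M : ((P → Y) → ℂ) → ((P → Y) → ℂ))
    (hadd : ∀ u v, M (u + v) = M u + M v) (hsmul : ∀ (c : ℂ) u, M (c • u) = c • M u)
    (hl : ∀ l y y' u, l ≠ i → l ≠ j → E l y y' (M u) = M (E l y y' u)) (y y' : Y)
    (u : (P → Y) → ℂ)
    (h2 : (E i y y' (M u) + E j y y' (M u)) -
        (D.a y / D.a y') • (E i (D.bar y') (D.bar y) (M u) + E j (D.bar y') (D.bar y) (M u)) =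
      M ((E i y y' u + E j y y' u) -
        (D.a y / D.a y') • (E i (D.bar y') (D.bar y) u + E j (D.bar y') (D.bar y) u))) :
    D.rt y y' (M u) = M (D.rt y y' u) := by
  classical
  let L : ((P → Y) → ℂ) →ₗ[ℂ] ((P → Y) → ℂ) :=
    { toFun := M
      map_add' := hadd
      map_smul' := hsmul }
  have hL : ∀ v, M v = L v := fun _ => rfl
  unfold LS.rt
  simp only [hL] at h2 hl ⊢
  rw [eL_eq, eL_eq, eL_eq, eL_eq, map_sub, map_smul, map_sum, map_sum, smul_sum, smul_sum,
    ← sum_sub_distrib, ← sum_sub_distrib, ← sub_eq_zero, ← sum_sub_distrib,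
    Fintype.sum_eq_add i j hij]
  · rw [map_sub, map_smul, map_add, map_add, ← sub_eq_zero] at h2
    rw [← h2]
    simp only [smul_add]
    abel
  · rintro l ⟨h3, h4⟩
    rw [hl l y y' u h3 h4, hl l _ _ u h3 h4, sub_self]

end

end Cmtx

open Cmtx Omgx in
/-- **Row CMT.** -/
theorem cmt : CMT := by
  classical
  intro Y _ D P _ i j hij y y' hS hne u
  have hyy : D.S y y := D.trans _ _ _ hS (D.symm _ _ hS)
  have hyy' : D.S y' y' := D.trans _ _ _ (D.symm _ _ hS) hS
  have hb : D.S (D.bar y) (D.bar y') := D.S_bar _ _ hS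
  have hbb : D.S (D.bar y) (D.bar y) := D.S_bar _ _ hyy
  have hbb' : D.S (D.bar y') (D.bar y') := D.S_bar _ _ hyy'
  have ha : D.a y ≠ 0 := D.a_ne y
  have ha' : D.a y' ≠ 0 := D.a_ne y'
  -- the sign
  obtain ⟨ε, hε, he, he'⟩ : ∃ ε : ℂ, ε ≠ 0 ∧ D.a (D.bar y) = ε * D.a y ∧
      D.a (D.bar y') = ε * D.a y' := by
    by_cases hsp : D.sp y
    · exact ⟨-1, by norm_num, by rw [D.a_sp y hyy hsp]; ring,
        by rw [D.a_sp y' hyy' ((D.sp_S _ _ hS).1 hsp)]; ring⟩
    · exact ⟨1, one_ne_zero, by rw [D.a_nsp y hyy hsp]; ring,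
        by rw [D.a_nsp y' hyy' (fun h => hsp ((D.sp_S _ _ hS).2 h))]; ring⟩
  have hS1 : ∀ z, D.S y z ↔ D.S y' z := fun z =>
    ⟨fun h => D.trans _ _ _ (D.symm _ _ hS) h, fun h => D.trans _ _ _ hS h⟩
  have hS2 : ∀ z, D.S z y ↔ D.S z y' := fun z =>
    ⟨fun h => D.trans _ _ _ h hS, fun h => D.trans _ _ _ h (D.symm _ _ hS)⟩
  have hS3 : ∀ z, D.S (D.bar y) z ↔ D.S (D.bar y') z := fun z =>
    ⟨fun h => D.trans _ _ _ (D.symm _ _ hb) h, fun h => D.trans _ _ _ hb h⟩
  have hS4 : ∀ z, D.S z (D.bar y) ↔ D.S z (D.bar y') := fun z =>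
    ⟨fun h => D.trans _ _ _ h hb, fun h => D.trans _ _ _ h (D.symm _ _ hb)⟩
  constructor
  · refine comm_of D hij (D.pr i j) (pr_add D i j) (pr_smul D i j)
      (fun l z z' v h1 h2 => pr_E D h1 h2 z z' v) y y' u ?_
    funext t
    rw [W_self t i j ((E i y y' (D.pr i j u) + E j y y' (D.pr i j u)) -
        (D.a y / D.a y') • (E i (D.bar y') (D.bar y) (D.pr i j u) +
          E j (D.bar y') (D.bar y) (D.pr i j u))),
      W_self t i j (D.pr i j _)]
    generalize t i = p
    generalize t j = q
    rw [W_pr D hij]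
    have hadd : ∀ (v w : (P → Y) → ℂ) (p q : Y), W t i j (v + w) p q =
        W t i j v p q + W t i j w p q := fun _ _ _ _ => rfl
    have hsub : ∀ (v w : (P → Y) → ℂ) (p q : Y), W t i j (v - w) p q =
        W t i j v p q - W t i j w p q := fun _ _ _ _ => rfl
    have hsm : ∀ (c : ℂ) (w : (P → Y) → ℂ) (p q : Y), W t i j (c • w) p q =
        c * W t i j w p q := fun _ _ _ _ => rfl
    simp only [hadd, hsub, hsm, W_Ei hij, W_Ej, W_pr D hij]
    -- the right hand side vanishes
    have hR : ∀ p : Y, ∑ z, (if D.S p z then D.a z else 0) *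
        (((if z = y then W t i j u y' (D.bar z) else 0) +
          (if D.bar z = y then W t i j u z y' else 0)) -
        D.a y / D.a y' * ((if z = D.bar y' then W t i j u (D.bar y) (D.bar z) else 0) +
          (if D.bar z = D.bar y' then W t i j u z (D.bar y) else 0))) = 0 := by
      intro p
      have hbz : ∀ z, D.bar z = y ↔ z = D.bar y := fun z =>
        ⟨fun h => by rw [← h, D.bar_bar], fun h => by rw [h, D.bar_bar]⟩
      have hbz' : ∀ z, D.bar z = D.bar y' ↔ z = y' := fun z =>
        ⟨fun h => by rw [← D.bar_bar z, h, D.bar_bar], fun h => by rw [h]⟩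
      have h1 : ∀ z, (if D.S p z then D.a z else 0) *
          (((if z = y then W t i j u y' (D.bar z) else 0) +
            (if D.bar z = y then W t i j u z y' else 0)) -
          D.a y / D.a y' * ((if z = D.bar y' then W t i j u (D.bar y) (D.bar z) else 0) +
            (if D.bar z = D.bar y' then W t i j u z (D.bar y) else 0))) =
          (if z = y then (if D.S p y then D.a y else 0) * W t i j u y' (D.bar y) else 0) +
          (if z = D.bar y then (if D.S p (D.bar y) then D.a (D.bar y) else 0) *
            W t i j u (D.bar y) y' else 0) -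
          ((if z = D.bar y' then (if D.S p (D.bar y') then D.a (D.bar y') else 0) *
            (D.a y / D.a y' * W t i j u (D.bar y) y') else 0) +
          (if z = y' then (if D.S p y' then D.a y' else 0) *
            (D.a y / D.a y' * W t i j u y' (D.bar y)) else 0)) := by
        intro z
        rw [if_congr (hbz z) rfl rfl, if_congr (hbz' z) rfl rfl]
        have e1 : (if z = y then W t i j u y' (D.bar z) else 0) =
            if z = y then W t i j u y' (D.bar y) else 0 := by
          split_ifs with h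
          · rw [h]
          · rfl
        have e2 : (if z = D.bar y then W t i j u z y' else 0) =
            if z = D.bar y then W t i j u (D.bar y) y' else 0 := by
          split_ifs with h
          · rw [h]
          · rfl
        have e3 : (if z = D.bar y' then W t i j u (D.bar y) (D.bar z) else 0) =
            if z = D.bar y' then W t i j u (D.bar y) y' else 0 := by
          split_ifs with h
          · rw [h, D.bar_bar]
          · rfl
        have e4 : (if z = y' then W t i j u z (D.bar y) else 0) =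
            if z = y' then W t i j u y' (D.bar y) else 0 := by
          split_ifs with h
          · rw [h]
          · rfl
        rw [e1, e2, e3, e4]
        have f1 : ∀ (x : Y) (c : ℂ), (if D.S p z then D.a z else 0) * (if z = x then c else 0) =
            if z = x then (if D.S p x then D.a x else 0) * c else 0 := by
          intro x c
          by_cases h : z = x
          · rw [if_pos h, if_pos h, h]
          · rw [if_neg h, if_neg h, mul_zero]
        rw [← f1, ← f1, ← f1, ← f1]
        have f2 : ∀ (x : Y) (c : ℂ), (if z = x then D.a y / D.a y' * c else 0) =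
            D.a y / D.a y' * (if z = x then c else 0) := by
          intro x c
          split_ifs
          · rfl
          · rw [mul_zero]
        rw [f2, f2]
        ring
      rw [sum_congr rfl fun z _ => h1 z, sum_sub_distrib, sum_add_distrib, sum_add_distrib]
      simp only [sum_ite_eq', mem_univ, if_true]
      rw [if_congr (hS2 p) rfl rfl, if_congr (hS4 p) rfl rfl, he, he']
      split_ifs <;> field_simp <;> ring
    rw [hR p]
    simp only [mul_zero, ite_self]
    -- the left hand side vanishes
    have hN : D.N y' = D.N y := (N_eq D hS).symm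
    have hNb : D.N (D.bar y') = D.N (D.bar y) := (N_eq D hb).symm
    have g1 : ∀ z, (if D.S y' z then D.a z else 0) = if D.S y z then D.a z else 0 :=
      fun z => if_congr (hS1 z).symm rfl rfl
    have g2 : ∀ z, (if D.S (D.bar y') z then D.a z else 0) =
        if D.S (D.bar y) z then D.a z else 0 := fun z => if_congr (hS3 z).symm rfl rfl
    have hN0 : (D.N y : ℂ) ≠ 0 := Nat.cast_ne_zero.2 (N_pos D hyy).ne'
    have hNb0 : (D.N (D.bar y) : ℂ) ≠ 0 := Nat.cast_ne_zero.2 (N_pos D hbb).ne'
    have hs1 : ∑ z, (if D.S y' z then D.a z else 0) * W t i j u z (D.bar z) =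
        ∑ z, (if D.S y z then D.a z else 0) * W t i j u z (D.bar z) :=
      sum_congr rfl fun z _ => by rw [g1 z]
    have hs2 : ∑ z, (if D.S (D.bar y') z then D.a z else 0) * W t i j u z (D.bar z) =
        ∑ z, (if D.S (D.bar y) z then D.a z else 0) * W t i j u z (D.bar z) :=
      sum_congr rfl fun z _ => by rw [g2 z]
    have t1 : (if p = y then if q = D.bar y' ∧ D.S y' y' then ((D.N y' : ℂ) * D.a y')⁻¹ *
        ∑ z, (if D.S y' z then D.a z else 0) * W t i j u z (D.bar z) else 0 else 0) =
        if p = y ∧ q = D.bar y' then D.a y / D.a y' * (((D.N y : ℂ) * D.a y)⁻¹ *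
          ∑ z, (if D.S y z then D.a z else 0) * W t i j u z (D.bar z)) else 0 := by
      by_cases h1 : p = y
      · by_cases h2 : q = D.bar y'
        · rw [if_pos h1, if_pos ⟨h2, hyy'⟩, if_pos ⟨h1, h2⟩, hN, hs1]
          generalize ∑ z, (if D.S y z then D.a z else 0) * W t i j u z (D.bar z) = B
          field_simp
        · rw [if_pos h1, if_neg fun h => h2 h.1, if_neg fun h => h2 h.2]
      · rw [if_neg h1, if_neg fun h => h1 h.1]
    have t2 : (if q = y then if y' = D.bar p ∧ D.S p p then ((D.N p : ℂ) * D.a p)⁻¹ *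
        ∑ z, (if D.S p z then D.a z else 0) * W t i j u z (D.bar z) else 0 else 0) =
        if q = y ∧ p = D.bar y' then D.a y / D.a y' * (((D.N (D.bar y) : ℂ) *
          D.a (D.bar y))⁻¹ * ∑ z, (if D.S (D.bar y) z then D.a z else 0) *
            W t i j u z (D.bar z)) else 0 := by
      by_cases h1 : q = y
      · by_cases h2 : p = D.bar y'
        · rw [if_pos h1, h2, if_pos ⟨(D.bar_bar y').symm, hbb'⟩, if_pos ⟨h1, rfl⟩, hNb, hs2]
          generalize ∑ z, (if D.S (D.bar y) z then D.a z else 0) * W t i j u z (D.bar z) = B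
          rw [he, he']
          field_simp
        · rw [if_pos h1, if_neg fun h => h2 (by rw [h.1, D.bar_bar]), if_neg fun h => h2 h.2]
      · rw [if_neg h1, if_neg fun h => h1 h.1]
    have t3 : (if p = D.bar y' then if q = D.bar (D.bar y) ∧ D.S (D.bar y) (D.bar y) then
        ((D.N (D.bar y) : ℂ) * D.a (D.bar y))⁻¹ *
          ∑ z, (if D.S (D.bar y) z then D.a z else 0) * W t i j u z (D.bar z) else 0 else 0) =
        if q = y ∧ p = D.bar y' then ((D.N (D.bar y) : ℂ) * D.a (D.bar y))⁻¹ *
          ∑ z, (if D.S (D.bar y) z then D.a z else 0) * W t i j u z (D.bar z) else 0 := by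
      rw [D.bar_bar]
      by_cases h1 : p = D.bar y'
      · by_cases h2 : q = y
        · rw [if_pos h1, if_pos ⟨h2, hbb⟩, if_pos ⟨h2, h1⟩]
        · rw [if_pos h1, if_neg fun h => h2 h.1, if_neg fun h => h2 h.1]
      · rw [if_neg h1, if_neg fun h => h1 h.2]
    have t4 : (if q = D.bar y' then if D.bar y = D.bar p ∧ D.S p p then
        ((D.N p : ℂ) * D.a p)⁻¹ * ∑ z, (if D.S p z then D.a z else 0) *
          W t i j u z (D.bar z) else 0 else 0) =
        if p = y ∧ q = D.bar y' then ((D.N y : ℂ) * D.a y)⁻¹ *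
          ∑ z, (if D.S y z then D.a z else 0) * W t i j u z (D.bar z) else 0 := by
      by_cases h1 : q = D.bar y'
      · by_cases h2 : p = y
        · rw [if_pos h1, h2, if_pos ⟨rfl, hyy⟩, if_pos ⟨rfl, h1⟩]
        · have h3 : ¬ (D.bar y = D.bar p ∧ D.S p p) := fun h =>
            h2 (by rw [← D.bar_bar p, ← h.1, D.bar_bar])
          rw [if_pos h1, if_neg h3, if_neg fun h => h2 h.1]
      · rw [if_neg h1, if_neg fun h => h1 h.2]
    rw [t1, t2, t3, t4]
    split_ifs <;> ring
  · refine comm_of D hij (D.an i j) (an_add D i j) (an_smul D i j)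
      (fun l z z' v h1 h2 => an_E D h1 h2 z z' v) y y' u ?_
    funext t
    rw [W_self t i j ((E i y y' (D.an i j u) + E j y y' (D.an i j u)) -
        (D.a y / D.a y') • (E i (D.bar y') (D.bar y) (D.an i j u) +
          E j (D.bar y') (D.bar y) (D.an i j u))),
      W_self t i j (D.an i j _)]
    generalize t i = p
    generalize t j = q
    rw [W_an D hij]
    have hadd : ∀ (v w : (P → Y) → ℂ) (p q : Y), W t i j (v + w) p q =
        W t i j v p q + W t i j w p q := fun _ _ _ _ => rfl
    have hsub : ∀ (v w : (P → Y) → ℂ) (p q : Y), W t i j (v - w) p q =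
        W t i j v p q - W t i j w p q := fun _ _ _ _ => rfl
    have hsm : ∀ (c : ℂ) (w : (P → Y) → ℂ) (p q : Y), W t i j (c • w) p q =
        c * W t i j w p q := fun _ _ _ _ => rfl
    simp only [hadd, hsub, hsm, W_Ei hij, W_Ej, W_an D hij]
    have c1 : (if p = y then if D.S y' q ∧ ¬ D.sp y' then
        (W t i j u y' q - W t i j u q y') / 2 else 0 else 0) =
        if D.S p q ∧ ¬ D.sp p then (if p = y then (W t i j u y' q - W t i j u q y') / 2
          else 0) else 0 := by
      by_cases h1 : p = y
      · rw [if_pos h1, if_pos h1, h1]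
        exact if_congr (by rw [hS1 q, D.sp_S _ _ hS]) rfl rfl
      · rw [if_neg h1, if_neg h1, ite_self]
    have c2 : (if q = y then if D.S p y' ∧ ¬ D.sp p then
        (W t i j u p y' - W t i j u y' p) / 2 else 0 else 0) =
        if D.S p q ∧ ¬ D.sp p then (if q = y then (W t i j u p y' - W t i j u y' p) / 2
          else 0) else 0 := by
      by_cases h1 : q = y
      · rw [if_pos h1, if_pos h1, h1]
        exact if_congr (by rw [hS2 p]) rfl rfl
      · rw [if_neg h1, if_neg h1, ite_self]
    have c3 : (if p = D.bar y' then if D.S (D.bar y) q ∧ ¬ D.sp (D.bar y) then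
        (W t i j u (D.bar y) q - W t i j u q (D.bar y)) / 2 else 0 else 0) =
        if D.S p q ∧ ¬ D.sp p then (if p = D.bar y' then
          (W t i j u (D.bar y) q - W t i j u q (D.bar y)) / 2 else 0) else 0 := by
      by_cases h1 : p = D.bar y'
      · rw [if_pos h1, if_pos h1, h1]
        exact if_congr (by rw [hS3 q, D.sp_S _ _ hb]) rfl rfl
      · rw [if_neg h1, if_neg h1, ite_self]
    have c4 : (if q = D.bar y' then if D.S p (D.bar y) ∧ ¬ D.sp p then
        (W t i j u p (D.bar y) - W t i j u (D.bar y) p) / 2 else 0 else 0) =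
        if D.S p q ∧ ¬ D.sp p then (if q = D.bar y' then
          (W t i j u p (D.bar y) - W t i j u (D.bar y) p) / 2 else 0) else 0 := by
      by_cases h1 : q = D.bar y'
      · rw [if_pos h1, if_pos h1, h1]
        exact if_congr (by rw [hS4 p]) rfl rfl
      · rw [if_neg h1, if_neg h1, ite_self]
    rw [c1, c2, c3, c4]
    by_cases hc : D.S p q ∧ ¬ D.sp p
    · simp only [if_pos hc]
      have d1 : ∀ (A B : ℂ) (Q : Prop) [Decidable Q], (if Q then (A - B) / 2 else 0) =
          ((if Q then A else 0) - (if Q then B else 0)) / 2 := by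
        intro A B Q _
        split_ifs <;> ring
      rw [d1, d1, d1, d1]
      ring
    · simp only [if_neg hc]
      ring

end Pool.Agent.U21
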