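import Pool.Agent.Lib.U21.Rows
import Pool.Agent.Lib.HCM.GDual

/-!
# Row DET: `an` for the blocks of rank 3 factors through the `K`-determinants (helper16)
-/

set_option autoImplicit false
set_option linter.unusedSectionVars false
set_option linter.unusedSimpArgs false

open scoped ComplexConjugate
open Complex Pool.Agent.HCM

namespace Pool.Agent.U21

namespace Detx

noncomputable section

/-- The signs. -/
def eps {m : ℕ} (z g g' : Fin m) : ℂ := ((g : ℂ) - z) * (g' - z) * (g' - g) / 2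

theorem eps_alg {m : ℕ} (hm : m = 3) (w : Fin m → ℂ) (hw : ∀ z, w z ≠ 0)
    (F : Fin m → Fin m → ℂ) (g g' : Fin m) :
    ∑ z, eps z g g' * w z * ((2 * w z)⁻¹ * ∑ h, ∑ h', eps z h h' * F h h') =
      (F g g' - F g' g) / 2 := by
  subst hm
  have h1 : ∀ z, w z * (2 * w z)⁻¹ = 2⁻¹ := fun z => by
    have := hw z
    field_simp
  have h2 : ∀ z, eps z g g' * w z * ((2 * w z)⁻¹ * ∑ h, ∑ h', eps z h h' * F h h') =
      2⁻¹ * (eps z g g' * ∑ h, ∑ h', eps z h h' * F h h') := fun z => by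
    rw [← h1 z]
    ring
  rw [Finset.sum_congr rfl fun z _ => h2 z]
  clear h1 h2 hw
  simp only [Fin.sum_univ_three, eps]
  fin_cases g <;> fin_cases g' <;> simp <;> ring

theorem eps_mv {m : ℕ} (hm : m = 3) (f : Fin m → Fin m → ℂ) (p q z : Fin m) (hpq : p ≠ q) :
    (∑ g, ∑ g', eps z g g' * ((if g = p then f q g' else 0) + (if g' = p then f g q else 0))) =
      if z = q then - ∑ g, ∑ g', eps p g g' * f g g' else 0 := by
  subst hm
  simp only [Fin.sum_univ_three, eps]
  fin_cases p <;> fin_cases q <;> first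
    | exact absurd rfl hpq
    | (fin_cases z <;> simp <;> ring)

theorem eps_ne {m : ℕ} {z g g' : Fin m} (h : eps z g g' ≠ 0) : z ≠ g ∧ z ≠ g' ∧ g ≠ g' := by
  refine ⟨?_, ?_, ?_⟩ <;> rintro rfl <;> exact h (by simp [eps])

section up

variable {Q Y : Type}

theorem up_same (t : Q → Y) (i : Q) (y : Y) : up t i y i = y := if_pos rfl

theorem up_ne (t : Q → Y) {i m : Q} (y : Y) (h : m ≠ i) : up t i y m = t m := if_neg h

theorem up_self (t : Q → Y) (i : Q) : up t i (t i) = t := by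
  funext m
  by_cases h : m = i
  · rw [h, up_same]
  · rw [up_ne _ _ h]

/-- The word `t` with the letters `y`, `y'` at the places `i`, `j`. -/
def up2 (t : Q → Y) (i j : Q) (y y' : Y) : Q → Y := up (up t i y) j y'

theorem up2_i (t : Q → Y) {i j : Q} (h : i ≠ j) (y y' : Y) : up2 t i j y y' i = y := by
  unfold up2
  rw [up_ne _ _ h, up_same]

theorem up2_j (t : Q → Y) (i j : Q) (y y' : Y) : up2 t i j y y' j = y' := up_same _ _ _

theorem up2_m (t : Q → Y) {i j m : Q} (h : m ≠ i) (h' : m ≠ j) (y y' : Y) :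
    up2 t i j y y' m = t m := by
  unfold up2
  rw [up_ne _ _ h', up_ne _ _ h]

theorem up2_ext {t t' : Q → Y} {i j : Q} (y y' : Y) (h : ∀ m, m ≠ i → m ≠ j → t m = t' m) :
    up2 t i j y y' = up2 t' i j y y' := by
  funext m
  by_cases h1 : m = j
  · rw [h1, up2_j, up2_j]
  by_cases h2 : m = i
  · subst h2
    rw [up2_i _ h1, up2_i _ h1]
  · rw [up2_m _ h2 h1, up2_m _ h2 h1, h m h2 h1]

theorem up2_up_i (t : Q → Y) {i j : Q} (h : i ≠ j) (y y' x : Y) :
    up (up2 t i j y y') i x = up2 t i j x y' := by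
  funext m
  by_cases h2 : m = i
  · rw [h2, up_same, up2_i _ h]
  by_cases h1 : m = j
  · rw [h1, up_ne _ _ (Ne.symm h), up2_j, up2_j]
  · rw [up_ne _ _ h2, up2_m _ h2 h1, up2_m _ h2 h1]

theorem up2_up_j (t : Q → Y) (i j : Q) (y y' x : Y) :
    up (up2 t i j y y') j x = up2 t i j y x := by
  funext m
  by_cases h1 : m = j
  · rw [h1, up_same, up2_j]
  · rw [up_ne _ _ h1]
    unfold up2
    rw [up_ne _ _ h1, up_ne _ _ h1]

theorem up2_up_m (t : Q → Y) {i j m : Q} (h : m ≠ i) (h' : m ≠ j) (y y' x : Y) :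
    up (up2 t i j y y') m x = up2 (up t m x) i j y y' := by
  funext l
  by_cases h1 : l = m
  · rw [h1, up_same, up2_m _ h h', up_same]
  · rw [up_ne _ _ h1]
    by_cases h2 : l = j
    · rw [h2, up2_j, up2_j]
    by_cases h3 : l = i
    · subst h3
      rw [up2_i _ h2, up2_i _ h2]
    · rw [up2_m _ h3 h2, up2_m _ h3 h2, up_ne _ _ h1]

theorem up2_self (t : Q → Y) (i j : Q) (h : i ≠ j) : up2 t i j (t i) (t j) = t := by
  funext m
  by_cases h1 : m = j
  · rw [h1, up2_j]
  by_cases h2 : m = i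
  · rw [h2, up2_i _ h]
  · rw [up2_m _ h2 h1]

open Classical in
/-- One place. -/
def E1 (m : Q) (y y' : Y) (u : (Q → Y) → ℂ) (t : Q → Y) : ℂ :=
  if t m = y then u (up t m y') else 0

theorem eL_eq [Fintype Q] (y y' : Y) (u : (Q → Y) → ℂ) : eL y y' u = ∑ m, E1 m y y' u := by
  funext t
  rw [Finset.sum_apply]
  rfl

open Classical in
/-- Counting. -/
theorem cnt [Fintype Q] (p : Q → Prop) {i j : Q} (h : i ≠ j) :
    {m | p m}.ncard = (if p i then 1 else 0) + (if p j then 1 else 0) +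
      ∑ m ∈ (Finset.univ.erase i).erase j, if p m then 1 else 0 := by
  rw [Set.ncard_eq_toFinset_card']
  have h1 : ({m | p m} : Set Q).toFinset = Finset.univ.filter p := by
    ext m
    simp
  rw [h1, Finset.card_filter, ← Finset.add_sum_erase _ _ (Finset.mem_univ i),
    ← Finset.add_sum_erase (Finset.univ.erase i) _ (a := j) (by simp [Ne.symm h]), add_assoc]

open Classical in
theorem cnt2 [Fintype Q] (p p' : Q → Prop) {i j : Q} (h : i ≠ j)
    (hm : ∀ m, m ≠ i → m ≠ j → (p m ↔ p' m)) :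
    ∃ R, {m | p m}.ncard = (if p i then 1 else 0) + (if p j then 1 else 0) + R ∧
      {m | p' m}.ncard = (if p' i then 1 else 0) + (if p' j then 1 else 0) + R := by
  refine ⟨∑ m ∈ (Finset.univ.erase i).erase j, if p m then 1 else 0, cnt p h, ?_⟩
  rw [cnt p' h]
  congr 1
  refine Finset.sum_congr rfl fun m h1 => ?_
  rw [Finset.mem_erase, Finset.mem_erase] at h1
  exact if_congr (hm m h1.2.1 h1.1).symm rfl rfl

end up

variable {κ : Type} {K : κ → Type} [∀ k, Field (K k)] {n : κ → ℕ} {J : κ → Type} {P : Type}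

theorem lA_inj {k : κ} {g g' : Fin (n k)} {τ τ' : K k →+* ℂ} :
    (lA k g τ : Lt K n J) = lA k g' τ' ↔ g = g' ∧ τ = τ' := by
  unfold lA
  constructor
  · intro h
    simpa using h
  · rintro ⟨rfl, rfl⟩
    rfl

theorem lE_inj {k : κ} {τ τ' : K k →+* ℂ} :
    (lE k τ : Lt K n J) = lE k τ' ↔ τ = τ' := by
  unfold lE
  constructor
  · intro h
    simpa using h
  · rintro rfl
    rfl

theorem lA_ne_lE {k k' : κ} {g : Fin (n k)} {τ : K k →+* ℂ} {τ' : K k' →+* ℂ} :
    (lA k g τ : Lt K n J) ≠ lE k' τ' := by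
  intro h
  have h1 : isB (lA k g τ : Lt K n J) = isB (lE k' τ' : Lt K n J) := by rw [h]
  unfold isB lA lE at h1
  simp at h1

theorem cj_cj' {E : Type} [Field E] (τ : E →+* ℂ) : cj (cj τ) = τ := by
  ext x
  simp [cj]

theorem cj_inj {E : Type} [Field E] {τ τ' : E →+* ℂ} (h : cj τ = cj τ') : τ = τ' := by
  rw [← cj_cj' τ, h, cj_cj']

section C

variable [∀ k, NumberField (K k)]

open Classical in
/-- The contraction. -/
def CC (a : ∀ k, Fin (n k) → K k) (k : κ) (i j : P) (u : (P → Lt K n J) → ℂ)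
    (t : P → Lt K n J) : ℂ :=
  ∑ τ : K k →+* ℂ, ∑ z : Fin (n k), if t i = lA k z (cj τ) ∧ t j = lE k τ then
    (2 * τ (a k z))⁻¹ * ∑ g : Fin (n k), ∑ g' : Fin (n k),
      eps z g g' * u (up2 t i j (lA k g τ) (lA k g' τ)) else 0

theorem CC_eq (a : ∀ k, Fin (n k) → K k) {k : κ} {i j : P} (u : (P → Lt K n J) → ℂ)
    {t : P → Lt K n J} {z : Fin (n k)} {τ : K k →+* ℂ} (h1 : t i = lA k z (cj τ))
    (h2 : t j = lE k τ) :
    CC a k i j u t = (2 * τ (a k z))⁻¹ * ∑ g : Fin (n k), ∑ g' : Fin (n k),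
      eps z g g' * u (up2 t i j (lA k g τ) (lA k g' τ)) := by
  unfold CC
  rw [Finset.sum_eq_single τ, Finset.sum_eq_single z, if_pos ⟨h1, h2⟩]
  · intro z' _ hz
    rw [if_neg]
    rintro ⟨h3, -⟩
    rw [h1] at h3
    exact hz (lA_inj.1 h3).1.symm
  · intro h
    exact absurd (Finset.mem_univ _) h
  · intro τ' _ hτ
    refine Finset.sum_eq_zero fun z' _ => ?_
    rw [if_neg]
    rintro ⟨-, h3⟩
    rw [h2] at h3
    exact hτ (lE_inj.1 h3).symm
  · intro h
    exact absurd (Finset.mem_univ _) h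

theorem CC_zero (a : ∀ k, Fin (n k) → K k) {k : κ} {i j : P} (u : (P → Lt K n J) → ℂ)
    {t : P → Lt K n J} (h : ¬ ∃ (z : Fin (n k)) (τ : K k →+* ℂ), t i = lA k z (cj τ) ∧
      t j = lE k τ) : CC a k i j u t = 0 := by
  unfold CC
  refine Finset.sum_eq_zero fun τ _ => Finset.sum_eq_zero fun z _ => ?_
  rw [if_neg fun h1 => h ⟨z, τ, h1⟩]

/-- The contraction as a linear map. -/
def CL (a : ∀ k, Fin (n k) → K k) (k : κ) (i j : P) :
    ((P → Lt K n J) → ℂ) →ₗ[ℂ] ((P → Lt K n J) → ℂ) where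
  toFun := CC a k i j
  map_add' u v := by
    funext t
    rw [Pi.add_apply]
    by_cases h : ∃ (z : Fin (n k)) (τ : K k →+* ℂ), t i = lA k z (cj τ) ∧ t j = lE k τ
    · obtain ⟨z, τ, h1, h2⟩ := h
      simp only [CC_eq a _ h1 h2, Pi.add_apply, mul_add, Finset.sum_add_distrib]
    · simp only [CC_zero a _ h, add_zero]
  map_smul' c u := by
    funext t
    rw [Pi.smul_apply, RingHom.id_apply]
    by_cases h : ∃ (z : Fin (n k)) (τ : K k →+* ℂ), t i = lA k z (cj τ) ∧ t j = lE k τ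
    · obtain ⟨z, τ, h1, h2⟩ := h
      simp only [CC_eq a _ h1 h2, Pi.smul_apply, smul_eq_mul, Finset.mul_sum]
      refine Finset.sum_congr rfl fun g _ => Finset.sum_congr rfl fun g' _ => ?_
      ring
    · simp only [CC_zero a _ h, smul_zero]

theorem CL_apply (a : ∀ k, Fin (n k) → K k) (k : κ) (i j : P) (u : (P → Lt K n J) → ℂ) :
    CL a k i j u = CC a k i j u := rfl

open Classical in
theorem dt_eq (a : ∀ k, Fin (n k) → K k) {k : κ} {i j : P} (w : (P → Lt K n J) → ℂ)
    {t : P → Lt K n J} {g g' : Fin (n k)} {τ : K k →+* ℂ} (h1 : t i = lA k g τ)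
    (h2 : t j = lA k g' τ) :
    dt a k i j w t = ∑ z : Fin (n k), eps z g g' * τ (a k z) *
      w (up2 t i j (lA k z (cj τ)) (lE k τ)) := by
  unfold dt
  rw [Finset.sum_eq_single τ, Finset.sum_eq_single g, Finset.sum_eq_single g',
    if_pos ⟨h1, h2⟩]
  · rfl
  · intro z _ hz
    rw [if_neg]
    rintro ⟨-, h3⟩
    rw [h2] at h3
    exact hz (lA_inj.1 h3).1.symm
  · intro h
    exact absurd (Finset.mem_univ _) h
  · intro z _ hz
    refine Finset.sum_eq_zero fun z' _ => ?_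
    rw [if_neg]
    rintro ⟨h3, -⟩
    rw [h1] at h3
    exact hz (lA_inj.1 h3).1.symm
  · intro h
    exact absurd (Finset.mem_univ _) h
  · intro τ' _ hτ
    refine Finset.sum_eq_zero fun z _ => Finset.sum_eq_zero fun z' _ => ?_
    rw [if_neg]
    rintro ⟨h3, -⟩
    rw [h1] at h3
    exact hτ (lA_inj.1 h3).2.symm
  · intro h
    exact absurd (Finset.mem_univ _) h

theorem dt_zero (a : ∀ k, Fin (n k) → K k) {k : κ} {i j : P} (w : (P → Lt K n J) → ℂ)
    {t : P → Lt K n J} (h : ¬ ∃ (g g' : Fin (n k)) (τ : K k →+* ℂ), t i = lA k g τ ∧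
      t j = lA k g' τ) : dt a k i j w t = 0 := by
  unfold dt
  refine Finset.sum_eq_zero fun τ _ => Finset.sum_eq_zero fun g _ =>
    Finset.sum_eq_zero fun g' _ => ?_
  rw [if_neg fun h1 => h ⟨g, g', τ, h1⟩]

/-- The factorisation. -/
theorem fact {a : ∀ k, Fin (n k) → K k} (ha : ∀ k g, a k g ≠ 0) {s : κ → Bool}
    {D : LS (Lt K n J)} (hD : IsLS a s D) {k : κ} {i j : P} (hs : s k = false) (hn : n k = 3)
    (hij : i ≠ j) (u : (P → Lt K n J) → ℂ) (t : P → Lt K n J) :
    (open Classical in if (t i).1.1 = k then D.an i j u t else 0) = dt a k i j (CC a k i j u) t := by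
  classical
  by_cases h : ∃ (g g' : Fin (n k)) (τ : K k →+* ℂ), t i = lA k g τ ∧ t j = lA k g' τ
  · obtain ⟨g, g', τ, h1, h2⟩ := h
    have hk : (t i).1.1 = k := by rw [h1]; rfl
    rw [if_pos hk, dt_eq a _ h1 h2]
    have h3 : ∀ z : Fin (n k), CC a k i j u (up2 t i j (lA k z (cj τ)) (lE k τ)) =
        (2 * τ (a k z))⁻¹ * ∑ h : Fin (n k), ∑ h' : Fin (n k),
          eps z h h' * u (up2 t i j (lA k h τ) (lA k h' τ)) := fun z => by
      rw [CC_eq a u (up2_i t hij _ _) (up2_j t i j _ _)]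
      refine congrArg _ (Finset.sum_congr rfl fun h _ => Finset.sum_congr rfl fun h' _ => ?_)
      rw [up2_ext (t' := t) _ _ fun m hm hm' => up2_m t hm hm' _ _]
    simp only [h3]
    rw [eps_alg hn (fun z => τ (a k z)) (fun z => (map_ne_zero τ).2 (ha k z))
      (fun h h' => u (up2 t i j (lA k h τ) (lA k h' τ))) g g']
    have h4 : D.S (t i) (t j) ∧ ¬ D.sp (t i) := by
      rw [hD.hS, hD.hsp, hk, hs]
      exact ⟨⟨k, g, g', τ, h1, Or.inl h2⟩, by simp⟩
    unfold LS.an
    rw [if_pos h4, ← h1, ← h2, up2_self t i j hij]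
    rfl
  · rw [dt_zero a _ h]
    split_ifs with hk
    · unfold LS.an
      rw [if_neg]
      rintro ⟨h1, -⟩
      rw [hD.hS] at h1
      obtain ⟨k', g, g', τ, h1, h2⟩ := h1
      have h3 : k' = k := by
        rw [← hk, h1]
        rfl
      subst h3
      rcases h2 with h2 | ⟨h2, -⟩
      · exact h ⟨g, g', τ, h1, h2⟩
      · rw [hs] at h2
        exact absurd h2 (by simp)
    · rfl

/-! ### Equivariance -/

theorem E1_m (a : ∀ k, Fin (n k) → K k) {k : κ} {i j m : P} (hmi : m ≠ i) (hmj : m ≠ j)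
    (y y' : Lt K n J) (u : (P → Lt K n J) → ℂ) :
    CC a k i j (E1 m y y' u) = E1 m y y' (CC a k i j u) := by
  classical
  funext t
  by_cases h : ∃ (z : Fin (n k)) (τ : K k →+* ℂ), t i = lA k z (cj τ) ∧ t j = lE k τ
  · obtain ⟨z, τ, h1, h2⟩ := h
    rw [CC_eq a _ h1 h2]
    by_cases h3 : t m = y
    · unfold E1
      rw [if_pos h3, CC_eq (t := up t m y') a u (z := z) (τ := τ)
        (by rw [up_ne _ _ (Ne.symm hmi), h1]) (by rw [up_ne _ _ (Ne.symm hmj), h2])]
      refine congrArg _ (Finset.sum_congr rfl fun g _ => Finset.sum_congr rfl fun g' _ => ?_)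
      rw [if_pos (by rw [up2_m _ hmi hmj, h3]), up2_up_m _ hmi hmj]
    · have h4 : ∀ g g' : Fin (n k), eps z g g' *
          E1 m y y' u (up2 t i j (lA k g τ) (lA k g' τ)) = 0 := fun g g' => by
        unfold E1
        rw [if_neg (by rw [up2_m _ hmi hmj]; exact h3), mul_zero]
      simp only [h4, Finset.sum_const_zero, mul_zero]
      unfold E1
      rw [if_neg h3]
  · rw [CC_zero a _ h]
    unfold E1
    split_ifs with h3
    · rw [CC_zero]
      rintro ⟨z, τ, h1, h2⟩
      rw [up_ne _ _ (Ne.symm hmi)] at h1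
      rw [up_ne _ _ (Ne.symm hmj)] at h2
      exact h ⟨z, τ, h1, h2⟩
    · rfl

theorem E1_j (a : ∀ k, Fin (n k) → K k) {k : κ} {i j : P} (y y' : Lt K n J)
    (hy : ¬ isB y') (u : (P → Lt K n J) → ℂ) :
    E1 j y y' (CC a k i j u) = 0 := by
  funext t
  unfold E1
  split_ifs with h
  · rw [CC_zero]
    · rfl
    rintro ⟨z, τ, -, h2⟩
    rw [up_same] at h2
    apply hy
    rw [h2]
    rfl
  · rfl

theorem E1_lem (a : ∀ k, Fin (n k) → K k) (ha : ∀ k g, a k g ≠ 0) {k : κ} {i j : P}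
    (hn : n k = 3) (hij : i ≠ j) {p q : Fin (n k)} (hpq : p ≠ q) (σ : K k →+* ℂ)
    (u : (P → Lt K n J) → ℂ) :
    CC a k i j (E1 i (lA k p σ) (lA k q σ) u + E1 j (lA k p σ) (lA k q σ) u) =
      -(σ (a k p) / σ (a k q)) • E1 i (lA k q (cj σ)) (lA k p (cj σ)) (CC a k i j u) := by
  classical
  funext t
  rw [Pi.smul_apply, smul_eq_mul]
  have hap : σ (a k p) ≠ 0 := (map_ne_zero σ).2 (ha k p)
  have haq : σ (a k q) ≠ 0 := (map_ne_zero σ).2 (ha k q)
  by_cases h : ∃ (z : Fin (n k)) (τ : K k →+* ℂ), t i = lA k z (cj τ) ∧ t j = lE k τ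
  · obtain ⟨z, τ, h1, h2⟩ := h
    rw [CC_eq a _ h1 h2]
    by_cases hτ : τ = σ
    · subst hτ
      have h3 : ∀ g g' : Fin (n k), (E1 i (lA k p τ) (lA k q τ) u +
          E1 j (lA k p τ) (lA k q τ) u) (up2 t i j (lA k g τ) (lA k g' τ)) =
          (if g = p then u (up2 t i j (lA k q τ) (lA k g' τ)) else 0) +
            (if g' = p then u (up2 t i j (lA k g τ) (lA k q τ)) else 0) := fun g g' => by
        rw [Pi.add_apply]
        unfold E1
        rw [up2_i t hij, up2_j, up2_up_i t hij, up2_up_j]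
        have h4 : ∀ g : Fin (n k), ((lA k g τ : Lt K n J) = lA k p τ) ↔ g = p := fun g =>
          ⟨fun h5 => (lA_inj.1 h5).1, fun h5 => by rw [h5]⟩
        simp only [h4]
      simp only [h3]
      rw [eps_mv hn (fun g g' => u (up2 t i j (lA k g τ) (lA k g' τ))) p q z hpq]
      unfold E1
      by_cases hz : z = q
      · subst hz
        rw [if_pos rfl, if_pos h1]
        rw [CC_eq (t := up t i (lA k p (cj τ))) a u (z := p) (τ := τ) (up_same _ _ _)
          (by rw [up_ne _ _ (Ne.symm hij), h2])]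
        have h5 : ∀ g g' : Fin (n k), up2 (up t i (lA k p (cj τ))) i j (lA k g τ) (lA k g' τ) =
            up2 t i j (lA k g τ) (lA k g' τ) := fun g g' =>
          up2_ext _ _ fun m hm hm' => up_ne _ _ hm
        simp only [h5]
        field_simp
      · rw [if_neg hz, if_neg, mul_zero, mul_zero]
        rw [h1]
        intro h5
        exact hz (lA_inj.1 h5).1
    · have h3 : ∀ g g' : Fin (n k), (E1 i (lA k p σ) (lA k q σ) u +
          E1 j (lA k p σ) (lA k q σ) u) (up2 t i j (lA k g τ) (lA k g' τ)) = 0 := fun g g' => by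
        rw [Pi.add_apply]
        unfold E1
        rw [up2_i t hij, up2_j, if_neg, if_neg, add_zero]
        · intro h5
          exact hτ (lA_inj.1 h5).2
        · intro h5
          exact hτ (lA_inj.1 h5).2
      simp only [h3, mul_zero, Finset.sum_const_zero]
      unfold E1
      rw [if_neg, mul_zero]
      rw [h1]
      intro h5
      exact hτ (cj_inj (lA_inj.1 h5).2)
  · rw [CC_zero a _ h]
    unfold E1
    by_cases h3 : t i = lA k q (cj σ)
    · rw [if_pos h3, CC_zero, mul_zero]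
      rintro ⟨z, τ, h1, h2⟩
      rw [up_same] at h1
      rw [up_ne _ _ (Ne.symm hij)] at h2
      have h4 := (lA_inj.1 h1).2
      exact h ⟨q, τ, by rw [h3, h4], h2⟩
    · rw [if_neg h3, mul_zero]

theorem E1_out (a : ∀ k, Fin (n k) → K k) {k : κ} {i j : P} (hij : i ≠ j) {y y' : Lt K n J}
    (h1 : y.1.1 ≠ k) (h2 : y'.1.1 ≠ k) (u : (P → Lt K n J) → ℂ) :
    CC a k i j (E1 i y y' u + E1 j y y' u) = E1 i y y' (CC a k i j u) := by
  classical
  funext t
  by_cases h : ∃ (z : Fin (n k)) (τ : K k →+* ℂ), t i = lA k z (cj τ) ∧ t j = lE k τ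
  · obtain ⟨z, τ, h3, h4⟩ := h
    rw [CC_eq a _ h3 h4]
    have h5 : ∀ g g' : Fin (n k), (E1 i y y' u + E1 j y y' u)
        (up2 t i j (lA k g τ) (lA k g' τ)) = 0 := fun g g' => by
      rw [Pi.add_apply]
      unfold E1
      rw [up2_i t hij, up2_j, if_neg, if_neg, add_zero]
      · intro h5
        exact h1 (by rw [← h5]; rfl)
      · intro h5
        exact h1 (by rw [← h5]; rfl)
    simp only [h5, mul_zero, Finset.sum_const_zero]
    unfold E1
    rw [if_neg]
    intro h5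
    exact h1 (by rw [← h5, h3]; rfl)
  · rw [CC_zero a _ h]
    unfold E1
    split_ifs with h3
    · rw [CC_zero]
      rintro ⟨z, τ, h4, -⟩
      rw [up_same] at h4
      exact h2 (by rw [h4]; rfl)
    · rfl

theorem eL_diff [Fintype P] (a : ∀ k, Fin (n k) → K k) {k : κ} {i j : P} (hij : i ≠ j)
    {y y' : Lt K n J} (hy : ¬ isB y') (u : (P → Lt K n J) → ℂ) :
    CC a k i j (eL y y' u) = CC a k i j (E1 i y y' u + E1 j y y' u) +
      eL y y' (CC a k i j u) - E1 i y y' (CC a k i j u) := by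
  classical
  have h1 : ∀ f : P → ((P → Lt K n J) → ℂ), ∑ m, f m =
      f i + f j + ∑ m ∈ (Finset.univ.erase i).erase j, f m := fun f => by
    rw [← Finset.add_sum_erase _ _ (Finset.mem_univ i),
      ← Finset.add_sum_erase (Finset.univ.erase i) _ (a := j) (by simp [Ne.symm hij]), add_assoc]
  rw [eL_eq, eL_eq, h1, h1, E1_j a y y' hy]
  have h2 : CC a k i j (E1 i y y' u + E1 j y y' u +
      ∑ m ∈ (Finset.univ.erase i).erase j, E1 m y y' u) =
      CC a k i j (E1 i y y' u + E1 j y y' u) +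
        ∑ m ∈ (Finset.univ.erase i).erase j, CC a k i j (E1 m y y' u) := by
    have h3 := map_add (CL (J := J) a k i j) (E1 i y y' u + E1 j y y' u)
      (∑ m ∈ (Finset.univ.erase i).erase j, E1 m y y' u)
    rw [map_sum] at h3
    exact h3
  rw [h2]
  have h3 : ∑ m ∈ (Finset.univ.erase i).erase j, CC a k i j (E1 m y y' u) =
      ∑ m ∈ (Finset.univ.erase i).erase j, E1 m y y' (CC a k i j u) := by
    refine Finset.sum_congr rfl fun m hm => ?_
    rw [Finset.mem_erase, Finset.mem_erase] at hm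
    exact E1_m a hm.2.1 hm.1 y y' u
  rw [h3]
  abel

theorem lie [Fintype P] {a : ∀ k, Fin (n k) → K k} {s : κ → Bool} {Φ : Ty K n J}
    (hdat : IsDat Φ a s) {k : κ} {i j : P} (hs : s k = false) (hn : n k = 3) (hij : i ≠ j)
    (y y' : Lt K n J) (hS : Sm s y y') (hne : y ≠ y') (u : (P → Lt K n J) → ℂ) :
    CC a k i j (root a y y' u) = root a y y' (CC a k i j u) := by
  classical
  obtain ⟨k', p, q, σ, h1, h2⟩ := hS
  have hy : ¬ isB y := by
    rw [h1]
    simp [isB, lA]
  have hy' : ¬ isB y' := by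
    rcases h2 with h2 | ⟨-, h2⟩ <;> rw [h2] <;> simp [isB, lA]
  have hby : ¬ isB (bar y) := hy
  unfold root
  have h3 : CC a k i j (eL y y' u - (wt a y / wt a y') • eL (bar y') (bar y) u) =
      CC a k i j (eL y y' u) - (wt a y / wt a y') • CC a k i j (eL (bar y') (bar y) u) := by
    have h4 := map_sub (CL (J := J) a k i j) (eL y y' u)
      ((wt a y / wt a y') • eL (bar y') (bar y) u)
    rw [map_smul] at h4
    exact h4
  rw [h3, eL_diff a hij hy', eL_diff a hij hby]
  by_cases hk : k' = k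
  · subst hk
    rcases h2 with h2 | ⟨h2, -⟩
    · subst h1 h2
      have hpq : p ≠ q := fun h => hne (by rw [h])
      have e1 : bar (lA k' p σ : Lt K n J) = lA k' p (cj σ) := rfl
      have e2 : bar (lA k' q σ : Lt K n J) = lA k' q (cj σ) := rfl
      have e3 : wt a (lA k' p σ : Lt K n J) = σ (a k' p) := rfl
      have e4 : wt a (lA k' q σ : Lt K n J) = σ (a k' q) := rfl
      rw [e1, e2, e3, e4, E1_lem a hdat.ne hn hij hpq σ u,
        E1_lem a hdat.ne hn hij (Ne.symm hpq) (cj σ) u, cj_cj']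
      have h5 : ∀ g, cj σ (a k' g) = σ (a k' g) := fun g => by
        have := hdat.sgn k' g σ
        rw [hs] at this
        simpa using this
      rw [h5, h5]
      have hap : σ (a k' p) ≠ 0 := (map_ne_zero σ).2 (hdat.ne k' p)
      have haq : σ (a k' q) ≠ 0 := (map_ne_zero σ).2 (hdat.ne k' q)
      have h6 : (σ (a k' p) / σ (a k' q)) * (σ (a k' q) / σ (a k' p)) = 1 := by
        field_simp
      funext t
      simp only [Pi.sub_apply, Pi.add_apply, Pi.smul_apply, smul_eq_mul, Pi.neg_apply, neg_mul]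
      have h7 : (σ (a k' p) / σ (a k' q)) * ((σ (a k' q) / σ (a k' p)) *
          E1 i (lA k' p σ) (lA k' q σ) (CC a k' i j u) t) =
          E1 i (lA k' p σ) (lA k' q σ) (CC a k' i j u) t := by
        rw [← mul_assoc, h6, one_mul]
      linear_combination h7
    · rw [hs] at h2
      exact absurd h2 (by simp)
  · have hk1 : y.1.1 ≠ k := by
      rw [h1]
      exact hk
    have hk2 : y'.1.1 ≠ k := by
      rcases h2 with h2 | ⟨-, h2⟩ <;> rw [h2] <;> exact hk
    rw [E1_out a hij hk1 hk2, E1_out (y := bar y') (y' := bar y) a hij hk2 hk1]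
    funext t
    simp only [Pi.sub_apply, Pi.add_apply, Pi.smul_apply, smul_eq_mul]
    ring

/-! ### Types -/

open Classical in
theorem card3 {m : ℕ} (hm : m = 3) {z g g' : Fin m} (h1 : z ≠ g) (h2 : z ≠ g') (h3 : g ≠ g')
    (p : Fin m → Prop) :
    {x | p x}.ncard = (if p z then 1 else 0) + (if p g then 1 else 0) +
      (if p g' then 1 else 0) := by
  subst hm
  rw [Set.ncard_eq_toFinset_card']
  have h4 : ({x | p x} : Set (Fin 3)).toFinset = Finset.univ.filter p := by
    ext x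
    simp
  have h5 : (Finset.univ : Finset (Fin 3)) = {z, g, g'} := by
    revert h1 h2 h3
    revert z g g'
    decide
  rw [h4, Finset.card_filter, h5, Finset.sum_insert (by simp [h1, h2]),
    Finset.sum_insert (by simp [h3]), Finset.sum_singleton, add_assoc]

theorem types [Fintype P] {a : ∀ k, Fin (n k) → K k} {s : κ → Bool} {Φ : Ty K n J}
    (hdat : IsDat Φ a s) {k : κ} {i j : P} (hs : s k = false) (hn : n k = 3) (hij : i ≠ j)
    {t : P → Lt K n J} {z g g' : Fin (n k)} {τ : K k →+* ℂ} (h1 : t i = lA k z (cj τ))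
    (h2 : t j = lE k τ) (e1 : z ≠ g) (e2 : z ≠ g') (e3 : g ≠ g') :
    nT Φ (up2 t i j (lA k g τ) (lA k g' τ)) = nT Φ t ∧
      nF Φ (up2 t i j (lA k g τ) (lA k g' τ)) = nF Φ t ∧
      nA t + 1 = nA (up2 t i j (lA k g τ) (lA k g' τ)) := by
  classical
  have hsig := card3 hn e1 e2 e3 fun g => τ ∈ Φ ⟨k, Sum.inl g⟩
  have hcm : cj τ ∈ Φ ⟨k, Sum.inl z⟩ ↔ ¬ τ ∈ Φ ⟨k, Sum.inl z⟩ := hdat.cm ⟨k, Sum.inl z⟩ τ
  have hb : (sig Φ k τ = 1 ∨ sig Φ k τ = 2) ∧ (τ ∈ Φ ⟨k, Sum.inr none⟩ ↔ sig Φ k τ = 2) := by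
    rcases hdat.blk k hs with ⟨h3, -⟩ | ⟨-, h3⟩
    · omega
    · exact h3 τ
  have hsig' : sig Φ k τ = (if τ ∈ Φ ⟨k, Sum.inl z⟩ then 1 else 0) +
      (if τ ∈ Φ ⟨k, Sum.inl g⟩ then 1 else 0) + (if τ ∈ Φ ⟨k, Sum.inl g'⟩ then 1 else 0) := hsig
  have hm : ∀ m, m ≠ i → m ≠ j → up2 t i j (lA k g τ) (lA k g' τ) m = t m :=
    fun m hm hm' => up2_m t hm hm' _ _
  have hi := up2_i t hij (lA k g τ) (lA k g' τ)
  have hj := up2_j t i j (lA k g τ) (lA k g' τ)
  have eg : ((lA k g τ : Lt K n J).2 ∈ Φ (lA k g τ : Lt K n J).1) =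
    (τ ∈ Φ ⟨k, Sum.inl g⟩) := rfl
  have eg' : ((lA k g' τ : Lt K n J).2 ∈ Φ (lA k g' τ : Lt K n J).1) =
    (τ ∈ Φ ⟨k, Sum.inl g'⟩) := rfl
  have ez : ((lA k z (cj τ) : Lt K n J).2 ∈ Φ (lA k z (cj τ) : Lt K n J).1) =
    (cj τ ∈ Φ ⟨k, Sum.inl z⟩) := rfl
  have eE : ((lE k τ : Lt K n J).2 ∈ Φ (lE k τ : Lt K n J).1) =
    (τ ∈ Φ ⟨k, Sum.inr none⟩) := rfl
  obtain ⟨hb1, hb2⟩ := hb
  rw [hsig'] at hb1 hb2
  refine ⟨?_, ?_, ?_⟩
  · obtain ⟨R, r1, r2⟩ := cnt2 (fun m => (up2 t i j (lA k g τ) (lA k g' τ) m).2 ∈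
      Φ (up2 t i j (lA k g τ) (lA k g' τ) m).1) (fun m => (t m).2 ∈ Φ (t m).1) hij
      fun m h3 h4 => by rw [hm m h3 h4]
    unfold nT
    rw [r1, r2]
    beta_reduce
    rw [hi, hj, h1, h2]
    simp only [eg, eg', ez, eE, hcm, hb2]
    by_cases a1 : τ ∈ Φ ⟨k, Sum.inl z⟩ <;> by_cases a2 : τ ∈ Φ ⟨k, Sum.inl g⟩ <;>
      by_cases a3 : τ ∈ Φ ⟨k, Sum.inl g'⟩ <;> simp [a1, a2, a3] at hb1 ⊢
  · obtain ⟨R, r1, r2⟩ := cnt2 (fun m => (up2 t i j (lA k g τ) (lA k g' τ) m).2 ∉
      Φ (up2 t i j (lA k g τ) (lA k g' τ) m).1) (fun m => (t m).2 ∉ Φ (t m).1) hij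
      fun m h3 h4 => by rw [hm m h3 h4]
    unfold nF
    rw [r1, r2]
    beta_reduce
    rw [hi, hj, h1, h2]
    simp only [eg, eg', ez, eE, hcm, hb2]
    by_cases a1 : τ ∈ Φ ⟨k, Sum.inl z⟩ <;> by_cases a2 : τ ∈ Φ ⟨k, Sum.inl g⟩ <;>
      by_cases a3 : τ ∈ Φ ⟨k, Sum.inl g'⟩ <;> simp [a1, a2, a3] at hb1 ⊢
  · obtain ⟨R, r1, r2⟩ := cnt2 (fun m => ¬ isB (up2 t i j (lA k g τ) (lA k g' τ) m))
      (fun m => ¬ isB (t m)) hij fun m h3 h4 => by rw [hm m h3 h4]
    unfold nA
    rw [r1, r2]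
    rw [hi, hj, h1, h2]
    have b1 : ∀ (g : Fin (n k)) (τ : K k →+* ℂ), ¬ isB (lA k g τ : Lt K n J) := fun g τ => by
      simp [isB, lA]
    have b2 : isB (lE k τ : Lt K n J) := rfl
    rw [if_pos (b1 _ _), if_neg (not_not.2 b2), if_pos (b1 _ _), if_pos (b1 _ _)]
    omega

/-! ### Rationality -/

variable [∀ k, NumberField.IsCMField (K k)]

theorem single_self [DecidableEq (Σ k, Ln n J k)] (i : Σ k, Ln n J k) (v : K i.1)
    (σ : K i.1 →+* ℂ) : lp (K := K) (Pi.single i v) ⟨i, σ⟩ = σ v := by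
  unfold lp
  rw [Pi.single_eq_same]

theorem single_ne [DecidableEq (Σ k, Ln n J k)] {i : Σ k, Ln n J k} (v : K i.1) {y : Lt K n J}
    (h : y.1 ≠ i) : lp (K := K) (Pi.single i v) y = 0 := by
  unfold lp
  rw [Pi.single_eq_of_ne h, map_zero]

theorem prod2 [Fintype P] [DecidableEq P] {i j : P} (h : i ≠ j) (f : P → ℂ) :
    ∏ m, f m = f i * f j * ∏ m ∈ (Finset.univ.erase i).erase j, f m := by
  rw [← Finset.mul_prod_erase _ _ (Finset.mem_univ i),
    ← Finset.mul_prod_erase (Finset.univ.erase i) _ (a := j) (by simp [Ne.symm h]), mul_assoc]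

theorem rat1 [Fintype P] (a : ∀ k, Fin (n k) → K k) {k : κ} {i j : P} (hij : i ≠ j)
    (x : P → Lp K n J) :
    CC a k i j (fun t : P → Lt K n J => ∏ m, lp (x m) (t m)) ∈ TQ K n J P := by
  classical
  obtain ⟨d, e, e', he⟩ := exists_dual (K k)
  let c : K k → K k := fun x => NumberField.IsCMField.complexConj (K k) x
  have hc : ∀ (x : K k) (τ : K k →+* ℂ), τ (c x) = cj τ x := fun x τ => by
    simp only [c, NumberField.IsCMField.complexEmbedding_complexConj]
    rfl
  let q : Fin (n k) → K k := fun z => (2 * a k z)⁻¹ * ∑ g : Fin (n k), ∑ g' : Fin (n k),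
    ((g : K k) - z) * (g' - z) * (g' - g) / 2 * (x i ⟨k, Sum.inl g⟩ * x j ⟨k, Sum.inl g'⟩)
  let X : Fin (n k) → Fin d → P → Lp K n J := fun z l m =>
    if m = i then Pi.single (⟨k, Sum.inl z⟩ : Σ k, Ln n J k) (c (e' l)) else
      if m = j then Pi.single (⟨k, Sum.inr none⟩ : Σ k, Ln n J k) (q z * e l) else x m
  have hX : CC a k i j (fun t : P → Lt K n J => ∏ m, lp (x m) (t m)) =
      ∑ z, ∑ l, fun t : P → Lt K n J => ∏ m, lp (X z l m) (t m) := by
    funext t
    simp only [Finset.sum_apply]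
    set R : ℂ := ∏ m ∈ (Finset.univ.erase i).erase j, lp (x m) (t m) with hR
    have h1 : ∀ z l, ∏ m, lp (X z l m) (t m) =
        lp (Pi.single (⟨k, Sum.inl z⟩ : Σ k, Ln n J k) (c (e' l))) (t i) *
          lp (Pi.single (⟨k, Sum.inr none⟩ : Σ k, Ln n J k) (q z * e l)) (t j) * R :=
        fun z l => by
      rw [prod2 hij, hR]
      have h2 : X z l i = Pi.single (⟨k, Sum.inl z⟩ : Σ k, Ln n J k) (c (e' l)) := if_pos rfl
      have h3 : X z l j = Pi.single (⟨k, Sum.inr none⟩ : Σ k, Ln n J k) (q z * e l) :=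
        (if_neg (Ne.symm hij)).trans (if_pos rfl)
      rw [h2, h3]
      congr 1
      refine Finset.prod_congr rfl fun m hm => ?_
      rw [Finset.mem_erase, Finset.mem_erase] at hm
      have h4 : X z l m = x m := (if_neg hm.2.1).trans (if_neg hm.1)
      rw [h4]
    simp only [h1]
    by_cases h : ∃ (z : Fin (n k)) (τ : K k →+* ℂ), t i = lA k z (cj τ) ∧ t j = lE k τ
    · obtain ⟨z, τ, h2, h3⟩ := h
      rw [CC_eq a _ h2 h3]
      symm
      rw [Finset.sum_eq_single z]
      · symm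
        have h4 : ∀ l, lp (Pi.single (⟨k, Sum.inl z⟩ : Σ k, Ln n J k) (c (e' l))) (t i) *
            lp (Pi.single (⟨k, Sum.inr none⟩ : Σ k, Ln n J k) (q z * e l)) (t j) * R =
            τ (q z) * R * (τ (e l) * τ (e' l)) := fun l => by
          have h5 : lp (K := K) (Pi.single (⟨k, Sum.inl z⟩ : Σ k, Ln n J k) (c (e' l))) (t i) =
              τ (e' l) := by
            rw [h2]
            have h6 := single_self (K := K) (⟨k, Sum.inl z⟩ : Σ k, Ln n J k) (c (e' l)) (cj τ)
            have h7 : cj τ (c (e' l)) = τ (e' l) := by rw [hc, cj_cj']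
            exact h6.trans h7
          have h6 : lp (K := K) (Pi.single (⟨k, Sum.inr none⟩ : Σ k, Ln n J k) (q z * e l))
              (t j) = τ (q z) * τ (e l) := by
            rw [h3]
            exact (single_self (K := K) (⟨k, Sum.inr none⟩ : Σ k, Ln n J k) (q z * e l)
              τ).trans (map_mul τ _ _)
          rw [h5, h6]
          ring
        rw [Finset.sum_congr rfl fun l _ => h4 l, ← Finset.mul_sum, he, if_pos rfl, mul_one]
        have h5 : ∀ g g' : Fin (n k), eps z g g' *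
            ∏ m, lp (x m) (up2 t i j (lA k g τ) (lA k g' τ) m) =
            τ (((g : K k) - z) * (g' - z) * (g' - g) / 2 *
              (x i ⟨k, Sum.inl g⟩ * x j ⟨k, Sum.inl g'⟩)) * R := fun g g' => by
          rw [prod2 hij, up2_i t hij, up2_j]
          have h6 : ∏ m ∈ (Finset.univ.erase i).erase j,
              lp (x m) (up2 t i j (lA k g τ) (lA k g' τ) m) = R := by
            rw [hR]
            refine Finset.prod_congr rfl fun m hm => ?_
            rw [Finset.mem_erase, Finset.mem_erase] at hm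
            rw [up2_m t hm.2.1 hm.1]
          rw [h6]
          have h7 : lp (x i) (lA k g τ) = τ (x i ⟨k, Sum.inl g⟩) := rfl
          have h8 : lp (x j) (lA k g' τ) = τ (x j ⟨k, Sum.inl g'⟩) := rfl
          rw [h7, h8]
          unfold eps
          simp only [map_mul, map_div₀, map_sub, map_natCast, map_ofNat]
          ring
        simp only [h5]
        simp only [q, map_mul, map_sum, map_inv₀, map_ofNat, Finset.sum_mul, Finset.mul_sum]
        refine Finset.sum_congr rfl fun g _ => Finset.sum_congr rfl fun g' _ => ?_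
        ring
      · intro z' _ hz
        refine Finset.sum_eq_zero fun l _ => ?_
        rw [single_ne, zero_mul, zero_mul]
        rw [h2]
        intro h4
        apply hz
        have h5 : (⟨k, Sum.inl z⟩ : Σ k, Ln n J k) = ⟨k, Sum.inl z'⟩ := h4
        have h6 := eq_of_heq (Sigma.mk.inj h5).2
        exact (Sum.inl.inj h6).symm
      · intro h4
        exact absurd (Finset.mem_univ _) h4
    · rw [CC_zero a _ h]
      symm
      refine Finset.sum_eq_zero fun z _ => ?_
      by_cases h2 : (t i).1 = ⟨k, Sum.inl z⟩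
      · by_cases h3 : (t j).1 = ⟨k, Sum.inr none⟩
        · obtain ⟨σ, h4⟩ : ∃ σ, t i = lA k z σ := by
            generalize t i = y at h2
            obtain ⟨y1, σ⟩ := y
            subst h2
            exact ⟨σ, rfl⟩
          obtain ⟨τ, h5⟩ : ∃ τ, t j = lE k τ := by
            generalize t j = y at h3
            obtain ⟨y1, σ⟩ := y
            subst h3
            exact ⟨σ, rfl⟩
          have h6 : ∀ l, lp (Pi.single (⟨k, Sum.inl z⟩ : Σ k, Ln n J k) (c (e' l))) (t i) *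
              lp (Pi.single (⟨k, Sum.inr none⟩ : Σ k, Ln n J k) (q z * e l)) (t j) * R =
              τ (q z) * R * (τ (e l) * cj σ (e' l)) := fun l => by
            have h7 : lp (K := K) (Pi.single (⟨k, Sum.inl z⟩ : Σ k, Ln n J k) (c (e' l)))
                (t i) = cj σ (e' l) := by
              rw [h4]
              exact (single_self (K := K) (⟨k, Sum.inl z⟩ : Σ k, Ln n J k) (c (e' l)) σ).trans
                (hc _ _)
            have h8 : lp (K := K) (Pi.single (⟨k, Sum.inr none⟩ : Σ k, Ln n J k) (q z * e l))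
                (t j) = τ (q z) * τ (e l) := by
              rw [h5]
              exact (single_self (K := K) (⟨k, Sum.inr none⟩ : Σ k, Ln n J k) (q z * e l)
                τ).trans (map_mul τ _ _)
            rw [h7, h8]
            ring
          rw [Finset.sum_congr rfl fun l _ => h6 l, ← Finset.mul_sum, he, if_neg, mul_zero]
          intro h7
          exact h ⟨z, τ, by rw [h4, h7, cj_cj'], h5⟩
        · refine Finset.sum_eq_zero fun l _ => ?_
          rw [single_ne (q z * e l) h3, mul_zero, zero_mul]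
      · refine Finset.sum_eq_zero fun l _ => ?_
        rw [single_ne (c (e' l)) h2, zero_mul, zero_mul]
  rw [hX]
  exact Submodule.sum_mem _ fun z _ => Submodule.sum_mem _ fun l _ =>
    Submodule.subset_span ⟨X z l, rfl⟩

theorem rat [Fintype P] (a : ∀ k, Fin (n k) → K k) {k : κ} {i j : P} (hij : i ≠ j)
    (u : (P → Lt K n J) → ℂ) (hu : u ∈ TQ K n J P) : CC a k i j u ∈ TQ K n J P := by
  have h1 : TQ K n J P ≤ (TQ K n J P).comap ((CL a k i j).restrictScalars ℚ) := by
    refine Submodule.span_le.2 ?_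
    rintro _ ⟨x, rfl⟩
    exact rat1 a hij x
  exact h1 hu

end C

end

end Detx

open Detx in
/-- **Row DET.** -/
theorem det : DET := by
  classical
  intro κ _ K _ _ _ n J Φ a s D hdat hD P _ k i j hs hn hij
  refine ⟨CL a k i j, ⟨fun u hu => rat a hij u hu, fun y y' hS hne u =>
    lie hdat hs hn hij y y' hS hne u, ?_, ?_⟩, fun u t => fact hdat.ne hD hs hn hij u t⟩
  · intro u t' ht
    rw [CL_apply] at ht
    have h : ∃ (z : Fin (n k)) (τ : K k →+* ℂ), t' i = lA k z (cj τ) ∧ t' j = lE k τ := by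
      by_contra h
      exact ht (CC_zero a u h)
    obtain ⟨z, τ, h1, h2⟩ := h
    rw [CC_eq a u h1 h2] at ht
    obtain ⟨g, -, hg⟩ := Finset.exists_ne_zero_of_sum_ne_zero (right_ne_zero_of_mul ht)
    obtain ⟨g', -, hg'⟩ := Finset.exists_ne_zero_of_sum_ne_zero hg
    obtain ⟨e1, e2, e3⟩ := eps_ne (left_ne_zero_of_mul hg')
    obtain ⟨c1, c2, c3⟩ := types hdat hs hn hij h1 h2 e1 e2 e3
    exact ⟨_, right_ne_zero_of_mul hg', c1, c2, c3.le⟩
  · intro u p
    rw [CL_apply, CL_apply]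
    funext t
    unfold part
    by_cases h : ∃ (z : Fin (n k)) (τ : K k →+* ℂ), t i = lA k z (cj τ) ∧ t j = lE k τ
    · obtain ⟨z, τ, h1, h2⟩ := h
      rw [CC_eq a _ h1 h2, CC_eq a _ h1 h2]
      have h3 : ∀ g g' : Fin (n k), eps z g g' *
          (if nT Φ (up2 t i j (lA k g τ) (lA k g' τ)) = p + 0 then
            u (up2 t i j (lA k g τ) (lA k g' τ)) else 0) =
          (if nT Φ t = p then eps z g g' * u (up2 t i j (lA k g τ) (lA k g' τ)) else 0) :=
          fun g g' => by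
        by_cases h4 : eps z g g' = 0
        · rw [h4]
          simp
        · obtain ⟨e1, e2, e3⟩ := eps_ne h4
          rw [(types hdat hs hn hij h1 h2 e1 e2 e3).1, add_zero]
          split_ifs
          · rfl
          · rw [mul_zero]
      simp only [h3]
      split_ifs
      · rfl
      · simp
    · rw [CC_zero a _ h, CC_zero a _ h]
      split_ifs <;> rfl

end Pool.Agent.U21
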