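import Pool.Agent.Lib.U21.Rows

/-!
# U21, row ENE: the energy identity

A tensor which is killed by the pairings, by the antisymmetrisations in the unitary blocks and by
the raising root vectors lives on the words whose letters in the standard representations are all in
`T`.
-/

set_option autoImplicit false

open scoped ComplexConjugate
open Complex Pool.Agent.HCM

namespace Pool.Agent.U21

noncomputable section

namespace Enx

section up

variable {P Y : Type}

open Classical in
lemma up_eq (t : P → Y) (i : P) (y : Y) : up t i y = Function.update t i y := by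
  funext j
  unfold up
  by_cases h : j = i
  · subst h
    simp
  · simp [h]

lemma up_self (t : P → Y) (i : P) (y : Y) : up t i y i = y := by
  classical
  simp [up_eq]

lemma up_ne (t : P → Y) {i j : P} (h : j ≠ i) (y : Y) : up t i y j = t j := by
  classical
  simp [up_eq, h]

lemma up_up (t : P → Y) (i : P) (y z : Y) : up (up t i y) i z = up t i z := by
  classical
  simp [up_eq]

lemma up_comm (t : P → Y) {i j : P} (h : i ≠ j) (y z : Y) :
    up (up t i y) j z = up (up t j z) i y := by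
  classical
  simp only [up_eq]
  exact Function.update_comm h _ _ _

lemma up_triv (t : P → Y) (i : P) : up t i (t i) = t := by
  classical
  simp [up_eq]

end up

section sums

variable {P Y : Type} [Fintype P] [DecidableEq P] [Fintype Y] [DecidableEq Y]

/-- a fixed letter at one place -/
lemma card_mul_sum (i : P) (y : Y) (Ψ : (P → Y) → ℂ) :
    (Fintype.card Y : ℂ) * ∑ t : P → Y, (if t i = y then Ψ t else 0) =
      ∑ t : P → Y, Ψ (Function.update t i y) := by
  have h1 : ∀ y' : Y, ∑ t : P → Y, (if t i = y' then Ψ (Function.update t i y) else 0) =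
      ∑ t : P → Y, (if t i = y then Ψ t else 0) := by
    intro y'
    refine Fintype.sum_bijective (fun t : P → Y => Function.update t i (Equiv.swap y y' (t i)))
      ?_ _ _ ?_
    · refine Function.Involutive.bijective fun t => ?_
      funext j
      by_cases hj : j = i
      · subst hj
        simp
      · simp [Function.update_of_ne hj]
    · intro t
      simp only [Function.update_self]
      by_cases h : t i = y'
      · rw [if_pos h, h, Equiv.swap_apply_right, if_pos rfl]
      · rw [if_neg h, if_neg]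
        intro h'
        apply h
        have h2 := congrArg (Equiv.swap y y') h'
        rwa [Equiv.swap_apply_self, Equiv.swap_apply_left] at h2
  have h2 : ∑ t : P → Y, Ψ (Function.update t i y) =
      ∑ t : P → Y, ∑ y' : Y, (if t i = y' then Ψ (Function.update t i y) else 0) := by
    refine Finset.sum_congr rfl fun t _ => ?_
    rw [Finset.sum_ite_eq Finset.univ (t i) fun _ => Ψ (Function.update t i y)]
    simp
  rw [h2, Finset.sum_comm, Finset.sum_congr rfl fun y' _ => h1 y', Finset.sum_const,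
    Finset.card_univ, nsmul_eq_mul]

/-- fixed letters at two places -/
lemma card_mul_sum_two {i j : P} (hij : i ≠ j) (y y' : Y) (Ψ : (P → Y) → ℂ) :
    (Fintype.card Y : ℂ) * ((Fintype.card Y : ℂ) *
      ∑ t : P → Y, (if t i = y ∧ t j = y' then Ψ t else 0)) =
      ∑ t : P → Y, Ψ (Function.update (Function.update t i y) j y') := by
  rw [← card_mul_sum i y fun t => Ψ (Function.update t j y')]
  congr 1
  have h1 : ∀ t : P → Y, (if t i = y ∧ t j = y' then Ψ t else 0) =
      if t j = y' then (if t i = y then Ψ t else 0) else 0 := by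
    intro t
    by_cases h1 : t i = y <;> by_cases h2 : t j = y' <;> simp [h1, h2]
  rw [Finset.sum_congr rfl fun t _ => h1 t, card_mul_sum j y' fun t => if t i = y then Ψ t else 0]
  refine Finset.sum_congr rfl fun t _ => ?_
  rw [Function.update_of_ne hij]

end sums

section main

variable {P Y : Type} [Fintype P] [Fintype Y]

open Classical in
lemma card2 {i j : P} (hij : i ≠ j) (y y' : Y) (Ψ : (P → Y) → ℂ) :
    (Fintype.card Y : ℂ) * ((Fintype.card Y : ℂ) *
      ∑ t : P → Y, (if t i = y ∧ t j = y' then Ψ t else 0)) =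
      ∑ t : P → Y, Ψ (up (up t i y) j y') := by
  simp only [up_eq]
  exact card_mul_sum_two hij y y' Ψ

variable (D : LS Y)

omit [Fintype Y] in
lemma nb (y : Y) : ‖D.a (D.bar y)‖ = ‖D.a y‖ := by
  rw [D.a_bar, RCLike.norm_conj]

omit [Fintype Y] in
lemma np (y : Y) : 0 < ‖D.a y‖ := norm_pos_iff.2 (D.a_ne y)

/-- the weight of a word -/
def wg (t : P → Y) : ℝ := ∏ l, ‖D.a (t l)‖

omit [Fintype Y] in
lemma wg_pos (t : P → Y) : 0 < wg D t := Finset.prod_pos fun l _ => np D (t l)

open Classical in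
/-- the weight of the places different from `i` and `j` -/
def wr (i j : P) (s : P → Y) : ℝ := ∏ l ∈ (Finset.univ.erase i).erase j, ‖D.a (s l)‖

omit [Fintype Y] in
lemma wr_nonneg (i j : P) (s : P → Y) : 0 ≤ wr D i j s :=
  Finset.prod_nonneg fun _ _ => norm_nonneg _

omit [Fintype Y] in
lemma wg_up {i j : P} (hij : i ≠ j) (s : P → Y) (y z : Y) :
    wg D (up (up s i y) j z) = wr D i j s * (‖D.a y‖ * ‖D.a z‖) := by
  classical
  unfold wg wr
  rw [← Finset.mul_prod_erase Finset.univ _ (Finset.mem_univ i),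
    ← Finset.mul_prod_erase (Finset.univ.erase i) _
      (Finset.mem_erase.2 ⟨hij.symm, Finset.mem_univ j⟩), up_self, up_ne _ hij, up_self]
  have h1 : ∏ l ∈ (Finset.univ.erase i).erase j, ‖D.a (up (up s i y) j z l)‖ =
      ∏ l ∈ (Finset.univ.erase i).erase j, ‖D.a (s l)‖ := by
    refine Finset.prod_congr rfl fun l hl => ?_
    rw [Finset.mem_erase, Finset.mem_erase] at hl
    rw [up_ne _ hl.1, up_ne _ hl.2.1]
  rw [h1]
  ring

open Classical in
/-- one term of the energy -/
def tm (u : (P → Y) → ℂ) (i j : P) (y y' : Y) (t : P → Y) : ℂ :=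
  ((‖D.a y'‖ / ‖D.a y‖ * wg D t : ℝ) : ℂ) * conj (D.a y / D.a y') *
    ((if t i = y then u (up t i y') else 0) *
      conj (if t j = D.bar y' then u (up t j (D.bar y)) else 0))

omit [Fintype Y] in
lemma coef (y y' : Y) (w : ℝ) :
    ((‖D.a y'‖ / ‖D.a y‖ * (w * (‖D.a y‖ * ‖D.a (D.bar y')‖)) : ℝ) : ℂ) *
      conj (D.a y / D.a y') = (w : ℂ) * (D.a y' * conj (D.a y)) := by
  have h1 := (np D y).ne'
  have h2 : (‖D.a y'‖ / ‖D.a y‖ * (w * (‖D.a y‖ * ‖D.a (D.bar y')‖)) : ℝ) =
      w * (‖D.a y'‖ * ‖D.a y'‖) := by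
    rw [nb]
    field_simp
  rw [h2]
  have h3 : ((‖D.a y'‖ * ‖D.a y'‖ : ℝ) : ℂ) = D.a y' * conj (D.a y') := by
    rw [Complex.mul_conj, Complex.normSq_eq_norm_sq, sq]
  have h4 : conj (D.a y') ≠ 0 := by
    rw [Ne, map_eq_zero]
    exact D.a_ne y'
  rw [Complex.ofReal_mul, h3, map_div₀]
  field_simp

open Classical in
lemma cross {u : (P → Y) → ℂ} {i j : P} (hij : i ≠ j) (VT VF : Finset Y)
    (hX : ∀ s : P → Y, ∑ y ∈ VT, D.a y * u (up (up s i y) j (D.bar y)) +
      ∑ y ∈ VF, D.a y * u (up (up s i y) j (D.bar y)) = 0) :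
    (∑ y ∈ VT, ∑ y' ∈ VF, ∑ t, tm D u i j y y' t).re ≤ 0 := by
  rcases isEmpty_or_nonempty Y with hY | hY
  · have hE : VT = ∅ := Finset.eq_empty_of_isEmpty VT
    subst hE
    simp
  set XT : (P → Y) → ℂ := fun s => ∑ y ∈ VT, D.a y * u (up (up s i y) j (D.bar y)) with hXT
  set XF : (P → Y) → ℂ := fun s => ∑ y ∈ VF, D.a y * u (up (up s i y) j (D.bar y)) with hXF
  have hkey : (Fintype.card Y : ℂ) * ((Fintype.card Y : ℂ) *
      ∑ y ∈ VT, ∑ y' ∈ VF, ∑ t, tm D u i j y y' t) =
      ((-∑ s, wr D i j s * Complex.normSq (XF s) : ℝ) : ℂ) := by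
    have h1 : ∀ y y' : Y, (Fintype.card Y : ℂ) * ((Fintype.card Y : ℂ) *
        ∑ t, tm D u i j y y' t) =
        ∑ s, (wr D i j s : ℂ) * (D.a y' * u (up (up s i y') j (D.bar y'))) *
          conj (D.a y * u (up (up s i y) j (D.bar y))) := by
      intro y y'
      have h2 : ∀ t : P → Y, tm D u i j y y' t = if t i = y ∧ t j = D.bar y' then
          ((‖D.a y'‖ / ‖D.a y‖ * wg D t : ℝ) : ℂ) * conj (D.a y / D.a y') *
            (u (up t i y') * conj (u (up t j (D.bar y)))) else 0 := by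
        intro t
        unfold tm
        by_cases h3 : t i = y <;> by_cases h4 : t j = D.bar y' <;> simp [h3, h4]
      rw [Finset.sum_congr rfl fun t _ => h2 t, card2 hij y (D.bar y') fun t =>
        ((‖D.a y'‖ / ‖D.a y‖ * wg D t : ℝ) : ℂ) * conj (D.a y / D.a y') *
            (u (up t i y') * conj (u (up t j (D.bar y))))]
      refine Finset.sum_congr rfl fun s _ => ?_
      rw [wg_up D hij, coef, up_up, up_comm _ hij.symm, up_up, map_mul]
      ring
    simp only [Finset.mul_sum] at h1 ⊢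
    rw [Finset.sum_congr rfl fun y _ => Finset.sum_congr rfl fun y' _ => h1 y y']
    have h3 : ∑ y ∈ VT, ∑ y' ∈ VF,
        ∑ s, (wr D i j s : ℂ) * (D.a y' * u (up (up s i y') j (D.bar y'))) *
          conj (D.a y * u (up (up s i y) j (D.bar y))) =
        ∑ s, (wr D i j s : ℂ) * (XF s * conj (XT s)) := by
      have e1 : ∀ y ∈ VT, ∑ y' ∈ VF,
        ∑ s, (wr D i j s : ℂ) * (D.a y' * u (up (up s i y') j (D.bar y'))) *
          conj (D.a y * u (up (up s i y) j (D.bar y))) =
          ∑ s, (wr D i j s : ℂ) * (XF s * conj (D.a y * u (up (up s i y) j (D.bar y)))) := by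
        intro y _
        rw [Finset.sum_comm]
        refine Finset.sum_congr rfl fun s _ => ?_
        rw [hXF, Finset.sum_mul, Finset.mul_sum]
        refine Finset.sum_congr rfl fun y' _ => ?_
        ring
      rw [Finset.sum_congr rfl e1, Finset.sum_comm]
      refine Finset.sum_congr rfl fun s _ => ?_
      rw [hXT, map_sum, Finset.mul_sum, Finset.mul_sum]
    rw [h3, Complex.ofReal_neg, Complex.ofReal_sum, ← Finset.sum_neg_distrib]
    refine Finset.sum_congr rfl fun s _ => ?_
    have h4 : XT s = - XF s := eq_neg_of_add_eq_zero_left (hX s)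
    rw [h4, map_neg, mul_neg, Complex.mul_conj, Complex.ofReal_mul, mul_neg]
  have hcard : (0 : ℝ) < Fintype.card Y := by exact_mod_cast Fintype.card_pos
  have h1 := congrArg Complex.re hkey
  rw [Complex.ofReal_re, ← Complex.ofReal_natCast, Complex.re_ofReal_mul,
    Complex.re_ofReal_mul] at h1
  have h2 : 0 ≤ ∑ s, wr D i j s * Complex.normSq (XF s) :=
    Finset.sum_nonneg fun s _ => mul_nonneg (wr_nonneg D i j s) (Complex.normSq_nonneg _)
  by_contra h3
  push Not at h3
  have h4 := mul_pos hcard (mul_pos hcard h3)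
  linarith

omit [Fintype Y] in
lemma diag_eq (u : (P → Y) → ℂ) (i : P) {y y' : Y} (t : P → Y)
    (h : y = D.bar y') (ha : D.a y = - D.a y') (hi : t i = y) :
    (tm D u i i y y' t).re = - (wg D t * Complex.normSq (u (up t i y'))) := by
  have h1 : D.bar y = y' := by rw [h, D.bar_bar]
  have h2 : ‖D.a y'‖ / ‖D.a y‖ = 1 := by
    rw [h, nb]
    exact div_self (np D y').ne'
  have h3 : D.a y / D.a y' = -1 := by
    rw [ha, neg_div, div_self (D.a_ne y')]
  unfold tm
  rw [if_pos hi, if_pos (hi.trans h), h1, h2, h3, one_mul, map_neg, map_one, Complex.mul_conj,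
    mul_neg, mul_one, neg_mul, ← Complex.ofReal_mul, Complex.neg_re, Complex.ofReal_re]

omit [Fintype Y] in
lemma diag_nonpos (u : (P → Y) → ℂ) (i : P) {y y' : Y} (t : P → Y)
    (h : y = D.bar y' → D.a y = - D.a y') : (tm D u i i y y' t).re ≤ 0 := by
  by_cases h1 : t i = y
  · by_cases h2 : t i = D.bar y'
    · have h3 := h1.symm.trans h2
      rw [diag_eq D u i t h3 (h h3) h1]
      exact neg_nonpos.2 (mul_nonneg (wg_pos D t).le (Complex.normSq_nonneg _))
    · unfold tm
      rw [if_neg h2]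
      simp
  · unfold tm
    rw [if_neg h1]
    simp

/-- the energy identity for one class -/
lemma energy {u : (P → Y) → ℂ} (VT VF : Finset Y)
    (hX : ∀ i j : P, i ≠ j → ∀ s : P → Y, ∑ y ∈ VT, D.a y * u (up (up s i y) j (D.bar y)) +
      ∑ y ∈ VF, D.a y * u (up (up s i y) j (D.bar y)) = 0)
    (hd : ∀ y ∈ VT, ∀ y' ∈ VF, y = D.bar y' → D.a y = - D.a y')
    (hr : ∀ y ∈ VT, ∀ y' ∈ VF, D.rt y y' u = 0) :
    (∀ y ∈ VT, ∀ y' ∈ VF, ∀ t, eL y y' u t = 0) ∧
      ∀ y ∈ VT, ∀ y' ∈ VF, ∀ i t, (tm D u i i y y' t).re = 0 := by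
  classical
  set L : ℝ := ∑ y ∈ VT, ∑ y' ∈ VF, ∑ t,
    ‖D.a y'‖ / ‖D.a y‖ * wg D t * Complex.normSq (eL y y' u t) with hL
  have hterm : ∀ y ∈ VT, ∀ y' ∈ VF, ∀ t,
      ((‖D.a y'‖ / ‖D.a y‖ * wg D t * Complex.normSq (eL y y' u t) : ℝ) : ℂ) =
        ∑ i, ∑ j, tm D u i j y y' t := by
    intro y hy y' hy' t
    have h1 : eL y y' u t = (D.a y / D.a y') * eL (D.bar y') (D.bar y) u t := by
      have h2 := congrFun (hr y hy y' hy') t
      unfold LS.rt at h2
      rw [Pi.sub_apply, Pi.smul_apply, Pi.zero_apply, sub_eq_zero, smul_eq_mul] at h2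
      exact h2
    have h3 : ((Complex.normSq (eL y y' u t) : ℝ) : ℂ) =
        eL y y' u t * (conj (D.a y / D.a y') * conj (eL (D.bar y') (D.bar y) u t)) := by
      rw [← Complex.mul_conj, ← map_mul, ← h1]
    rw [Complex.ofReal_mul, h3]
    unfold eL
    rw [map_sum, Finset.mul_sum, Finset.sum_mul_sum, Finset.mul_sum]
    refine Finset.sum_congr rfl fun i _ => ?_
    rw [Finset.mul_sum]
    refine Finset.sum_congr rfl fun j _ => ?_
    unfold tm
    ring
  have hLe : L = ∑ i, ∑ j, (∑ y ∈ VT, ∑ y' ∈ VF, ∑ t, tm D u i j y y' t).re := by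
    have h1 : (L : ℂ) = ∑ i, ∑ j, ∑ y ∈ VT, ∑ y' ∈ VF, ∑ t, tm D u i j y y' t := by
      rw [hL]
      push_cast
      have h2 : ∀ y ∈ VT, ∀ y' ∈ VF, ∑ t, ((‖D.a y'‖ : ℂ) / (‖D.a y‖ : ℂ) * (wg D t : ℂ) *
          (Complex.normSq (eL y y' u t) : ℂ)) = ∑ i, ∑ j, ∑ t, tm D u i j y y' t := by
        intro y hy y' hy'
        have h3 : ∀ t, ((‖D.a y'‖ : ℂ) / (‖D.a y‖ : ℂ) * (wg D t : ℂ) *
          (Complex.normSq (eL y y' u t) : ℂ)) = ∑ i, ∑ j, tm D u i j y y' t := by
          intro t
          rw [← hterm y hy y' hy' t]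
          push_cast
          rfl
        rw [Finset.sum_congr rfl fun t _ => h3 t, Finset.sum_comm]
        refine Finset.sum_congr rfl fun i _ => ?_
        rw [Finset.sum_comm]
      rw [Finset.sum_congr rfl fun y hy => Finset.sum_congr rfl fun y' hy' => h2 y hy y' hy']
      have h4 : ∀ y ∈ VT, ∑ y' ∈ VF, ∑ i, ∑ j, ∑ t, tm D u i j y y' t =
          ∑ i, ∑ j, ∑ y' ∈ VF, ∑ t, tm D u i j y y' t := by
        intro y _
        rw [Finset.sum_comm]
        refine Finset.sum_congr rfl fun i _ => ?_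
        rw [Finset.sum_comm]
      rw [Finset.sum_congr rfl h4, Finset.sum_comm]
      refine Finset.sum_congr rfl fun i _ => ?_
      rw [Finset.sum_comm]
    have h2 := congrArg Complex.re h1
    rw [Complex.ofReal_re] at h2
    rw [h2, Complex.re_sum]
    refine Finset.sum_congr rfl fun i _ => ?_
    rw [Complex.re_sum]
  have hneg : ∀ i j, (∑ y ∈ VT, ∑ y' ∈ VF, ∑ t, tm D u i j y y' t).re ≤ 0 := by
    intro i j
    by_cases hij : i = j
    · subst hij
      simp only [Complex.re_sum]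
      exact Finset.sum_nonpos fun y hy => Finset.sum_nonpos fun y' hy' =>
        Finset.sum_nonpos fun t _ => diag_nonpos D u i t (hd y hy y' hy')
    · exact cross D hij VT VF (hX i j hij)
  have hpos : ∀ y ∈ VT, ∀ y' ∈ VF, ∀ t ∈ (Finset.univ : Finset (P → Y)),
      0 ≤ ‖D.a y'‖ / ‖D.a y‖ * wg D t * Complex.normSq (eL y y' u t) := by
    intro y _ y' _ t _
    exact mul_nonneg (mul_nonneg (div_nonneg (norm_nonneg _) (norm_nonneg _)) (wg_pos D t).le)
      (Complex.normSq_nonneg _)
  have hL0 : L = 0 := by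
    apply le_antisymm
    · rw [hLe]
      exact Finset.sum_nonpos fun i _ => Finset.sum_nonpos fun j _ => hneg i j
    · exact Finset.sum_nonneg fun y hy => Finset.sum_nonneg fun y' hy' =>
        Finset.sum_nonneg (hpos y hy y' hy')
  constructor
  · intro y hy y' hy' t
    have h1 := hL0
    rw [hL, Finset.sum_eq_zero_iff_of_nonneg fun y hy => Finset.sum_nonneg fun y' hy' =>
      Finset.sum_nonneg (hpos y hy y' hy')] at h1
    have h2 := h1 y hy
    rw [Finset.sum_eq_zero_iff_of_nonneg fun y' hy' =>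
      Finset.sum_nonneg (hpos y hy y' hy')] at h2
    have h3 := h2 y' hy'
    rw [Finset.sum_eq_zero_iff_of_nonneg (hpos y hy y' hy')] at h3
    have h4 := h3 t (Finset.mem_univ t)
    have h5 : ‖D.a y'‖ / ‖D.a y‖ * wg D t ≠ 0 :=
      mul_ne_zero (div_ne_zero (np D y').ne' (np D y).ne') (wg_pos D t).ne'
    exact Complex.normSq_eq_zero.1 ((mul_eq_zero.1 h4).resolve_left h5)
  · intro y hy y' hy' i t
    have h1 : ∑ i, ∑ j, (∑ y ∈ VT, ∑ y' ∈ VF, ∑ t, tm D u i j y y' t).re = 0 := by
      rw [← hLe, hL0]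
    rw [Finset.sum_eq_zero_iff_of_nonpos fun i _ => Finset.sum_nonpos fun j _ => hneg i j] at h1
    have h2 := h1 i (Finset.mem_univ i)
    rw [Finset.sum_eq_zero_iff_of_nonpos fun j _ => hneg i j] at h2
    have h3 := h2 i (Finset.mem_univ i)
    simp only [Complex.re_sum] at h3
    rw [Finset.sum_eq_zero_iff_of_nonpos fun y hy => Finset.sum_nonpos fun y' hy' =>
        Finset.sum_nonpos fun t _ => diag_nonpos D u i t (hd y hy y' hy')] at h3
    have h4 := h3 y hy
    rw [Finset.sum_eq_zero_iff_of_nonpos fun y' hy' =>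
        Finset.sum_nonpos fun t _ => diag_nonpos D u i t (hd y hy y' hy')] at h4
    have h5 := h4 y' hy'
    rw [Finset.sum_eq_zero_iff_of_nonpos fun t _ =>
      diag_nonpos D u i t (hd y hy y' hy')] at h5
    exact h5 t (Finset.mem_univ t)

end main

end Enx

/-- **Row ENE** -/
theorem ene : ENE := by
  classical
  intro Y _ D T hTb hcl P _ u hpa hrt t0 hu i0 hS
  by_contra hT
  set VT : Finset Y := Finset.univ.filter fun y => D.S (t0 i0) y ∧ T y with hVT
  set VF : Finset Y := Finset.univ.filter fun y => D.S (t0 i0) y ∧ ¬ T y with hVF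
  have hmT : ∀ y, y ∈ VT ↔ D.S (t0 i0) y ∧ T y := fun y => by simp [hVT]
  have hmF : ∀ y, y ∈ VF ↔ D.S (t0 i0) y ∧ ¬ T y := fun y => by simp [hVF]
  have hTF : ∀ y ∈ VT, ∀ y' ∈ VF, D.S y y' := fun y hy y' hy' =>
    D.trans _ _ _ (D.symm _ _ ((hmT y).1 hy).1) ((hmF y').1 hy').1
  have hX : ∀ i j : P, i ≠ j → ∀ s : P → Y, ∑ y ∈ VT, D.a y * u (up (up s i y) j (D.bar y)) +
      ∑ y ∈ VF, D.a y * u (up (up s i y) j (D.bar y)) = 0 := by
    intro i j hij s
    have h1 : ∑ y, (if D.S (t0 i0) y then D.a y * u (up (up s i y) j (D.bar y)) else 0) =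
        ∑ y ∈ VT, D.a y * u (up (up s i y) j (D.bar y)) +
          ∑ y ∈ VF, D.a y * u (up (up s i y) j (D.bar y)) := by
      rw [hVT, hVF, Finset.sum_filter, Finset.sum_filter, ← Finset.sum_add_distrib]
      refine Finset.sum_congr rfl fun y _ => ?_
      by_cases h2 : D.S (t0 i0) y <;> by_cases h3 : T y <;> simp [h2, h3]
    rw [← h1]
    have h2 := congrFun (hpa i j hij).1 (up (up s i (t0 i0)) j (D.bar (t0 i0)))
    unfold LS.pr at h2
    have e1 : up (up s i (t0 i0)) j (D.bar (t0 i0)) i = t0 i0 := by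
      rw [Enx.up_ne _ hij, Enx.up_self]
    rw [e1, Enx.up_self, if_pos ⟨rfl, hS⟩, Pi.zero_apply, mul_eq_zero] at h2
    have h3 : ((D.N (t0 i0) : ℂ) * D.a (t0 i0))⁻¹ ≠ 0 := by
      refine inv_ne_zero (mul_ne_zero ?_ (D.a_ne _))
      rw [Nat.cast_ne_zero]
      unfold LS.N
      exact Finset.card_ne_zero.2 ⟨t0 i0, by simp [hS]⟩
    have h4 := h2.resolve_left h3
    refine Eq.trans (Finset.sum_congr rfl fun y _ => ?_) h4
    rw [Enx.up_comm (up s i (t0 i0)) hij.symm, Enx.up_up, Enx.up_up]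
  have hd : ∀ y ∈ VT, ∀ y' ∈ VF, y = D.bar y' → D.a y = - D.a y' := by
    intro y hy y' hy' h
    have h1 : D.S y' (D.bar y') := by
      rw [← h]
      exact D.symm _ _ (hTF y hy y' hy')
    have h2 : D.sp y' := by
      by_contra h3
      exact D.nsp_bar y' h3 h1
    have h3 : D.S y' y' := D.trans _ _ _ h1 (D.symm _ _ h1)
    rw [h]
    exact D.a_sp y' h3 h2
  obtain ⟨hE, hDg⟩ := Enx.energy D VT VF hX hd fun y hy y' hy' =>
    hrt y y' (hTF y hy y' hy') ((hmT y).1 hy).2 ((hmF y').1 hy').2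
  have hF0 : t0 i0 ∈ VF := (hmF _).2 ⟨hS, hT⟩
  by_cases hsp : D.sp (t0 i0)
  · -- symplectic block
    have hbT : D.bar (t0 i0) ∈ VT := (hmT _).2 ⟨D.sp_bar _ hS hsp, (hTb _).2 hT⟩
    have h1 := hDg _ hbT _ hF0 i0 (up t0 i0 (D.bar (t0 i0)))
    rw [Enx.diag_eq D u i0 _ rfl (D.a_sp _ hS hsp) (Enx.up_self _ _ _), Enx.up_up,
      Enx.up_triv, neg_eq_zero, mul_eq_zero] at h1
    exact hu (Complex.normSq_eq_zero.1 (h1.resolve_left (Enx.wg_pos D _).ne'))
  · -- unitary block
    obtain ⟨⟨y, hy, hTy⟩, -⟩ := hcl _ hS hsp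
    have hyT : y ∈ VT := (hmT y).2 ⟨hy, hTy⟩
    have h1 := hE y hyT _ hF0 (up t0 i0 y)
    unfold eL at h1
    have h2 : ∀ j, (if up t0 i0 y j = y then u (up (up t0 i0 y) j (t0 i0)) else 0) =
        if up t0 i0 y j = y then u t0 else 0 := by
      intro j
      by_cases h3 : up t0 i0 y j = y
      · rw [if_pos h3, if_pos h3]
        by_cases hj : j = i0
        · subst hj
          rw [Enx.up_up, Enx.up_triv]
        · rw [Enx.up_ne _ hj] at h3
          have h4 := congrFun (hpa i0 j (Ne.symm hj)).2 t0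
          unfold LS.an at h4
          rw [h3, if_pos ⟨hy, hsp⟩, Pi.zero_apply] at h4
          have h5 : u t0 - u (up (up t0 i0 y) j (t0 i0)) = 0 := by
            have h6 : (u t0 - u (up (up t0 i0 y) j (t0 i0))) / 2 = 0 := h4
            simpa using h6
          exact (sub_eq_zero.1 h5).symm
      · rw [if_neg h3, if_neg h3]
    rw [Finset.sum_congr rfl fun j _ => h2 j, ← Finset.sum_filter, Finset.sum_const,
      nsmul_eq_mul, mul_eq_zero] at h1
    rcases h1 with h1 | h1
    · rw [Nat.cast_eq_zero, Finset.card_eq_zero] at h1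
      have h3 : i0 ∈ Finset.univ.filter fun j => up t0 i0 y j = y := by
        simp [Enx.up_self]
      rw [h1] at h3
      exact absurd h3 (Finset.notMem_empty _)
    · exact hu h1

end

end Pool.Agent.U21
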