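import Pool.Agent.Lib.U21.Rows
import Pool.Agent.Lib.HCM.GDual

/-!
# U21, row FAC: the operators `pr` and `an` factor through contractions (helper9)
-/

set_option autoImplicit false

open scoped ComplexConjugate
open Complex Pool.Agent.HCM

namespace Pool.Agent.U21

noncomputable section

namespace Facx

section cat

variable {Y P : Type}

/-- The word with two letters in front. -/
def cat (y z : Y) (t : P → Y) : Fin 2 ⊕ P → Y := Sum.elim ![y, z] t

theorem up_inl0 (y z y' : Y) (t : P → Y) : up (cat y z t) (Sum.inl 0) y' = cat y' z t := by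
  funext i
  rcases i with i | i
  · fin_cases i <;> simp [up, cat]
  · simp [up, cat]

theorem up_inl1 (y z y' : Y) (t : P → Y) : up (cat y z t) (Sum.inl 1) y' = cat y y' t := by
  funext i
  rcases i with i | i
  · fin_cases i <;> simp [up, cat]
  · simp [up, cat]

theorem up_inr (y z y' : Y) (t : P → Y) (j : P) :
    up (cat y z t) (Sum.inr j) y' = cat y z (up t j y') := by
  funext i
  rcases i with i | i
  · simp [up, cat]
  · by_cases h : i = j
    · subst h
      simp [up, cat]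
    · simp [up, cat, h]

theorem eq_cat (t : Fin 2 ⊕ P → Y) :
    t = cat (t (Sum.inl 0)) (t (Sum.inl 1)) fun j => t (Sum.inr j) := by
  funext i
  rcases i with i | i
  · fin_cases i <;> rfl
  · rfl

open Classical in
theorem eL_cat [Fintype P] (y y' w w' : Y) (u : (Fin 2 ⊕ P → Y) → ℂ) (t : P → Y) :
    eL y y' u (cat w w' t) = ((if w = y then u (cat y' w' t) else 0) +
      (if w' = y then u (cat w y' t) else 0)) +
        ∑ j, if t j = y then u (cat w w' (up t j y')) else 0 := by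
  unfold eL
  rw [Fintype.sum_sum_type, Fin.sum_univ_two, up_inl0, up_inl1]
  congr 1
  refine Finset.sum_congr rfl fun j _ => ?_
  rw [up_inr]
  rfl

open Classical in
theorem ncard_sum {Q : Type} [Fintype Q] (p : Q → Prop) :
    {i | p i}.ncard = ∑ i, if p i then 1 else 0 := by
  rw [Set.ncard_eq_toFinset_card', ← Finset.card_filter]
  congr 1
  ext i
  simp

open Classical in
theorem ncard_cat [Fintype P] (p : Y → Prop) (y z : Y) (t : P → Y) :
    {i | p (cat y z t i)}.ncard =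
      (if p y then 1 else 0) + (if p z then 1 else 0) + {j | p (t j)}.ncard := by
  rw [ncard_sum, ncard_sum, Fintype.sum_sum_type, Fin.sum_univ_two]
  rfl

/-- The contraction of the two first places against `c`. -/
def ctr [Fintype Y] (c : Y → Y → ℂ) : ((Fin 2 ⊕ P → Y) → ℂ) →ₗ[ℂ] ((P → Y) → ℂ) where
  toFun u t := ∑ y, ∑ z, c y z * u (cat y z t)
  map_add' u v := by
    funext t
    simp only [Pi.add_apply, mul_add, Finset.sum_add_distrib]
  map_smul' q u := by
    funext t
    simp only [Pi.smul_apply, smul_eq_mul, RingHom.id_apply, Finset.mul_sum]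
    refine Finset.sum_congr rfl fun y _ => Finset.sum_congr rfl fun z _ => ?_
    ring

open Classical in
/-- The transposed matrix `e_(y, y')` acting on `c`. -/
def iv (c : Y → Y → ℂ) (y y' w w' : Y) : ℂ :=
  (if w = y' then c y w' else 0) + (if w' = y' then c w y else 0)

theorem eL_pair (c : Y → Y → ℂ) (y y' : Y) (t : Fin 2 → Y) :
    eL y y' (fun t => c (t 0) (t 1)) t = iv c y' y (t 0) (t 1) := by
  unfold eL iv
  rw [Fin.sum_univ_two]
  simp [up]

open Classical in
theorem ctr_eL [Fintype Y] [Fintype P] (c : Y → Y → ℂ) (y y' : Y) (u : (Fin 2 ⊕ P → Y) → ℂ)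
    (t : P → Y) :
    ctr c (eL y y' u) t = (∑ w, ∑ w', iv c y y' w w' * u (cat w w' t)) +
      eL y y' (ctr c u) t := by
  change ∑ w, ∑ w', c w w' * eL y y' u (cat w w' t) = _
  simp only [iv, eL_cat, mul_add, add_mul, Finset.sum_add_distrib]
  congr 1
  · congr 1
    · have h1 : ∀ w, ∑ w', c w w' * (if w = y then u (cat y' w' t) else 0) =
          if w = y then ∑ w', c y w' * u (cat y' w' t) else 0 := by
        intro w
        split_ifs with h
        · rw [h]
        · simp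
      have h2 : ∀ w, ∑ w', (if w = y' then c y w' else 0) * u (cat w w' t) =
          if w = y' then ∑ w', c y w' * u (cat y' w' t) else 0 := by
        intro w
        split_ifs with h
        · rw [h]
        · simp
      simp only [h1, h2, Finset.sum_ite_eq', Finset.mem_univ, if_true]
    · refine Finset.sum_congr rfl fun w _ => ?_
      have h1 : ∀ w', c w w' * (if w' = y then u (cat w y' t) else 0) =
          if w' = y then c w y * u (cat w y' t) else 0 := by
        intro w'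
        split_ifs with h
        · rw [h]
        · simp
      have h2 : ∀ w', (if w' = y' then c w y else 0) * u (cat w w' t) =
          if w' = y' then c w y * u (cat w y' t) else 0 := by
        intro w'
        split_ifs with h
        · rw [h]
        · simp
      simp only [h1, h2, Finset.sum_ite_eq', Finset.mem_univ, if_true]
  · unfold eL
    simp only [Finset.mul_sum]
    have h3 : ∀ w : Y, ∑ w', ∑ j, c w w' * (if t j = y then u (cat w w' (up t j y')) else 0) =
        ∑ j, ∑ w', c w w' * (if t j = y then u (cat w w' (up t j y')) else 0) :=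
      fun w => Finset.sum_comm
    simp only [h3]
    rw [Finset.sum_comm]
    refine Finset.sum_congr rfl fun j _ => ?_
    split_ifs with h
    · rfl
    · simp

end cat

section letters

variable {κ : Type} {K : κ → Type} [∀ k, Field (K k)] {n : κ → ℕ} {J : κ → Type}

/-- rational, and the two letters are letters of the `A k` of different type -/
structure Ker [Fintype (Lt K n J)] (Φ : Ty K n J) (c : Lt K n J → Lt K n J → ℂ) : Prop where
  rat : ∀ x x' : Lp K n J, ∃ q : ℚ, ∑ y, ∑ z, c y z * lp x y * lp x' z = q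
  one : ∀ y z, c y z ≠ 0 → ¬ isB y ∧ ¬ isB z ∧ (y.2 ∈ Φ y.1 ↔ z.2 ∉ Φ z.1)

theorem ctr_mem [Fintype (Lt K n J)] {P : Type} [Fintype P] {Φ : Ty K n J}
    {c : Lt K n J → Lt K n J → ℂ} (hc : Ker Φ c) {u : (Fin 2 ⊕ P → Lt K n J) → ℂ}
    (hu : u ∈ TQ K n J (Fin 2 ⊕ P)) : ctr c u ∈ TQ K n J P := by
  unfold TQ at hu
  have h1 : (Submodule.span ℚ (Set.range fun (x : Fin 2 ⊕ P → Lp K n J)
      (t : Fin 2 ⊕ P → Lt K n J) => ∏ i, lp (x i) (t i))).map
        ((ctr (P := P) c).restrictScalars ℚ) ≤ TQ K n J P := by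
    rw [Submodule.map_span, Submodule.span_le]
    rintro _ ⟨_, ⟨x, rfl⟩, rfl⟩
    obtain ⟨q, hq⟩ := hc.rat (x (Sum.inl 0)) (x (Sum.inl 1))
    have h2 : (ctr (P := P) c) (fun t : Fin 2 ⊕ P → Lt K n J => ∏ i, lp (x i) (t i)) =
        q • fun t : P → Lt K n J => ∏ j, lp (x (Sum.inr j)) (t j) := by
      funext t
      change ∑ y, ∑ z, c y z * ∏ i, lp (x i) (cat y z t i) = _
      rw [Pi.smul_apply, Rat.smul_def, ← hq, Finset.sum_mul]
      refine Finset.sum_congr rfl fun y _ => ?_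
      rw [Finset.sum_mul]
      refine Finset.sum_congr rfl fun z _ => ?_
      rw [Fintype.prod_sum_type, Fin.prod_univ_two]
      change c y z * (lp (x (Sum.inl 0)) y * lp (x (Sum.inl 1)) z *
        ∏ j, lp (x (Sum.inr j)) (t j)) = _
      ring
    change (ctr (P := P) c) (fun t : Fin 2 ⊕ P → Lt K n J => ∏ i, lp (x i) (t i)) ∈ _
    rw [h2]
    exact Submodule.smul_mem _ _ (Submodule.subset_span ⟨fun j => x (Sum.inr j), rfl⟩)
  exact h1 (Submodule.mem_map_of_mem hu)

theorem isMor_ctr [Fintype (Lt K n J)] {P : Type} [Fintype P] {Φ : Ty K n J}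
    {a : ∀ k, Fin (n k) → K k} {s : κ → Bool}
    {c : Lt K n J → Lt K n J → ℂ} (hc : Ker Φ c)
    (hinv : ∀ y y', Sm s y y' → y ≠ y' → ∀ w w',
      iv c y y' w w' = (wt a y / wt a y') * iv c (bar y') (bar y) w w') :
    IsMor Φ a s 1 2 (ctr (P := P) c) := by
  have key : ∀ (p : Lt K n J → Prop) (y z : Lt K n J) (t : P → Lt K n J), (p y ↔ ¬ p z) →
      {i | p (cat y z t i)}.ncard = {j | p (t j)}.ncard + 1 := by
    intro p y z t h
    rw [ncard_cat]
    by_cases hy : p y
    · rw [if_pos hy, if_neg (h.1 hy)]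
      omega
    · have hz : p z := by
        by_contra hz
        exact hy (h.2 hz)
      rw [if_neg hy, if_pos hz]
      omega
  have hT : ∀ y z (t : P → Lt K n J), c y z ≠ 0 → nT Φ (cat y z t) = nT Φ t + 1 := by
    intro y z t h
    exact key (fun y => y.2 ∈ Φ y.1) y z t (hc.one y z h).2.2
  have hF : ∀ y z (t : P → Lt K n J), c y z ≠ 0 → nF Φ (cat y z t) = nF Φ t + 1 := by
    intro y z t h
    exact key (fun y => y.2 ∉ Φ y.1) y z t (not_congr (hc.one y z h).2.2)
  refine ⟨fun u hu => ctr_mem hc hu, ?_, ?_, ?_⟩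
  · intro y y' h h' u
    have h1 : ctr (P := P) c (root a y y' u) = ctr (P := P) c (eL y y' u) -
        (wt a y / wt a y') • ctr (P := P) c (eL (bar y') (bar y) u) := by
      unfold root
      rw [map_sub, map_smul]
    rw [h1]
    funext t
    unfold root
    simp only [Pi.sub_apply, Pi.smul_apply, smul_eq_mul, ctr_eL]
    have h2 : ∑ w, ∑ w', iv c y y' w w' * u (cat w w' t) =
        (wt a y / wt a y') * ∑ w, ∑ w', iv c (bar y') (bar y) w w' * u (cat w w' t) := by
      rw [Finset.mul_sum]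
      refine Finset.sum_congr rfl fun w _ => ?_
      rw [Finset.mul_sum]
      refine Finset.sum_congr rfl fun w' _ => ?_
      rw [hinv y y' h h' w w']
      ring
    rw [h2]
    ring
  · intro u t' ht'
    change ∑ y, ∑ z, c y z * u (cat y z t') ≠ 0 at ht'
    obtain ⟨y, -, hy⟩ := Finset.exists_ne_zero_of_sum_ne_zero ht'
    obtain ⟨z, -, hz⟩ := Finset.exists_ne_zero_of_sum_ne_zero hy
    have h1 := left_ne_zero_of_mul hz
    have h2 := hc.one y z h1
    refine ⟨cat y z t', right_ne_zero_of_mul hz, hT y z t' h1, hF y z t' h1, ?_⟩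
    unfold nA
    rw [ncard_cat (fun y => ¬ isB y), if_pos h2.1, if_pos h2.2.1]
    omega
  · intro u p
    funext t'
    change ∑ y, ∑ z, c y z * part Φ (p + 1) u (cat y z t') =
      if nT Φ t' = p then ∑ y, ∑ z, c y z * u (cat y z t') else 0
    have h1 : ∀ y z, c y z * part Φ (p + 1) u (cat y z t') =
        if nT Φ t' = p then c y z * u (cat y z t') else 0 := by
      intro y z
      by_cases h : c y z = 0
      · simp [h]
      · unfold part
        rw [hT y z t' h]
        by_cases h2 : nT Φ t' = p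
        · rw [if_pos (by omega), if_pos h2]
        · rw [if_neg (by omega), if_neg h2, mul_zero]
    simp only [h1]
    split_ifs
    · rfl
    · simp

theorem isH11_of [Fintype (Lt K n J)] {Φ : Ty K n J} {a : ∀ k, Fin (n k) → K k} {s : κ → Bool}
    {c : Lt K n J → Lt K n J → ℂ} (hc : Ker Φ c)
    (hmem : (fun t : Fin 2 → Lt K n J => c (t 0) (t 1)) ∈ TQ K n J (Fin 2))
    (hinv : ∀ y y', Sm s y y' → y ≠ y' → ∀ w w',
      iv c y' y w w' = (wt a y / wt a y') * iv c (bar y) (bar y') w w') :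
    IsH11 Φ a s fun t => c (t 0) (t 1) := by
  classical
  refine ⟨hmem, ?_, ?_⟩
  · intro t ht
    have h := (hc.one _ _ ht).2.2
    unfold nT nF
    rw [ncard_sum, ncard_sum, Fin.sum_univ_two, Fin.sum_univ_two]
    by_cases h0 : (t 0).2 ∈ Φ (t 0).1
    · have h1 := h.1 h0
      simp [h0, h1]
    · have h1 : (t 1).2 ∈ Φ (t 1).1 := by
        by_contra h1
        exact h0 (h.2 h1)
      simp [h0, h1]
  · intro y y' h h'
    funext t
    unfold root
    rw [Pi.sub_apply, Pi.smul_apply, smul_eq_mul, eL_pair, eL_pair, hinv y y' h h', sub_self]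
    rfl

theorem resol [Fintype (Lt K n J)] [∀ k, NumberField (K k)] :
    ∃ (N : Type) (_ : Fintype N) (x x' : N → Lp K n J), ∀ y z : Lt K n J,
      ∑ l, lp (x l) y * lp (x' l) z = open Classical in if y = z then 1 else 0 := by
  classical
  have hfin : Finite (Σ k, Ln n J k) := by
    have : ∀ i : Σ k, Ln n J k, Nonempty (K i.1 →+* ℂ) := fun i => inferInstance
    refine Finite.of_injective (fun i => (⟨i, Classical.choice (this i)⟩ : Lt K n J)) ?_
    intro i j h
    exact (Sigma.mk.inj_iff.1 h).1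
  have := Fintype.ofFinite (Σ k, Ln n J k)
  choose d e e' he using fun k => exists_dual (K k)
  refine ⟨Σ i : Σ k, Ln n J k, Fin (d i.1), inferInstance,
    fun l => Pi.single l.1 (e l.1.1 l.2), fun l => Pi.single l.1 (e' l.1.1 l.2), ?_⟩
  rintro ⟨i, τ⟩ ⟨i', τ'⟩
  rw [Fintype.sum_sigma]
  unfold lp
  rw [Finset.sum_eq_single i]
  · by_cases h : i = i'
    · subst h
      simp only [Pi.single_eq_same]
      rw [he]
      by_cases h1 : τ = τ'
      · subst h1
        simp
      · rw [if_neg h1, if_neg]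
        intro h2
        exact h1 (eq_of_heq (Sigma.mk.inj_iff.1 h2).2)
    · rw [if_neg (fun h2 => h (Sigma.mk.inj_iff.1 h2).1)]
      refine Finset.sum_eq_zero fun l _ => ?_
      dsimp only
      rw [Pi.single_eq_of_ne (Ne.symm h), map_zero, mul_zero]
  · intro j _ hj
    refine Finset.sum_eq_zero fun l _ => ?_
    dsimp only
    rw [Pi.single_eq_of_ne (Ne.symm hj), map_zero, zero_mul]
  · intro h
    exact absurd (Finset.mem_univ _) h

theorem mem_of_rat [Fintype (Lt K n J)] [∀ k, NumberField (K k)]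
    {c : Lt K n J → Lt K n J → ℂ}
    (hc : ∀ x x' : Lp K n J, ∃ q : ℚ, ∑ y, ∑ z, c y z * lp x y * lp x' z = q) :
    (fun t : Fin 2 → Lt K n J => c (t 0) (t 1)) ∈ TQ K n J (Fin 2) := by
  classical
  obtain ⟨N, _, x, x', hx⟩ := resol (K := K) (n := n) (J := J)
  choose q hq using hc
  have h1 : (fun t : Fin 2 → Lt K n J => c (t 0) (t 1)) = ∑ l, ∑ l',
      q (x' l) (x' l') • fun t : Fin 2 → Lt K n J => ∏ i, lp (![x l, x l'] i) (t i) := by
    funext t
    have h2 : ∀ y z, (∑ l, lp (x l) (t 0) * lp (x' l) y) * (∑ l', lp (x l') (t 1) * lp (x' l') z) *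
        c y z = if t 0 = y then (if t 1 = z then c y z else 0) else 0 := by
      intro y z
      rw [hx, hx]
      split_ifs <;> simp
    have h3 : c (t 0) (t 1) = ∑ y, ∑ z, (∑ l, lp (x l) (t 0) * lp (x' l) y) *
        (∑ l', lp (x l') (t 1) * lp (x' l') z) * c y z := by
      simp only [h2]
      rw [Finset.sum_eq_single (t 0)]
      · simp
      · intro y _ hy
        simp [Ne.symm hy]
      · intro h
        exact absurd (Finset.mem_univ _) h
    have h4 : ∀ y z, (∑ l, lp (x l) (t 0) * lp (x' l) y) *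
        (∑ l', lp (x l') (t 1) * lp (x' l') z) * c y z = ∑ l, ∑ l',
          (c y z * lp (x' l) y * lp (x' l') z) * (lp (x l) (t 0) * lp (x l') (t 1)) := by
      intro y z
      rw [Finset.sum_mul_sum, Finset.sum_mul]
      refine Finset.sum_congr rfl fun l _ => ?_
      rw [Finset.sum_mul]
      refine Finset.sum_congr rfl fun l' _ => ?_
      ring
    rw [h3]
    simp only [h4]
    rw [Finset.sum_congr rfl fun y _ => Finset.sum_comm, Finset.sum_comm, Finset.sum_apply]
    refine Finset.sum_congr rfl fun l _ => ?_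
    rw [Finset.sum_congr rfl fun y _ => Finset.sum_comm, Finset.sum_comm, Finset.sum_apply]
    refine Finset.sum_congr rfl fun l' _ => ?_
    rw [Pi.smul_apply, Rat.smul_def, ← hq, Fin.prod_univ_two, Finset.sum_mul]
    refine Finset.sum_congr rfl fun y _ => ?_
    rw [Finset.sum_mul]
    rfl
  rw [h1]
  refine Submodule.sum_mem _ fun l _ => Submodule.sum_mem _ fun l' _ =>
    Submodule.smul_mem _ _ (Submodule.subset_span ⟨_, rfl⟩)

/-! ### The letters of the `A k` -/

theorem lA_inj {k : κ} {g g' : Fin (n k)} {τ τ' : K k →+* ℂ} :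
    (lA k g τ : Lt K n J) = lA k g' τ' ↔ g = g' ∧ τ = τ' := by
  constructor
  · intro h
    have h1 := Sigma.mk.inj_iff.1 h
    have h2 := (Sigma.mk.inj_iff.1 h1.1).2
    have h3 : (Sum.inl g : Ln n J k) = Sum.inl g' := eq_of_heq h2
    have h4 : g = g' := Sum.inl.inj h3
    subst h4
    exact ⟨rfl, eq_of_heq h1.2⟩
  · rintro ⟨rfl, rfl⟩
    rfl

theorem exists_lA {y : Lt K n J} (h : ¬ isB y) : ∃ k g τ, y = lA k g τ := by
  obtain ⟨⟨k, i⟩, τ⟩ := y
  rcases i with g | j
  · exact ⟨k, g, τ, rfl⟩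
  · exact absurd rfl h

theorem not_isB_lA (k : κ) (g : Fin (n k)) (τ : K k →+* ℂ) : ¬ isB (lA k g τ : Lt K n J) := by
  intro h
  exact absurd h (by simp [isB, lA])

theorem bar_lA (k : κ) (g : Fin (n k)) (τ : K k →+* ℂ) :
    bar (lA k g τ : Lt K n J) = lA k g (cj τ) := rfl

theorem bar_bar (y : Lt K n J) : bar (bar y) = y := by
  unfold bar
  rw [cj_cj]

/-- letters of one `A k` with the same embedding -/
def sm (y z : Lt K n J) : Prop :=
  ∃ (k : κ) (g g' : Fin (n k)) (τ : K k →+* ℂ), y = lA k g τ ∧ z = lA k g' τ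

theorem sm_lA {k : κ} {g : Fin (n k)} {τ : K k →+* ℂ} {z : Lt K n J} :
    sm (lA k g τ) z ↔ ∃ g', z = lA k g' τ := by
  constructor
  · rintro ⟨k', g₁, g', τ', h1, rfl⟩
    have h2 : k = k' := congrArg (fun y : Lt K n J => y.1.1) h1
    subst h2
    obtain ⟨-, rfl⟩ := lA_inj.1 h1
    exact ⟨g', rfl⟩
  · rintro ⟨g', rfl⟩
    exact ⟨k, g, g', τ, rfl, rfl⟩

theorem Sm_lA {s : κ → Bool} {k : κ} {g : Fin (n k)} {τ : K k →+* ℂ} {z : Lt K n J} :
    Sm s (lA k g τ) z ↔ (∃ g', z = lA k g' τ) ∨ (s k = true ∧ ∃ g', z = lA k g' (cj τ)) := by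
  constructor
  · rintro ⟨k', g₁, g', τ', h1, h3⟩
    have h2 : k = k' := congrArg (fun y : Lt K n J => y.1.1) h1
    subst h2
    obtain ⟨-, rfl⟩ := lA_inj.1 h1
    rcases h3 with h3 | ⟨h3, h4⟩
    · exact Or.inl ⟨g', h3⟩
    · exact Or.inr ⟨h3, g', h4⟩
  · rintro (⟨g', rfl⟩ | ⟨h, g', rfl⟩)
    · exact ⟨k, g, g', τ, rfl, Or.inl rfl⟩
    · exact ⟨k, g, g', τ, rfl, Or.inr ⟨h, rfl⟩⟩

open Classical in
theorem sum_sm [Fintype (Lt K n J)] {M : Type} [AddCommMonoid M] (k : κ) (τ : K k →+* ℂ)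
    (F : Lt K n J → M) :
    ∑ z, (if ∃ g', z = lA k g' τ then F z else 0) = ∑ g' : Fin (n k), F (lA k g' τ) := by
  rw [← Finset.sum_filter]
  have h1 : Finset.univ.filter (fun z : Lt K n J => ∃ g', z = lA k g' τ) =
      Finset.univ.image fun g' : Fin (n k) => (lA k g' τ : Lt K n J) := by
    ext z
    simp only [Finset.mem_filter, Finset.mem_univ, true_and, Finset.mem_image]
    constructor
    · rintro ⟨g', rfl⟩
      exact ⟨g', rfl⟩
    · rintro ⟨g', rfl⟩
      exact ⟨g', rfl⟩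
  rw [h1, Finset.sum_image]
  intro g _ g' _ h
  exact (lA_inj.1 h).1

open Classical in
theorem card_Sm [Fintype (Lt K n J)] (s : κ → Bool) (k : κ) (g : Fin (n k)) (τ : K k →+* ℂ)
    (hτ : cj τ ≠ τ) :
    (Finset.univ.filter fun z : Lt K n J => Sm s (lA k g τ) z).card =
      if s k = true then 2 * n k else n k := by
  rw [Finset.card_filter]
  have h1 : ∀ z : Lt K n J, (if Sm s (lA k g τ) z then 1 else 0) =
      (if ∃ g', z = lA k g' τ then 1 else 0) +
        (if s k = true then (if ∃ g', z = lA k g' (cj τ) then 1 else 0) else 0) := by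
    intro z
    by_cases h2 : ∃ g', z = lA k g' τ
    · have h3 : ¬ ∃ g', z = lA k g' (cj τ) := by
        rintro ⟨g₁, h4⟩
        obtain ⟨g₂, rfl⟩ := h2
        exact hτ (lA_inj.1 h4).2.symm
      rw [if_pos (Sm_lA.2 (Or.inl h2)), if_pos h2, if_neg h3, ite_self]
    · by_cases h3 : s k = true
      · by_cases h4 : ∃ g', z = lA k g' (cj τ)
        · rw [if_pos (Sm_lA.2 (Or.inr ⟨h3, h4⟩)), if_neg h2, if_pos h3, if_pos h4]
        · rw [if_neg, if_neg h2, if_pos h3, if_neg h4]
          intro h5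
          rcases Sm_lA.1 h5 with h5 | h5
          · exact h2 h5
          · exact h4 h5.2
      · rw [if_neg, if_neg h2, if_neg h3]
        intro h5
        rcases Sm_lA.1 h5 with h5 | h5
        · exact h2 h5
        · exact h3 h5.1
  rw [Finset.sum_congr rfl fun z _ => h1 z, Finset.sum_add_distrib, sum_sm k τ]
  by_cases h3 : s k = true
  · simp only [if_pos h3]
    rw [sum_sm k (cj τ)]
    simp
    ring
  · simp only [if_neg h3]
    simp

/-! ### The kernels -/

open Classical in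
/-- the kernel of the pairing -/
def kP (β : Lt K n J → ℂ) (y z : Lt K n J) : ℂ := if z = bar y then β y else 0

/-- the index of a letter -/
def ix (y : Lt K n J) : ℂ := Sum.elim (fun g : Fin (n y.1.1) => ((g : ℕ) : ℂ)) (fun _ => 0) y.1.2

open Classical in
/-- the kernel of the determinant -/
def kA (θ : Lt K n J → ℂ) (y z : Lt K n J) : ℂ := if sm y z then (ix z - ix y) * θ y else 0

theorem sum_line [Fintype (Lt K n J)] [Fintype (Σ k, Ln n J k)] [∀ k, NumberField (K k)]
    (F : Lt K n J → ℂ) :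
    ∑ y, F y = ∑ i : Σ k, Ln n J k, ∑ τ : K i.1 →+* ℂ, F ⟨i, τ⟩ := by
  have h : ∑ y, F y = @Finset.sum _ _ _
      (@Finset.univ (Σ i : Σ k, Ln n J k, (K i.1 →+* ℂ)) Sigma.instFintype) F := by
    congr
    exact Subsingleton.elim _ _
  rw [h, Fintype.sum_sigma]

theorem finite_lines [Fintype (Lt K n J)] [∀ k, NumberField (K k)] :
    Finite (Σ k, Ln n J k) := by
  have : ∀ i : Σ k, Ln n J k, Nonempty (K i.1 →+* ℂ) := fun i => inferInstance
  refine Finite.of_injective (fun i => (⟨i, Classical.choice (this i)⟩ : Lt K n J)) ?_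
  intro i j h
  exact (Sigma.mk.inj_iff.1 h).1

theorem tr_rat {L : Type} [Field L] [NumberField L] (x : L) :
    ∃ q : ℚ, ∑ τ : L →+* ℂ, τ x = q := ⟨_, (trQ L x).symm⟩

theorem sum_rat {I : Type} [Fintype I] {F : I → ℂ} (h : ∀ i, ∃ q : ℚ, F i = q) :
    ∃ q : ℚ, ∑ i, F i = q := by
  choose q hq using h
  refine ⟨∑ i, q i, ?_⟩
  rw [Finset.sum_congr rfl fun i _ => hq i]
  push_cast
  rfl

theorem kP_rat [Fintype (Lt K n J)] [∀ k, NumberField (K k)] [∀ k, NumberField.IsCMField (K k)]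
    (b : Lp K n J) (x x' : Lp K n J) :
    ∃ q : ℚ, ∑ y, ∑ z, kP (lp b) y z * lp x y * lp x' z = q := by
  have := finite_lines (K := K) (n := n) (J := J)
  have := Fintype.ofFinite (Σ k, Ln n J k)
  have h1 : ∀ y, ∑ z, kP (lp b) y z * lp x y * lp x' z = lp b y * lp x y * lp x' (bar y) := by
    intro y
    rw [Finset.sum_eq_single (bar y)]
    · rw [kP, if_pos rfl]
    · intro z _ hz
      rw [kP, if_neg hz, zero_mul, zero_mul]
    · intro h
      exact absurd (Finset.mem_univ _) h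
  simp only [h1]
  rw [sum_line]
  refine sum_rat fun i => ?_
  have h2 : ∀ τ : K i.1 →+* ℂ, lp b (⟨i, τ⟩ : Lt K n J) * lp x ⟨i, τ⟩ * lp x' (bar ⟨i, τ⟩) =
      τ (b i * x i * NumberField.IsCMField.complexConj (K i.1) (x' i)) := by
    intro τ
    rw [map_mul, map_mul, NumberField.IsCMField.complexEmbedding_complexConj]
    rfl
  simp only [h2]
  exact tr_rat _

/-- the values of an element of `∏ k, K k` -/
def th (q : ∀ k, K k) (y : Lt K n J) : ℂ := y.2 (q y.1.1)

theorem kA_rat [Fintype (Lt K n J)] [∀ k, NumberField (K k)]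
    (q : ∀ k, K k) (x x' : Lp K n J) :
    ∃ r : ℚ, ∑ y, ∑ z, kA (th q) y z * lp x y * lp x' z = r := by
  classical
  have := finite_lines (K := K) (n := n) (J := J)
  have := Fintype.ofFinite (Σ k, Ln n J k)
  rw [sum_line]
  refine sum_rat ?_
  rintro ⟨k, g | j⟩
  · have h1 : ∀ τ : K k →+* ℂ, ∑ z, kA (th q) (lA k g τ) z *
        lp x (lA k g τ) * lp x' z = ∑ g' : Fin (n k), (((g' : ℕ) : ℂ) - ((g : ℕ) : ℂ)) *
          τ (q k * x ⟨k, Sum.inl g⟩ * x' ⟨k, Sum.inl g'⟩) := by
      intro τ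
      have h2 : ∀ z, kA (th q) (lA k g τ) z * lp x (lA k g τ) * lp x' z =
          if ∃ g', z = lA k g' τ then (ix z - ix (lA k g τ : Lt K n J)) *
            th q (lA k g τ : Lt K n J) * lp x (lA k g τ) * lp x' z else 0 := by
        intro z
        by_cases h : ∃ g', z = lA k g' τ
        · rw [if_pos h, kA, if_pos (sm_lA.2 h)]
        · rw [if_neg h, kA, if_neg (fun h' => h (sm_lA.1 h')), zero_mul, zero_mul]
      simp only [h2]
      rw [sum_sm k τ]
      refine Finset.sum_congr rfl fun g' _ => ?_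
      rw [map_mul, map_mul]
      change (((g' : ℕ) : ℂ) - ((g : ℕ) : ℂ)) * τ (q k) * τ (x ⟨k, Sum.inl g⟩) *
        τ (x' ⟨k, Sum.inl g'⟩) = _
      ring
    have h3 : ∑ τ : K k →+* ℂ, ∑ z, kA (th q) (lA k g τ) z * lp x (lA k g τ) * lp x' z =
        ∑ g' : Fin (n k), (((g' : ℕ) : ℂ) - ((g : ℕ) : ℂ)) *
          ∑ τ : K k →+* ℂ, τ (q k * x ⟨k, Sum.inl g⟩ * x' ⟨k, Sum.inl g'⟩) := by
      simp only [h1, Finset.mul_sum]
      exact Finset.sum_comm
    change ∃ r : ℚ, ∑ τ : K k →+* ℂ, ∑ z, kA (th q) (lA k g τ) z * lp x (lA k g τ) *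
      lp x' z = r
    rw [h3]
    refine sum_rat fun g' => ?_
    obtain ⟨r, hr⟩ := tr_rat (q k * x ⟨k, Sum.inl g⟩ * x' ⟨k, Sum.inl g'⟩)
    refine ⟨(((g' : ℕ) : ℚ) - ((g : ℕ) : ℚ)) * r, ?_⟩
    rw [hr]
    push_cast
    rfl
  · refine ⟨0, ?_⟩
    rw [Rat.cast_zero]
    refine Finset.sum_eq_zero fun τ _ => Finset.sum_eq_zero fun z _ => ?_
    rw [kA, if_neg, zero_mul, zero_mul]
    rintro ⟨k', g, g', τ', h, -⟩
    have h1 : isB (lA k' g τ' : Lt K n J) := by
      rw [← h]
      rfl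
    exact not_isB_lA k' g τ' h1

/-! ### Invariance -/

theorem kP_iv (β : Lt K n J → ℂ) (r : ℂ) (y y' : Lt K n J) (h1 : β y = r * β y')
    (h2 : β (bar y) = r * β (bar y')) (w w' : Lt K n J) :
    iv (kP β) y y' w w' = r * iv (kP β) (bar y') (bar y) w w' := by
  classical
  have t1 : (if w = y' then kP β y w' else 0) =
      r * (if w' = bar y then kP β w (bar y') else 0) := by
    unfold kP
    by_cases a1 : w = y'
    · subst a1
      by_cases a2 : w' = bar y
      · rw [if_pos rfl, if_pos a2, if_pos a2, if_pos rfl, h1]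
      · rw [if_pos rfl, if_neg a2, if_neg a2, mul_zero]
    · have a3 : ¬ bar y' = bar w := fun h => a1 (by rw [← bar_bar w, ← h, bar_bar])
      rw [if_neg a1, if_neg a3, ite_self, mul_zero]
  have t2 : (if w' = y' then kP β w y else 0) =
      r * (if w = bar y then kP β (bar y') w' else 0) := by
    unfold kP
    rw [bar_bar]
    by_cases a1 : w = bar y
    · subst a1
      rw [if_pos (bar_bar y).symm, if_pos rfl]
      by_cases a2 : w' = y'
      · rw [if_pos a2, if_pos a2, h2]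
      · rw [if_neg a2, if_neg a2, mul_zero]
    · have a3 : ¬ y = bar w := fun h => a1 (by rw [h, bar_bar])
      rw [if_neg a1, if_neg a3, ite_self, mul_zero]
  unfold iv
  rw [mul_add, add_comm (r * _)]
  congr 1
  · convert t1
  · convert t2

theorem iv_zero {c : Lt K n J → Lt K n J → ℂ} (anti : ∀ w z, c w z = - c z w)
    {y y' : Lt K n J} (two : ∀ w, c y w ≠ 0 → w = y') (w w' : Lt K n J) :
    iv c y y' w w' = 0 := by
  unfold iv
  by_cases h1 : w = y'
  · by_cases h2 : w' = y'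
    · rw [if_pos h1, if_pos h2, h1, h2, anti y' y, add_neg_cancel]
    · have h3 : c y w' = 0 := by
        by_contra h3
        exact h2 (two w' h3)
      rw [if_pos h1, if_neg h2, h3, add_zero]
  · by_cases h2 : w' = y'
    · have h3 : c y w = 0 := by
        by_contra h3
        exact h1 (two w h3)
      rw [if_neg h1, if_pos h2, anti w y, h3, neg_zero, add_zero]
    · rw [if_neg h1, if_neg h2, add_zero]

theorem sm_symm {y z : Lt K n J} (h : sm y z) : sm z y := by
  obtain ⟨k, g, g', τ, rfl, rfl⟩ := h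
  exact ⟨k, g', g, τ, rfl, rfl⟩

theorem kA_anti (q : ∀ k, K k) (w z : Lt K n J) : kA (th q) w z = - kA (th q) z w := by
  unfold kA
  by_cases h : sm w z
  · rw [if_pos h, if_pos (sm_symm h)]
    obtain ⟨k, g, g', τ, rfl, rfl⟩ := h
    change _ * τ (q k) = - (_ * τ (q k))
    ring
  · rw [if_neg h, if_neg (fun h' => h (sm_symm h')), neg_zero]

theorem kA_data {q : ∀ k, K k} {y w : Lt K n J} (h : kA (th q) y w ≠ 0) :
    ∃ (k : κ) (g g' : Fin (n k)) (τ : K k →+* ℂ), y = lA k g τ ∧ w = lA k g' τ ∧ g ≠ g' ∧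
      q k ≠ 0 := by
  unfold kA at h
  split_ifs at h with h1
  · obtain ⟨k, g, g', τ, rfl, rfl⟩ := h1
    refine ⟨k, g, g', τ, rfl, rfl, ?_, ?_⟩
    · rintro rfl
      exact h (by rw [sub_self, zero_mul])
    · intro h2
      refine h ?_
      change _ * τ (q k) = 0
      rw [h2, map_zero, mul_zero]
  · exact absurd rfl h

theorem kA_two {s : κ → Bool} {q : ∀ k, K k} (hq : ∀ k, q k ≠ 0 → s k = false ∧ n k = 2)
    {y y' : Lt K n J} (h : Sm s y y') (h' : y ≠ y') (w : Lt K n J) (hw : kA (th q) y w ≠ 0) :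
    w = y' := by
  obtain ⟨k, g, g₁, τ, rfl, rfl, hg, hk⟩ := kA_data hw
  obtain ⟨hs, hn⟩ := hq k hk
  rcases Sm_lA.1 h with ⟨g', rfl⟩ | ⟨h1, -⟩
  · have h2 : g ≠ g' := fun h2 => h' (by rw [h2])
    have h3 : g₁ = g' := by
      ext
      have e1 : (g : ℕ) ≠ g₁ := fun e => hg (Fin.ext e)
      have e2 : (g : ℕ) ≠ g' := fun e => h2 (Fin.ext e)
      have e3 := g.2
      have e4 := g'.2
      have e5 := g₁.2
      omega
    rw [h3]
  · rw [hs] at h1
    exact absurd h1 (by simp)

theorem kA_iv {s : κ → Bool} {q : ∀ k, K k} (hq : ∀ k, q k ≠ 0 → s k = false ∧ n k = 2)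
    {y y' : Lt K n J} (h : Sm s y y') (h' : y ≠ y') (w w' : Lt K n J) :
    iv (kA (th q)) y y' w w' = 0 :=
  iv_zero (kA_anti q) (kA_two hq h h') w w'

theorem Sm_bar {s : κ → Bool} {y y' : Lt K n J} (h : Sm s y y') : Sm s (bar y) (bar y') := by
  obtain ⟨k, g, g', τ, rfl, h1 | ⟨h2, h1⟩⟩ := h
  · subst h1
    exact ⟨k, g, g', cj τ, rfl, Or.inl rfl⟩
  · subst h1
    exact ⟨k, g, g', cj τ, rfl, Or.inr ⟨h2, rfl⟩⟩

theorem Sm_symm {s : κ → Bool} {y y' : Lt K n J} (h : Sm s y y') : Sm s y' y := by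
  obtain ⟨k, g, g', τ, rfl, h1 | ⟨h2, h1⟩⟩ := h
  · subst h1
    exact ⟨k, g', g, τ, rfl, Or.inl rfl⟩
  · subst h1
    exact ⟨k, g', g, cj τ, rfl, Or.inr ⟨h2, by rw [cj_cj]⟩⟩

theorem bar_ne {y y' : Lt K n J} (h : y ≠ y') : bar y ≠ bar y' := by
  intro h'
  exact h (by rw [← bar_bar y, h', bar_bar])

/-! ### The coefficients -/

/-- the coefficients of the contraction -/
def bc (a : ∀ k, Fin (n k) → K k) (q : ∀ k, K k) : Lp K n J :=
  fun i => Sum.elim (fun g => q i.1 * a i.1 g) (fun _ => 0) i.2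

/-- the coefficients of the class -/
def bd (a : ∀ k, Fin (n k) → K k) (N : κ → ℕ) (q : ∀ k, K k) : Lp K n J :=
  fun i => Sum.elim (fun g => q i.1 / (N i.1 * a i.1 g)) (fun _ => 0) i.2

theorem lp_bc (a : ∀ k, Fin (n k) → K k) (q : ∀ k, K k) (k : κ) (g : Fin (n k)) (τ : K k →+* ℂ) :
    lp (bc a q) (lA k g τ : Lt K n J) = τ (q k) * τ (a k g) := map_mul τ _ _

theorem lp_bd (a : ∀ k, Fin (n k) → K k) (N : κ → ℕ) (q : ∀ k, K k) (k : κ) (g : Fin (n k))
    (τ : K k →+* ℂ) :
    lp (bd a N q) (lA k g τ : Lt K n J) = τ (q k) / (N k * τ (a k g)) := by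
  change τ (q k / (N k * a k g)) = _
  rw [map_div₀, map_mul, map_natCast]

theorem wt_lA (a : ∀ k, Fin (n k) → K k) (k : κ) (g : Fin (n k)) (τ : K k →+* ℂ) :
    wt a (lA k g τ : Lt K n J) = τ (a k g) := rfl

theorem isB_bc {a : ∀ k, Fin (n k) → K k} {q : ∀ k, K k} {y : Lt K n J}
    (h : lp (bc a q) y ≠ 0) : ¬ isB y := by
  obtain ⟨⟨k, g | j⟩, τ⟩ := y
  · exact not_isB_lA k g τ
  · exact absurd (map_zero τ) h

theorem isB_bd {a : ∀ k, Fin (n k) → K k} {N : κ → ℕ} {q : ∀ k, K k} {y : Lt K n J}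
    (h : lp (bd a N q) y ≠ 0) : ¬ isB y := by
  obtain ⟨⟨k, g | j⟩, τ⟩ := y
  · exact not_isB_lA k g τ
  · exact absurd (map_zero τ) h

theorem ker_kP [Fintype (Lt K n J)] [∀ k, NumberField (K k)] [∀ k, NumberField.IsCMField (K k)]
    {Φ : Ty K n J} (hΦ : ∀ i, IsCMType (Φ i)) (b : Lp K n J)
    (hb : ∀ y : Lt K n J, lp b y ≠ 0 → ¬ isB y) : Ker Φ (kP (lp b)) := by
  refine ⟨kP_rat b, fun y z h => ?_⟩
  unfold kP at h
  split_ifs at h with h1
  · subst h1
    refine ⟨hb y h, hb y h, ?_⟩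
    have h2 := hΦ y.1 y.2
    change y.2 ∈ Φ y.1 ↔ cj y.2 ∉ Φ y.1
    rw [h2, not_not]
  · exact absurd rfl h

theorem ker_kA [Fintype (Lt K n J)] [∀ k, NumberField (K k)] {Φ : Ty K n J}
    {a : ∀ k, Fin (n k) → K k} {s : κ → Bool} (hd : IsDat Φ a s) {q : ∀ k, K k}
    (hq : ∀ k, q k ≠ 0 → s k = false ∧ n k = 2) : Ker Φ (kA (J := J) (th q)) := by
  refine ⟨kA_rat q, fun y z h => ?_⟩
  obtain ⟨k, g, g', τ, rfl, rfl, hg, hk⟩ := kA_data h
  obtain ⟨hs, hn⟩ := hq k hk
  refine ⟨not_isB_lA k g τ, not_isB_lA k g' τ, ?_⟩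
  rcases hd.blk k hs with h1 | h1
  · obtain ⟨g₀, h2⟩ := Set.ncard_eq_one.1 (h1.2 τ)
    have h3 : ∀ g, τ ∈ Φ ⟨k, Sum.inl g⟩ ↔ g = g₀ := fun g => by
      have := Set.ext_iff.1 h2 g
      simpa using this
    change τ ∈ Φ ⟨k, Sum.inl g⟩ ↔ τ ∉ Φ ⟨k, Sum.inl g'⟩
    rw [h3, h3]
    have e1 : (g : ℕ) ≠ g' := fun e => hg (Fin.ext e)
    have e3 := g.2
    have e4 := g'.2
    have e5 := g₀.2
    constructor
    · rintro rfl h4
      exact hg h4.symm
    · intro h4
      have e6 : (g' : ℕ) ≠ g₀ := fun e => h4 (Fin.ext e)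
      ext
      omega
  · exact absurd (hn.symm.trans h1.1) (by norm_num)

section inv

variable {Φ : Ty K n J} {a : ∀ k, Fin (n k) → K k} {s : κ → Bool}

theorem cj_a (hd : IsDat Φ a s) (k : κ) (g : Fin (n k)) (τ : K k →+* ℂ) :
    cj τ (a k g) = (if s k then (-1 : ℂ) else 1) * τ (a k g) := by
  rw [hd.sgn k g τ]
  split_ifs <;> ring

theorem tau_ne (hd : IsDat Φ a s) (k : κ) (g : Fin (n k)) (τ : K k →+* ℂ) : τ (a k g) ≠ 0 :=
  (map_ne_zero τ).2 (hd.ne k g)

theorem bc_inv (hd : IsDat Φ a s) {q : ∀ k, K k}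
    (hq : ∀ k, s k = true → ∀ τ : K k →+* ℂ, cj τ (q k) = τ (q k)) {y y' : Lt K n J}
    (h : Sm s y y') : lp (bc a q) y = (wt a y / wt a y') * lp (bc a q) y' ∧
      lp (bc a q) (bar y) = (wt a y / wt a y') * lp (bc a q) (bar y') := by
  obtain ⟨k, g, g', τ, rfl, h1 | ⟨h2, h1⟩⟩ := h
  · subst h1
    simp only [bar_lA, lp_bc, wt_lA, cj_a hd]
    have e1 := tau_ne hd k g' τ
    constructor <;> field_simp
  · subst h1
    simp only [bar_lA, lp_bc, wt_lA, cj_cj, hq k h2, cj_a hd, h2, if_true]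
    have e1 := tau_ne hd k g' τ
    constructor <;> field_simp

theorem bd_inv (hd : IsDat Φ a s) (N : κ → ℕ) {q : ∀ k, K k}
    (hq : ∀ k, s k = true → ∀ τ : K k →+* ℂ, cj τ (q k) = τ (q k)) {y y' : Lt K n J}
    (h : Sm s y y') : lp (bd a N q) y' = (wt a y / wt a y') * lp (bd a N q) y ∧
      lp (bd a N q) (bar y') = (wt a y / wt a y') * lp (bd a N q) (bar y) := by
  obtain ⟨k, g, g', τ, rfl, h1 | ⟨h2, h1⟩⟩ := h
  · subst h1
    simp only [bar_lA, lp_bd, wt_lA, cj_a hd]
    have e1 := tau_ne hd k g' τ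
    have e2 := tau_ne hd k g τ
    constructor <;> field_simp
  · subst h1
    simp only [bar_lA, lp_bd, wt_lA, cj_cj, hq k h2, cj_a hd, h2, if_true]
    have e1 := tau_ne hd k g' τ
    have e2 := tau_ne hd k g τ
    constructor <;> field_simp

end inv

/-! ### The dual families -/

open Classical in
theorem exists_family [Finite κ] [∀ k, NumberField (K k)] [∀ k, NumberField.IsCMField (K k)]
    (s : κ → Bool) (hcj : ∀ k (τ : K k →+* ℂ), cj τ ≠ τ) :
    ∃ (M : Type) (_ : Fintype M) (q q' : M → ∀ k, K k),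
      (∀ m k, s k = true → ∀ τ : K k →+* ℂ, cj τ (q m k) = τ (q m k)) ∧
      (∀ m k, s k = true → ∀ τ : K k →+* ℂ, cj τ (q' m k) = τ (q' m k)) ∧
      ∀ (k k' : κ) (g : Fin (n k)) (g' : Fin (n k')) (τ : K k →+* ℂ) (τ' : K k' →+* ℂ),
        ∑ m, τ (q m k) * τ' (q' m k') =
          if Sm s (lA k g τ : Lt K n J) (lA k' g' τ') then 1 else 0 := by
  have := Fintype.ofFinite κ
  choose d e e' he using fun k => exists_dual (K k)
  let c : ∀ k, K k → K k := fun k => NumberField.IsCMField.complexConj (K k)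
  have hc : ∀ k (τ : K k →+* ℂ) x, τ (c k x) = conj (τ x) := fun k τ x =>
    NumberField.IsCMField.complexEmbedding_complexConj (K k) τ x
  refine ⟨Σ k, Fin (d k), inferInstance,
    fun m => Pi.single m.1 (if s m.1 then e m.1 m.2 + c m.1 (e m.1 m.2) else e m.1 m.2),
    fun m => Pi.single m.1 (if s m.1 then (e' m.1 m.2 + c m.1 (e' m.1 m.2)) / 2 else e' m.1 m.2),
    ?_, ?_, ?_⟩
  · intro m k hs τ
    by_cases h : k = m.1
    · subst h
      simp only [Pi.single_eq_same, hs, if_true]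
      rw [cj_apply, map_add, map_add, hc, conj_conj, add_comm]
    · dsimp only
      rw [Pi.single_eq_of_ne h, map_zero, map_zero]
  · intro m k hs τ
    by_cases h : k = m.1
    · subst h
      simp only [Pi.single_eq_same, hs, if_true]
      rw [cj_apply, map_div₀, map_div₀, map_add, map_add, hc, conj_conj, add_comm]
      congr 1
      rw [map_ofNat, map_ofNat]
    · dsimp only
      rw [Pi.single_eq_of_ne h, map_zero, map_zero]
  · intro k k' g g' τ τ'
    rw [Fintype.sum_sigma, Finset.sum_eq_single k]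
    · by_cases h : k = k'
      · subst h
        simp only [Pi.single_eq_same]
        have h1 : Sm s (lA k g τ : Lt K n J) (lA k g' τ') ↔ τ = τ' ∨ s k = true ∧ cj τ = τ' := by
          rw [Sm_lA]
          constructor
          · rintro (⟨g₁, h1⟩ | ⟨h2, g₁, h1⟩)
            · exact Or.inl (lA_inj.1 h1).2.symm
            · exact Or.inr ⟨h2, (lA_inj.1 h1).2.symm⟩
          · rintro (rfl | ⟨h2, rfl⟩)
            · exact Or.inl ⟨g', rfl⟩
            · exact Or.inr ⟨h2, g', rfl⟩
        have h2 : (if Sm s (lA k g τ : Lt K n J) (lA k g' τ') then (1 : ℂ) else 0) =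
            if τ = τ' ∨ s k = true ∧ cj τ = τ' then 1 else 0 := by
          by_cases h3 : τ = τ' ∨ s k = true ∧ cj τ = τ'
          · rw [if_pos h3, if_pos (h1.2 h3)]
          · rw [if_neg h3, if_neg (fun h4 => h3 (h1.1 h4))]
        rw [h2]
        by_cases hs : s k = true
        · simp only [hs, if_true, true_and]
          have h3 : ∀ l, τ (e k l + c k (e k l)) * τ' ((e' k l + c k (e' k l)) / 2) =
              (τ (e k l) * τ' (e' k l) + τ (e k l) * cj τ' (e' k l) +
                (cj τ (e k l) * τ' (e' k l) + cj τ (e k l) * cj τ' (e' k l))) / 2 := by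
            intro l
            rw [map_add, map_div₀, map_add, hc, hc, map_ofNat, cj_apply, cj_apply]
            ring
          simp only [h3]
          rw [← Finset.sum_div, Finset.sum_add_distrib, Finset.sum_add_distrib,
            Finset.sum_add_distrib, he, he, he, he]
          have e1 : (cj τ = cj τ') ↔ τ = τ' :=
            ⟨fun h => by rw [← cj_cj τ, h, cj_cj], fun h => by rw [h]⟩
          have e2 : (τ = cj τ') ↔ cj τ = τ' :=
            ⟨fun h => by rw [h, cj_cj], fun h => by rw [← h, cj_cj]⟩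
          by_cases h4 : τ = τ'
          · have h5 : ¬ cj τ = τ' := fun h5 => hcj k τ (h5.trans h4.symm)
            rw [if_pos h4, if_neg (fun h => h5 (e2.1 h)), if_neg h5, if_pos (e1.2 h4),
              if_pos (Or.inl h4)]
            norm_num
          · by_cases h5 : cj τ = τ'
            · rw [if_neg h4, if_pos (e2.2 h5), if_pos h5, if_neg (fun h => h4 (e1.1 h)),
                if_pos (Or.inr h5)]
              norm_num
            · rw [if_neg h4, if_neg (fun h => h5 (e2.1 h)), if_neg h5,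
                if_neg (fun h => h4 (e1.1 h)), if_neg]
              · norm_num
              · rintro (h | h)
                · exact h4 h
                · exact h5 h
        · simp only [hs, false_and, or_false]
          simpa using he k τ τ'
      · have h1 : ¬ Sm s (lA k g τ : Lt K n J) (lA k' g' τ') := by
          intro h1
          rcases Sm_lA.1 h1 with ⟨g₁, h2⟩ | ⟨-, g₁, h2⟩
          · exact h (congrArg (fun y : Lt K n J => y.1.1) h2).symm
          · exact h (congrArg (fun y : Lt K n J => y.1.1) h2).symm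
        rw [if_neg h1]
        refine Finset.sum_eq_zero fun l _ => ?_
        dsimp only
        rw [Pi.single_eq_of_ne (Ne.symm h), map_zero, mul_zero]
    · intro j _ hj
      refine Finset.sum_eq_zero fun l _ => ?_
      dsimp only
      rw [Pi.single_eq_of_ne (Ne.symm hj), map_zero, zero_mul]
    · intro h
      exact absurd (Finset.mem_univ _) h

theorem ctr_kP [Fintype (Lt K n J)] {P : Type} (β : Lt K n J → ℂ)
    (u : (Fin 2 ⊕ P → Lt K n J) → ℂ) (t' : P → Lt K n J) :
    ctr (kP β) u t' = ∑ y, β y * u (cat y (bar y) t') := by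
  change ∑ y, ∑ z, kP β y z * u (cat y z t') = _
  refine Finset.sum_congr rfl fun y _ => ?_
  rw [Finset.sum_eq_single (bar y)]
  · rw [kP, if_pos rfl]
  · intro z _ hz
    rw [kP, if_neg hz, zero_mul]
  · intro h
    exact absurd (Finset.mem_univ _) h

theorem sum_two {N : ℕ} (hN : N = 2) (F : Fin N → ℂ) (g g' : Fin N) (h : g ≠ g') :
    ∑ x, F x = F g + F g' := by
  subst hN
  rw [Fin.sum_univ_two]
  fin_cases g <;> fin_cases g'
  · exact absurd rfl h
  · rfl
  · exact add_comm _ _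
  · exact absurd rfl h

theorem diff_sq {N : ℕ} (hN : N = 2) (g g' : Fin N) (h : g ≠ g') :
    (((g' : ℕ) : ℂ) - ((g : ℕ) : ℂ)) * (((g' : ℕ) : ℂ) - ((g : ℕ) : ℂ)) = 1 := by
  subst hN
  fin_cases g <;> fin_cases g'
  · exact absurd rfl h
  · norm_num
  · norm_num
  · exact absurd rfl h

section fin

variable {a : ∀ k, Fin (n k) → K k} {s : κ → Bool} {D : LS (Lt K n J)} [Fintype (Lt K n J)]
  {M : Type} [Fintype M] {q q' : M → ∀ k, K k} {P : Type}

open Classical in
theorem pr_eq (hls : IsLS a s D) (N : κ → ℕ) (hN : ∀ k g τ, D.N (lA k g τ) = N k)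
    (hqq : ∀ (k k' : κ) (g : Fin (n k)) (g' : Fin (n k')) (τ : K k →+* ℂ) (τ' : K k' →+* ℂ),
        ∑ m, τ (q m k) * τ' (q' m k') =
          if Sm s (lA k g τ : Lt K n J) (lA k' g' τ') then 1 else 0)
    (u : (Fin 2 ⊕ P → Lt K n J) → ℂ) (t : Fin 2 ⊕ P → Lt K n J) :
    D.pr (Sum.inl 0) (Sum.inl 1) u t = ∑ m, kP (lp (bd a N (q m))) (t (Sum.inl 0)) (t (Sum.inl 1)) *
      ctr (kP (lp (bc a (q' m)))) u fun j => t (Sum.inr j) := by
  have hup : ∀ y, up (up t (Sum.inl 0) y) (Sum.inl 1) (bar y) =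
      cat y (bar y) fun j => t (Sum.inr j) := by
    intro y
    rw [eq_cat t, up_inl0, up_inl1]
    rfl
  unfold LS.pr
  simp only [hls.hbar, hls.ha, hls.hS, hup]
  by_cases h : t (Sum.inl 1) = bar (t (Sum.inl 0)) ∧ Sm s (t (Sum.inl 0)) (t (Sum.inl 0))
  · rw [if_pos h]
    obtain ⟨h1, k, g, -, τ, h2, -⟩ := h
    rw [h2] at h1
    have h3 : ∀ m, kP (lp (bd a N (q m))) (t (Sum.inl 0)) (t (Sum.inl 1)) =
        τ (q m k) / (N k * τ (a k g)) := by
      intro m
      rw [h2, h1, kP, if_pos rfl, lp_bd]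
    have h4 : ∀ y : Lt K n J, ∑ m, τ (q m k) * lp (bc a (q' m)) y =
        if Sm s (lA k g τ) y then wt a y else 0 := by
      intro y
      by_cases hy : isB y
      · have h5 : ¬ Sm s (lA k g τ) y := by
          intro h5
          obtain ⟨k', g₁, g', τ', -, h6 | ⟨-, h6⟩⟩ := h5
          · exact not_isB_lA k' g' τ' (h6 ▸ hy)
          · exact not_isB_lA k' g' (cj τ') (h6 ▸ hy)
        rw [if_neg h5]
        refine Finset.sum_eq_zero fun m _ => ?_
        have h6 : lp (bc a (q' m)) y = 0 := by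
          by_contra h6
          exact isB_bc h6 hy
        rw [h6, mul_zero]
      · obtain ⟨k', g', τ', rfl⟩ := exists_lA hy
        have h5 : ∑ m, τ (q m k) * lp (bc a (q' m)) (lA k' g' τ' : Lt K n J) =
            (∑ m, τ (q m k) * τ' (q' m k')) * τ' (a k' g') := by
          rw [Finset.sum_mul]
          refine Finset.sum_congr rfl fun m _ => ?_
          rw [lp_bc, mul_assoc]
        rw [h5, hqq k k' g g' τ τ']
        split_ifs
        · rw [one_mul, wt_lA]
        · rw [zero_mul]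
    simp only [h3, ctr_kP]
    rw [h2, hN, wt_lA, Finset.mul_sum]
    have h5 : ∑ m, τ (q m k) / (N k * τ (a k g)) * ∑ y, lp (bc a (q' m)) y *
        u (cat y (bar y) fun j => t (Sum.inr j)) =
        ∑ y, ((N k : ℂ) * τ (a k g))⁻¹ * ((∑ m, τ (q m k) * lp (bc a (q' m)) y) *
          u (cat y (bar y) fun j => t (Sum.inr j))) := by
      simp only [Finset.mul_sum, Finset.sum_mul]
      rw [Finset.sum_comm]
      refine Finset.sum_congr rfl fun y _ => Finset.sum_congr rfl fun m _ => ?_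
      ring
    rw [h5]
    refine Finset.sum_congr rfl fun y _ => ?_
    rw [h4]
    split_ifs
    · rfl
    · rw [zero_mul]
  · rw [if_neg h]
    symm
    refine Finset.sum_eq_zero fun m _ => ?_
    have h3 : kP (lp (bd a N (q m))) (t (Sum.inl 0)) (t (Sum.inl 1)) = 0 := by
      by_contra h3
      unfold kP at h3
      split_ifs at h3 with h4
      · obtain ⟨k, g, τ, h5⟩ := exists_lA (isB_bd h3)
        exact h ⟨h4, k, g, g, τ, h5, Or.inl h5⟩
      · exact h3 rfl
    rw [h3, zero_mul]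

/-- the elements for the unitary blocks of rank 2 -/
def cut (n : κ → ℕ) (s : κ → Bool) (x : ∀ k, K k) (k : κ) : K k :=
  if s k = false ∧ n k = 2 then x k else 0

omit [Fintype (Lt K n J)] in
theorem cut_ne {x : ∀ k, K k} (k : κ) (h : cut n s x k ≠ 0) : s k = false ∧ n k = 2 := by
  by_contra h1
  exact h (if_neg h1)

open Classical in
theorem an_eq (hls : IsLS a s D)
    (hqq : ∀ (k k' : κ) (g : Fin (n k)) (g' : Fin (n k')) (τ : K k →+* ℂ) (τ' : K k' →+* ℂ),
        ∑ m, τ (q m k) * τ' (q' m k') =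
          if Sm s (lA k g τ : Lt K n J) (lA k' g' τ') then 1 else 0)
    (u : (Fin 2 ⊕ P → Lt K n J) → ℂ) (t : Fin 2 ⊕ P → Lt K n J) :
    (if n (t (Sum.inl 0)).1.1 = 2 then D.an (Sum.inl 0) (Sum.inl 1) u t else 0) =
      ∑ m, (kA (th (cut n s (q m))) (t (Sum.inl 0)) (t (Sum.inl 1)) / 2) *
        ctr (kA (th (cut n s (q' m)))) u fun j => t (Sum.inr j) := by
  have hup : up (up t (Sum.inl 0) (t (Sum.inl 1))) (Sum.inl 1) (t (Sum.inl 0)) =
      cat (t (Sum.inl 1)) (t (Sum.inl 0)) fun j => t (Sum.inr j) := by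
    conv_lhs => rw [eq_cat t, up_inl0, up_inl1]
    rfl
  have ht : t = cat (t (Sum.inl 0)) (t (Sum.inl 1)) fun j => t (Sum.inr j) := eq_cat t
  unfold LS.an
  rw [hup]
  simp only [hls.hS, hls.hsp]
  by_cases h : n (t (Sum.inl 0)).1.1 = 2 ∧ Sm s (t (Sum.inl 0)) (t (Sum.inl 1)) ∧
      ¬ s (t (Sum.inl 0)).1.1 = true
  · rw [if_pos h.1, if_pos h.2]
    obtain ⟨hn, ⟨k, g, g', τ, h1, h2⟩, hs⟩ := h
    rw [h1] at hn hs
    have hs' : s k = false := Bool.eq_false_iff.2 hs
    have hn' : n k = 2 := hn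
    have h3 : t (Sum.inl 1) = lA k g' τ := by
      rcases h2 with h2 | h2
      · exact h2
      · exact absurd h2.1 hs
    have h4 : ∀ m, kA (th (cut n s (q m))) (t (Sum.inl 0)) (t (Sum.inl 1)) / 2 =
        (((g' : ℕ) : ℂ) - ((g : ℕ) : ℂ)) / 2 * τ (q m k) := by
      intro m
      rw [h1, h3, kA, if_pos ⟨k, g, g', τ, rfl, rfl⟩]
      change (((g' : ℕ) : ℂ) - ((g : ℕ) : ℂ)) * τ (cut n s (q m) k) / 2 = _
      rw [cut, if_pos ⟨hs', hn'⟩]
      ring
    have h5 : ∀ y z : Lt K n J, ∑ m, τ (q m k) * kA (th (cut n s (q' m))) y z =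
        if ∃ g₁, y = lA k g₁ τ then (if sm y z then ix z - ix y else 0) else 0 := by
      intro y z
      by_cases h6 : sm y z
      · obtain ⟨k', g₁, g₂, τ', rfl, rfl⟩ := h6
        have h7 : ∀ m, τ (q m k) * kA (th (cut n s (q' m))) (lA k' g₁ τ' : Lt K n J)
            (lA k' g₂ τ') = (if s k' = false ∧ n k' = 2 then (1 : ℂ) else 0) *
              (ix (lA k' g₂ τ' : Lt K n J) - ix (lA k' g₁ τ' : Lt K n J)) *
                (τ (q m k) * τ' (q' m k')) := by
          intro m
          rw [kA, if_pos ⟨k', g₁, g₂, τ', rfl, rfl⟩]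
          change τ (q m k) * ((ix (lA k' g₂ τ' : Lt K n J) - ix (lA k' g₁ τ' : Lt K n J)) *
            τ' (cut n s (q' m) k')) = _
          unfold cut
          split_ifs
          · ring
          · rw [map_zero]
            ring
        have h12 : sm (lA k' g₁ τ' : Lt K n J) (lA k' g₂ τ') := ⟨k', g₁, g₂, τ', rfl, rfl⟩
        simp only [h7]
        rw [← Finset.mul_sum, hqq k k' g g₁ τ τ', if_pos h12]
        by_cases h8 : ∃ g₃, (lA k' g₁ τ' : Lt K n J) = lA k g₃ τ
        · rw [if_pos h8, if_pos (Sm_lA.2 (Or.inl h8))]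
          obtain ⟨g₃, h9⟩ := h8
          have h10 : k' = k := congrArg (fun y : Lt K n J => y.1.1) h9
          subst h10
          rw [if_pos ⟨hs', hn'⟩, one_mul, mul_one]
        · rw [if_neg h8, if_neg (c := Sm s (lA k g τ) (lA k' g₁ τ')), mul_zero]
          intro h9
          rcases Sm_lA.1 h9 with h9 | h9
          · exact h8 h9
          · exact hs h9.1
      · rw [if_neg h6, ite_self]
        refine Finset.sum_eq_zero fun m _ => ?_
        rw [kA, if_neg h6, mul_zero]
    have h6 : ∑ m, (((g' : ℕ) : ℂ) - ((g : ℕ) : ℂ)) / 2 * τ (q m k) *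
        ctr (kA (th (cut n s (q' m)))) u (fun j => t (Sum.inr j)) =
        (((g' : ℕ) : ℂ) - ((g : ℕ) : ℂ)) / 2 * ∑ g₁ : Fin (n k), ∑ g₂ : Fin (n k),
          (((g₂ : ℕ) : ℂ) - ((g₁ : ℕ) : ℂ)) *
            u (cat (lA k g₁ τ) (lA k g₂ τ) fun j => t (Sum.inr j)) := by
      have h7 : ∑ m, (((g' : ℕ) : ℂ) - ((g : ℕ) : ℂ)) / 2 * τ (q m k) *
          ctr (kA (th (cut n s (q' m)))) u (fun j => t (Sum.inr j)) =
          (((g' : ℕ) : ℂ) - ((g : ℕ) : ℂ)) / 2 * ∑ y, ∑ z,
            (∑ m, τ (q m k) * kA (th (cut n s (q' m))) y z) *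
              u (cat y z fun j => t (Sum.inr j)) := by
        change ∑ m, (((g' : ℕ) : ℂ) - ((g : ℕ) : ℂ)) / 2 * τ (q m k) *
          ∑ y, ∑ z, kA (th (cut n s (q' m))) y z * u (cat y z fun j => t (Sum.inr j)) = _
        simp only [Finset.mul_sum, Finset.sum_mul]
        rw [Finset.sum_comm]
        refine Finset.sum_congr rfl fun y _ => ?_
        rw [Finset.sum_comm]
        refine Finset.sum_congr rfl fun z _ => Finset.sum_congr rfl fun m _ => ?_
        ring
      rw [h7]
      congr 1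
      simp only [h5]
      have h8 : ∀ y : Lt K n J, ∑ z, (if ∃ g₁, y = lA k g₁ τ then
          (if sm y z then ix z - ix y else 0) else 0) * u (cat y z fun j => t (Sum.inr j)) =
          if ∃ g₁, y = lA k g₁ τ then ∑ z, (if sm y z then ix z - ix y else 0) *
            u (cat y z fun j => t (Sum.inr j)) else 0 := by
        intro y
        split_ifs
        · rfl
        · simp
      simp only [h8]
      rw [sum_sm k τ]
      refine Finset.sum_congr rfl fun g₁ _ => ?_
      have h9 : ∀ z : Lt K n J, (if sm (lA k g₁ τ) z then ix z - ix (lA k g₁ τ : Lt K n J)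
          else 0) * u (cat (lA k g₁ τ) z fun j => t (Sum.inr j)) =
          if ∃ g₂, z = lA k g₂ τ then (ix z - ix (lA k g₁ τ : Lt K n J)) *
            u (cat (lA k g₁ τ) z fun j => t (Sum.inr j)) else 0 := by
        intro z
        by_cases h10 : ∃ g₂, z = lA k g₂ τ
        · rw [if_pos h10, if_pos (sm_lA.2 h10)]
        · rw [if_neg h10, if_neg (fun h => h10 (sm_lA.1 h)), zero_mul]
      simp only [h9]
      rw [sum_sm k τ]
      rfl
    simp only [h4]
    rw [h6]
    have ht' : u t = u (cat (t (Sum.inl 0)) (t (Sum.inl 1)) fun j => t (Sum.inr j)) := by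
      rw [← ht]
    rw [ht', h1, h3]
    by_cases hg : g = g'
    · subst hg
      rw [sub_self, zero_div, sub_self, zero_div, zero_mul]
    · have h10 := diff_sq hn' g g' hg
      rw [sum_two hn' _ g g' hg, sum_two hn' _ g g' hg, sum_two hn' _ g g' hg]
      linear_combination (u (cat (lA k g' τ) (lA k g τ) fun j => t (Sum.inr j)) -
        u (cat (lA k g τ) (lA k g' τ) fun j => t (Sum.inr j))) / 2 * h10
  · have h1 : (if n (t (Sum.inl 0)).1.1 = 2 then
        (if Sm s (t (Sum.inl 0)) (t (Sum.inl 1)) ∧ ¬ s (t (Sum.inl 0)).1.1 = true then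
          (u t - u (cat (t (Sum.inl 1)) (t (Sum.inl 0)) fun j => t (Sum.inr j))) / 2 else 0)
            else 0) = 0 := by
      by_cases h2 : n (t (Sum.inl 0)).1.1 = 2
      · rw [if_pos h2, if_neg (fun h3 => h ⟨h2, h3⟩)]
      · rw [if_neg h2]
    rw [h1]
    symm
    refine Finset.sum_eq_zero fun m _ => ?_
    have h3 : kA (th (cut n s (q m))) (t (Sum.inl 0)) (t (Sum.inl 1)) = 0 := by
      by_contra h3
      obtain ⟨k, g, g', τ, h4, h5, -, h6⟩ := kA_data h3
      obtain ⟨h7, h8⟩ := cut_ne k h6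
      refine h ⟨?_, ⟨k, g, g', τ, h4, Or.inl h5⟩, ?_⟩
      · rw [h4]
        exact h8
      · rw [h4]
        change ¬ s k = true
        rw [h7]
        simp
    rw [h3, zero_div, zero_mul]

end fin

theorem kA_half (s : κ → Bool) (x : ∀ k, K k) (y z : Lt K n J) :
    kA (th (cut n s fun k => x k / 2)) y z = kA (th (cut n s x)) y z / 2 := by
  unfold kA
  by_cases h : sm y z
  · rw [if_pos h, if_pos h]
    unfold th cut
    split_ifs
    · rw [map_div₀, map_ofNat]
      ring
    · rw [map_zero]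
      ring
  · rw [if_neg h, if_neg h, zero_div]

end letters

end Facx

open Facx in
/-- Row FAC. -/
theorem fac : FAC := by
  intro κ _ K _ _ _ n J _ Φ a s D hd hls P _
  have hcj : ∀ k (τ : K k →+* ℂ), cj τ ≠ τ := by
    intro k τ h
    have h1 := hd.cm ⟨k, Sum.inr none⟩ τ
    rw [h] at h1
    exact (iff_not_self h1)
  obtain ⟨M, _, q, q', hq, hq', hqq⟩ := exists_family (n := n) (J := J) s hcj
  obtain ⟨N, hN⟩ : ∃ N : κ → ℕ, ∀ k g τ, D.N (lA k g τ) = N k := by
    refine ⟨fun k => if s k = true then 2 * n k else n k, fun k g τ => ?_⟩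
    unfold LS.N
    rw [hls.hS]
    exact card_Sm s k g τ (hcj k τ)
  let δ₀ : M ⊕ M → (Fin 2 → Lt K n J) → ℂ := Sum.elim
    (fun m t => kP (lp (bd a N (q m))) (t 0) (t 1))
    (fun m t => kA (th (cut n s fun k => q m k / 2)) (t 0) (t 1))
  let C₀ : M ⊕ M → ((Fin 2 ⊕ P → Lt K n J) → ℂ) →ₗ[ℂ] ((P → Lt K n J) → ℂ) := Sum.elim
    (fun m => ctr (kP (lp (bc a (q' m))))) (fun m => ctr (kA (th (cut n s (q' m)))))
  have hδ : ∀ m, IsH11 Φ a s (δ₀ m) := by
    rintro (m | m)
    · have hk : Ker Φ (kP (lp (bd a N (q m)))) := ker_kP hd.cm _ fun y h => isB_bd h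
      refine isH11_of hk (mem_of_rat hk.rat) fun y y' h _ w w' => ?_
      have h1 := bd_inv hd N (hq m) h
      exact kP_iv _ _ _ _ h1.1 h1.2 w w'
    · have hk : Ker Φ (kA (J := J) (th (cut n s fun k => q m k / 2))) :=
        ker_kA hd fun k h => cut_ne k h
      refine isH11_of hk (mem_of_rat hk.rat) fun y y' h h' w w' => ?_
      rw [kA_iv (fun k h => cut_ne k h) (Sm_symm h) (Ne.symm h') w w',
        kA_iv (fun k h => cut_ne k h) (Sm_bar h) (bar_ne h') w w', mul_zero]
  have hC : ∀ m, IsMor Φ a s 1 2 (C₀ m) := by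
    rintro (m | m)
    · have hk : Ker Φ (kP (lp (bc a (q' m)))) := ker_kP hd.cm _ fun y h => isB_bc h
      refine isMor_ctr hk fun y y' h _ w w' => ?_
      have h1 := bc_inv hd (hq' m) h
      exact kP_iv _ _ _ _ h1.1 h1.2 w w'
    · have hk : Ker Φ (kA (J := J) (th (cut n s (q' m)))) := ker_kA hd fun k h => cut_ne k h
      refine isMor_ctr hk fun y y' h h' w w' => ?_
      rw [kA_iv (fun k h => cut_ne k h) h h' w w',
        kA_iv (fun k h => cut_ne k h) (Sm_bar (Sm_symm h)) (bar_ne (Ne.symm h')) w w', mul_zero]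
  refine ⟨Fintype.card (M ⊕ M), fun m => δ₀ ((Fintype.equivFin (M ⊕ M)).symm m),
    fun m => C₀ ((Fintype.equivFin (M ⊕ M)).symm m), fun m => hδ _, fun m => hC _,
    fun u t => ?_⟩
  rw [Equiv.sum_comp (Fintype.equivFin (M ⊕ M)).symm (fun m : M ⊕ M =>
    δ₀ m (fun i => t (Sum.inl i)) * C₀ m u fun j => t (Sum.inr j)), Fintype.sum_sum_type,
    pr_eq hls N hN hqq u t, an_eq hls hqq u t]
  congr 1
  refine Finset.sum_congr rfl fun m _ => ?_
  change _ = kA (th (cut n s fun k => q m k / 2)) (t (Sum.inl 0)) (t (Sum.inl 1)) * _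
  rw [kA_half]
  rfl

end

end Pool.Agent.U21
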