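import Pool.Agent.Lib.U21.StatB

/-!
# U21, row GEN: the classes `Gen` are combinations of the classes `GenB` (helper67)
-/

set_option autoImplicit false

open scoped ComplexConjugate
open Complex Pool.Agent.HCM

namespace Pool.Agent.U21

noncomputable section

namespace Genx

section closure

variable {κ : Type} {K : κ → Type} [∀ k, Field (K k)] [∀ k, NumberField (K k)] {n : κ → ℕ}
  {J : κ → Type} {Φ : Ty K n J} {a : ∀ k, Fin (n k) → K k} {s : κ → Bool}

/-- The span of the generated classes. -/
def GB (Φ : Ty K n J) (a : ∀ k, Fin (n k) → K k) (s : κ → Bool) (c : ℕ) (P : Type) :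
    Submodule ℚ ((P → Lt K n J) → ℂ) := Submodule.span ℚ {f | GenB Φ a s c P f}

theorem op_mem {c c' : ℕ} {P P' : Type}
    (L : ((P → Lt K n J) → ℂ) →ₗ[ℚ] ((P' → Lt K n J) → ℂ))
    (hL : ∀ u, GenB Φ a s c P u → GenB Φ a s c' P' (L u)) {u : (P → Lt K n J) → ℂ}
    (hu : u ∈ GB Φ a s c P) : L u ∈ GB Φ a s c' P' := by
  unfold GB at hu ⊢
  have h1 : (Submodule.span ℚ {f | GenB Φ a s c P f}).map L ≤
      Submodule.span ℚ {f | GenB Φ a s c' P' f} := by
    rw [Submodule.map_span]
    refine Submodule.span_mono ?_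
    rintro _ ⟨f, hf, rfl⟩
    exact hL f hf
  exact h1 (Submodule.mem_map_of_mem hu)

theorem mul_mem {c : ℕ} {P : Type} {δ : (Fin 2 → Lt K n J) → ℂ} (hδ : IsH11 Φ a s δ)
    {u : (P → Lt K n J) → ℂ} (hu : u ∈ GB Φ a s c P) :
    (fun t : Fin 2 ⊕ P → Lt K n J => δ (fun i => t (Sum.inl i)) * u fun j => t (Sum.inr j)) ∈
      GB Φ a s (c + 1) (Fin 2 ⊕ P) := by
  let L : ((P → Lt K n J) → ℂ) →ₗ[ℚ] ((Fin 2 ⊕ P → Lt K n J) → ℂ) :=
    { toFun := fun u t => δ (fun i => t (Sum.inl i)) * u fun j => t (Sum.inr j)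
      map_add' := fun u v => by
        funext t
        simp only [Pi.add_apply, mul_add]
      map_smul' := fun q u => by
        funext t
        simp only [Pi.smul_apply, RingHom.id_apply, mul_smul_comm] }
  exact op_mem L (fun u hu => GenB.mul c P δ u hδ hu) hu

theorem perm_mem {c : ℕ} {P P' : Type} (e : P ≃ P') {u : (P → Lt K n J) → ℂ}
    (hu : u ∈ GB Φ a s c P) : (fun t : P' → Lt K n J => u fun i => t (e i)) ∈ GB Φ a s c P' := by
  let L : ((P → Lt K n J) → ℂ) →ₗ[ℚ] ((P' → Lt K n J) → ℂ) :=
    { toFun := fun u t => u fun i => t (e i)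
      map_add' := fun u v => rfl
      map_smul' := fun q u => rfl }
  exact op_mem L (fun u hu => GenB.perm c P P' e u hu) hu

theorem weak_mem {c : ℕ} {P : Type} {u : (P → Lt K n J) → ℂ}
    (hu : u ∈ GB Φ a s (c + 1) P) : u ∈ GB Φ a s c P :=
  op_mem LinearMap.id (fun u hu => GenB.weak c P u hu) hu

theorem det_mem {c : ℕ} {P : Type} {k : κ} {i j : P} (hs : s k = false) (hn : n k = 3)
    (hij : i ≠ j) {u : (P → Lt K n J) → ℂ} (hu : u ∈ GB Φ a s c P) :
    dt a k i j u ∈ GB Φ a s c P := by
  let L : ((P → Lt K n J) → ℂ) →ₗ[ℚ] ((P → Lt K n J) → ℂ) :=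
    { toFun := dt a k i j
      map_add' := fun u v => by
        funext t
        simp only [dt, Pi.add_apply]
        rw [← Finset.sum_add_distrib]
        refine Finset.sum_congr rfl fun τ _ => ?_
        rw [← Finset.sum_add_distrib]
        refine Finset.sum_congr rfl fun g _ => ?_
        rw [← Finset.sum_add_distrib]
        refine Finset.sum_congr rfl fun g' _ => ?_
        split_ifs
        · rw [← Finset.sum_add_distrib]
          exact Finset.sum_congr rfl fun z _ => by rw [mul_add]
        · rw [add_zero]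
      map_smul' := fun q u => by
        funext t
        simp only [dt, Pi.smul_apply, RingHom.id_apply]
        rw [Finset.smul_sum]
        refine Finset.sum_congr rfl fun τ _ => ?_
        rw [Finset.smul_sum]
        refine Finset.sum_congr rfl fun g _ => ?_
        rw [Finset.smul_sum]
        refine Finset.sum_congr rfl fun g' _ => ?_
        split_ifs
        · rw [Finset.smul_sum]
          exact Finset.sum_congr rfl fun z _ => by rw [mul_smul_comm]
        · rw [smul_zero] }
  exact op_mem L (fun u hu => GenB.det c P k i j u hs hn hij hu) hu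

theorem nT_add_nF (Φ : Ty K n J) {q : ℕ} (t : Fin q → Lt K n J) : nT Φ t + nF Φ t = q := by
  unfold nT nF
  have h := Set.ncard_add_ncard_compl {i : Fin q | (t i).2 ∈ Φ (t i).1}
  rw [Nat.card_eq_fintype_card, Fintype.card_fin] at h
  exact h

end closure

end Genx

open Genx in
/-- Row GEN. -/
theorem gen (h : CMB) : GEN := by
  intro κ _ K _ _ _ n J _ Φ a s hdat c P u hu
  change u ∈ GB Φ a s c P
  induction hu with
  | base c p q x v hv hB hc =>
    by_cases hv0 : v = 0
    · have h1 : (fun t : Fin p ⊕ Fin q → Lt K n J =>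
          (∏ i, lp (x i) (t (Sum.inl i))) * v fun j => t (Sum.inr j)) = 0 := by
        funext t
        rw [hv0]
        simp
      rw [h1]
      exact Submodule.zero_mem _
    · obtain ⟨t, ht⟩ := Function.ne_iff.1 hv0
      have h1 := hc t ht
      have h2 := nT_add_nF Φ t
      obtain ⟨l, rfl⟩ : ∃ l, q = 2 * c + l := ⟨q - 2 * c, by omega⟩
      exact Submodule.subset_span (GenB.base c p l x v
        (h κ K n J Φ hdat.cm c l v hv hB hc))
  | mul c P δ u hδ _ ih => exact mul_mem hδ ih
  | det c P k i j u hs hn hij _ ih => exact det_mem hs hn hij ih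
  | perm c P P' e u _ ih => exact perm_mem e ih
  | weak c P u _ ih => exact weak_mem ih

/-- The statement with the CM part. -/
theorem ghb_of (h1 : GHU) (h2 : GEN) : GHB := by
  intro κ _ K _ _ _ n J _ Φ a s hdat P _ c R hR u hu
  have h3 := h1 κ K n J Φ a s hdat P c R hR u hu
  refine (Submodule.span_le.2 ?_) h3
  intro f hf
  exact h2 κ K n J Φ a s hdat c P f hf

end

end Pool.Agent.U21
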