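import Pool.Agent.Lib.U21.Rows

/-!
# U21, row GRD: the operators preserve the Hodge types
-/

set_option autoImplicit false

open scoped ComplexConjugate
open Complex Pool.Agent.HCM

namespace Pool.Agent.U21

namespace Grdx

section count

variable {P Y : Type} [Fintype P]

open Classical in
theorem cnt_split (p : Y → Prop) (t : P → Y) {i j : P} (hij : i ≠ j) :
    {x | p (t x)}.ncard = {x | x ≠ i ∧ x ≠ j ∧ p (t x)}.ncard +
      ((if p (t i) then 1 else 0) + (if p (t j) then 1 else 0)) := by
  have h1 : {x | p (t x)} = {x | x ≠ i ∧ x ≠ j ∧ p (t x)} ∪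
      ({x | x = i ∧ p (t x)} ∪ {x | x = j ∧ p (t x)}) := by
    ext x
    simp only [Set.mem_ofPred_eq, Set.mem_union]
    tauto
  have h2 : ∀ k : P, {x | x = k ∧ p (t x)}.ncard = if p (t k) then 1 else 0 := by
    intro k
    split_ifs with h
    · have : {x | x = k ∧ p (t x)} = {k} := by
        ext x
        simp only [Set.mem_ofPred_eq, Set.mem_singleton_iff]
        constructor
        · exact fun hx => hx.1
        · rintro rfl
          exact ⟨rfl, h⟩
      rw [this, Set.ncard_singleton]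
    · have : {x | x = k ∧ p (t x)} = ∅ := by
        ext x
        simp only [Set.mem_ofPred_eq, Set.mem_empty_iff_false, iff_false]
        rintro ⟨rfl, hx⟩
        exact h hx
      rw [this, Set.ncard_empty]
  have d1 : Disjoint {x | x = i ∧ p (t x)} {x | x = j ∧ p (t x)} := by
    rw [Set.disjoint_left]
    rintro x ⟨rfl, -⟩ ⟨h, -⟩
    exact hij h
  have d2 : Disjoint {x | x ≠ i ∧ x ≠ j ∧ p (t x)}
      ({x | x = i ∧ p (t x)} ∪ {x | x = j ∧ p (t x)}) := by
    rw [Set.disjoint_left]
    rintro x ⟨h3, h4, -⟩ (⟨h, -⟩ | ⟨h, -⟩)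
    · exact h3 h
    · exact h4 h
  rw [h1, Set.ncard_union_eq d2 (Set.toFinite _) (Set.toFinite _),
    Set.ncard_union_eq d1 (Set.toFinite _) (Set.toFinite _), h2, h2]

open Classical in
/-- two words which agree outside of `i` and `j` -/
theorem cnt_eq (p : Y → Prop) (t t' : P → Y) {i j : P} (hij : i ≠ j)
    (h : ∀ x, x ≠ i → x ≠ j → t' x = t x)
    (h2 : ((if p (t' i) then 1 else 0) + (if p (t' j) then 1 else 0) : ℕ) =
      (if p (t i) then 1 else 0) + (if p (t j) then 1 else 0)) :
    {x | p (t' x)}.ncard = {x | p (t x)}.ncard := by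
  rw [cnt_split p t hij, cnt_split p t' hij, h2]
  congr 2
  ext x
  simp only [Set.mem_ofPred_eq]
  constructor
  · rintro ⟨h3, h4, h5⟩
    exact ⟨h3, h4, h x h3 h4 ▸ h5⟩
  · rintro ⟨h3, h4, h5⟩
    exact ⟨h3, h4, (h x h3 h4).symm ▸ h5⟩

end count

section letters

variable {P Y : Type}

theorem up_self (t : P → Y) (i : P) (y : Y) : up t i y i = y := by
  unfold up
  rw [if_pos rfl]

theorem up_ne (t : P → Y) {i j : P} (h : j ≠ i) (y : Y) : up t i y j = t j := by
  unfold up
  rw [if_neg h]

theorem up2_i (t : P → Y) {i j : P} (hij : i ≠ j) (y y' : Y) :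
    up (up t i y) j y' i = y := by
  rw [up_ne _ hij, up_self]

theorem up2_j (t : P → Y) {i j : P} (y y' : Y) : up (up t i y) j y' j = y' := up_self _ _ _

theorem up2_ne (t : P → Y) {i j x : P} (hi : x ≠ i) (hj : x ≠ j) (y y' : Y) :
    up (up t i y) j y' x = t x := by
  rw [up_ne _ hj, up_ne _ hi]

variable {κ : Type} {K : κ → Type} [∀ k, Field (K k)] {n : κ → ℕ} {J : κ → Type}

/-- the three numbers of a word agree -/
def Same (Φ : Ty K n J) (t t' : P → Lt K n J) : Prop :=
  nT Φ t' = nT Φ t ∧ nF Φ t' = nF Φ t ∧ nA t' = nA t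

theorem not_isB_of_Sm {s : κ → Bool} {y y' : Lt K n J} (h : Sm s y y') :
    ¬ isB y ∧ ¬ isB y' := by
  obtain ⟨k, g, g', τ, rfl, rfl | ⟨-, rfl⟩⟩ := h <;> simp [isB, lA]

theorem isB_bar (y : Lt K n J) : isB (bar y) ↔ isB y := Iff.rfl

variable [Fintype P]

/-- the pairing move -/
theorem same_pair {Φ : Ty K n J} (hΦ : ∀ i, IsCMType (Φ i)) {s : κ → Bool} (t : P → Lt K n J)
    {i j : P} (hij : i ≠ j) (y : Lt K n J) (h1 : t j = bar (t i)) (h2 : Sm s (t i) y) :
    Same Φ t (up (up t i y) j (bar y)) := by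
  classical
  have hB := not_isB_of_Sm h2
  have hne : ∀ x, x ≠ i → x ≠ j → up (up t i y) j (bar y) x = t x :=
    fun x hi hj => up2_ne t hi hj _ _
  have key : ∀ z : Lt K n J, ((bar z).2 ∈ Φ (bar z).1 ↔ z.2 ∉ Φ z.1) := fun z => hΦ z.1 z.2
  refine ⟨cnt_eq (fun y : Lt K n J => y.2 ∈ Φ y.1) _ _ hij hne ?_, cnt_eq (fun y : Lt K n J => y.2 ∉ Φ y.1) _ _ hij hne ?_,
    cnt_eq (fun y : Lt K n J => ¬ isB y) _ _ hij hne ?_⟩
  · rw [up2_i t hij, up2_j, h1]
    simp only [key]
    by_cases h3 : y.2 ∈ Φ y.1 <;> by_cases h4 : (t i).2 ∈ Φ (t i).1 <;> simp [h3, h4]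
  · rw [up2_i t hij, up2_j, h1]
    simp only [key]
    by_cases h3 : y.2 ∈ Φ y.1 <;> by_cases h4 : (t i).2 ∈ Φ (t i).1 <;> simp [h3, h4]
  · rw [up2_i t hij, up2_j, h1]
    simp only [isB_bar, hB.1, hB.2]

/-- the swap -/
theorem same_swap {Φ : Ty K n J} (t : P → Lt K n J) {i j : P} (hij : i ≠ j) :
    Same Φ t (up (up t i (t j)) j (t i)) := by
  classical
  have hne : ∀ x, x ≠ i → x ≠ j → up (up t i (t j)) j (t i) x = t x :=
    fun x hi hj => up2_ne t hi hj _ _
  refine ⟨cnt_eq (fun y : Lt K n J => y.2 ∈ Φ y.1) _ _ hij hne ?_, cnt_eq (fun y : Lt K n J => y.2 ∉ Φ y.1) _ _ hij hne ?_,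
    cnt_eq (fun y : Lt K n J => ¬ isB y) _ _ hij hne ?_⟩ <;>
  · rw [up2_i t hij, up2_j, Nat.add_comm]

end letters

end Grdx

open Grdx

/-- **Row GRD.** -/
theorem grd : GRD := by
  intro κ K _ n J _ Φ a s D hdat hls P _ i j hij u
  classical
  have hS : ∀ y y', D.S y y' → Sm s y y' := by
    intro y y' h
    rw [← hls.hS]
    exact h
  refine ⟨fun p => ?_, fun p => ?_, ?_⟩
  · funext t
    unfold LS.pr
    by_cases hc : t j = D.bar (t i) ∧ D.S (t i) (t i)
    · have hsame : ∀ y, D.S (t i) y → nT Φ (up (up t i y) j (D.bar y)) = nT Φ t := by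
        intro y hy
        have h1 : t j = bar (t i) := by rw [hc.1, hls.hbar]
        have h2 := same_pair hdat.cm (s := s) t hij y h1 (hS _ _ hy)
        rw [hls.hbar]
        exact h2.1
      rw [if_pos hc]
      unfold part
      beta_reduce
      rw [if_pos hc]
      by_cases hp : nT Φ t = p
      · rw [if_pos hp]
        congr 1
        refine Finset.sum_congr rfl fun y _ => ?_
        split_ifs with h1 h2
        · rfl
        · exact absurd ((hsame y h1).trans hp) h2
        · rfl
      · rw [if_neg hp]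
        rw [Finset.sum_eq_zero, mul_zero]
        intro y _
        split_ifs with h1 h2
        · exact absurd ((hsame y h1).symm.trans h2) hp
        · rw [mul_zero]
        · rfl
    · rw [if_neg hc]
      unfold part
      beta_reduce
      rw [if_neg hc]
      split_ifs <;> rfl
  · funext t
    unfold LS.an
    by_cases hc : D.S (t i) (t j) ∧ ¬ D.sp (t i)
    · have hsame := (same_swap (Φ := Φ) t hij).1
      rw [if_pos hc]
      unfold part
      beta_reduce
      rw [if_pos hc, hsame]
      split_ifs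
      · rfl
      · simp
    · rw [if_neg hc]
      unfold part
      beta_reduce
      rw [if_neg hc]
      split_ifs <;> rfl
  · intro t ht
    rcases ht with ht | ht
    · unfold LS.pr at ht
      by_cases hc : t j = D.bar (t i) ∧ D.S (t i) (t i)
      · rw [if_pos hc] at ht
        obtain ⟨y, -, hy⟩ := Finset.exists_ne_zero_of_sum_ne_zero (right_ne_zero_of_mul ht)
        have hy1 : D.S (t i) y := by
          by_contra h
          rw [if_neg h] at hy
          exact hy rfl
        rw [if_pos hy1] at hy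
        have h1 : t j = bar (t i) := by rw [hc.1, hls.hbar]
        have h2 := same_pair hdat.cm (s := s) t hij y h1 (hS _ _ hy1)
        refine ⟨_, right_ne_zero_of_mul hy, ?_⟩
        rw [hls.hbar]
        exact h2
      · rw [if_neg hc] at ht
        exact absurd rfl ht
    · unfold LS.an at ht
      by_cases hc : D.S (t i) (t j) ∧ ¬ D.sp (t i)
      · rw [if_pos hc] at ht
        by_cases h1 : u t = 0
        · refine ⟨up (up t i (t j)) j (t i), ?_, same_swap t hij⟩
          intro h2
          rw [h1, h2] at ht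
          simp at ht
        · exact ⟨t, h1, rfl, rfl, rfl⟩
      · rw [if_neg hc] at ht
        exact absurd rfl ht

end Pool.Agent.U21
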