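import Pool.Agent.Lib.U21.Rows

/-!
# Row LSX: the structure on the letters of `X`
-/

set_option autoImplicit false
set_option linter.unusedSectionVars false

open scoped ComplexConjugate
open Complex Pool.Agent.HCM

namespace Pool.Agent.U21

noncomputable section

namespace Lsx

theorem cj2 {E : Type} [Field E] (τ : E →+* ℂ) : cj (cj τ) = τ :=
  RingHom.ext fun _ => Complex.conj_conj _

variable {κ : Type} {K : κ → Type} [∀ k, Field (K k)] {n : κ → ℕ} {J : κ → Type}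

theorem lA_inj {k k' : κ} {g : Fin (n k)} {g' : Fin (n k')} {τ : K k →+* ℂ} {τ' : K k' →+* ℂ}
    (h : (lA k g τ : Lt K n J) = lA k' g' τ') :
    ∃ e : k = k', e ▸ g = g' ∧ e ▸ τ = τ' := by
  unfold lA at h
  simp only [Sigma.mk.injEq] at h
  obtain ⟨⟨rfl, h1⟩, h2⟩ := h
  refine ⟨rfl, ?_, ?_⟩
  · exact Sum.inl.inj (eq_of_heq h1)
  · have h3 := Sum.inl.inj (eq_of_heq h1)
    subst h3
    exact eq_of_heq h2

theorem bar_lA (k : κ) (g : Fin (n k)) (τ : K k →+* ℂ) :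
    bar (lA k g τ : Lt K n J) = lA k g (cj τ) := rfl

end Lsx

open Lsx in
theorem lsx : LSX := by
  intro κ K _ n J Φ a s hD
  have hcj : ∀ (k : κ) (g : Fin (n k)) (τ : K k →+* ℂ), cj τ ≠ τ := by
    intro k g τ h1
    have h2 := hD.cm ⟨k, Sum.inl g⟩ τ
    rw [h1] at h2
    tauto
  refine ⟨⟨bar, wt a, Sm s, fun y => s y.1.1 = true, fun y => ?_, fun y => ?_, fun y => rfl, ?_,
    ?_, ?_, ?_, ?_, ?_, ?_, ?_⟩, rfl, rfl, rfl, fun y => Iff.rfl⟩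
  · unfold bar
    rw [cj2]
  · unfold wt
    rw [map_ne_zero]
    obtain ⟨⟨k, i⟩, τ⟩ := y
    rcases i with g | i
    · exact hD.ne k g
    · exact one_ne_zero
  · rintro y ⟨k, g, g', τ, rfl, -⟩ h2
    change cj τ (a k g) = -τ (a k g)
    rw [hD.sgn]
    exact if_pos h2
  · rintro y ⟨k, g, g', τ, rfl, -⟩ h2
    change cj τ (a k g) = τ (a k g)
    rw [hD.sgn]
    exact if_neg h2
  · rintro y y' ⟨k, g, g', τ, rfl, rfl | ⟨hs, rfl⟩⟩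
    · exact ⟨k, g', g, τ, rfl, Or.inl rfl⟩
    · exact ⟨k, g', g, cj τ, rfl, Or.inr ⟨hs, by rw [cj2]⟩⟩
  · rintro y y' y'' ⟨k, g, g', τ, rfl, h1⟩ ⟨k', g₁, g₂, τ', h2, h3⟩
    rcases h1 with rfl | ⟨hs, rfl⟩
    · obtain ⟨rfl, rfl, rfl⟩ := lA_inj h2
      rcases h3 with rfl | ⟨hs, rfl⟩
      · exact ⟨k, g, g₂, τ, rfl, Or.inl rfl⟩
      · exact ⟨k, g, g₂, τ, rfl, Or.inr ⟨hs, rfl⟩⟩
    · obtain ⟨rfl, rfl, rfl⟩ := lA_inj h2
      rcases h3 with rfl | ⟨hs, rfl⟩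
      · exact ⟨k, g, g₂, τ, rfl, Or.inr ⟨hs, rfl⟩⟩
      · exact ⟨k, g, g₂, τ, rfl, Or.inl (by rw [cj2])⟩
  · rintro y y' ⟨k, g, g', τ, rfl, rfl | ⟨hs, rfl⟩⟩
    · exact ⟨k, g, g', cj τ, rfl, Or.inl rfl⟩
    · exact ⟨k, g, g', cj τ, rfl, Or.inr ⟨hs, rfl⟩⟩
  · rintro y y' ⟨k, g, g', τ, rfl, rfl | ⟨hs, rfl⟩⟩
    · exact Iff.rfl
    · exact Iff.rfl
  · rintro y ⟨k, g, g', τ, rfl, -⟩ h2
    exact ⟨k, g, g, τ, rfl, Or.inr ⟨h2, rfl⟩⟩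
  · rintro y h1 ⟨k, g, g', τ, rfl, h2⟩
    rcases h2 with h2 | ⟨hs, -⟩
    · rw [bar_lA] at h2
      obtain ⟨_, _, h3⟩ := lA_inj h2
      exact hcj k g τ h3
    · exact h1 hs

end

end Pool.Agent.U21
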