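import Pool.Agent.Lib.U21.Rows

/-!
# U21, row OMG

The operators `pr i j` and `an i j` are idempotent and self-adjoint for the hermitian form with the
weights `∏ i, |a (t i)|` on words, so `Ω` is a sum of orthogonal projections.
-/

set_option autoImplicit false

open scoped ComplexConjugate
open Complex Finset

namespace Pool.Agent.U21

namespace Omgx

/-- A sum of self-adjoint idempotents for a positive diagonal form. -/
theorem core {X ι : Type} [Fintype X] (W : X → ℝ) (hW : ∀ t, 0 < W t) (s : Finset ι)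
    (M : ι → (X → ℂ) → (X → ℂ)) (hid : ∀ k ∈ s, ∀ u, M k (M k u) = M k u)
    (hadj : ∀ k ∈ s, ∀ u v : X → ℂ, ∑ t, (W t : ℂ) * (M k u t * conj (v t)) =
      ∑ t, (W t : ℂ) * (u t * conj (M k v t)))
    (om : (X → ℂ) → (X → ℂ)) (hom : ∀ u t, om u t = ∑ k ∈ s, M k u t) (u : X → ℂ) :
    (om u = 0 → ∀ k ∈ s, M k u = 0) ∧ (om (om u) = 0 → om u = 0) := by
  have hH : ∀ u v : X → ℂ, ∑ t, (W t : ℂ) * (om u t * conj (v t)) =
      ∑ k ∈ s, ∑ t, (W t : ℂ) * (M k u t * conj (v t)) := by
    intro u v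
    rw [sum_comm]
    refine sum_congr rfl fun t _ => ?_
    rw [hom, sum_mul, mul_sum]
  have hsq : ∀ u : X → ℂ, ∑ t, (W t : ℂ) * (u t * conj (u t)) =
      ((∑ t, W t * normSq (u t) : ℝ) : ℂ) := by
    intro u
    push_cast
    refine sum_congr rfl fun t _ => ?_
    rw [mul_conj]
  have hz : ∀ u : X → ℂ, ∑ t, W t * normSq (u t) = 0 → u = 0 := by
    intro u h
    funext t
    have h1 := (sum_eq_zero_iff_of_nonneg (fun t _ =>
      mul_nonneg (hW t).le (normSq_nonneg (u t)))).1 h t (mem_univ t)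
    rcases mul_eq_zero.1 h1 with h2 | h2
    · exact absurd h2 (hW t).ne'
    · exact normSq_eq_zero.1 h2
  have first : ∀ u : X → ℂ, om u = 0 → ∀ k ∈ s, M k u = 0 := by
    intro u h0
    have h1 : ∑ k ∈ s, ∑ t, W t * normSq (M k u t) = 0 := by
      have h2 := hH u u
      rw [h0] at h2
      simp only [Pi.zero_apply, zero_mul, mul_zero, sum_const_zero] at h2
      have h3 : ∀ k ∈ s, ∑ t, (W t : ℂ) * (M k u t * conj (u t)) =
          ((∑ t, W t * normSq (M k u t) : ℝ) : ℂ) := by
        intro k hk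
        rw [← hsq, ← hadj k hk (M k u) u, hid k hk]
      rw [sum_congr rfl h3] at h2
      exact_mod_cast h2.symm
    intro k hk
    have h4 := (sum_eq_zero_iff_of_nonneg (fun k _ => sum_nonneg fun t _ =>
      mul_nonneg (hW t).le (normSq_nonneg (M k u t)))).1 h1 k hk
    exact hz _ h4
  refine ⟨first u, fun h => ?_⟩
  have h1 := first (om u) h
  refine hz _ ?_
  have h2 := hH u (om u)
  have h3 : ∀ k ∈ s, ∑ t, (W t : ℂ) * (M k u t * conj (om u t)) = 0 := by
    intro k hk
    rw [hadj k hk, h1 k hk]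
    simp
  rw [sum_congr rfl h3, sum_const_zero, hsq] at h2
  exact_mod_cast h2

section up

variable {P Y : Type}

lemma up_same (t : P → Y) (i : P) (y : Y) : up t i y i = y := by
  simp [up]

lemma up_ne (t : P → Y) {i l : P} (y : Y) (h : l ≠ i) : up t i y l = t l := by
  simp [up, h]

lemma up_up (t : P → Y) (i j : P) (y y' z z' : Y) :
    up (up (up (up t i y) j y') i z) j z' = up (up t i z) j z' := by
  funext l
  by_cases hj : l = j
  · rw [hj, up_same, up_same]
  · rw [up_ne _ _ hj, up_ne _ _ hj]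
    by_cases hi : l = i
    · rw [hi, up_same, up_same]
    · rw [up_ne _ _ hi, up_ne _ _ hj, up_ne _ _ hi, up_ne _ _ hi]

lemma up_self (t : P → Y) (i j : P) : up (up t i (t i)) j (t j) = t := by
  funext l
  by_cases hj : l = j
  · rw [hj, up_same]
  · rw [up_ne _ _ hj]
    by_cases hi : l = i
    · rw [hi, up_same]
    · rw [up_ne _ _ hi]

lemma prod_up [Fintype P] (f : Y → ℝ) (t : P → Y) {i j : P} (hij : i ≠ j) (y y' : Y) :
    (∏ l, f (up (up t i y) j y' l)) * (f (t i) * f (t j)) = (∏ l, f (t l)) * (f y * f y') := by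
  classical
  have h : ∀ g : P → ℝ, ∏ l, g l = g i * (g j * ∏ l ∈ (univ.erase i).erase j, g l) := by
    intro g
    rw [← mul_prod_erase univ g (mem_univ i),
      ← mul_prod_erase (univ.erase i) g (mem_erase.2 ⟨hij.symm, mem_univ j⟩)]
  rw [h fun l => f (up (up t i y) j y' l), h fun l => f (t l)]
  have h1 : ∏ l ∈ (univ.erase i).erase j, f (up (up t i y) j y' l) =
      ∏ l ∈ (univ.erase i).erase j, f (t l) := by
    refine prod_congr rfl fun l hl => ?_
    rw [mem_erase, mem_erase] at hl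
    rw [up_ne _ _ hl.1, up_ne _ _ hl.2.1]
  rw [h1, up_same, up_ne _ _ hij, up_same]
  ring

end up

section ops

variable {Y P : Type} [Fintype Y] [Fintype P] (D : LS Y)

/-- The weight of a word. -/
noncomputable def wW (t : P → Y) : ℝ := ∏ l, ‖D.a (t l)‖

omit [Fintype Y] in
lemma wW_pos (t : P → Y) : 0 < wW D t := prod_pos fun _ _ => norm_pos_iff.2 (D.a_ne _)

omit [Fintype Y] in
lemma norm_bar (y : Y) : ‖D.a (D.bar y)‖ = ‖D.a y‖ := by
  rw [D.a_bar, RCLike.norm_conj]

lemma N_eq {y y' : Y} (h : D.S y y') : D.N y = D.N y' := by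
  unfold LS.N
  congr 1
  ext z
  simp only [mem_filter, mem_univ, true_and]
  exact ⟨fun h1 => D.trans _ _ _ (D.symm _ _ h) h1, fun h1 => D.trans _ _ _ h h1⟩

lemma N_pos {y : Y} (h : D.S y y) : 0 < D.N y := by
  unfold LS.N
  exact card_pos.2 ⟨y, by simp [h]⟩

omit [Fintype P] in
open Classical in
lemma pr_eq (i j : P) (u : (P → Y) → ℂ) (t : P → Y) :
    D.pr i j u t = ∑ y, if t j = D.bar (t i) ∧ D.S (t i) y then
      ((D.N (t i) : ℂ) * D.a (t i))⁻¹ * (D.a y * u (up (up t i y) j (D.bar y))) else 0 := by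
  unfold LS.pr
  by_cases h : t j = D.bar (t i) ∧ D.S (t i) (t i)
  · rw [if_pos h, mul_sum]
    refine sum_congr rfl fun y _ => ?_
    by_cases hy : D.S (t i) y
    · rw [if_pos hy, if_pos ⟨h.1, hy⟩]
    · rw [if_neg hy, if_neg fun h1 => hy h1.2, mul_zero]
  · rw [if_neg h]
    symm
    refine sum_eq_zero fun y _ => if_neg fun h1 => h ⟨h1.1, ?_⟩
    exact D.trans _ _ _ h1.2 (D.symm _ _ h1.2)

omit [Fintype P] in
lemma pr_idem {i j : P} (hij : i ≠ j) (u : (P → Y) → ℂ) :
    D.pr i j (D.pr i j u) = D.pr i j u := by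
  classical
  funext t
  by_cases h : t j = D.bar (t i) ∧ D.S (t i) (t i)
  · set X : ℂ := ∑ y, if D.S (t i) y then D.a y * u (up (up t i y) j (D.bar y)) else 0 with hX
    have h1 : ∀ y, D.S (t i) y → D.pr i j u (up (up t i y) j (D.bar y)) =
        ((D.N (t i) : ℂ) * D.a y)⁻¹ * X := by
      intro y hy
      have hyy : D.S y y := D.trans _ _ _ (D.symm _ _ hy) hy
      unfold LS.pr
      rw [up_same, up_ne _ _ hij, up_same, if_pos ⟨rfl, hyy⟩, N_eq D hy]
      congr 1
      rw [hX]
      refine sum_congr rfl fun z _ => ?_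
      rw [up_up]
      by_cases hz : D.S y z
      · rw [if_pos hz, if_pos (D.trans _ _ _ hy hz)]
      · rw [if_neg hz, if_neg fun h2 => hz (D.trans _ _ _ (D.symm _ _ hy) h2)]
    have h2 : D.pr i j (D.pr i j u) t = ((D.N (t i) : ℂ) * D.a (t i))⁻¹ *
        ∑ y, if D.S (t i) y then D.a y * D.pr i j u (up (up t i y) j (D.bar y)) else 0 := by
      conv_lhs => unfold LS.pr
      rw [if_pos h]
      rfl
    have h3 : D.pr i j u t = ((D.N (t i) : ℂ) * D.a (t i))⁻¹ * X := by
      conv_lhs => unfold LS.pr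
      rw [if_pos h]
    rw [h2, h3]
    congr 1
    have h4 : ∀ y, (if D.S (t i) y then D.a y * D.pr i j u (up (up t i y) j (D.bar y)) else 0) =
        if D.S (t i) y then (D.N (t i) : ℂ)⁻¹ * X else 0 := by
      intro y
      by_cases hy : D.S (t i) y
      · rw [if_pos hy, if_pos hy, h1 y hy]
        have := D.a_ne y
        have hN : (D.N (t i) : ℂ) ≠ 0 := by
          have := N_pos D h.2
          exact_mod_cast this.ne'
        field_simp
      · rw [if_neg hy, if_neg hy]
    rw [sum_congr rfl fun y _ => h4 y, ← sum_filter, sum_const, nsmul_eq_mul]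
    have hN : (D.N (t i) : ℂ) ≠ 0 := by
      have := N_pos D h.2
      exact_mod_cast this.ne'
    have h5 : ((univ.filter fun y => D.S (t i) y).card : ℂ) = D.N (t i) := by
      unfold LS.N
      rfl
    rw [h5]
    field_simp
  · unfold LS.pr
    rw [if_neg h, if_neg h]

omit [Fintype Y] [Fintype P] in
/-- The involution on pairs. -/
lemma inv_aux {i j : P} {t : P → Y} (h : t j = D.bar (t i)) (y : Y) :
    up (up (up (up t i y) j (D.bar y)) i (t i)) j (D.bar (t i)) = t := by
  rw [up_up, ← h, up_self]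

open Classical in
lemma pr_adj {i j : P} (hij : i ≠ j) (u v : (P → Y) → ℂ) :
    ∑ t, (wW D t : ℂ) * (D.pr i j u t * conj (v t)) =
      ∑ t, (wW D t : ℂ) * (u t * conj (D.pr i j v t)) := by
  classical
  have h1 : ∑ t, (wW D t : ℂ) * (D.pr i j u t * conj (v t)) =
      ∑ x ∈ univ.filter (fun x : (P → Y) × Y => x.1 j = D.bar (x.1 i) ∧ D.S (x.1 i) x.2),
        (wW D x.1 : ℂ) * ((((D.N (x.1 i) : ℂ) * D.a (x.1 i))⁻¹ *
          (D.a x.2 * u (up (up x.1 i x.2) j (D.bar x.2)))) * conj (v x.1)) := by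
    rw [sum_filter, Fintype.sum_prod_type]
    refine sum_congr rfl fun t _ => ?_
    rw [pr_eq, sum_mul, mul_sum]
    refine sum_congr rfl fun y _ => ?_
    split_ifs <;> simp
  have h2 : ∑ t, (wW D t : ℂ) * (u t * conj (D.pr i j v t)) =
      ∑ x ∈ univ.filter (fun x : (P → Y) × Y => x.1 j = D.bar (x.1 i) ∧ D.S (x.1 i) x.2),
        (wW D x.1 : ℂ) * (u x.1 * conj (((D.N (x.1 i) : ℂ) * D.a (x.1 i))⁻¹ *
          (D.a x.2 * v (up (up x.1 i x.2) j (D.bar x.2))))) := by
    rw [sum_filter, Fintype.sum_prod_type]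
    refine sum_congr rfl fun t _ => ?_
    rw [pr_eq, map_sum, mul_sum, mul_sum]
    refine sum_congr rfl fun y _ => ?_
    split_ifs <;> simp
  rw [h1, h2]
  refine sum_nbij' (fun x => (up (up x.1 i x.2) j (D.bar x.2), x.1 i))
    (fun x => (up (up x.1 i x.2) j (D.bar x.2), x.1 i)) ?_ ?_ ?_ ?_ ?_
  · intro x hx
    simp only [mem_filter, mem_univ, true_and] at hx ⊢
    rw [up_same, up_ne _ _ hij, up_same]
    exact ⟨rfl, D.symm _ _ hx.2⟩
  · intro x hx
    simp only [mem_filter, mem_univ, true_and] at hx ⊢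
    rw [up_same, up_ne _ _ hij, up_same]
    exact ⟨rfl, D.symm _ _ hx.2⟩
  · intro x hx
    simp only [mem_filter, mem_univ, true_and] at hx
    refine Prod.ext ?_ ?_
    · exact inv_aux D hx.1 x.2
    · show up (up x.1 i x.2) j (D.bar x.2) i = x.2
      rw [up_ne _ _ hij, up_same]
  · intro x hx
    simp only [mem_filter, mem_univ, true_and] at hx
    refine Prod.ext ?_ ?_
    · exact inv_aux D hx.1 x.2
    · show up (up x.1 i x.2) j (D.bar x.2) i = x.2
      rw [up_ne _ _ hij, up_same]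
  · intro x hx
    simp only [mem_filter, mem_univ, true_and] at hx
    obtain ⟨t, y⟩ := x
    simp only at hx ⊢
    rw [up_ne _ _ hij, up_same, inv_aux D hx.1, ← N_eq D hx.2]
    have hw := prod_up (fun z => ‖D.a z‖) t hij y (D.bar y)
    rw [hx.1, norm_bar, norm_bar] at hw
    have hw1 : (wW D (up (up t i y) j (D.bar y)) : ℂ) * (D.a (t i) * conj (D.a (t i))) =
        (wW D t : ℂ) * (D.a y * conj (D.a y)) := by
      rw [mul_conj, mul_conj, normSq_eq_norm_sq, normSq_eq_norm_sq, sq, sq]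
      exact_mod_cast hw
    have hN : (D.N (t i) : ℂ) ≠ 0 := by
      have := N_pos D (D.trans _ _ _ hx.2 (D.symm _ _ hx.2))
      exact_mod_cast this.ne'
    have ha := D.a_ne (t i)
    have hy := D.a_ne y
    have hca : conj (D.a (t i)) ≠ 0 := by
      rw [← D.a_bar]
      exact D.a_ne _
    have hcy : conj (D.a y) ≠ 0 := by
      rw [← D.a_bar]
      exact D.a_ne _
    simp only [map_mul, map_inv₀, map_natCast]
    field_simp
    linear_combination (- (u (up (up t i y) j (D.bar y)) * conj (v t))) * hw1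

omit [Fintype Y] [Fintype P] in
lemma sw_i {i j : P} (hij : i ≠ j) (t : P → Y) : up (up t i (t j)) j (t i) i = t j := by
  rw [up_ne _ _ hij, up_same]

omit [Fintype Y] [Fintype P] in
lemma sw_j (i j : P) (t : P → Y) : up (up t i (t j)) j (t i) j = t i := up_same _ _ _

omit [Fintype Y] [Fintype P] in
lemma sw_sw {i j : P} (hij : i ≠ j) (t : P → Y) :
    up (up (up (up t i (t j)) j (t i)) i (up (up t i (t j)) j (t i) j)) j
      (up (up t i (t j)) j (t i) i) = t := by
  rw [sw_i hij, sw_j, up_up, up_self]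

omit [Fintype Y] [Fintype P] in
lemma cond_sw {i j : P} (hij : i ≠ j) (t : P → Y) :
    (D.S (up (up t i (t j)) j (t i) i) (up (up t i (t j)) j (t i) j) ∧
      ¬ D.sp (up (up t i (t j)) j (t i) i)) ↔ (D.S (t i) (t j) ∧ ¬ D.sp (t i)) := by
  rw [sw_i hij, sw_j]
  constructor
  · rintro ⟨h1, h2⟩
    exact ⟨D.symm _ _ h1, fun h => h2 ((D.sp_S _ _ h1).2 h)⟩
  · rintro ⟨h1, h2⟩
    exact ⟨D.symm _ _ h1, fun h => h2 ((D.sp_S _ _ h1).2 h)⟩

omit [Fintype Y] [Fintype P] in
lemma an_idem {i j : P} (hij : i ≠ j) (u : (P → Y) → ℂ) :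
    D.an i j (D.an i j u) = D.an i j u := by
  classical
  funext t
  by_cases h : D.S (t i) (t j) ∧ ¬ D.sp (t i)
  · have h1 : D.an i j u (up (up t i (t j)) j (t i)) =
        (u (up (up t i (t j)) j (t i)) - u t) / 2 := by
      unfold LS.an
      rw [if_pos ((cond_sw D hij t).2 h), sw_sw hij]
    have h2 : D.an i j u t = (u t - u (up (up t i (t j)) j (t i))) / 2 := by
      unfold LS.an
      rw [if_pos h]
    have h3 : D.an i j (D.an i j u) t =
        (D.an i j u t - D.an i j u (up (up t i (t j)) j (t i))) / 2 := by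
      conv_lhs => unfold LS.an
      rw [if_pos h]
      rfl
    rw [h3, h1, h2]
    ring
  · unfold LS.an
    rw [if_neg h, if_neg h]

omit [Fintype Y] in
lemma wW_sw {i j : P} (hij : i ≠ j) (t : P → Y) :
    wW D (up (up t i (t j)) j (t i)) = wW D t := by
  have hw := prod_up (fun z => ‖D.a z‖) t hij (t j) (t i)
  have h1 : 0 < ‖D.a (t i)‖ := norm_pos_iff.2 (D.a_ne _)
  have h2 : 0 < ‖D.a (t j)‖ := norm_pos_iff.2 (D.a_ne _)
  have h3 : ‖D.a (t i)‖ * ‖D.a (t j)‖ ≠ 0 := (mul_pos h1 h2).ne'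
  have h4 : (∏ l, ‖D.a (up (up t i (t j)) j (t i) l)‖) * (‖D.a (t i)‖ * ‖D.a (t j)‖) =
      (∏ l, ‖D.a (t l)‖) * (‖D.a (t i)‖ * ‖D.a (t j)‖) := by
    rw [hw]
    ring
  exact mul_right_cancel₀ h3 h4

open Classical in
lemma an_adj {i j : P} (hij : i ≠ j) (u v : (P → Y) → ℂ) :
    ∑ t, (wW D t : ℂ) * (D.an i j u t * conj (v t)) =
      ∑ t, (wW D t : ℂ) * (u t * conj (D.an i j v t)) := by
  classical
  have key : ∑ t, (if D.S (t i) (t j) ∧ ¬ D.sp (t i) then
        (wW D t : ℂ) * (u (up (up t i (t j)) j (t i)) * conj (v t)) else 0) =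
      ∑ t, (if D.S (t i) (t j) ∧ ¬ D.sp (t i) then
        (wW D t : ℂ) * (u t * conj (v (up (up t i (t j)) j (t i)))) else 0) := by
    refine sum_nbij' (fun t => up (up t i (t j)) j (t i)) (fun t => up (up t i (t j)) j (t i))
      (fun _ _ => mem_univ _) (fun _ _ => mem_univ _) (fun t _ => sw_sw hij t)
      (fun t _ => sw_sw hij t) ?_
    intro t _
    by_cases h : D.S (t i) (t j) ∧ ¬ D.sp (t i)
    · rw [if_pos h, if_pos ((cond_sw D hij t).2 h), sw_sw hij, wW_sw D hij]
    · rw [if_neg h, if_neg fun h1 => h ((cond_sw D hij t).1 h1)]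
  have h1 : ∀ t, (wW D t : ℂ) * (D.an i j u t * conj (v t)) =
      (if D.S (t i) (t j) ∧ ¬ D.sp (t i) then (wW D t : ℂ) * (u t * conj (v t)) else 0) / 2 -
      (if D.S (t i) (t j) ∧ ¬ D.sp (t i) then
        (wW D t : ℂ) * (u (up (up t i (t j)) j (t i)) * conj (v t)) else 0) / 2 := by
    intro t
    unfold LS.an
    split_ifs <;> ring
  have h2 : ∀ t, (wW D t : ℂ) * (u t * conj (D.an i j v t)) =
      (if D.S (t i) (t j) ∧ ¬ D.sp (t i) then (wW D t : ℂ) * (u t * conj (v t)) else 0) / 2 -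
      (if D.S (t i) (t j) ∧ ¬ D.sp (t i) then
        (wW D t : ℂ) * (u t * conj (v (up (up t i (t j)) j (t i)))) else 0) / 2 := by
    intro t
    unfold LS.an
    split_ifs
    · rw [map_div₀, map_sub, map_ofNat]
      ring
    · rw [map_zero]
      ring
  rw [sum_congr rfl fun t _ => h1 t, sum_congr rfl fun t _ => h2 t, sum_sub_distrib,
    sum_sub_distrib, ← sum_div, ← sum_div, ← sum_div, key]

end ops

end Omgx

open Omgx in
theorem omg : OMG := by
  classical
  intro Y _ D P _ u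
  have h := core (wW D (P := P)) (wW_pos D) (univ.filter fun k : (P × P) × Bool => k.1.1 ≠ k.1.2)
    (fun k v => if k.2 = true then D.pr k.1.1 k.1.2 v else D.an k.1.1 k.1.2 v)
    (by
      rintro ⟨⟨i, j⟩, b⟩ hk v
      simp only [mem_filter, mem_univ, true_and] at hk
      cases b
      · simpa using an_idem D hk v
      · simpa using pr_idem D hk v)
    (by
      rintro ⟨⟨i, j⟩, b⟩ hk v w
      simp only [mem_filter, mem_univ, true_and] at hk
      cases b
      · simpa using an_adj D hk v w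
      · simpa using pr_adj D hk v w)
    D.om
    (by
      intro v t
      unfold LS.om
      rw [sum_filter, Fintype.sum_prod_type, Fintype.sum_prod_type]
      refine sum_congr rfl fun i _ => sum_congr rfl fun j _ => ?_
      rw [Fintype.sum_bool]
      by_cases hij : i ≠ j
      · simp [hij]
      · simp [hij])
    u
  refine ⟨fun h0 i j hij => ⟨?_, ?_⟩, h.2⟩
  · simpa using h.1 h0 ((i, j), true) (by simpa using hij)
  · simpa using h.1 h0 ((i, j), false) (by simpa using hij)

end Pool.Agent.U21
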