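import Pool.Agent.Lib.U21.Rows

/-!
# U21, row OMS: saturation and decomposition of sub-Hodge structures (helper67)
-/

set_option autoImplicit false

open scoped ComplexConjugate
open Complex Pool.Agent.HCM

namespace Pool.Agent.U21

noncomputable section

namespace Omsx

section lin

variable {Y P : Type} (D : LS Y) [Fintype Y]

theorem pr_add (i j : P) (u v : (P → Y) → ℂ) : D.pr i j (u + v) = D.pr i j u + D.pr i j v := by
  classical
  funext t
  simp only [LS.pr, Pi.add_apply]
  by_cases h : t j = D.bar (t i) ∧ D.S (t i) (t i)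
  · rw [if_pos h, if_pos h, if_pos h, ← mul_add, ← Finset.sum_add_distrib]
    congr 1
    refine Finset.sum_congr rfl fun y _ => ?_
    by_cases h2 : D.S (t i) y
    · rw [if_pos h2, if_pos h2, if_pos h2, mul_add]
    · rw [if_neg h2, if_neg h2, if_neg h2, add_zero]
  · rw [if_neg h, if_neg h, if_neg h, add_zero]

theorem pr_smul (i j : P) (c : ℂ) (u : (P → Y) → ℂ) : D.pr i j (c • u) = c • D.pr i j u := by
  classical
  funext t
  simp only [LS.pr, Pi.smul_apply, smul_eq_mul]
  by_cases h : t j = D.bar (t i) ∧ D.S (t i) (t i)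
  · rw [if_pos h, if_pos h, mul_left_comm c, Finset.mul_sum _ _ c]
    congr 1
    refine Finset.sum_congr rfl fun y _ => ?_
    by_cases h2 : D.S (t i) y
    · rw [if_pos h2, if_pos h2, mul_left_comm]
    · rw [if_neg h2, if_neg h2, mul_zero]
  · rw [if_neg h, if_neg h, mul_zero]

omit [Fintype Y] in
theorem an_add (i j : P) (u v : (P → Y) → ℂ) : D.an i j (u + v) = D.an i j u + D.an i j v := by
  classical
  funext t
  simp only [LS.an, Pi.add_apply]
  by_cases h : D.S (t i) (t j) ∧ ¬ D.sp (t i)
  · rw [if_pos h, if_pos h, if_pos h]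
    ring
  · rw [if_neg h, if_neg h, if_neg h, add_zero]

omit [Fintype Y] in
theorem an_smul (i j : P) (c : ℂ) (u : (P → Y) → ℂ) : D.an i j (c • u) = c • D.an i j u := by
  classical
  funext t
  simp only [LS.an, Pi.smul_apply, smul_eq_mul]
  by_cases h : D.S (t i) (t j) ∧ ¬ D.sp (t i)
  · rw [if_pos h, if_pos h]
    ring
  · rw [if_neg h, if_neg h, mul_zero]

variable [Fintype P]

open Classical in
theorem om_eq (u : (P → Y) → ℂ) :
    D.om u = ∑ i, ∑ j, if i ≠ j then D.pr i j u + D.an i j u else 0 := by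
  funext t
  unfold LS.om
  rw [Finset.sum_apply]
  refine Finset.sum_congr rfl fun i _ => ?_
  rw [Finset.sum_apply]
  refine Finset.sum_congr rfl fun j _ => ?_
  by_cases h : i ≠ j
  · rw [if_pos h, if_pos h, Pi.add_apply]
  · rw [if_neg h, if_neg h, Pi.zero_apply]

/-- `Ω` as a linear map. -/
def omL : ((P → Y) → ℂ) →ₗ[ℂ] ((P → Y) → ℂ) where
  toFun := D.om
  map_add' u v := by
    classical
    rw [om_eq, om_eq, om_eq, ← Finset.sum_add_distrib]
    refine Finset.sum_congr rfl fun i _ => ?_
    rw [← Finset.sum_add_distrib]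
    refine Finset.sum_congr rfl fun j _ => ?_
    by_cases h : i ≠ j
    · rw [if_pos h, if_pos h, if_pos h, pr_add, an_add]
      abel
    · rw [if_neg h, if_neg h, if_neg h, add_zero]
  map_smul' c u := by
    classical
    rw [om_eq, om_eq, RingHom.id_apply, Finset.smul_sum]
    refine Finset.sum_congr rfl fun i _ => ?_
    rw [Finset.smul_sum]
    refine Finset.sum_congr rfl fun j _ => ?_
    by_cases h : i ≠ j
    · rw [if_pos h, if_pos h, pr_smul, an_smul, smul_add]
    · rw [if_neg h, if_neg h, smul_zero]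

theorem omL_apply (u : (P → Y) → ℂ) : omL D u = D.om u := rfl

end lin

section rootlin

variable {κ : Type} {K : κ → Type} [∀ k, Field (K k)] {n : κ → ℕ} {J : κ → Type} {P : Type}

theorem part_add (Φ : Ty K n J) (p : ℕ) (u v : (P → Lt K n J) → ℂ) :
    part Φ p (u + v) = part Φ p u + part Φ p v := by
  funext t
  simp only [part, Pi.add_apply]
  split_ifs
  · rfl
  · rw [add_zero]

theorem part_smul (Φ : Ty K n J) (p : ℕ) (c : ℂ) (u : (P → Lt K n J) → ℂ) :
    part Φ p (c • u) = c • part Φ p u := by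
  funext t
  simp only [part, Pi.smul_apply, smul_eq_mul]
  split_ifs
  · rfl
  · rw [mul_zero]

/-- `part` as a linear map. -/
def partL (Φ : Ty K n J) (p : ℕ) : ((P → Lt K n J) → ℂ) →ₗ[ℂ] ((P → Lt K n J) → ℂ) where
  toFun := part Φ p
  map_add' := part_add Φ p
  map_smul' := part_smul Φ p

variable [Fintype P]

theorem eL_add {Y : Type} (y y' : Y) (u v : (P → Y) → ℂ) :
    eL y y' (u + v) = eL y y' u + eL y y' v := by
  classical
  funext t
  simp only [eL, Pi.add_apply]
  rw [← Finset.sum_add_distrib]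
  refine Finset.sum_congr rfl fun i _ => ?_
  split_ifs
  · rfl
  · rw [add_zero]

theorem eL_smul {Y : Type} (y y' : Y) (c : ℂ) (u : (P → Y) → ℂ) :
    eL y y' (c • u) = c • eL y y' u := by
  classical
  funext t
  simp only [eL, Pi.smul_apply, smul_eq_mul]
  rw [Finset.mul_sum]
  refine Finset.sum_congr rfl fun i _ => ?_
  split_ifs
  · rfl
  · rw [mul_zero]

/-- the root vector as a linear map. -/
def rootL (a : ∀ k, Fin (n k) → K k) (y y' : Lt K n J) :
    ((P → Lt K n J) → ℂ) →ₗ[ℂ] ((P → Lt K n J) → ℂ) where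
  toFun := root a y y'
  map_add' u v := by
    unfold root
    rw [eL_add, eL_add, smul_add]
    abel
  map_smul' c u := by
    unfold root
    rw [eL_smul, eL_smul, RingHom.id_apply, smul_sub, smul_comm]

end rootlin

section fin

variable {κ : Type} [Finite κ] {K : κ → Type} [∀ k, Field (K k)] [∀ k, NumberField (K k)]
  {n : κ → ℕ} {J : κ → Type} [∀ k, Finite (J k)] {P : Type} [Fintype P]

/-- The rational tensors are of finite dimension over `ℚ`. -/
theorem finite_TQ : FiniteDimensional ℚ (TQ K n J P) := by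
  classical
  have := Fintype.ofFinite κ
  have h0 : ∀ k, Fintype (J k) := fun k => Fintype.ofFinite _
  let b := Module.finBasis ℚ (Lp K n J)
  let F : MultilinearMap ℚ (fun _ : P => Lp K n J) ((P → Lt K n J) → ℂ) :=
    { toFun := fun x t => ∏ i, lp (x i) (t i)
      map_update_add' := by
        intro _ x i y z
        funext t
        rw [Pi.add_apply, ← Finset.mul_prod_erase _ _ (Finset.mem_univ i),
          ← Finset.mul_prod_erase _ (fun j => lp (Function.update x i y j) (t j))
            (Finset.mem_univ i),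
          ← Finset.mul_prod_erase _ (fun j => lp (Function.update x i z j) (t j))
            (Finset.mem_univ i)]
        have h1 : ∀ w : Lp K n J, ∏ j ∈ Finset.univ.erase i,
            lp (Function.update x i w j) (t j) = ∏ j ∈ Finset.univ.erase i, lp (x j) (t j) := by
          intro w
          refine Finset.prod_congr rfl fun j hj => ?_
          rw [Function.update_of_ne (Finset.ne_of_mem_erase hj)]
        have h2 : ∀ w : Lp K n J, ∏ j ∈ Finset.univ.erase i,
            lp (@Function.update P (fun _ => Lp K n J) _ x i w j) (t j) =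
              ∏ j ∈ Finset.univ.erase i, lp (x j) (t j) := by
          intro w
          refine Finset.prod_congr rfl fun j hj => ?_
          rw [Function.update_of_ne (Finset.ne_of_mem_erase hj)]
        rw [h2, h2, h2]
        simp only [Function.update_self]
        rw [← add_mul]
        congr 1
        exact map_add (t i).2 _ _
      map_update_smul' := by
        intro _ x i c y
        funext t
        rw [Pi.smul_apply, ← Finset.mul_prod_erase _ _ (Finset.mem_univ i),
          ← Finset.mul_prod_erase _ (fun j => lp (Function.update x i y j) (t j))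
            (Finset.mem_univ i)]
        have h2 : ∀ w : Lp K n J, ∏ j ∈ Finset.univ.erase i,
            lp (@Function.update P (fun _ => Lp K n J) _ x i w j) (t j) =
              ∏ j ∈ Finset.univ.erase i, lp (x j) (t j) := by
          intro w
          refine Finset.prod_congr rfl fun j hj => ?_
          rw [Function.update_of_ne (Finset.ne_of_mem_erase hj)]
        rw [h2, h2]
        simp only [Function.update_self]
        rw [← smul_mul_assoc]
        congr 1
        exact map_rat_smul (t i).2 _ _ }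
  have h1 : TQ K n J P ≤ Submodule.span ℚ
      (Set.range fun r : P → Fin (Module.finrank ℚ (Lp K n J)) => F fun i => b (r i)) := by
    unfold TQ
    rw [Submodule.span_le]
    rintro _ ⟨x, rfl⟩
    change F x ∈ Submodule.span ℚ _
    have h3 : x = fun i => ∑ m, b.repr (x i) m • b m := by
      funext i
      exact (b.sum_repr (x i)).symm
    rw [h3, MultilinearMap.map_sum]
    refine Submodule.sum_mem _ fun r _ => ?_
    rw [MultilinearMap.map_smul_univ]
    exact Submodule.smul_mem _ _ (Submodule.subset_span ⟨r, rfl⟩)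
  have : FiniteDimensional ℚ (Submodule.span ℚ
      (Set.range fun r : P → Fin (Module.finrank ℚ (Lp K n J)) => F fun i => b (r i))) :=
    FiniteDimensional.span_of_finite ℚ (Set.finite_range _)
  exact Submodule.finiteDimensional_of_le h1

end fin

/-- Fitting, abstract form. -/
theorem fit {F : Type} [AddCommGroup F] [Module ℚ F] (R : Submodule ℚ F) [FiniteDimensional ℚ R]
    (L : F →ₗ[ℚ] F) (hR : ∀ u ∈ R, L u ∈ R) (hL : ∀ u, L (L u) = 0 → L u = 0) :
    ∀ u ∈ R, ∃ v ∈ R, L v = 0 ∧ ∃ w ∈ R, u = v + L w := by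
  let T : R →ₗ[ℚ] R := L.restrict hR
  have hdis : Disjoint (LinearMap.range T) (LinearMap.ker T) := by
    rw [Submodule.disjoint_def]
    rintro _ ⟨w, rfl⟩ hw
    rw [LinearMap.mem_ker] at hw
    have h1 : L (L w) = 0 := congrArg Subtype.val hw
    exact Subtype.ext (hL _ h1)
  have htop := Submodule.eq_top_of_disjoint (LinearMap.range T) (LinearMap.ker T)
    (by rw [LinearMap.finrank_range_add_finrank_ker]) hdis
  intro u hu
  have h1 : (⟨u, hu⟩ : R) ∈ LinearMap.range T ⊔ LinearMap.ker T := by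
    rw [htop]
    exact Submodule.mem_top
  obtain ⟨_, ⟨w, rfl⟩, v, hv, h2⟩ := Submodule.mem_sup.1 h1
  refine ⟨v, v.2, congrArg Subtype.val hv, w, w.2, ?_⟩
  have h3 := congrArg Subtype.val h2
  rw [add_comm]
  exact h3.symm

end Omsx

open Omsx in
/-- Row OMS. -/
theorem oms (h1 : OMG) (h2 : CMT) (h3 : RTO) (h4 : GRD) : OMS := by
  classical
  intro κ _ K _ _ _ n J _ _ Φ a s D hdat hls P _ c r R hR hr
  have hfin : FiniteDimensional ℚ (TQ K n J P) := finite_TQ
  -- commutation of `Ω`
  have hroot : ∀ y y', Sm s y y' → y ≠ y' → ∀ u : (P → Lt K n J) → ℂ,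
      root a y y' (D.om u) = D.om (root a y y' u) := by
    intro y y' hS hne u
    have hrt : ∀ v : (P → Lt K n J) → ℂ, D.rt y y' v = root a y y' v := by
      intro v
      unfold LS.rt root
      rw [hls.ha, hls.hbar]
    have hS' : D.S y y' := by
      rw [hls.hS]
      exact hS
    have h5 : root a y y' (D.om u) = rootL a y y' (D.om u) := rfl
    rw [h5, om_eq, om_eq, map_sum]
    refine Finset.sum_congr rfl fun i _ => ?_
    rw [map_sum]
    refine Finset.sum_congr rfl fun j _ => ?_
    by_cases h : i ≠ j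
    · have h6 := h2 (Lt K n J) D P i j h y y' hS' hne u
      rw [if_pos h, if_pos h, map_add, ← hrt u, ← h6.1, ← h6.2, hrt, hrt]
      rfl
    · rw [if_neg h, if_neg h, map_zero]
  have hpart : ∀ (p : ℕ) (u : (P → Lt K n J) → ℂ),
      part Φ p (D.om u) = D.om (part Φ p u) := by
    intro p u
    have h5 : part Φ p (D.om u) = partL Φ p (D.om u) := rfl
    rw [h5, om_eq, om_eq, map_sum]
    refine Finset.sum_congr rfl fun i _ => ?_
    rw [map_sum]
    refine Finset.sum_congr rfl fun j _ => ?_
    by_cases h : i ≠ j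
    · have h6 := h4 κ K n J Φ a s D hdat hls P i j h u
      rw [if_pos h, if_pos h, map_add, h6.1, h6.2.1]
      rfl
    · rw [if_neg h, if_neg h, map_zero]
  have hsup : ∀ (u : (P → Lt K n J) → ℂ) t, D.om u t ≠ 0 →
      ∃ t', u t' ≠ 0 ∧ nT Φ t' = nT Φ t ∧ nF Φ t' = nF Φ t ∧ nA t' = nA t := by
    intro u t ht
    unfold LS.om at ht
    obtain ⟨i, -, hi⟩ := Finset.exists_ne_zero_of_sum_ne_zero ht
    obtain ⟨j, -, hj⟩ := Finset.exists_ne_zero_of_sum_ne_zero hi
    by_cases h : i ≠ j
    · rw [if_pos h] at hj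
      refine (h4 κ K n J Φ a s D hdat hls P i j h u).2.2 t ?_
      by_contra h5
      push Not at h5
      rw [h5.1, h5.2, add_zero] at hj
      exact hj rfl
    · rw [if_neg h] at hj
      exact absurd rfl hj
  have hrat : ∀ u ∈ TQ K n J P, D.om u ∈ TQ K n J P := by
    intro u hu
    rw [om_eq]
    refine Submodule.sum_mem _ fun i _ => Submodule.sum_mem _ fun j _ => ?_
    by_cases h : i ≠ j
    · rw [if_pos h]
      have h5 := h3 κ K n J Φ a s D hdat hls P i j h u hu
      exact Submodule.add_mem _ h5.1 h5.2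
    · rw [if_neg h]
      exact Submodule.zero_mem _
  -- the saturation
  let L : ((P → Lt K n J) → ℂ) →ₗ[ℂ] ((P → Lt K n J) → ℂ) := omL D
  let R₁ : Submodule ℚ ((P → Lt K n J) → ℂ) :=
    Submodule.span ℚ {x | ∃ m : ℕ, ∃ u ∈ R, x = (L ^ m) u}
  have hsub : ∀ u ∈ R, u ∈ R₁ := fun u hu => Submodule.subset_span ⟨0, u, hu, by simp⟩
  have hLR : ∀ u ∈ R₁, D.om u ∈ R₁ := by
    intro u hu
    have h5 : R₁.map (L.restrictScalars ℚ) ≤ R₁ := by
      rw [Submodule.map_span_le]
      rintro _ ⟨m, u, hu, rfl⟩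
      refine Submodule.subset_span ⟨m + 1, u, hu, ?_⟩
      rw [pow_succ']
      rfl
    exact h5 (Submodule.mem_map_of_mem (f := L.restrictScalars ℚ) hu)
  have hCm : ∀ (m : ℕ) (z : (P → Lt K n J) → ℂ), z ∈ Submodule.span ℂ (R : Set _) →
      (L ^ m) z ∈ Submodule.span ℂ (R₁ : Set ((P → Lt K n J) → ℂ)) := by
    intro m z hz
    have h5 : (Submodule.span ℂ (R : Set ((P → Lt K n J) → ℂ))).map (L ^ m) ≤
        Submodule.span ℂ (R₁ : Set ((P → Lt K n J) → ℂ)) := by
      rw [Submodule.map_span_le]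
      intro u hu
      exact Submodule.subset_span (Submodule.subset_span ⟨m, u, hu, rfl⟩)
    exact h5 (Submodule.mem_map_of_mem hz)
  -- extension of a linear condition from the generators
  have hext : ∀ (T : ((P → Lt K n J) → ℂ) →ₗ[ℂ] ((P → Lt K n J) → ℂ)),
      (∀ v, T (D.om v) = D.om (T v)) →
      (∀ u ∈ R, T u ∈ Submodule.span ℂ (R : Set ((P → Lt K n J) → ℂ))) →
      ∀ u ∈ R₁, T u ∈ Submodule.span ℂ (R₁ : Set ((P → Lt K n J) → ℂ)) := by
    intro T hT hTR u hu
    have h6 : ∀ (m : ℕ) v, T ((L ^ m) v) = (L ^ m) (T v) := by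
      intro m
      induction m with
      | zero => intro v; simp
      | succ m ih =>
        intro v
        rw [pow_succ', Module.End.mul_apply, Module.End.mul_apply]
        have h7 := hT ((L ^ m) v)
        rw [ih] at h7
        exact h7
    refine Submodule.span_induction
      (p := fun u _ => T u ∈ Submodule.span ℂ (R₁ : Set ((P → Lt K n J) → ℂ))) ?_ ?_ ?_ ?_ hu
    · rintro _ ⟨m, u, hu, rfl⟩
      rw [h6]
      exact hCm m _ (hTR u hu)
    · rw [map_zero]
      exact Submodule.zero_mem _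
    · intro u v _ _ hu hv
      rw [map_add]
      exact Submodule.add_mem _ hu hv
    · intro q u _ hu
      have h7 : T (q • u) = (q : ℂ) • T u := by
        rw [← map_smul]
        congr 1
      rw [h7]
      exact Submodule.smul_mem _ _ hu
  have hsupm : ∀ (m : ℕ) (u : (P → Lt K n J) → ℂ) t, (L ^ m) u t ≠ 0 →
      ∃ t', u t' ≠ 0 ∧ nT Φ t' = nT Φ t ∧ nF Φ t' = nF Φ t ∧ nA t' = nA t := by
    intro m u
    induction m with
    | zero => intro t ht; exact ⟨t, by simpa using ht, rfl, rfl, rfl⟩
    | succ m ih =>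
      intro t ht
      rw [pow_succ', Module.End.mul_apply] at ht
      obtain ⟨t', ht', e1, e2, e3⟩ := hsup _ t ht
      obtain ⟨t'', ht'', e4, e5, e6⟩ := ih t' ht'
      exact ⟨t'', ht'', e4.trans e1, e5.trans e2, e6.trans e3⟩
  have hall : ∀ u ∈ R₁, u ∈ TQ K n J P ∧ ∀ t, u t ≠ 0 →
      (c ≤ nT Φ t ∧ c ≤ nF Φ t) ∧ nA t ≤ r := by
    intro u hu
    refine Submodule.span_induction
      (p := fun u _ => u ∈ TQ K n J P ∧ ∀ t, u t ≠ 0 → (c ≤ nT Φ t ∧ c ≤ nF Φ t) ∧ nA t ≤ r)
      ?_ ?_ ?_ ?_ hu
    · rintro _ ⟨m, u, hu, rfl⟩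
      constructor
      · induction m with
        | zero => simpa using hR.rat hu
        | succ m ih =>
          rw [pow_succ', Module.End.mul_apply]
          exact hrat _ ih
      · intro t ht
        obtain ⟨t', ht', e1, e2, e3⟩ := hsupm m u t ht
        have h6 := hR.con u hu t' ht'
        have h7 := hr u hu t' ht'
        rw [e1, e2] at h6
        rw [e3] at h7
        exact ⟨h6, h7⟩
    · exact ⟨Submodule.zero_mem _, fun t ht => absurd rfl ht⟩
    · rintro u v _ _ ⟨hu, hu'⟩ ⟨hv, hv'⟩
      refine ⟨Submodule.add_mem _ hu hv, fun t ht => ?_⟩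
      by_cases h6 : u t = 0
      · refine hv' t fun h7 => ht ?_
        rw [Pi.add_apply, h6, h7, add_zero]
      · exact hu' t h6
    · rintro q u _ ⟨hu, hu'⟩
      refine ⟨Submodule.smul_mem _ _ hu, fun t ht => hu' t fun h7 => ht ?_⟩
      rw [Pi.smul_apply, h7, smul_zero]
  have hR₁ : IsSub Φ a s c R₁ := by
    refine ⟨fun u hu => (hall u hu).1, ?_, ?_, fun u hu t ht => ((hall u hu).2 t ht).1⟩
    · intro u hu p
      exact hext (partL Φ p) (fun v => hpart p v) (fun u hu => hR.graded u hu p) u hu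
    · intro y y' hS hne u hu
      exact hext (rootL a y y') (fun v => hroot y y' hS hne v)
        (fun u hu => hR.lie y y' hS hne u hu) u hu
  have hfin₁ : FiniteDimensional ℚ R₁ := Submodule.finiteDimensional_of_le hR₁.rat
  have homom : ∀ u : (P → Lt K n J) → ℂ, D.om (D.om u) = 0 → D.om u = 0 :=
    fun u => (h1 (Lt K n J) D P u).2
  have hfit := fit R₁ (L.restrictScalars ℚ) hLR homom
  let R₀ : Submodule ℚ ((P → Lt K n J) → ℂ) := R₁ ⊓ LinearMap.ker (L.restrictScalars ℚ)
  have hker : ∀ z ∈ Submodule.span ℂ (R₁ : Set ((P → Lt K n J) → ℂ)), D.om z = 0 →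
      z ∈ Submodule.span ℂ (R₀ : Set ((P → Lt K n J) → ℂ)) := by
    intro z hz hz0
    have h5 : Submodule.span ℂ (R₁ : Set ((P → Lt K n J) → ℂ)) ≤
        Submodule.span ℂ (R₀ : Set ((P → Lt K n J) → ℂ)) ⊔
          (Submodule.span ℂ (R₁ : Set ((P → Lt K n J) → ℂ))).map L := by
      rw [Submodule.span_le]
      intro u hu
      obtain ⟨v, hv, hv0, w, hw, rfl⟩ := hfit u hu
      refine Submodule.add_mem _ ?_ ?_
      · exact Submodule.mem_sup_left (Submodule.subset_span ⟨hv, hv0⟩)
      · exact Submodule.mem_sup_right (Submodule.mem_map_of_mem (Submodule.subset_span hw))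
    obtain ⟨z₀, hz₀, _, ⟨w, hw, rfl⟩, rfl⟩ := Submodule.mem_sup.1 (h5 hz)
    have h6 : Submodule.span ℂ (R₀ : Set ((P → Lt K n J) → ℂ)) ≤ LinearMap.ker L := by
      rw [Submodule.span_le]
      intro u hu
      exact hu.2
    have h7 : L z₀ = 0 := h6 hz₀
    have h8 : L (z₀ + L w) = 0 := hz0
    rw [map_add, h7, zero_add] at h8
    have h9 : L w = 0 := homom w h8
    rw [h9, add_zero]
    exact hz₀
  have hle : Submodule.span ℂ (R₀ : Set ((P → Lt K n J) → ℂ)) ≤
      Submodule.span ℂ (R₁ : Set ((P → Lt K n J) → ℂ)) :=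
    Submodule.span_mono fun u hu => hu.1
  have hR₀ : IsSub Φ a s c R₀ := by
    refine ⟨fun u hu => hR₁.rat hu.1, ?_, ?_, fun u hu => hR₁.con u hu.1⟩
    · intro u hu p
      refine hker _ (hR₁.graded u hu.1 p) ?_
      have h5 : D.om u = 0 := hu.2
      rw [← hpart, h5]
      exact map_zero (partL Φ p)
    · intro y y' hS hne u hu
      refine hker _ (hR₁.lie y y' hS hne u hu.1) ?_
      have h5 : D.om u = 0 := hu.2
      rw [← hroot y y' hS hne, h5]
      exact map_zero (rootL a y y')
  refine ⟨R₁, R₀, hR₁, hR₀, fun u hu t ht => ((hall u hu).2 t ht).2, ?_, ?_⟩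
  · intro u hu
    exact (h1 (Lt K n J) D P u).1 hu.2
  · intro u hu
    obtain ⟨v, hv, hv0, w, hw, h5⟩ := hfit u (hsub u hu)
    exact ⟨v, ⟨hv, hv0⟩, w, hw, h5⟩

end

end Pool.Agent.U21
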