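import Pool.Agent.Lib.U21.Rows

/-!
# U21, row REX: permutations of the places
-/

set_option autoImplicit false

open scoped ComplexConjugate
open Complex Pool.Agent.HCM

namespace Pool.Agent.U21

namespace Rexx

theorem up_comp {P P' Y : Type} (e : P ≃ P') (t' : P' → Y) (i : P) (y : Y) :
    (fun k => up t' (e i) y (e k)) = up (fun k => t' (e k)) i y := by
  funext k
  unfold up
  by_cases h : k = i
  · subst h
    rw [if_pos rfl, if_pos rfl]
  · rw [if_neg h, if_neg (fun h' => h (e.injective h'))]

theorem up_up_comp {P P' Y : Type} (e : P ≃ P') (t' : P' → Y) (i j : P) (y z : Y) :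
    (fun k => up (up t' (e i) y) (e j) z (e k)) = up (up (fun k => t' (e k)) i y) j z := by
  rw [up_comp e (up t' (e i) y) j z, up_comp e t' i y]

theorem ncard_comp {P P' : Type} (e : P ≃ P') (q : P' → Prop) :
    {i | q (e i)}.ncard = {i' | q i'}.ncard := by
  have h : {i' | q i'} = e '' {i | q (e i)} := by
    ext i'
    constructor
    · intro hi
      refine ⟨e.symm i', ?_, e.apply_symm_apply i'⟩
      show q (e (e.symm i'))
      rw [e.apply_symm_apply]
      exact hi
    · rintro ⟨i, hi, rfl⟩
      exact hi
  rw [h, Set.ncard_image_of_injective _ e.injective]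

end Rexx

open Rexx in
theorem rex : REX := by
  intro κ K _ n J _ Φ a s D P P' _ _ e
  have hnT : ∀ t' : P' → Lt K n J, nT Φ (fun i => t' (e i)) = nT Φ t' := fun t' =>
    ncard_comp e (fun i' => (t' i').2 ∈ Φ (t' i').1)
  have hnF : ∀ t' : P' → Lt K n J, nF Φ (fun i => t' (e i)) = nF Φ t' := fun t' =>
    ncard_comp e (fun i' => (t' i').2 ∉ Φ (t' i').1)
  have hnA : ∀ t' : P' → Lt K n J, nA (fun i => t' (e i)) = nA t' := fun t' =>
    ncard_comp e (fun i' => ¬ isB (t' i'))
  refine ⟨LinearMap.funLeft ℂ ℂ (fun (t' : P' → Lt K n J) (i : P) => t' (e i)), ⟨?_, ?_, ?_, ?_⟩,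
    fun u t' => rfl, ?_⟩
  · intro u hu
    unfold TQ at hu
    induction hu using Submodule.span_induction with
    | mem v hv =>
      obtain ⟨x, rfl⟩ := hv
      apply Submodule.subset_span
      refine ⟨fun i' => x (e.symm i'), ?_⟩
      funext t'
      show ∏ i', lp (x (e.symm i')) (t' i') = ∏ i, lp (x i) (t' (e i))
      rw [← Equiv.prod_comp e]
      refine Finset.prod_congr rfl fun i _ => ?_
      rw [e.symm_apply_apply]
    | zero => rw [map_zero]; exact Submodule.zero_mem _
    | add v w _ _ h1 h2 => rw [map_add]; exact Submodule.add_mem _ h1 h2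
    | smul q v _ h1 =>
      have : (LinearMap.funLeft ℂ ℂ (fun (t' : P' → Lt K n J) (i : P) => t' (e i))) (q • v)
          = q • (LinearMap.funLeft ℂ ℂ (fun (t' : P' → Lt K n J) (i : P) => t' (e i))) v := rfl
      rw [this]
      exact Submodule.smul_mem _ _ h1
  · intro y y' _ _ u
    funext t'
    have h1 : ∀ (z z' : Lt K n J), eL z z' u (fun i => t' (e i)) =
        eL z z' (fun t'' : P' → Lt K n J => u fun i => t'' (e i)) t' := by
      intro z z'
      unfold eL
      rw [← Equiv.sum_comp e]
      refine Finset.sum_congr rfl fun i _ => ?_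
      have h2 := up_comp e t' i z'
      simp only [h2]
    show root a y y' u (fun i => t' (e i)) =
      root a y y' (fun t'' : P' → Lt K n J => u fun i => t'' (e i)) t'
    unfold root
    simp only [Pi.sub_apply, Pi.smul_apply]
    rw [h1, h1]
  · intro u t' hu
    exact ⟨fun i => t' (e i), hu, by rw [hnT, add_zero], by rw [hnF, add_zero], by
      rw [hnA, add_zero]⟩
  · intro u p
    funext t'
    show part Φ (p + 0) u (fun i => t' (e i)) =
      part Φ p (fun t'' : P' → Lt K n J => u fun i => t'' (e i)) t'
    unfold part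
    rw [hnT, add_zero]
  · intro i j u t'
    constructor
    · show D.pr (e i) (e j) (fun t'' : P' → Lt K n J => u fun i => t'' (e i)) t' = _
      unfold LS.pr
      simp only [up_up_comp e t' i j]
    · show D.an (e i) (e j) (fun t'' : P' → Lt K n J => u fun i => t'' (e i)) t' = _
      unfold LS.an
      simp only [up_up_comp e t' i j]

end Pool.Agent.U21
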