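import Pool.Agent.Lib.U21.Rows
import Pool.Agent.Lib.HCM.GDual

/-!
# U21: row RTO (helper94)

The operators `pr` and `an` are rational: on a product of linear forms each of them replaces the two
linear forms at the places `i`, `j` by a finite sum of products of two rational linear forms.
-/

set_option autoImplicit false

open scoped ComplexConjugate
open Complex Pool.Agent.HCM

namespace Pool.Agent.U21.Rtox

noncomputable section

section places

variable {κ : Type} {K : κ → Type} [∀ k, Field (K k)] {n : κ → ℕ} {J : κ → Type} {P : Type}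

theorem up_fst {Y : Type} (t : P → Y) (i j : P) (hij : i ≠ j) (y y' : Y) :
    up (up t i y) j y' i = y := by
  unfold up
  rw [if_neg hij, if_pos rfl]

theorem up_snd {Y : Type} (t : P → Y) (i j : P) (y y' : Y) : up (up t i y) j y' j = y' := by
  unfold up
  rw [if_pos rfl]

theorem up_other {Y : Type} (t : P → Y) (i j l : P) (h1 : l ≠ i) (h2 : l ≠ j) (y y' : Y) :
    up (up t i y) j y' l = t l := by
  unfold up
  rw [if_neg h2, if_neg h1]

variable [Fintype P]

open Classical in
/-- the product over the other places -/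
def rest (i j : P) (x : P → Lp K n J) (t : P → Lt K n J) : ℂ :=
  ∏ l ∈ (Finset.univ.erase i).erase j, lp (x l) (t l)

theorem prod_eq (i j : P) (hij : i ≠ j) (x : P → Lp K n J) (t : P → Lt K n J) :
    ∏ l, lp (x l) (t l) = lp (x i) (t i) * lp (x j) (t j) * rest i j x t := by
  classical
  unfold rest
  rw [← Finset.mul_prod_erase Finset.univ _ (Finset.mem_univ i),
    ← Finset.mul_prod_erase (Finset.univ.erase i) _
      (Finset.mem_erase.2 ⟨hij.symm, Finset.mem_univ j⟩), mul_assoc]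

theorem rest_congr (i j : P) (x x' : P → Lp K n J) (t t' : P → Lt K n J)
    (h : ∀ l, l ≠ i → l ≠ j → x l = x' l ∧ t l = t' l) : rest i j x t = rest i j x' t' := by
  classical
  unfold rest
  refine Finset.prod_congr rfl fun l hl => ?_
  have h2 : l ≠ j := (Finset.mem_erase.1 hl).1
  have h1 : l ≠ i := (Finset.mem_erase.1 (Finset.mem_erase.1 hl).2).1
  rw [(h l h1 h2).1, (h l h1 h2).2]

theorem prod_up (i j : P) (hij : i ≠ j) (x : P → Lp K n J) (t : P → Lt K n J) (y y' : Lt K n J) :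
    ∏ l, lp (x l) (up (up t i y) j y' l) = lp (x i) y * lp (x j) y' * rest i j x t := by
  rw [prod_eq i j hij, up_fst t i j hij, up_snd]
  congr 1
  exact rest_congr _ _ _ _ _ _ fun l h1 h2 => ⟨rfl, up_other t i j l h1 h2 y y'⟩

theorem one_mem (i j : P) (hij : i ≠ j) (x : P → Lp K n J) (z z' : Lp K n J) :
    (fun t => lp z (t i) * lp z' (t j) * rest i j x t) ∈ TQ K n J P := by
  refine Submodule.subset_span ⟨up (up x i z) j z', ?_⟩
  funext t
  show ∏ l, lp (up (up x i z) j z' l) (t l) = _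
  rw [prod_eq i j hij, up_fst x i j hij, up_snd]
  congr 1
  exact rest_congr _ _ _ _ _ _ fun l h1 h2 => ⟨up_other x i j l h1 h2 z z', rfl⟩

theorem sum_mem' (i j : P) (hij : i ≠ j) (x : P → Lp K n J) {M : Type} [Fintype M]
    (z z' : M → Lp K n J) (W : Lt K n J → Lt K n J → ℂ)
    (hW : ∀ y y', W y y' = ∑ m, lp (z m) y * lp (z' m) y') :
    (fun t => W (t i) (t j) * rest i j x t) ∈ TQ K n J P := by
  have h1 : (fun t => W (t i) (t j) * rest i j x t) =
      ∑ m, fun t : P → Lt K n J => lp (z m) (t i) * lp (z' m) (t j) * rest i j x t := by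
    funext t
    rw [hW, Finset.sum_apply, Finset.sum_mul]
  rw [h1]
  exact Submodule.sum_mem _ fun m _ => one_mem i j hij x (z m) (z' m)

end places

section dual

variable {κ : Type} (K : κ → Type) [∀ k, Field (K k)] [∀ k, NumberField (K k)]

theorem exists_eps [Finite κ] : ∃ (M : Type) (_ : Fintype M) (ε ε' : M → ∀ k, K k),
    ∀ p p' : Σ k, (K k →+* ℂ), ∑ m, p.2 (ε m p.1) * p'.2 (ε' m p'.1) =
      open Classical in if p = p' then 1 else 0 := by
  classical
  have := Fintype.ofFinite κ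
  choose d e e' h using fun k => exists_dual (K k)
  refine ⟨Σ k, Fin (d k), inferInstance, fun m => Pi.single m.1 (e m.1 m.2),
    fun m => Pi.single m.1 (e' m.1 m.2), ?_⟩
  rintro ⟨k, τ⟩ ⟨k', τ'⟩
  rw [Fintype.sum_sigma, Finset.sum_eq_single k]
  · by_cases hk : k' = k
    · subst hk
      simp only [Pi.single_eq_same]
      rw [h k' τ τ']
      by_cases hτ : τ = τ'
      · rw [if_pos hτ, if_pos (by rw [hτ])]
      · rw [if_neg hτ, if_neg (fun h0 => hτ (by cases h0; rfl))]
    · rw [if_neg (fun h0 => hk (congrArg Sigma.fst h0).symm)]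
      refine Finset.sum_eq_zero fun m _ => ?_
      simp only [Pi.single_eq_of_ne hk, map_zero, mul_zero]
  · intro b _ hb
    refine Finset.sum_eq_zero fun m _ => ?_
    simp only [Pi.single_eq_of_ne hb.symm, map_zero, zero_mul]
  · intro h0
    exact absurd (Finset.mem_univ k) h0

end dual

section an

variable {κ : Type} {K : κ → Type} [∀ k, Field (K k)] {n : κ → ℕ} {J : κ → Type}

/-- letters of the hermitian blocks -/
def isA (s : κ → Bool) (l : Σ k, Ln n J k) : Prop := l.2.isLeft = true ∧ s l.1 = false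

theorem same_iff (s : κ → Bool) (y y' : Lt K n J) : (Sm s y y' ∧ ¬ s y.1.1 = true) ↔
    ((⟨y.1.1, y.2⟩ : Σ k, (K k →+* ℂ)) = ⟨y'.1.1, y'.2⟩ ∧ isA s y.1 ∧ isA s y'.1) := by
  constructor
  · rintro ⟨⟨k, g, g', τ, h1, h2⟩, h3⟩
    subst h1
    have hs : s k = false := by
      cases h : s k
      · rfl
      · exact absurd h h3
    rcases h2 with h2 | h2
    · subst h2
      exact ⟨rfl, ⟨rfl, hs⟩, ⟨rfl, hs⟩⟩
    · rw [hs] at h2
      exact absurd h2.1 (by decide)
  · obtain ⟨⟨k, l⟩, τ⟩ := y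
    obtain ⟨⟨k', l'⟩, τ'⟩ := y'
    rintro ⟨h1, ⟨h2, h3⟩, ⟨h4, h5⟩⟩
    dsimp only at h1 h2 h3 h4 h5 ⊢
    cases h1
    obtain ⟨g, hg⟩ := Sum.isLeft_iff.1 h2
    obtain ⟨g', hg'⟩ := Sum.isLeft_iff.1 h4
    subst hg hg'
    exact ⟨⟨k, g, g', τ, rfl, Or.inl rfl⟩, by rw [h3]; decide⟩

open Classical in
/-- the part of a loop in the hermitian blocks, times an element -/
def trx (s : κ → Bool) (x : Lp K n J) (ε : ∀ k, K k) : Lp K n J :=
  fun l => if isA s l then x l * ε l.1 else 0

theorem lp_trx (s : κ → Bool) (x : Lp K n J) (ε : ∀ k, K k) (y : Lt K n J) :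
    lp (trx s x ε) y = open Classical in (if isA s y.1 then lp x y else 0) * y.2 (ε y.1.1) := by
  classical
  unfold lp trx
  by_cases h : isA s y.1
  · rw [if_pos h, if_pos h, map_mul]
  · rw [if_neg h, if_neg h, map_zero, zero_mul]

variable [∀ k, NumberField (K k)] {P : Type} [Fintype P]

/-- the operator `an` on two letters -/
def Wan (s : κ → Bool) (x x' : Lp K n J) (y y' : Lt K n J) : ℂ :=
  open Classical in if Sm s y y' ∧ ¬ s y.1.1 = true then lp x y * lp x' y' else 0

theorem Wan_mem [Finite κ] (s : κ → Bool) (i j : P) (hij : i ≠ j) (x : P → Lp K n J)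
    (z z' : Lp K n J) : (fun t => Wan s z z' (t i) (t j) * rest i j x t) ∈ TQ K n J P := by
  classical
  obtain ⟨M, hM, ε, ε', h⟩ := exists_eps K
  refine sum_mem' i j hij x (fun m : M => trx s z (ε m)) (fun m => trx s z' (ε' m)) _
    fun y y' => ?_
  have h1 := h ⟨y.1.1, y.2⟩ ⟨y'.1.1, y'.2⟩
  dsimp only at h1
  have h2 : ∑ m, lp (trx s z (ε m)) y * lp (trx s z' (ε' m)) y' =
      (if isA s y.1 then lp z y else 0) * (if isA s y'.1 then lp z' y' else 0) *
        ∑ m, y.2 (ε m y.1.1) * y'.2 (ε' m y'.1.1) := by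
    rw [Finset.mul_sum]
    refine Finset.sum_congr rfl fun m _ => ?_
    rw [lp_trx, lp_trx]
    ring
  rw [h2, h1]
  unfold Wan
  by_cases h3 : Sm s y y' ∧ ¬ s y.1.1 = true
  · obtain ⟨h4, h5, h6⟩ := (same_iff s y y').1 h3
    rw [if_pos h3, if_pos h4, if_pos h5, if_pos h6, mul_one]
  · rw [if_neg h3]
    by_cases h5 : isA s y.1
    · by_cases h6 : isA s y'.1
      · rw [if_neg (fun h4 => h3 ((same_iff s y y').2 ⟨h4, h5, h6⟩)), mul_zero]
      · rw [if_neg h6, mul_zero, zero_mul]
    · rw [if_neg h5, zero_mul, zero_mul]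

end an

section pr

variable {κ : Type} {K : κ → Type} [∀ k, Field (K k)] [∀ k, NumberField (K k)]
  [∀ k, NumberField.IsCMField (K k)] {n : κ → ℕ} {J : κ → Type}

/-- the complex conjugation of a CM field -/
def cc (k : κ) (x : K k) : K k := NumberField.IsCMField.complexConj (K k) x

theorem emb_cc (k : κ) (τ : K k →+* ℂ) (x : K k) : τ (cc k x) = cj τ x :=
  NumberField.IsCMField.complexEmbedding_complexConj (K k) τ x

theorem cj_cj {E : Type} [Field E] (τ : E →+* ℂ) : cj (cj τ) = τ := by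
  ext x
  exact Complex.conj_conj (τ x)

theorem cj_cc (k : κ) (τ : K k →+* ℂ) (x : K k) : cj τ (cc k x) = τ x := by
  have h : cj τ (cc k x) = cj (cj τ) x := emb_cc k (cj τ) x
  rw [h, cj_cj]

/-- the value of a family of elements of the fields at a letter -/
def val (r : ∀ k, Fin (n k) → K k) (y : Lt K n J) : ℂ :=
  y.2 (Sum.elim (r y.1.1) (fun _ => 0) y.1.2)

open Classical in
/-- the operator `pr` on two letters -/
def Wpr (r : ∀ k, Fin (n k) → K k) (y y' : Lt K n J) : ℂ := if y' = bar y then val r y else 0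

variable {P : Type} [Fintype P]

theorem val_mem [Finite κ] (i j : P) (hij : i ≠ j) (x : P → Lp K n J)
    (r : ∀ k, Fin (n k) → K k) :
    (fun t => Wpr r (t i) (t j) * rest i j x t) ∈ TQ K n J P := by
  classical
  have := Fintype.ofFinite κ
  choose d e e' h using fun k => exists_dual (K k)
  refine sum_mem' i j hij x
    (fun m : Σ p : (Σ k, Fin (n k)), Fin (d p.1) =>
      (Pi.single (⟨m.1.1, Sum.inl m.1.2⟩ : Σ k, Ln n J k) (e m.1.1 m.2 * r m.1.1 m.1.2) :
        Lp K n J))
    (fun m => (Pi.single (⟨m.1.1, Sum.inl m.1.2⟩ : Σ k, Ln n J k) (cc m.1.1 (e' m.1.1 m.2)) :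
        Lp K n J))
    (Wpr r) fun y y' => ?_
  unfold Wpr
  rw [Fintype.sum_sigma]
  obtain ⟨⟨k, g | b⟩, τ⟩ := y
  · rw [Finset.sum_eq_single (⟨k, g⟩ : Σ k, Fin (n k))]
    · by_cases hl : y'.1 = ⟨k, Sum.inl g⟩
      · obtain ⟨l, τ'⟩ := y'
        dsimp only at hl
        subst hl
        have h1 : ∀ m : Fin (d k), lp (Pi.single (⟨k, Sum.inl g⟩ : Σ k, Ln n J k)
            (e k m * r k g) : Lp K n J) ⟨⟨k, Sum.inl g⟩, τ⟩ = τ (e k m) * τ (r k g) := by
          intro m
          unfold lp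
          dsimp only
          rw [Pi.single_eq_same, map_mul]
        have h2 : ∀ m : Fin (d k), lp (Pi.single (⟨k, Sum.inl g⟩ : Σ k, Ln n J k)
            (cc k (e' k m)) : Lp K n J) ⟨⟨k, Sum.inl g⟩, τ'⟩ = cj τ' (e' k m) := by
          intro m
          unfold lp
          dsimp only
          rw [Pi.single_eq_same]
          exact emb_cc k τ' (e' k m)
        have h3 : ∑ m : Fin (d k), lp (Pi.single (⟨k, Sum.inl g⟩ : Σ k, Ln n J k)
            (e k m * r k g) : Lp K n J) ⟨⟨k, Sum.inl g⟩, τ⟩ *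
            lp (Pi.single (⟨k, Sum.inl g⟩ : Σ k, Ln n J k)
            (cc k (e' k m)) : Lp K n J) ⟨⟨k, Sum.inl g⟩, τ'⟩ =
            τ (r k g) * ∑ m, τ (e k m) * cj τ' (e' k m) := by
          rw [Finset.mul_sum]
          refine Finset.sum_congr rfl fun m _ => ?_
          rw [h1, h2]
          ring
        rw [h k τ (cj τ')] at h3
        refine Eq.trans ?_ h3.symm
        by_cases h4 : τ = cj τ'
        · have h5 : (⟨⟨k, Sum.inl g⟩, τ'⟩ : Lt K n J) = bar ⟨⟨k, Sum.inl g⟩, τ⟩ := by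
            rw [h4]
            show (⟨⟨k, Sum.inl g⟩, τ'⟩ : Lt K n J) = ⟨⟨k, Sum.inl g⟩, cj (cj τ')⟩
            rw [cj_cj]
          rw [if_pos h5, if_pos h4, mul_one]
          rfl
        · have h5 : ¬ (⟨⟨k, Sum.inl g⟩, τ'⟩ : Lt K n J) = bar ⟨⟨k, Sum.inl g⟩, τ⟩ := by
            intro h6
            have h7 : τ' = cj τ := eq_of_heq (Sigma.mk.inj h6).2
            exact h4 (by rw [h7, cj_cj])
          rw [if_neg h5, if_neg h4, mul_zero]
      · have h5 : ¬ y' = bar ⟨⟨k, Sum.inl g⟩, τ⟩ := fun h6 => hl (congrArg Sigma.fst h6)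
        rw [if_neg h5]
        symm
        refine Finset.sum_eq_zero fun m _ => ?_
        unfold lp
        dsimp only
        rw [Pi.single_eq_of_ne hl, map_zero, mul_zero]
    · rintro ⟨k', g'⟩ _ hb
      refine Finset.sum_eq_zero fun m _ => ?_
      have hne : (⟨k, Sum.inl g⟩ : Σ k, Ln n J k) ≠ ⟨k', Sum.inl g'⟩ := by
        intro h0
        apply hb
        cases h0
        rfl
      unfold lp
      dsimp only
      rw [Pi.single_eq_of_ne hne, map_zero, zero_mul]
    · intro h0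
      exact absurd (Finset.mem_univ _) h0
  · have h1 : val r (⟨⟨k, Sum.inr b⟩, τ⟩ : Lt K n J) = 0 := map_zero τ
    rw [h1, ite_self]
    symm
    refine Finset.sum_eq_zero fun p _ => Finset.sum_eq_zero fun m _ => ?_
    have hne : (⟨k, Sum.inr b⟩ : Σ k, Ln n J k) ≠ ⟨p.1, Sum.inl p.2⟩ := by
      intro h0
      cases h0
    unfold lp
    dsimp only
    rw [Pi.single_eq_of_ne hne, map_zero, zero_mul]

omit [∀ k, NumberField (K k)] [∀ k, NumberField.IsCMField (K k)] in
theorem Sm_iff (s : κ → Bool) (k : κ) (g : Fin (n k)) (τ : K k →+* ℂ) (z : Lt K n J) :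
    Sm s (lA k g τ) z ↔ (∃ g', z = lA k g' τ) ∨ (s k = true ∧ ∃ g', z = lA k g' (cj τ)) := by
  constructor
  · rintro ⟨k', g1, g', τ', h1, h2⟩
    unfold lA at h1
    cases h1
    rcases h2 with h2 | h2
    · exact Or.inl ⟨g', h2⟩
    · exact Or.inr ⟨h2.1, g', h2.2⟩
  · rintro (⟨g', h⟩ | ⟨h1, g', h2⟩)
    · exact ⟨k, g, g', τ, rfl, Or.inl h⟩
    · exact ⟨k, g, g', τ, rfl, Or.inr ⟨h1, h2⟩⟩

omit [∀ k, NumberField (K k)] [∀ k, NumberField.IsCMField (K k)] in
theorem sum_Sm [Fintype (Lt K n J)] (s : κ → Bool) (k : κ) (g : Fin (n k)) (τ : K k →+* ℂ)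
    (hτ : cj τ ≠ τ) (F : Lt K n J → ℂ) :
    ∑ z, (open Classical in if Sm s (lA k g τ) z then F z else 0) =
      ∑ g', (F (lA k g' τ) + if s k = true then F (lA k g' (cj τ)) else 0) := by
  classical
  by_cases hs : s k = true
  · symm
    simp only [if_pos hs]
    rw [Finset.sum_add_distrib]
    refine Eq.trans (Fintype.sum_sum_type
      (Sum.elim (fun g' => F (lA k g' τ)) fun g' => F (lA k g' (cj τ)))).symm ?_
    refine Fintype.sum_of_injective
      (Sum.elim (fun g' => lA k g' τ) fun g' => (lA k g' (cj τ) : Lt K n J)) ?_ _ _ ?_ ?_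
    · rintro (g1 | g1) (g2 | g2) h
      · simp only [Sum.elim_inl] at h
        unfold lA at h
        cases h
        rfl
      · simp only [Sum.elim_inl, Sum.elim_inr] at h
        unfold lA at h
        have h3 : τ = cj τ := eq_of_heq (Sigma.mk.inj h).2
        exact absurd h3.symm hτ
      · simp only [Sum.elim_inl, Sum.elim_inr] at h
        unfold lA at h
        have h3 : cj τ = τ := eq_of_heq (Sigma.mk.inj h).2
        exact absurd h3 hτ
      · simp only [Sum.elim_inr] at h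
        unfold lA at h
        have h3 := (Sigma.mk.inj h).1
        cases h3
        rfl
    · intro z hz
      rw [if_neg]
      intro h
      apply hz
      rcases (Sm_iff s k g τ z).1 h with ⟨g', h1⟩ | ⟨_, g', h1⟩
      · exact ⟨Sum.inl g', h1.symm⟩
      · exact ⟨Sum.inr g', h1.symm⟩
    · rintro (g' | g')
      · exact (if_pos ((Sm_iff s k g τ (lA k g' τ)).2 (Or.inl ⟨g', rfl⟩))).symm
      · exact (if_pos ((Sm_iff s k g τ (lA k g' (cj τ))).2 (Or.inr ⟨hs, g', rfl⟩))).symm
  · symm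
    simp only [if_neg hs, add_zero]
    refine Fintype.sum_of_injective (fun g' => (lA k g' τ : Lt K n J)) ?_ _ _ ?_ ?_
    · intro g1 g2 h
      dsimp only at h
      unfold lA at h
      have h3 := (Sigma.mk.inj h).1
      cases h3
      rfl
    · intro z hz
      rw [if_neg]
      intro h
      apply hz
      rcases (Sm_iff s k g τ z).1 h with ⟨g', h1⟩ | ⟨h0, _⟩
      · exact ⟨g', h1.symm⟩
      · exact absurd h0 hs
    · intro g'
      rw [if_pos ((Sm_iff s k g τ _).2 (Or.inl ⟨g', rfl⟩))]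

/-- the form of two loops on a block -/
def qf (a : ∀ k, Fin (n k) → K k) (s : κ → Bool) (x x' : Lp K n J) (k : κ) : K k :=
  ∑ g : Fin (n k), (a k g * x ⟨k, Sum.inl g⟩ * cc k (x' ⟨k, Sum.inl g⟩) +
    if s k = true then cc k (a k g * x ⟨k, Sum.inl g⟩ * cc k (x' ⟨k, Sum.inl g⟩)) else 0)

variable (n) in
/-- the dimension of a standard representation -/
def nf (s : κ → Bool) (k : κ) : K k := ∑ _g : Fin (n k), (1 + if s k = true then 1 else 0)

theorem form_sum [Fintype (Lt K n J)] (a : ∀ k, Fin (n k) → K k) (s : κ → Bool) (k : κ)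
    (g : Fin (n k)) (τ : K k →+* ℂ) (hτ : cj τ ≠ τ) (x x' : Lp K n J) (c : ℂ) :
    ∑ z, (open Classical in if Sm s (lA k g τ) z then
      wt a z * (lp x z * lp x' (bar z) * c) else 0) = τ (qf a s x x' k) * c := by
  rw [sum_Sm s k g τ hτ fun z => wt a z * (lp x z * lp x' (bar z) * c)]
  unfold qf
  rw [map_sum, Finset.sum_mul]
  refine Finset.sum_congr rfl fun g' _ => ?_
  have h1 : wt a (lA k g' τ : Lt K n J) * (lp x (lA k g' τ) * lp x' (bar (lA k g' τ)) * c) =
      τ (a k g' * x ⟨k, Sum.inl g'⟩ * cc k (x' ⟨k, Sum.inl g'⟩)) * c := by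
    rw [map_mul, map_mul, emb_cc]
    show τ (a k g') * (τ (x ⟨k, Sum.inl g'⟩) * cj τ (x' ⟨k, Sum.inl g'⟩) * c) = _
    ring
  have h2 : wt a (lA k g' (cj τ) : Lt K n J) *
      (lp x (lA k g' (cj τ)) * lp x' (bar (lA k g' (cj τ))) * c) =
      τ (cc k (a k g' * x ⟨k, Sum.inl g'⟩ * cc k (x' ⟨k, Sum.inl g'⟩))) * c := by
    rw [emb_cc, map_mul, map_mul, cj_cc]
    show cj τ (a k g') * (cj τ (x ⟨k, Sum.inl g'⟩) * cj (cj τ) (x' ⟨k, Sum.inl g'⟩) * c) = _
    rw [cj_cj]
    ring
  rw [h1, map_add, add_mul]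
  by_cases hs : s k = true
  · rw [if_pos hs, if_pos hs, h2]
  · rw [if_neg hs, if_neg hs, map_zero, zero_mul]

omit [∀ k, NumberField (K k)] [∀ k, NumberField.IsCMField (K k)] in
theorem card_sum [Fintype (Lt K n J)] (s : κ → Bool) (k : κ)
    (g : Fin (n k)) (τ : K k →+* ℂ) (hτ : cj τ ≠ τ) :
    ∑ z : Lt K n J, (open Classical in if Sm s (lA k g τ) z then (1 : ℂ) else 0) =
      τ (nf n s k) := by
  rw [sum_Sm s k g τ hτ fun _ => 1]
  unfold nf
  rw [map_sum]
  refine Finset.sum_congr rfl fun g' _ => ?_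
  rw [map_add, map_one]
  by_cases hs : s k = true
  · rw [if_pos hs, if_pos hs, map_one]
  · rw [if_neg hs, if_neg hs, map_zero]

theorem pr_pure [Fintype (Lt K n J)] {Φ : Ty K n J} {a : ∀ k, Fin (n k) → K k} {s : κ → Bool}
    {D : LS (Lt K n J)} (hd : IsDat Φ a s) (hD : IsLS a s D) (i j : P) (hij : i ≠ j)
    (x : P → Lp K n J) :
    D.pr i j (fun t => ∏ l, lp (x l) (t l)) =
      fun t => Wpr (fun k g => qf a s (x i) (x j) k / (nf n s k * a k g)) (t i) (t j) *
        rest i j x t := by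
  classical
  funext t
  have h0 : D.pr i j (fun t => ∏ l, lp (x l) (t l)) t =
      if t j = bar (t i) ∧ Sm s (t i) (t i) then
        ((∑ z : Lt K n J, if Sm s (t i) z then (1 : ℂ) else 0) * wt a (t i))⁻¹ *
        ∑ z, (if Sm s (t i) z then wt a z * (lp (x i) z * lp (x j) (bar z) * rest i j x t) else 0)
      else 0 := by
    unfold LS.pr LS.N
    rw [hD.hbar, hD.hS, hD.ha, Finset.natCast_card_filter]
    simp only [prod_up i j hij]
  rw [h0]
  generalize t i = y
  generalize t j = y'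
  generalize rest i j x t = c
  unfold Wpr
  obtain ⟨⟨k, g | b⟩, τ⟩ := y
  · have hS : Sm s (⟨⟨k, Sum.inl g⟩, τ⟩ : Lt K n J) ⟨⟨k, Sum.inl g⟩, τ⟩ :=
      ⟨k, g, g, τ, rfl, Or.inl rfl⟩
    have hτ : cj τ ≠ τ := by
      intro h
      have h1 := hd.cm ⟨k, Sum.inl g⟩ τ
      rw [h] at h1
      by_cases h2 : τ ∈ Φ ⟨k, Sum.inl g⟩
      · exact h1.1 h2 h2
      · exact h2 (h1.2 h2)
    by_cases hb : y' = bar (⟨⟨k, Sum.inl g⟩, τ⟩ : Lt K n J)
    · rw [if_pos ⟨hb, hS⟩, if_pos hb]
      have h1 := form_sum a s k g τ hτ (x i) (x j) c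
      have h2 := card_sum (J := J) s k g τ hτ
      unfold lA at h1 h2
      rw [h1, h2]
      show (τ (nf n s k) * τ (a k g))⁻¹ * (τ (qf a s (x i) (x j) k) * c) =
        τ (qf a s (x i) (x j) k / (nf n s k * a k g)) * c
      rw [map_div₀, map_mul]
      ring
    · rw [if_neg (fun h => hb h.1), if_neg hb, zero_mul]
  · have hS : ¬ Sm s (⟨⟨k, Sum.inr b⟩, τ⟩ : Lt K n J) ⟨⟨k, Sum.inr b⟩, τ⟩ := by
      rintro ⟨k', g', g1, τ', h1, _⟩
      unfold lA at h1
      cases h1
    rw [if_neg (fun h => hS h.2)]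
    have h1 : val (fun k g => qf a s (x i) (x j) k / (nf n s k * a k g))
        (⟨⟨k, Sum.inr b⟩, τ⟩ : Lt K n J) = 0 := map_zero τ
    rw [h1, ite_self, zero_mul]

end pr

section lin

variable {Y P : Type} (D : LS Y) (i j : P)

theorem an_zero : D.an i j 0 = 0 := by
  funext t
  unfold LS.an
  simp only [Pi.zero_apply, sub_zero, zero_div, ite_self]

theorem an_add (u v : (P → Y) → ℂ) : D.an i j (u + v) = D.an i j u + D.an i j v := by
  classical
  funext t
  unfold LS.an
  simp only [Pi.add_apply]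
  by_cases h : D.S (t i) (t j) ∧ ¬ D.sp (t i)
  · rw [if_pos h, if_pos h, if_pos h]
    ring
  · rw [if_neg h, if_neg h, if_neg h, add_zero]

theorem an_smul (q : ℚ) (u : (P → Y) → ℂ) : D.an i j (q • u) = q • D.an i j u := by
  classical
  funext t
  unfold LS.an
  simp only [Pi.smul_apply, Rat.smul_def]
  by_cases h : D.S (t i) (t j) ∧ ¬ D.sp (t i)
  · rw [if_pos h, if_pos h]
    ring
  · rw [if_neg h, if_neg h, mul_zero]

variable [Fintype Y]

theorem pr_zero : D.pr i j 0 = 0 := by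
  funext t
  unfold LS.pr
  simp only [Pi.zero_apply, mul_zero, ite_self, Finset.sum_const_zero]

theorem pr_add (u v : (P → Y) → ℂ) : D.pr i j (u + v) = D.pr i j u + D.pr i j v := by
  classical
  funext t
  unfold LS.pr
  simp only [Pi.add_apply]
  by_cases h : t j = D.bar (t i) ∧ D.S (t i) (t i)
  · rw [if_pos h, if_pos h, if_pos h, ← mul_add, ← Finset.sum_add_distrib]
    congr 1
    refine Finset.sum_congr rfl fun y _ => ?_
    by_cases h2 : D.S (t i) y
    · rw [if_pos h2, if_pos h2, if_pos h2, mul_add]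
    · rw [if_neg h2, if_neg h2, if_neg h2, add_zero]
  · rw [if_neg h, if_neg h, if_neg h, add_zero]

theorem pr_smul (q : ℚ) (u : (P → Y) → ℂ) : D.pr i j (q • u) = q • D.pr i j u := by
  classical
  funext t
  unfold LS.pr
  simp only [Pi.smul_apply, Rat.smul_def]
  by_cases h : t j = D.bar (t i) ∧ D.S (t i) (t i)
  · rw [if_pos h, if_pos h, mul_left_comm]
    congr 1
    rw [Finset.mul_sum]
    refine Finset.sum_congr rfl fun y _ => ?_
    by_cases h2 : D.S (t i) y
    · rw [if_pos h2, if_pos h2, mul_left_comm]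
    · rw [if_neg h2, if_neg h2, mul_zero]
  · rw [if_neg h, if_neg h, mul_zero]

end lin

end

end Pool.Agent.U21.Rtox

namespace Pool.Agent.U21

open Rtox

/-- **Row RTO.** -/
theorem rto : RTO := by
  classical
  intro κ _ K _ _ _ n J _ Φ a s D hd hD P _ i j hij u hu
  constructor
  · refine Submodule.span_induction (p := fun u _ => D.pr i j u ∈ TQ K n J P) ?_ ?_ ?_ ?_ hu
    · rintro _ ⟨x, rfl⟩
      rw [pr_pure hd hD i j hij x]
      exact val_mem i j hij x _
    · rw [pr_zero]
      exact Submodule.zero_mem _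
    · intro u v _ _ h1 h2
      rw [pr_add]
      exact Submodule.add_mem _ h1 h2
    · intro q u _ h
      rw [pr_smul]
      exact Submodule.smul_mem _ q h
  · refine Submodule.span_induction (p := fun u _ => D.an i j u ∈ TQ K n J P) ?_ ?_ ?_ ?_ hu
    · rintro _ ⟨x, rfl⟩
      have h1 : D.an i j (fun t => ∏ l, lp (x l) (t l)) = (2 : ℚ)⁻¹ •
          ((fun t => Wan s (x i) (x j) (t i) (t j) * rest i j x t) -
            fun t => Wan s (x j) (x i) (t i) (t j) * rest i j x t) := by
        funext t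
        unfold LS.an Wan
        simp only [Pi.smul_apply, Pi.sub_apply, Rat.smul_def]
        rw [hD.hS, hD.hsp, prod_up i j hij, prod_eq i j hij x t]
        by_cases h : Sm s (t i) (t j) ∧ ¬ s (t i).1.1 = true
        · rw [if_pos h, if_pos h, if_pos h]
          push_cast
          ring
        · rw [if_neg h, if_neg h, if_neg h, zero_mul, sub_zero, mul_zero]
      show D.an i j (fun t => ∏ l, lp (x l) (t l)) ∈ _
      rw [h1]
      exact Submodule.smul_mem _ _ (Submodule.sub_mem _ (Wan_mem s i j hij x _ _)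
        (Wan_mem s i j hij x _ _))
    · rw [an_zero]
      exact Submodule.zero_mem _
    · intro u v _ _ h1 h2
      rw [an_add]
      exact Submodule.add_mem _ h1 h2
    · intro q u _ h
      rw [an_smul]
      exact Submodule.smul_mem _ q h

end Pool.Agent.U21
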