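import Pool.Agent.Lib.U21.Rows
import Pool.Agent.Lib.GG.PERQ
import Pool.Agent.Lib.GG.PERAB
import Pool.Agent.Lib.GG.DESC
import Pool.Agent.Lib.GG.Partc

/-!
# U21, row SPL: a rational tensor whose words have `B`-parts of coniveau `c` is generated
-/

set_option autoImplicit false

open scoped ComplexConjugate
open Complex Pool.Agent.HCM

namespace Pool.Agent.U21

noncomputable section

namespace Splx

section letters

variable {κ : Type} {K : κ → Type} [∀ k, Field (K k)] {n : κ → ℕ} {J : κ → Type}

open Classical in
/-- The part of a loop in `B`. -/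
def rB (x : Lp K n J) : Lp K n J := fun i => if i.2.isRight = true then x i else 0

open Classical in
/-- The part of a loop in the product of the `A k`. -/
def rA (x : Lp K n J) : Lp K n J := fun i => if i.2.isRight = true then 0 else x i

open Classical in
theorem lp_rB (x : Lp K n J) (y : Lt K n J) : lp (rB x) y = if isB y then lp x y else 0 := by
  unfold lp rB isB
  split_ifs
  · rfl
  · exact map_zero _

open Classical in
theorem lp_rA (x : Lp K n J) (y : Lt K n J) : lp (rA x) y = if isB y then 0 else lp x y := by
  unfold lp rA isB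
  split_ifs
  · exact map_zero _
  · rfl

variable {P : Type} [DecidableEq P]

/-- The word with the letters `y` at the places of `Q` and `x` at the others. -/
def mx (Q : Finset P) (x : {i // i ∉ Q} → Lt K n J) (y : {i // i ∈ Q} → Lt K n J) :
    P → Lt K n J := fun i => if h : i ∈ Q then y ⟨i, h⟩ else x ⟨i, h⟩

open Classical in
/-- The part of `u` with letters of `B` exactly at the places of `Q`. -/
def FF (Q : Finset P) (u : (P → Lt K n J) → ℂ) (x : {i // i ∉ Q} → Lt K n J)
    (y : {i // i ∈ Q} → Lt K n J) : ℂ :=
  if (∀ i, ¬ isB (x i)) ∧ ∀ i, isB (y i) then u (mx Q x y) else 0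

variable (K n J) in
/-- The functions with support in the words in the letters of `B`. -/
def BS (R : Type) : Submodule ℚ ((R → Lt K n J) → ℂ) where
  carrier := {v | ∀ t, v t ≠ 0 → ∀ j, isB (t j)}
  zero_mem' := fun t h => absurd rfl h
  add_mem' := by
    intro v w hv hw t h j
    by_cases h0 : v t = 0
    · refine hw t ?_ j
      intro h1
      exact h (by rw [Pi.add_apply, h0, h1, add_zero])
    · exact hv t h0 j
  smul_mem' := by
    intro q v hv t h j
    refine hv t ?_ j
    intro h1
    exact h (by rw [Pi.smul_apply, h1, smul_zero])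

variable [Fintype P]

theorem ff_mem (Q : Finset P) {u : (P → Lt K n J) → ℂ} (hu : u ∈ TQ K n J P) :
    FF Q u ∈ GG.PartcAux.TT (TQ K n J {i // i ∉ Q})
      (TQ K n J {i // i ∈ Q} ⊓ BS K n J {i // i ∈ Q}) := by
  classical
  induction hu using Submodule.span_induction with
  | mem u hu =>
    obtain ⟨x, rfl⟩ := hu
    refine Submodule.subset_span ⟨fun t => ∏ i : {i // i ∉ Q}, lp (rA (x i)) (t i),
      Submodule.subset_span ⟨fun i => rA (x i), rfl⟩,
      fun t => ∏ i : {i // i ∈ Q}, lp (rB (x i)) (t i),
      ⟨Submodule.subset_span ⟨fun i => rB (x i), rfl⟩, ?_⟩, ?_⟩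
    · intro t ht j
      by_contra hj
      refine ht (Finset.prod_eq_zero (Finset.mem_univ j) ?_)
      rw [lp_rB, if_neg hj]
    · funext t w
      show FF Q (fun t => ∏ i, lp (x i) (t i)) t w =
        (∏ i : {i // i ∉ Q}, lp (rA (x i)) (t i)) * ∏ i : {i // i ∈ Q}, lp (rB (x i)) (w i)
      unfold FF
      split_ifs with h
      · have h1 : ∏ i, lp (x i) (mx Q t w i) =
            (∏ i : {i // i ∈ Q}, lp (x i) (w i)) * ∏ i : {i // i ∉ Q}, lp (x i) (t i) := by
          rw [← Fintype.prod_subtype_mul_prod_subtype (fun i => i ∈ Q)
            (fun i => lp (x i) (mx Q t w i))]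
          have e1 : ∏ i : {i // i ∈ Q}, lp (x i) (mx Q t w i) =
              ∏ i : {i // i ∈ Q}, lp (x i) (w i) := by
            refine Finset.prod_congr rfl fun i _ => ?_
            unfold mx
            rw [dif_pos i.2]
          have e2 : ∏ i : {i // i ∉ Q}, lp (x i) (mx Q t w i) =
              ∏ i : {i // i ∉ Q}, lp (x i) (t i) := by
            refine Finset.prod_congr rfl fun i _ => ?_
            unfold mx
            rw [dif_neg i.2]
          rw [← e1, ← e2]
          congr 1
          exact Finset.prod_congr (Finset.ext fun _ => by simp) fun _ _ => rfl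
        show ∏ i, lp (x i) (mx Q t w i) = _
        rw [h1, mul_comm]
        congr 1
        · refine Finset.prod_congr rfl fun i _ => ?_
          rw [lp_rA, if_neg (h.1 i)]
        · refine Finset.prod_congr rfl fun i _ => ?_
          rw [lp_rB, if_pos (h.2 i)]
      · rw [not_and_or, not_forall, not_forall] at h
        rcases h with ⟨i, hi⟩ | ⟨i, hi⟩
        · rw [not_not] at hi
          rw [Finset.prod_eq_zero (Finset.mem_univ i) (by rw [lp_rA, if_pos hi]), zero_mul]
        · rw [Finset.prod_eq_zero (s := Finset.univ) (f := fun i : {i // i ∈ Q} =>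
            lp (rB (x i)) (w i)) (Finset.mem_univ i) (by rw [lp_rB, if_neg hi]), mul_zero]
  | zero =>
    have : FF Q (0 : (P → Lt K n J) → ℂ) = 0 := by
      funext t w
      unfold FF
      split_ifs <;> rfl
    rw [this]
    exact Submodule.zero_mem _
  | add u v _ _ h1 h2 =>
    have : FF Q (u + v) = FF Q u + FF Q v := by
      funext t w
      simp only [Pi.add_apply, FF]
      split_ifs <;> simp
    rw [this]
    exact Submodule.add_mem _ h1 h2
  | smul q u _ h1 =>
    have : FF Q (q • u) = q • FF Q u := by
      funext t w
      simp only [Pi.smul_apply, FF]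
      split_ifs <;> simp
    rw [this]
    exact Submodule.smul_mem _ _ h1

/-- The places of the letters of `B`. -/
theorem sum_FF (u : (P → Lt K n J) → ℂ) :
    u = ∑ Q : Finset P, fun t => FF Q u (fun i => t i) (fun i => t i) := by
  classical
  funext t
  rw [Finset.sum_apply, Finset.sum_eq_single (Finset.univ.filter fun i => isB (t i))]
  · unfold FF
    rw [if_pos]
    · congr 1
      funext i
      unfold mx
      split_ifs <;> rfl
    · refine ⟨fun i => ?_, fun i => ?_⟩
      · intro hB
        exact i.2 (Finset.mem_filter.2 ⟨Finset.mem_univ _, hB⟩)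
      · exact (Finset.mem_filter.1 i.2).2
  · intro Q _ hQ
    unfold FF
    rw [if_neg]
    rintro ⟨h1, h2⟩
    apply hQ
    ext i
    rw [Finset.mem_filter]
    constructor
    · intro hi
      exact ⟨Finset.mem_univ _, h2 ⟨i, hi⟩⟩
    · rintro ⟨_, hi⟩
      by_contra hn
      exact h1 ⟨i, hn⟩ hi
  · intro h
    exact absurd (Finset.mem_univ _) h

/-- Change of the places. -/
theorem tq_equiv {R R' : Type} [Fintype R] [Fintype R'] (e : R ≃ R') {v : (R → Lt K n J) → ℂ}
    (hv : v ∈ TQ K n J R) : (fun t : R' → Lt K n J => v fun i => t (e i)) ∈ TQ K n J R' := by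
  induction hv using Submodule.span_induction with
  | mem v hv =>
    obtain ⟨x, rfl⟩ := hv
    refine Submodule.subset_span ⟨fun i => x (e.symm i), ?_⟩
    funext t
    show ∏ i, lp (x (e.symm i)) (t i) = ∏ i, lp (x i) (t (e i))
    rw [← Equiv.prod_comp e (fun i => lp (x (e.symm i)) (t i))]
    simp
  | zero => exact Submodule.zero_mem _
  | add v w _ _ h1 h2 => exact Submodule.add_mem _ h1 h2
  | smul q v _ h1 => exact Submodule.smul_mem _ _ h1

end letters

end Splx

open Splx

theorem spl : SPL := by
  classical
  intro κ _ K _ _ n J _ Φ a s P _ c u hu hc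
  have hfin : Finite (Lt K n J) := by
    unfold Lt Idx
    infer_instance
  rw [sum_FF u]
  refine Submodule.sum_mem _ fun Q _ => ?_
  have hper : GG.IsPer (GG.perB (K := fun i : Σ k, Ln n J k => K i.1)) := GG.perb _ _
  have hQI : GG.QInd (TQ K n J {i // i ∉ Q}) :=
    GG.perq GG.qind {i // i ∉ Q} (Lt K n J) (Lp K n J) GG.perB Finset.univ hper
  have h1 := GG.PartcAux.step (A' := ⊥) hQI le_rfl bot_le (ff_mem Q hu)
    {y | ∀ x, FF Q u x y = 0} (by
      intro y hy
      have : (fun x => FF Q u x y) = 0 := by
        funext x
        exact hy x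
      rw [this]
      exact Submodule.zero_mem _)
  have h2 : GG.PartcAux.TT (⊥ : Submodule ℚ (({i // i ∉ Q} → Lt K n J) → ℂ))
      (TQ K n J {i // i ∈ Q} ⊓ BS K n J {i // i ∈ Q}) = ⊥ := by
    rw [eq_bot_iff]
    unfold GG.PartcAux.TT
    rw [Submodule.span_le]
    rintro _ ⟨p, hp, v, _, rfl⟩
    rw [Submodule.mem_bot] at hp
    subst hp
    simp
    rfl
  rw [h2, sup_bot_eq] at h1
  -- the words `y` where the tensor does not vanish
  have h3 : ∀ y : {i // i ∈ Q} → Lt K n J, (¬ ∀ x, FF Q u x y = 0) →
      (∀ i, isB (y i)) ∧ c ≤ nT Φ y ∧ c ≤ nF Φ y := by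
    intro y hy
    obtain ⟨x, hx⟩ := not_forall.1 hy
    unfold FF at hx
    split_ifs at hx with h
    · refine ⟨h.2, ?_⟩
      have h4 := hc _ hx
      have key : ∀ p : Lt K n J → Prop, {i | isB (mx Q x y i) ∧ p (mx Q x y i)}.ncard =
          {i | p (y i)}.ncard := by
        intro p
        have e1 : {i | isB (mx Q x y i) ∧ p (mx Q x y i)} =
            Subtype.val '' {i : {i // i ∈ Q} | p (y i)} := by
          ext i
          constructor
          · rintro ⟨hi1, hi2⟩
            by_cases hi : i ∈ Q
            · refine ⟨⟨i, hi⟩, ?_, rfl⟩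
              unfold mx at hi2
              rw [dif_pos hi] at hi2
              exact hi2
            · exfalso
              unfold mx at hi1
              rw [dif_neg hi] at hi1
              exact h.1 _ hi1
          · rintro ⟨j, hj, rfl⟩
            have e2 : mx Q x y j = y j := by
              unfold mx
              rw [dif_pos j.2]
            refine ⟨?_, ?_⟩
            · rw [e2]
              exact h.2 j
            · rw [e2]
              exact hj
        rw [e1, Set.ncard_image_of_injective _ Subtype.val_injective]
      have k1 := key fun z => z.2 ∈ Φ z.1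
      have k2 := key fun z => z.2 ∉ Φ z.1
      unfold nT nF
      rw [← k1, ← k2]
      exact h4
    · exact absurd rfl hx
  set S : Set ({i // i ∈ Q} → Lt K n J) := {y | ∀ x, FF Q u x y = 0} with hS
  generalize FF Q u = f at h1
  have hp := Fintype.equivFin {i // i ∉ Q}
  have hq := Fintype.equivFin {i // i ∈ Q}
  induction h1 using Submodule.span_induction with
  | mem f hf =>
    obtain ⟨p, hp0, v, hv, hvS, rfl⟩ := hf
    have hB : ∀ y, v y ≠ 0 → (∀ i, isB (y i)) ∧ c ≤ nT Φ y ∧ c ≤ nF Φ y := fun y hy =>
      h3 y fun h => hy (hvS y h)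
    induction hp0 using Submodule.span_induction with
    | mem p hp0 =>
      obtain ⟨x, rfl⟩ := hp0
      let e : Fin (Fintype.card {i // i ∉ Q}) ⊕ Fin (Fintype.card {i // i ∈ Q}) ≃ P :=
        ((hp.symm.sumCongr hq.symm).trans (Equiv.sumComm _ _)).trans
          (Equiv.sumCompl fun i => i ∈ Q)
      have hg := Gen.base (Φ := Φ) (a := a) (s := s) c _ _ (fun i => x (hp.symm i))
        (fun w => v fun i => w (hq i)) (tq_equiv hq hv.1)
        (fun t ht j => by
          have := (hB _ ht).1 (hq.symm j)
          simpa using this)
        (fun t ht => by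
          have h5 := (hB _ ht).2
          have key : ∀ p : Lt K n J → Prop, {i | p (t i)}.ncard = {i | p (t (hq i))}.ncard := by
            intro p
            have e1 : {i | p (t i)} = hq '' {i | p (t (hq i))} := by
              ext i
              constructor
              · intro hi
                exact ⟨hq.symm i, by simpa using hi, by simp⟩
              · rintro ⟨j, hj, rfl⟩
                exact hj
            rw [e1, Set.ncard_image_of_injective _ hq.injective]
          have k1 := key fun z => z.2 ∈ Φ z.1
          have k2 := key fun z => z.2 ∉ Φ z.1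
          unfold nT nF at h5 ⊢
          rw [k1, k2]
          exact h5)
      refine Submodule.subset_span ?_
      have hg2 := Gen.perm c _ P e _ hg
      have e3 : (fun t : P → Lt K n J => (∏ i : {i // i ∉ Q}, lp (x i) (t i)) *
          v fun i => t i) = fun t : P → Lt K n J =>
            (∏ i, lp (x (hp.symm i)) (t (e (Sum.inl i)))) * v fun i => t (e (Sum.inr (hq i))) := by
        funext t
        congr 1
        · rw [← Equiv.prod_comp hp.symm (fun i : {i // i ∉ Q} => lp (x i) (t i))]
          rfl
        · congr 1
          funext i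
          congr 1
          show (i : P) = (hq.symm (hq i) : {i // i ∈ Q})
          rw [Equiv.symm_apply_apply]
      show Gen Φ a s c P fun t : P → Lt K n J => (∏ i : {i // i ∉ Q}, lp (x i) (t i)) *
          v fun i => t i
      rw [e3]
      exact hg2
    | zero =>
      have : (fun t : P → Lt K n J => (0 : ({i // i ∉ Q} → Lt K n J) → ℂ) (fun i => t i) *
          v fun i => t i) = 0 := by
        funext t
        exact zero_mul _
      rw [this]
      exact Submodule.zero_mem _
    | add p p' _ _ h1 h2 =>
      have : (fun t : P → Lt K n J => (p + p') (fun i => t i) * v fun i => t i) =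
          (fun t => p (fun i => t i) * v fun i => t i) +
            fun t => p' (fun i => t i) * v fun i => t i := by
        funext t
        exact add_mul _ _ _
      rw [this]
      exact Submodule.add_mem _ h1 h2
    | smul q p _ h1 =>
      have : (fun t : P → Lt K n J => (q • p) (fun i => t i) * v fun i => t i) =
          q • fun t => p (fun i => t i) * v fun i => t i := by
        funext t
        exact smul_mul_assoc q (p fun i => t i) (v fun i => t i)
      rw [this]
      exact Submodule.smul_mem _ _ h1
  | zero => exact Submodule.zero_mem _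
  | add f g _ _ h1 h2 => exact Submodule.add_mem _ h1 h2
  | smul q f _ h1 => exact Submodule.smul_mem _ _ h1

end

end Pool.Agent.U21
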