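import Pool.Agent.Lib.U21.GRD

/-!
# U21, row SUP: the words of a sub-Hodge structure killed by `pr` and `an`
-/

set_option autoImplicit false

open scoped ComplexConjugate
open Complex Pool.Agent.HCM

namespace Pool.Agent.U21

namespace Supx

open Grdx

section lin

variable {Y P : Type} [Fintype Y] (D : LS Y)

theorem pr_zero (i j : P) : D.pr i j (0 : (P → Y) → ℂ) = 0 := by
  funext t
  unfold LS.pr
  simp

omit [Fintype Y] in
theorem an_zero (i j : P) : D.an i j (0 : (P → Y) → ℂ) = 0 := by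
  funext t
  unfold LS.an
  simp

theorem pr_add (i j : P) (u v : (P → Y) → ℂ) : D.pr i j (u + v) = D.pr i j u + D.pr i j v := by
  classical
  funext t
  simp only [LS.pr, Pi.add_apply]
  split_ifs with h
  · rw [← mul_add, ← Finset.sum_add_distrib]
    congr 1
    refine Finset.sum_congr rfl fun y _ => ?_
    split_ifs
    · ring
    · simp
  · simp

omit [Fintype Y] in
theorem an_add (i j : P) (u v : (P → Y) → ℂ) : D.an i j (u + v) = D.an i j u + D.an i j v := by
  classical
  funext t
  simp only [LS.an, Pi.add_apply]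
  split_ifs with h
  · ring
  · simp

theorem pr_smul (i j : P) (c : ℂ) (u : (P → Y) → ℂ) : D.pr i j (c • u) = c • D.pr i j u := by
  classical
  funext t
  simp only [LS.pr, Pi.smul_apply, smul_eq_mul]
  split_ifs with h
  · rw [mul_left_comm c]
    congr 1
    rw [Finset.mul_sum]
    refine Finset.sum_congr rfl fun y _ => ?_
    split_ifs
    · ring
    · simp
  · simp

omit [Fintype Y] in
theorem an_smul (i j : P) (c : ℂ) (u : (P → Y) → ℂ) : D.an i j (c • u) = c • D.an i j u := by
  classical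
  funext t
  simp only [LS.an, Pi.smul_apply, smul_eq_mul]
  split_ifs with h
  · ring
  · simp

variable [Fintype P]

omit [Fintype Y] in
theorem eL_zero (y y' : Y) : eL y y' (0 : (P → Y) → ℂ) = 0 := by
  funext t
  unfold eL
  simp

omit [Fintype Y] in
theorem eL_add (y y' : Y) (u v : (P → Y) → ℂ) : eL y y' (u + v) = eL y y' u + eL y y' v := by
  classical
  funext t
  simp only [eL, Pi.add_apply]
  rw [← Finset.sum_add_distrib]
  refine Finset.sum_congr rfl fun i _ => ?_
  split_ifs <;> simp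

omit [Fintype Y] in
theorem eL_smul (y y' : Y) (c : ℂ) (u : (P → Y) → ℂ) : eL y y' (c • u) = c • eL y y' u := by
  classical
  funext t
  simp only [eL, Pi.smul_apply, smul_eq_mul]
  rw [Finset.mul_sum]
  refine Finset.sum_congr rfl fun i _ => ?_
  split_ifs <;> simp

omit [Fintype Y] in
theorem rt_zero (y y' : Y) : D.rt y y' (0 : (P → Y) → ℂ) = 0 := by
  unfold LS.rt
  rw [eL_zero, eL_zero]
  simp

omit [Fintype Y] in
theorem rt_add (y y' : Y) (u v : (P → Y) → ℂ) : D.rt y y' (u + v) = D.rt y y' u + D.rt y y' v := by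
  unfold LS.rt
  rw [eL_add, eL_add, smul_add]
  abel

omit [Fintype Y] in
theorem rt_smul (y y' : Y) (c : ℂ) (u : (P → Y) → ℂ) : D.rt y y' (c • u) = c • D.rt y y' u := by
  unfold LS.rt
  rw [eL_smul, eL_smul, smul_sub, smul_comm c]

end lin

section core

variable {Y P : Type} [Fintype Y] [Fintype P] (D : LS Y)

open Classical in
/-- a word in the places of the letters of `A` -/
noncomputable def ext (B : Y → Prop) (t0 : P → Y) (w : {i // ¬ B (t0 i)} → Y) (i : P) : Y :=
  if h : B (t0 i) then t0 i else w ⟨i, h⟩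

omit [Fintype Y] [Fintype P] in
theorem ext_A {B : Y → Prop} {t0 : P → Y} (w : {i // ¬ B (t0 i)} → Y) (i : {i // ¬ B (t0 i)}) :
    ext B t0 w i.1 = w i := by
  unfold ext
  rw [dif_neg i.2]

omit [Fintype Y] [Fintype P] in
theorem ext_B {B : Y → Prop} {t0 : P → Y} (w : {i // ¬ B (t0 i)} → Y) {i : P} (h : B (t0 i)) :
    ext B t0 w i = t0 i := by
  unfold ext
  rw [dif_pos h]

omit [Fintype Y] [Fintype P] in
theorem ext_up {B : Y → Prop} {t0 : P → Y} (w : {i // ¬ B (t0 i)} → Y) (i : {i // ¬ B (t0 i)})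
    (y : Y) : ext B t0 (up w i y) = up (ext B t0 w) i.1 y := by
  funext x
  by_cases h : B (t0 x)
  · have hx : x ≠ i.1 := by
      rintro rfl
      exact i.2 h
    rw [ext_B _ h, up_ne _ hx, ext_B _ h]
  · rw [ext_A _ ⟨x, h⟩]
    by_cases h2 : x = i.1
    · have h3 : (⟨x, h⟩ : {i // ¬ B (t0 i)}) = i := Subtype.ext h2
      rw [h3, h2, up_self, up_self]
    · have h3 : (⟨x, h⟩ : {i // ¬ B (t0 i)}) ≠ i := fun h4 => h2 (congrArg Subtype.val h4)
      rw [up_ne _ h3, up_ne _ h2]
      exact (ext_A w ⟨x, h⟩).symm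

open Classical in
/-- the restriction -/
noncomputable def res (B : Y → Prop) (t0 : P → Y) (r : (P → Y) → ℂ)
    (w : {i // ¬ B (t0 i)} → Y) : ℂ :=
  if ∀ i, ¬ B (w i) then r (ext B t0 w) else 0

/-- **The core.** -/
theorem core (hE : ENE) (B T : Y → Prop)
    (hB : ∀ y y', D.S y y' → ¬ B y ∧ ¬ B y') (hBbar : ∀ y, B (D.bar y) ↔ B y)
    (hSA : ∀ y, ¬ B y → D.S y y) (hT : ∀ y, T (D.bar y) ↔ ¬ T y)
    (hcl : ∀ y, D.S y y → ¬ D.sp y → (∃ y', D.S y y' ∧ T y') ∧ ∃ y', D.S y y' ∧ ¬ T y')
    (RC : Submodule ℂ ((P → Y) → ℂ))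
    (ha : ∀ r ∈ RC, ∀ i j, i ≠ j → D.pr i j r = 0 ∧ D.an i j r = 0)
    (hb : ∀ r ∈ RC, ∀ y y', D.S y y' → y ≠ y' → D.rt y y' r ∈ RC)
    (hc : ∀ r ∈ RC, ∀ p, (open Classical in
      (fun t => if {i | T (t i)}.ncard = p then r t else 0 : (P → Y) → ℂ)) ∈ RC)
    (r0 : (P → Y) → ℂ) (hr0 : r0 ∈ RC) (t0 : P → Y) (ht0 : r0 t0 ≠ 0) :
    ∃ r ∈ RC, ∃ t, r t ≠ 0 ∧ (∀ i, B (t0 i) → t i = t0 i) ∧
      ∀ i, ¬ B (t0 i) → ¬ B (t i) ∧ T (t i) := by
  classical
  set W : Set (P → Y) := {t | (∀ i, B (t0 i) → t i = t0 i) ∧ ∀ i, ¬ B (t0 i) → ¬ B (t i)} with hW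
  let Good : ℕ → Prop := fun p => ∃ r ∈ RC, (∀ t, r t ≠ 0 → {i | T (t i)}.ncard = p) ∧
    ∃ t ∈ W, r t ≠ 0
  have hg0 : Good {i | T (t0 i)}.ncard := by
    refine ⟨_, hc r0 hr0 {i | T (t0 i)}.ncard, ?_, t0, ?_, ?_⟩
    · intro t ht
      by_contra h
      exact ht (if_neg h)
    · exact ⟨fun i _ => rfl, fun i h => h⟩
    · rw [if_pos rfl]
      exact ht0
  have hle : ∀ p, Good p → p ≤ Fintype.card P := by
    rintro p ⟨r, -, h1, t, -, ht⟩
    rw [← h1 t ht, ← Nat.card_eq_fintype_card]
    exact Set.ncard_le_card _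
  obtain ⟨p, hp, hp1⟩ : ∃ p, Good p ∧ ¬ Good (p + 1) := by
    by_contra hcon
    push Not at hcon
    have h1 : ∀ k, Good ({i | T (t0 i)}.ncard + k) := by
      intro k
      induction k with
      | zero => exact hg0
      | succ k ih => exact hcon _ ih
    have h2 := hle _ (h1 (Fintype.card P + 1))
    omega
  obtain ⟨r, hr, hrp, t1, ht1, hrt1⟩ := hp
  -- raising root vectors
  have hraise : ∀ y y', D.S y y' → T y → ¬ T y' → ∀ t ∈ W, D.rt y y' r t = 0 := by
    intro y y' hS hy hy' t ht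
    by_contra hne
    refine hp1 ⟨D.rt y y' r, hb r hr y y' hS ?_, ?_, t, ht, hne⟩
    · rintro rfl
      exact hy' hy
    · intro t' ht'
      have hmove : ∀ z z', T z → ¬ T z' → eL z z' r t' ≠ 0 → {i | T (t' i)}.ncard = p + 1 := by
        intro z z' hz hz' h
        unfold eL at h
        obtain ⟨i, -, hi⟩ := Finset.exists_ne_zero_of_sum_ne_zero h
        have hi1 : t' i = z := by
          by_contra h2
          rw [if_neg h2] at hi
          exact hi rfl
        rw [if_pos hi1] at hi
        rw [← hrp _ hi]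
        have hset : {x | T (t' x)} = insert i {x | T (up t' i z' x)} := by
          ext x
          simp only [Set.mem_insert_iff, Set.mem_ofPred_eq]
          by_cases hx : x = i
          · subst hx
            rw [hi1]
            simp [hz]
          · rw [up_ne _ hx]
            simp [hx]
        rw [hset, Set.ncard_insert_of_notMem _ (Set.toFinite _)]
        rw [Set.mem_ofPred_eq, up_self]
        exact hz'
      unfold LS.rt at ht'
      rw [Pi.sub_apply, Pi.smul_apply] at ht'
      by_cases h1 : eL y y' r t' = 0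
      · rw [h1, zero_sub] at ht'
        have h2 : eL (D.bar y') (D.bar y) r t' ≠ 0 := by
          intro h3
          rw [h3, smul_zero, neg_zero] at ht'
          exact ht' rfl
        exact hmove _ _ ((hT y').2 hy') (fun h => ((hT y).1 h) hy) h2
      · exact hmove _ _ hy hy' h1
  -- words of `A`-letters
  have hextW : ∀ w : {i // ¬ B (t0 i)} → Y, (∀ i, ¬ B (w i)) → ext B t0 w ∈ W := by
    intro w hw
    refine ⟨fun i hi => ext_B w hi, fun i hi => ?_⟩
    rw [ext_A w ⟨i, hi⟩]
    exact hw _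
  set u : ({i // ¬ B (t0 i)} → Y) → ℂ := res B t0 r with hu
  have hupA : ∀ (w : {i // ¬ B (t0 i)} → Y) (i : {i // ¬ B (t0 i)}) (y : Y), (∀ i, ¬ B (w i)) →
      ¬ B y → ∀ x, ¬ B (up w i y x) := by
    intro w i y hw hy x
    by_cases hx : x = i
    · rw [hx, up_self]
      exact hy
    · rw [up_ne _ hx]
      exact hw x
  have hres : ∀ w : {i // ¬ B (t0 i)} → Y, (∀ i, ¬ B (w i)) → u w = r (ext B t0 w) := by
    intro w hw
    rw [hu]
    unfold res
    rw [if_pos hw]
  have hres0 : ∀ w : {i // ¬ B (t0 i)} → Y, (∃ i, B (w i)) → u w = 0 := by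
    rintro w ⟨i, hi⟩
    rw [hu]
    unfold res
    rw [if_neg]
    intro h
    exact h i hi
  have hkill : ∀ i j : {i // ¬ B (t0 i)}, i ≠ j → D.pr i j u = 0 ∧ D.an i j u = 0 := by
    intro i j hij
    have hij' : i.1 ≠ j.1 := fun h => hij (Subtype.ext h)
    have hk := ha r hr i.1 j.1 hij'
    constructor
    · funext w
      unfold LS.pr
      split_ifs with hcnd
      · have hwi : ¬ B (w i) := (hB _ _ hcnd.2).1
        have hwj : ¬ B (w j) := by
          rw [hcnd.1, hBbar]
          exact hwi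
        by_cases hw : ∀ x, ¬ B (w x)
        · have h1 := congrFun hk.1 (ext B t0 w)
          unfold LS.pr at h1
          rw [ext_A w i, ext_A w j, if_pos hcnd] at h1
          rw [Pi.zero_apply] at h1 ⊢
          refine Eq.trans ?_ h1
          congr 1
          refine Finset.sum_congr rfl fun y _ => ?_
          split_ifs with hy
          · have hyB := (hB _ _ hy).2
            rw [hres _ (hupA _ j _ (hupA w i y hw hyB) (by rwa [hBbar])), ext_up, ext_up]
          · rfl
        · push Not at hw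
          obtain ⟨x, hx⟩ := hw
          have hxi : x ≠ i := by
            rintro rfl
            exact hwi hx
          have hxj : x ≠ j := by
            rintro rfl
            exact hwj hx
          rw [Finset.sum_eq_zero, mul_zero]
          · rfl
          · intro y _
            split_ifs
            · rw [hres0 _ ⟨x, ?_⟩, mul_zero]
              rw [up2_ne w hxi hxj]
              exact hx
            · rfl
      · rfl
    · funext w
      unfold LS.an
      split_ifs with hcnd
      · have hwi : ¬ B (w i) := (hB _ _ hcnd.1).1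
        have hwj : ¬ B (w j) := (hB _ _ hcnd.1).2
        by_cases hw : ∀ x, ¬ B (w x)
        · have h1 := congrFun hk.2 (ext B t0 w)
          unfold LS.an at h1
          rw [ext_A w i, ext_A w j, if_pos hcnd] at h1
          rw [Pi.zero_apply] at h1 ⊢
          refine Eq.trans ?_ h1
          rw [hres w hw, hres _ (hupA _ j _ (hupA w i _ hw hwj) hwi), ext_up, ext_up]
        · push Not at hw
          obtain ⟨x, hx⟩ := hw
          have hxi : x ≠ i := by
            rintro rfl
            exact hwi hx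
          have hxj : x ≠ j := by
            rintro rfl
            exact hwj hx
          rw [hres0 w ⟨x, hx⟩, hres0 _ ⟨x, ?_⟩]
          · simp
          · rw [up2_ne w hxi hxj]
            exact hx
      · rfl
  have heL : ∀ z z' : Y, ¬ B z → ¬ B z' → ∀ w : {i // ¬ B (t0 i)} → Y,
      eL z z' u w = if ∀ x, ¬ B (w x) then eL z z' r (ext B t0 w) else 0 := by
    intro z z' hz hz' w
    split_ifs with hw
    · unfold eL
      have h1 := Fintype.sum_subtype_add_sum_subtype (fun i : P => ¬ B (t0 i))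
        (fun i : P => if ext B t0 w i = z then r (up (ext B t0 w) i z') else 0)
      rw [← h1]
      have h2 : ∑ i : {i // ¬ ¬ B (t0 i)},
          (if ext B t0 w i.1 = z then r (up (ext B t0 w) i.1 z') else 0) = 0 := by
        refine Finset.sum_eq_zero fun i _ => ?_
        rw [if_neg]
        have hi := not_not.1 i.2
        rw [ext_B w hi]
        rintro rfl
        exact hz hi
      rw [h2, add_zero]
      refine Finset.sum_congr rfl fun i _ => ?_
      rw [ext_A w i]
      split_ifs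
      · rw [hres _ (hupA w i z' hw hz'), ext_up]
      · rfl
    · push Not at hw
      obtain ⟨x, hx⟩ := hw
      unfold eL
      refine Finset.sum_eq_zero fun i _ => ?_
      split_ifs with hi
      · refine hres0 _ ⟨x, ?_⟩
        rw [up_ne _]
        · exact hx
        · rintro rfl
          rw [hi] at hx
          exact hz hx
      · rfl
  have hrt : ∀ y y', D.S y y' → T y → ¬ T y' → D.rt y y' u = 0 := by
    intro y y' hS hy hy'
    obtain ⟨h1, h2⟩ := hB _ _ hS
    funext w
    unfold LS.rt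
    rw [Pi.sub_apply, Pi.smul_apply, heL y y' h1 h2,
      heL _ _ (by rwa [hBbar]) (by rwa [hBbar])]
    by_cases hw : ∀ x, ¬ B (w x)
    · rw [if_pos hw, if_pos hw]
      have h3 := hraise y y' hS hy hy' _ (hextW w hw)
      unfold LS.rt at h3
      rw [Pi.sub_apply, Pi.smul_apply] at h3
      rw [h3]
      rfl
    · rw [if_neg hw, if_neg hw]
      simp
  have hfin := hE Y D T hT hcl {i // ¬ B (t0 i)} u hkill hrt
  have hw1 : ∀ i : {i // ¬ B (t0 i)}, ¬ B (t1 i.1) := fun i => ht1.2 i.1 i.2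
  have hext1 : ext B t0 (fun i : {i // ¬ B (t0 i)} => t1 i.1) = t1 := by
    funext x
    by_cases hx : B (t0 x)
    · rw [ext_B _ hx, ht1.1 x hx]
    · exact ext_A _ ⟨x, hx⟩
  have hu1 : u (fun i => t1 i.1) ≠ 0 := by
    rw [hres _ hw1, hext1]
    exact hrt1
  refine ⟨r, hr, t1, hrt1, ht1.1, fun i hi => ⟨ht1.2 i hi, ?_⟩⟩
  exact hfin _ hu1 ⟨i, hi⟩ (hSA _ (ht1.2 i hi))

end core

section letters

variable {κ : Type} {K : κ → Type} [∀ k, Field (K k)] {n : κ → ℕ} {J : κ → Type} {P : Type}

theorem Sm_self {s : κ → Bool} {y : Lt K n J} (h : ¬ isB y) : Sm s y y := by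
  obtain ⟨⟨k, g | j⟩, τ⟩ := y
  · exact ⟨k, g, g, τ, rfl, Or.inl rfl⟩
  · exact absurd rfl h

theorem cls {Φ : Ty K n J} {a : ∀ k, Fin (n k) → K k} {s : κ → Bool} (hdat : IsDat Φ a s)
    (y : Lt K n J) (h : ¬ isB y) (hs : s y.1.1 ≠ true) :
    (∃ y', Sm s y y' ∧ y'.2 ∈ Φ y'.1) ∧ ∃ y', Sm s y y' ∧ y'.2 ∉ Φ y'.1 := by
  obtain ⟨⟨k, g | j⟩, τ⟩ := y
  swap
  · exact absurd rfl h
  have hk : s k = false := by
    cases hh : s k
    · rfl
    · exact absurd hh hs
  have h1 : sig Φ k τ ≠ 0 ∧ sig Φ k τ < n k := by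
    rcases hdat.blk k hk with ⟨h2, h3⟩ | ⟨h2, h3⟩
    · rw [h3 τ, h2]
      omega
    · rcases (h3 τ).1 with h4 | h4 <;> rw [h4, h2] <;> omega
  constructor
  · obtain ⟨g', hg'⟩ := Set.nonempty_of_ncard_ne_zero h1.1
    exact ⟨lA k g' τ, ⟨k, g, g', τ, rfl, Or.inl rfl⟩, hg'⟩
  · by_contra hcon
    push Not at hcon
    have h2 : {g : Fin (n k) | τ ∈ Φ ⟨k, Sum.inl g⟩} = Set.univ := by
      ext g'
      simp only [Set.mem_ofPred_eq, Set.mem_univ, iff_true]
      exact hcon (lA k g' τ) ⟨k, g, g', τ, rfl, Or.inl rfl⟩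
    have h3 : sig Φ k τ = n k := by
      unfold sig
      rw [h2, Set.ncard_univ, Nat.card_eq_fintype_card, Fintype.card_fin]
    omega

theorem rt_eq {a : ∀ k, Fin (n k) → K k} {s : κ → Bool} {D : LS (Lt K n J)} (hls : IsLS a s D)
    [Fintype P] (y y' : Lt K n J) (u : (P → Lt K n J) → ℂ) : D.rt y y' u = root a y y' u := by
  unfold LS.rt root
  rw [hls.ha, hls.hbar]

theorem part_lin (Φ : Ty K n J) (p : ℕ) (c : ℂ) (u v : (P → Lt K n J) → ℂ) :
    part Φ p (u + c • v) = part Φ p u + c • part Φ p v := by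
  classical
  funext t
  simp only [part, Pi.add_apply, Pi.smul_apply, smul_eq_mul]
  split_ifs
  · rfl
  · simp

theorem part_mem [Fintype P] {Φ : Ty K n J} {R : Submodule ℚ ((P → Lt K n J) → ℂ)}
    (hR : ∀ u ∈ R, ∀ p, part Φ p u ∈ Submodule.span ℂ (R : Set ((P → Lt K n J) → ℂ)))
    {r : (P → Lt K n J) → ℂ} (hr : r ∈ Submodule.span ℂ (R : Set ((P → Lt K n J) → ℂ))) (p : ℕ) :
    part Φ p r ∈ Submodule.span ℂ (R : Set ((P → Lt K n J) → ℂ)) := by
  induction hr using Submodule.span_induction with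
  | mem x hx => exact hR x hx p
  | zero =>
    have h0 : part Φ p (0 : (P → Lt K n J) → ℂ) = 0 := by
      funext t
      unfold part
      simp
    rw [h0]
    exact Submodule.zero_mem _
  | add x y _ _ hx hy =>
    have h1 := part_lin Φ p 1 x y
    rw [one_smul, one_smul] at h1
    rw [h1]
    exact Submodule.add_mem _ hx hy
  | smul c x _ hx =>
    have h1 := part_lin Φ p c 0 x
    have h0 : part Φ p (0 : (P → Lt K n J) → ℂ) = 0 := by
      funext t
      unfold part
      simp
    rw [h0, zero_add, zero_add] at h1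
    rw [h1]
    exact Submodule.smul_mem _ c hx

end letters

end Supx

open Grdx Supx

/-- **Row SUP.** -/
theorem sup (hE : ENE) : SUP := by
  intro κ K _ n J _ Φ a s D hdat hls P _ c R hR hkill u hu t0 ht0
  classical
  set RC : Submodule ℂ ((P → Lt K n J) → ℂ) := Submodule.span ℂ (R : Set ((P → Lt K n J) → ℂ))
    with hRC
  have huC : u ∈ RC := Submodule.subset_span hu
  have hS : ∀ y y', D.S y y' ↔ Sm s y y' := by
    intro y y'
    rw [hls.hS]
  have hB : ∀ y y', D.S y y' → ¬ isB y ∧ ¬ isB y' := fun y y' h => not_isB_of_Sm ((hS y y').1 h)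
  have hBbar : ∀ y, isB (D.bar y) ↔ isB y := by
    intro y
    rw [hls.hbar]
    exact isB_bar y
  have hSA : ∀ y, ¬ isB y → D.S y y := fun y h => (hS y y).2 (Sm_self h)
  have hbarT : ∀ y, ((D.bar y).2 ∈ Φ (D.bar y).1 ↔ y.2 ∉ Φ y.1) := by
    intro y
    rw [hls.hbar]
    exact hdat.cm y.1 y.2
  have ha : ∀ r ∈ RC, ∀ i j, i ≠ j → D.pr i j r = 0 ∧ D.an i j r = 0 := by
    intro r hr i j hij
    induction hr using Submodule.span_induction with
    | mem x hx => exact hkill x hx i j hij
    | zero => exact ⟨pr_zero D i j, an_zero D i j⟩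
    | add x y _ _ hx hy => rw [pr_add, an_add, hx.1, hx.2, hy.1, hy.2]; simp
    | smul c x _ hx => rw [pr_smul, an_smul, hx.1, hx.2]; simp
  have hb : ∀ r ∈ RC, ∀ y y', D.S y y' → y ≠ y' → D.rt y y' r ∈ RC := by
    intro r hr y y' hy hne
    induction hr using Submodule.span_induction with
    | mem x hx =>
      rw [rt_eq hls]
      exact hR.lie y y' ((hS y y').1 hy) hne x hx
    | zero => rw [rt_zero]; exact Submodule.zero_mem _
    | add x z _ _ hx hz => rw [rt_add]; exact Submodule.add_mem _ hx hz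
    | smul c x _ hx => rw [rt_smul]; exact Submodule.smul_mem _ c hx
  have hpart : ∀ r ∈ RC, ∀ p, part Φ p r ∈ RC := fun r hr p => part_mem hR.graded hr p
  have hcon : ∀ r ∈ RC, ∀ t, r t ≠ 0 → c ≤ nT Φ t ∧ c ≤ nF Φ t := by
    intro r hr t ht
    by_contra hcon
    apply ht
    clear ht
    induction hr using Submodule.span_induction with
    | mem x hx =>
      by_contra h
      exact hcon (hR.con x hx t h)
    | zero => rfl
    | add x z _ _ hx hz => rw [Pi.add_apply, hx, hz, add_zero]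
    | smul c x _ hx => rw [Pi.smul_apply, hx, smul_zero]
  have hsum : ∀ t : P → Lt K n J, nT Φ t + nF Φ t = Fintype.card P := by
    intro t
    unfold nT nF
    rw [← Nat.card_eq_fintype_card, ← Set.ncard_add_ncard_compl {i | (t i).2 ∈ Φ (t i).1}]
    rfl
  have hcl : ∀ y, D.S y y → ¬ D.sp y →
      (∃ y', D.S y y' ∧ y'.2 ∈ Φ y'.1) ∧ ∃ y', D.S y y' ∧ y'.2 ∉ Φ y'.1 := by
    intro y hy hsp
    have h1 := cls hdat y (hB y y hy).1 (fun h => hsp ((hls.hsp y).2 h))
    obtain ⟨⟨y1, h2, h3⟩, y2, h4, h5⟩ := h1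
    exact ⟨⟨y1, (hS _ _).2 h2, h3⟩, y2, (hS _ _).2 h4, h5⟩
  constructor
  · -- the letters of `A` are not in `Φ`
    obtain ⟨r, hr, t, hrt, h1, h2⟩ := core D hE isB (fun y => y.2 ∉ Φ y.1) hB hBbar hSA
      (fun y => by rw [hbarT]) (fun y h3 h4 => by
        obtain ⟨⟨y1, h5, h6⟩, y2, h7, h8⟩ := hcl y h3 h4
        exact ⟨⟨y2, h7, h8⟩, y1, h5, not_not.2 h6⟩) RC ha hb (by
        intro r hr p
        by_cases hp : p ≤ Fintype.card P
        · have h3 := hpart r hr (Fintype.card P - p)
          convert h3 using 1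
          funext t
          unfold part
          have h4 := hsum t
          unfold nF at h4
          by_cases h5 : {i | (t i).2 ∉ Φ (t i).1}.ncard = p
          · rw [if_pos h5, if_pos]
            omega
          · rw [if_neg h5, if_neg]
            omega
        · convert Submodule.zero_mem RC using 1
          funext t
          rw [if_neg]
          · rfl
          · intro h5
            have h4 := hsum t
            unfold nF at h4
            omega) u huC t0 ht0
    have h3 := (hcon r hr t hrt).1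
    have h4 : {i | (t i).2 ∈ Φ (t i).1} = {i | isB (t0 i) ∧ (t0 i).2 ∈ Φ (t0 i).1} := by
      ext i
      simp only [Set.mem_ofPred_eq]
      by_cases hi : isB (t0 i)
      · rw [h1 i hi]
        simp [hi]
      · simp [hi, (h2 i hi).2]
    unfold nT at h3
    rwa [h4] at h3
  · obtain ⟨r, hr, t, hrt, h1, h2⟩ := core D hE isB (fun y => y.2 ∈ Φ y.1) hB hBbar hSA
      hbarT hcl RC ha hb (fun r hr p => hpart r hr p) u huC t0 ht0
    have h3 := (hcon r hr t hrt).2
    have h4 : {i | (t i).2 ∉ Φ (t i).1} = {i | isB (t0 i) ∧ (t0 i).2 ∉ Φ (t0 i).1} := by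
      ext i
      simp only [Set.mem_ofPred_eq]
      by_cases hi : isB (t0 i)
      · rw [h1 i hi]
        simp [hi]
      · simp [hi, (h2 i hi).2]
    unfold nF at h3
    rwa [h4] at h3

end Pool.Agent.U21
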