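import Pool.Agent.Lib.U21.Rows

/-!
# U21, row TRN: morphisms map sub-Hodge structures to sub-Hodge structures
-/

set_option autoImplicit false

open scoped ComplexConjugate
open Complex Pool.Agent.HCM

namespace Pool.Agent.U21

theorem trn : TRN := by
  intro κ K _ n J Φ a s P P' _ _ h r c C hC R hR
  have key : ∀ v ∈ Submodule.span ℂ (R : Set ((P → Lt K n J) → ℂ)),
      C v ∈ Submodule.span ℂ
        ((R.map (C.restrictScalars ℚ) : Submodule ℚ ((P' → Lt K n J) → ℂ)) :
          Set ((P' → Lt K n J) → ℂ)) := by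
    intro v hv
    have h1 : C v ∈ (Submodule.span ℂ (R : Set ((P → Lt K n J) → ℂ))).map C :=
      Submodule.mem_map_of_mem hv
    rw [Submodule.map_span] at h1
    refine Submodule.span_mono ?_ h1
    rintro _ ⟨w, hw, rfl⟩
    exact ⟨w, hw, rfl⟩
  refine ⟨?_, ?_, ?_, ?_⟩
  · rintro _ ⟨v, hv, rfl⟩
    exact hC.rat v (hR.rat hv)
  · rintro _ ⟨v, hv, rfl⟩ p
    have h1 := key _ (hR.graded v hv (p + h))
    rw [hC.graded] at h1
    exact h1
  · rintro y y' hS hne _ ⟨v, hv, rfl⟩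
    have h1 := key _ (hR.lie y y' hS hne v hv)
    rw [hC.lie y y' hS hne] at h1
    exact h1
  · rintro _ ⟨v, hv, rfl⟩ t' ht'
    obtain ⟨t, ht, h1, h2, -⟩ := hC.sup v t' ht'
    obtain ⟨h3, h4⟩ := hR.con v hv t ht
    constructor <;> omega

end Pool.Agent.U21
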