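import Pool.Agent.Lib.U21.ASM
import Pool.Agent.Lib.U21.OMG
import Pool.Agent.Lib.U21.CMT
import Pool.Agent.Lib.U21.ENE
import Pool.Agent.Lib.U21.LSX
import Pool.Agent.Lib.U21.FAC
import Pool.Agent.Lib.U21.RTO
import Pool.Agent.Lib.U21.DET
import Pool.Agent.Lib.U21.SPL
import Pool.Agent.Lib.U21.SUP
import Pool.Agent.Lib.U21.TRN
import Pool.Agent.Lib.U21.REX
import Pool.Agent.Lib.U21.GRD
import Pool.Agent.Lib.U21.OMS
import Pool.Agent.Lib.U21.CMB
import Pool.Agent.Lib.U21.GEN

/-!
# U21: final assembly (helper67)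
-/

set_option autoImplicit false

namespace Pool.Agent.U21

theorem ghu : GHU := asm lsx fac det spl (sup ene) trn rex (oms omg cmt rto grd)

theorem ghb : GHB := ghb_of ghu (gen cmb)

end Pool.Agent.U21
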