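import Pool.Agent.Lib.U21.Stat

/-!
# U21: statements of the rows

Row `X` is `theorem x : X` (small letters) in the file `Pool/Agent/Lib/U21/X.lean`; a row which uses
other rows takes them as hypotheses.
-/

set_option autoImplicit false

open scoped ComplexConjugate
open Complex Pool.Agent.HCM

namespace Pool.Agent.U21

noncomputable section

/-! ### Abstract letters -/

/-- Abstract letters with a conjugation, a form and standard representations. -/
structure LS (Y : Type) where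
  bar : Y → Y
  a : Y → ℂ
  S : Y → Y → Prop
  sp : Y → Prop
  bar_bar : ∀ y, bar (bar y) = y
  a_ne : ∀ y, a y ≠ 0
  a_bar : ∀ y, a (bar y) = conj (a y)
  a_sp : ∀ y, S y y → sp y → a (bar y) = - a y
  a_nsp : ∀ y, S y y → ¬ sp y → a (bar y) = a y
  symm : ∀ y y', S y y' → S y' y
  trans : ∀ y y' y'', S y y' → S y' y'' → S y y''
  S_bar : ∀ y y', S y y' → S (bar y) (bar y')
  sp_S : ∀ y y', S y y' → (sp y ↔ sp y')
  sp_bar : ∀ y, S y y → sp y → S y (bar y)
  nsp_bar : ∀ y, ¬ sp y → ¬ S y (bar y)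

section ops

variable {Y P : Type} (D : LS Y)

/-- The root vector. -/
def LS.rt [Fintype P] (y y' : Y) (u : (P → Y) → ℂ) : (P → Y) → ℂ :=
  eL y y' u - (D.a y / D.a y') • eL (D.bar y') (D.bar y) u

variable [Fintype Y]

open Classical in
/-- The dimension of the standard representation of `y`. -/
def LS.N (y : Y) : ℕ := (Finset.univ.filter fun y' => D.S y y').card

open Classical in
/-- The projection onto the line of the pairing, at the places `i` and `j`. -/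
def LS.pr (i j : P) (u : (P → Y) → ℂ) (t : P → Y) : ℂ :=
  if t j = D.bar (t i) ∧ D.S (t i) (t i) then
    ((D.N (t i) : ℂ) * D.a (t i))⁻¹ *
      ∑ y, if D.S (t i) y then D.a y * u (up (up t i y) j (D.bar y)) else 0
  else 0

omit [Fintype Y] in
open Classical in
/-- The antisymmetrisation of two letters of one unitary standard representation. -/
def LS.an (i j : P) (u : (P → Y) → ℂ) (t : P → Y) : ℂ :=
  if D.S (t i) (t j) ∧ ¬ D.sp (t i) then (u t - u (up (up t i (t j)) j (t i))) / 2 else 0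

open Classical in
/-- The operator `Ω`. -/
def LS.om [Fintype P] (u : (P → Y) → ℂ) (t : P → Y) : ℂ :=
  ∑ i, ∑ j, if i ≠ j then D.pr i j u t + D.an i j u t else 0

end ops

/-- **Row OMG**: `Ω` is a sum of orthogonal projections for a positive hermitian form (the form with
the weights `∏ i, |a (t i)|` on words). -/
def OMG : Prop :=
  ∀ (Y : Type) [Fintype Y] (D : LS Y) (P : Type) [Fintype P] (u : (P → Y) → ℂ),
    (D.om u = 0 → ∀ i j, i ≠ j → D.pr i j u = 0 ∧ D.an i j u = 0) ∧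
    (D.om (D.om u) = 0 → D.om u = 0)

/-- **Row CMT**: the root vectors commute with `Ω`. -/
def CMT : Prop :=
  ∀ (Y : Type) [Fintype Y] (D : LS Y) (P : Type) [Fintype P] (i j : P), i ≠ j →
    ∀ y y', D.S y y' → y ≠ y' → ∀ u : (P → Y) → ℂ,
      D.rt y y' (D.pr i j u) = D.pr i j (D.rt y y' u) ∧
      D.rt y y' (D.an i j u) = D.an i j (D.rt y y' u)

/-- **Row ENE**: the energy identity. -/
def ENE : Prop :=
  ∀ (Y : Type) [Fintype Y] (D : LS Y) (T : Y → Prop), (∀ y, T (D.bar y) ↔ ¬ T y) →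
    (∀ y, D.S y y → ¬ D.sp y → (∃ y', D.S y y' ∧ T y') ∧ ∃ y', D.S y y' ∧ ¬ T y') →
    ∀ (P : Type) [Fintype P] (u : (P → Y) → ℂ),
      (∀ i j, i ≠ j → D.pr i j u = 0 ∧ D.an i j u = 0) →
      (∀ y y', D.S y y' → T y → ¬ T y' → D.rt y y' u = 0) →
      ∀ t, u t ≠ 0 → ∀ i, D.S (t i) (t i) → T (t i)

/-! ### The letters of `X` -/

section letters

variable {κ : Type} {K : κ → Type} [∀ k, Field (K k)] {n : κ → ℕ} {J : κ → Type} {P P' : Type}

/-- The number of letters of the `A k`. -/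
def nA (t : P → Lt K n J) : ℕ := {i | ¬ isB (t i)}.ncard

/-- `D` is the structure of `Stat` on the letters of `X`. -/
structure IsLS (a : ∀ k, Fin (n k) → K k) (s : κ → Bool) (D : LS (Lt K n J)) : Prop where
  hbar : D.bar = bar
  ha : D.a = wt a
  hS : D.S = Sm s
  hsp : ∀ y, D.sp y ↔ s y.1.1 = true

/-- `C` is a morphism which lowers the weight by `2 h` and the Hodge numbers by `(h, h)`, and the
number of letters of the `A k` by at least `r`. -/
structure IsMor [Fintype P] [Fintype P'] (Φ : Ty K n J) (a : ∀ k, Fin (n k) → K k) (s : κ → Bool)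
    (h r : ℕ) (C : ((P → Lt K n J) → ℂ) →ₗ[ℂ] ((P' → Lt K n J) → ℂ)) : Prop where
  rat : ∀ u ∈ TQ K n J P, C u ∈ TQ K n J P'
  lie : ∀ y y', Sm s y y' → y ≠ y' → ∀ u, C (root a y y' u) = root a y y' (C u)
  sup : ∀ u t', C u t' ≠ 0 → ∃ t, u t ≠ 0 ∧ nT Φ t = nT Φ t' + h ∧ nF Φ t = nF Φ t' + h ∧
    nA t' + r ≤ nA t
  graded : ∀ u p, C (part Φ (p + h) u) = part Φ p (C u)

/-- All data. -/
structure IsAll (Φ : Ty K n J) (a : ∀ k, Fin (n k) → K k) (s : κ → Bool) (D : LS (Lt K n J)) :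
    Prop where
  dat : IsDat Φ a s
  ls : IsLS a s D

end letters

/-- **Row LSX**: the structure exists. -/
def LSX : Prop :=
  ∀ (κ : Type) (K : κ → Type) [∀ k, Field (K k)] (n : κ → ℕ) (J : κ → Type)
    (Φ : Ty K n J) (a : ∀ k, Fin (n k) → K k) (s : κ → Bool), IsDat Φ a s →
    ∃ D : LS (Lt K n J), IsLS a s D

/-- **Row FAC**: the operators `pr` and `an` at the two first places factor through contractions with
values in the tensors in the other places, except `an` for the blocks of rank 3. -/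
def FAC : Prop :=
  ∀ (κ : Type) [Finite κ] (K : κ → Type) [∀ k, Field (K k)] [∀ k, NumberField (K k)]
    [∀ k, NumberField.IsCMField (K k)] (n : κ → ℕ) (J : κ → Type) [Fintype (Lt K n J)]
    (Φ : Ty K n J) (a : ∀ k, Fin (n k) → K k) (s : κ → Bool) (D : LS (Lt K n J)),
    IsDat Φ a s → IsLS a s D → ∀ (P : Type) [Fintype P],
    ∃ (N : ℕ) (δ : Fin N → (Fin 2 → Lt K n J) → ℂ)
      (C : Fin N → ((Fin 2 ⊕ P → Lt K n J) → ℂ) →ₗ[ℂ] ((P → Lt K n J) → ℂ)),
      (∀ m, IsH11 Φ a s (δ m)) ∧ (∀ m, IsMor Φ a s 1 2 (C m)) ∧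
      ∀ u t, D.pr (Sum.inl 0) (Sum.inl 1) u t +
        (if n (t (Sum.inl 0)).1.1 = 2 then D.an (Sum.inl 0) (Sum.inl 1) u t else 0) =
          ∑ m, δ m (fun i => t (Sum.inl i)) * C m u fun j => t (Sum.inr j)

/-- **Row DET**: `an` for the blocks of rank 3 factors through the `K`-determinants. -/
def DET : Prop :=
  ∀ (κ : Type) [Finite κ] (K : κ → Type) [∀ k, Field (K k)] [∀ k, NumberField (K k)]
    [∀ k, NumberField.IsCMField (K k)] (n : κ → ℕ) (J : κ → Type)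
    (Φ : Ty K n J) (a : ∀ k, Fin (n k) → K k) (s : κ → Bool) (D : LS (Lt K n J)),
    IsDat Φ a s → IsLS a s D → ∀ (P : Type) [Fintype P] (k : κ) (i j : P),
    s k = false → n k = 3 → i ≠ j →
    ∃ C : ((P → Lt K n J) → ℂ) →ₗ[ℂ] ((P → Lt K n J) → ℂ), IsMor Φ a s 0 1 C ∧
      ∀ u t, (open Classical in if (t i).1.1 = k then D.an i j u t else 0) = dt a k i j (C u) t

/-- **Row SPL**: a rational tensor whose words have `B`-parts of coniveau `c` is generated. -/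
def SPL : Prop :=
  ∀ (κ : Type) [Finite κ] (K : κ → Type) [∀ k, Field (K k)] [∀ k, NumberField (K k)]
    (n : κ → ℕ) (J : κ → Type) [∀ k, Finite (J k)]
    (Φ : Ty K n J) (a : ∀ k, Fin (n k) → K k) (s : κ → Bool) (P : Type) [Fintype P] (c : ℕ)
    (u : (P → Lt K n J) → ℂ), u ∈ TQ K n J P →
    (∀ t, u t ≠ 0 → c ≤ {i | isB (t i) ∧ (t i).2 ∈ Φ (t i).1}.ncard ∧
      c ≤ {i | isB (t i) ∧ (t i).2 ∉ Φ (t i).1}.ncard) →
    u ∈ Submodule.span ℚ {f | Gen Φ a s c P f}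

/-- **Row SUP**: in a sub-Hodge structure killed by `pr` and `an`, the words have `B`-parts of
coniveau `c`. -/
def SUP : Prop :=
  ∀ (κ : Type) (K : κ → Type) [∀ k, Field (K k)] (n : κ → ℕ) (J : κ → Type) [Fintype (Lt K n J)]
    (Φ : Ty K n J) (a : ∀ k, Fin (n k) → K k) (s : κ → Bool) (D : LS (Lt K n J)),
    IsDat Φ a s → IsLS a s D → ∀ (P : Type) [Fintype P] (c : ℕ)
    (R : Submodule ℚ ((P → Lt K n J) → ℂ)), IsSub Φ a s c R →
    (∀ u ∈ R, ∀ i j, i ≠ j → D.pr i j u = 0 ∧ D.an i j u = 0) →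
    ∀ u ∈ R, ∀ t, u t ≠ 0 → c ≤ {i | isB (t i) ∧ (t i).2 ∈ Φ (t i).1}.ncard ∧
      c ≤ {i | isB (t i) ∧ (t i).2 ∉ Φ (t i).1}.ncard

/-- **Row TRN**: morphisms map sub-Hodge structures to sub-Hodge structures. -/
def TRN : Prop :=
  ∀ (κ : Type) (K : κ → Type) [∀ k, Field (K k)] (n : κ → ℕ) (J : κ → Type)
    (Φ : Ty K n J) (a : ∀ k, Fin (n k) → K k) (s : κ → Bool) (P P' : Type) [Fintype P]
    [Fintype P'] (h r c : ℕ) (C : ((P → Lt K n J) → ℂ) →ₗ[ℂ] ((P' → Lt K n J) → ℂ)),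
    IsMor Φ a s h r C → ∀ R : Submodule ℚ ((P → Lt K n J) → ℂ), IsSub Φ a s c R →
    IsSub Φ a s (c - h) (R.map (C.restrictScalars ℚ))

/-- **Row REX**: permutations of the places are morphisms, and compatible with `pr` and `an`. -/
def REX : Prop :=
  ∀ (κ : Type) (K : κ → Type) [∀ k, Field (K k)] (n : κ → ℕ) (J : κ → Type) [Fintype (Lt K n J)]
    (Φ : Ty K n J) (a : ∀ k, Fin (n k) → K k) (s : κ → Bool) (D : LS (Lt K n J))
    (P P' : Type) [Fintype P] [Fintype P'] (e : P ≃ P'),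
    ∃ C : ((P → Lt K n J) → ℂ) →ₗ[ℂ] ((P' → Lt K n J) → ℂ), IsMor Φ a s 0 0 C ∧
      (∀ u t', C u t' = u fun i => t' (e i)) ∧
      ∀ i j u t', D.pr (e i) (e j) (C u) t' = D.pr i j u (fun i => t' (e i)) ∧
        D.an (e i) (e j) (C u) t' = D.an i j u (fun i => t' (e i))

/-- **Row RTO**: the operators are rational. -/
def RTO : Prop :=
  ∀ (κ : Type) [Finite κ] (K : κ → Type) [∀ k, Field (K k)] [∀ k, NumberField (K k)]
    [∀ k, NumberField.IsCMField (K k)] (n : κ → ℕ) (J : κ → Type) [Fintype (Lt K n J)]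
    (Φ : Ty K n J) (a : ∀ k, Fin (n k) → K k) (s : κ → Bool) (D : LS (Lt K n J)),
    IsDat Φ a s → IsLS a s D → ∀ (P : Type) [Fintype P] (i j : P), i ≠ j →
    ∀ u ∈ TQ K n J P, D.pr i j u ∈ TQ K n J P ∧ D.an i j u ∈ TQ K n J P

/-- **Row GRD**: the operators preserve the Hodge types and the number of letters of `A`. -/
def GRD : Prop :=
  ∀ (κ : Type) (K : κ → Type) [∀ k, Field (K k)] (n : κ → ℕ) (J : κ → Type) [Fintype (Lt K n J)]
    (Φ : Ty K n J) (a : ∀ k, Fin (n k) → K k) (s : κ → Bool) (D : LS (Lt K n J)),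
    IsDat Φ a s → IsLS a s D → ∀ (P : Type) [Fintype P] (i j : P), i ≠ j →
    ∀ u : (P → Lt K n J) → ℂ,
      (∀ p, D.pr i j (part Φ p u) = part Φ p (D.pr i j u)) ∧
      (∀ p, D.an i j (part Φ p u) = part Φ p (D.an i j u)) ∧
      ∀ t, D.pr i j u t ≠ 0 ∨ D.an i j u t ≠ 0 →
        ∃ t', u t' ≠ 0 ∧ nT Φ t' = nT Φ t ∧ nF Φ t' = nF Φ t ∧ nA t' = nA t

/-- **Row OMS**: `Ω` and sub-Hodge structures: the decomposition of the saturation of `R`. -/
def OMS : Prop :=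
  ∀ (κ : Type) [Finite κ] (K : κ → Type) [∀ k, Field (K k)] [∀ k, NumberField (K k)]
    [∀ k, NumberField.IsCMField (K k)] (n : κ → ℕ) (J : κ → Type) [∀ k, Finite (J k)]
    [Fintype (Lt K n J)]
    (Φ : Ty K n J) (a : ∀ k, Fin (n k) → K k) (s : κ → Bool) (D : LS (Lt K n J)),
    IsDat Φ a s → IsLS a s D → ∀ (P : Type) [Fintype P] (c r : ℕ)
    (R : Submodule ℚ ((P → Lt K n J) → ℂ)), IsSub Φ a s c R →
    (∀ u ∈ R, ∀ t, u t ≠ 0 → nA t ≤ r) →
    ∃ R₁ R₀ : Submodule ℚ ((P → Lt K n J) → ℂ), IsSub Φ a s c R₁ ∧ IsSub Φ a s c R₀ ∧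
      (∀ u ∈ R₁, ∀ t, u t ≠ 0 → nA t ≤ r) ∧
      (∀ u ∈ R₀, ∀ i j, i ≠ j → D.pr i j u = 0 ∧ D.an i j u = 0) ∧
      ∀ u ∈ R, ∃ v ∈ R₀, ∃ w ∈ R₁, u = v + D.om w

end

end Pool.Agent.U21
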