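import Pool.Agent.Lib.U21.StatB

/-!
# The generalized Hodge conjecture for products: short forms of the definitions

The definitions of `Pool.Agent.Lib.U21.Stat`, with the letter `y` written with its block `bl y`, its
line `ln y` and its embedding `em y`.
-/

set_option autoImplicit false

open scoped ComplexConjugate
open Complex Pool.Agent.HCM

namespace Pool.Agent.U21

noncomputable section

section letters

variable {κ : Type} {K : κ → Type} [∀ k, Field (K k)] {n : κ → ℕ} {J : κ → Type}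

/-- The block of the letter `y`: `y` is a letter of `A k` or of a factor of `B` over `K k`. -/
def bl (y : Lt K n J) : κ := y.1.1

/-- The line of the letter `y`. -/
def ln (y : Lt K n J) : Ln n J (bl y) := y.1.2

/-- The embedding of the letter `y`. -/
def em (y : Lt K n J) : K (bl y) →+* ℂ := y.2

/-- The letter `y` is of type `(1,0)`. -/
def isT (Φ : Ty K n J) (y : Lt K n J) : Prop := em y ∈ Φ ⟨bl y, ln y⟩

/-- The period of the letter `y` over the loop `x`. -/
def lpS (x : Lp K n J) (y : Lt K n J) : ℂ := em y (x ⟨bl y, ln y⟩)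

/-- The value `τ (a k g)` at the letter `(g, τ)` of `A k` (and `1` at the letters of `B`). -/
def wtS (a : ∀ k, Fin (n k) → K k) (y : Lt K n J) : ℂ :=
  em y (Sum.elim (a (bl y)) (fun _ => 1) (ln y))

variable {P : Type}

/-- The number of letters of type `(1,0)`. -/
def nTS (Φ : Ty K n J) (t : P → Lt K n J) : ℕ := {i | isT Φ (t i)}.ncard

/-- The number of letters of type `(0,1)`. -/
def nFS (Φ : Ty K n J) (t : P → Lt K n J) : ℕ := {i | ¬ isT Φ (t i)}.ncard

/-- `u` is of coniveau `c`: its Hodge types `(p, q)` satisfy `p, q ≥ c`. -/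
def ConS (Φ : Ty K n J) (c : ℕ) (u : (P → Lt K n J) → ℂ) : Prop :=
  ∀ t, u t ≠ 0 → c ≤ nTS Φ t ∧ c ≤ nFS Φ t

open Classical in
/-- The part of `u` of type `(p, ·)`. -/
def partS (Φ : Ty K n J) (p : ℕ) (u : (P → Lt K n J) → ℂ) (t : P → Lt K n J) : ℂ :=
  if nTS Φ t = p then u t else 0

variable [Fintype P]

variable (K n J P) in
/-- `H_1(X, ℚ)^{⊗ P}`. -/
def TQS : Submodule ℚ ((P → Lt K n J) → ℂ) :=
  Submodule.span ℚ (Set.range fun (x : P → Lp K n J) (t : P → Lt K n J) => ∏ i, lpS (x i) (t i))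

/-- The element `e_(y, y') - (a y / a y') e_(bar y', bar y)` of the Lie algebra which preserves the
form, acting on tensors. -/
def rootS (a : ∀ k, Fin (n k) → K k) (y y' : Lt K n J) (u : (P → Lt K n J) → ℂ) :
    (P → Lt K n J) → ℂ :=
  eL y y' u - (wtS a y / wtS a y') • eL (bar y') (bar y) u

/-- `R` is a rational sub-Hodge structure of coniveau `c`, stable under the complexified Lie algebra
`𝔤`, the sum of the `𝔰𝔭` (`s k` true) and `𝔰𝔲` (`s k` false) of the forms. -/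
structure IsSubS (Φ : Ty K n J) (a : ∀ k, Fin (n k) → K k) (s : κ → Bool) (c : ℕ)
    (R : Submodule ℚ ((P → Lt K n J) → ℂ)) : Prop where
  rat : R ≤ TQS K n J P
  graded : ∀ u ∈ R, ∀ p, partS Φ p u ∈ Submodule.span ℂ (R : Set ((P → Lt K n J) → ℂ))
  lie : ∀ y y', Sm s y y' → y ≠ y' → ∀ u ∈ R,
    rootS a y y' u ∈ Submodule.span ℂ (R : Set ((P → Lt K n J) → ℂ))
  con : ∀ u ∈ R, ConS Φ c u

/-- `δ` is a rational class of type `(1,1)` in `H_1(X) ⊗ H_1(X)`, killed by `𝔤`. -/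
structure IsH11S (Φ : Ty K n J) (a : ∀ k, Fin (n k) → K k) (s : κ → Bool)
    (δ : (Fin 2 → Lt K n J) → ℂ) : Prop where
  rat : δ ∈ TQS K n J (Fin 2)
  con : ConS Φ 1 δ
  lie : ∀ y y', Sm s y y' → y ≠ y' → rootS a y y' δ = 0

/-! ### They are the definitions of `Pool.Agent.Lib.U21.Stat` -/

theorem lpS_eq (x : Lp K n J) (y : Lt K n J) : lpS x y = lp x y := rfl

theorem wtS_eq (a : ∀ k, Fin (n k) → K k) (y : Lt K n J) : wtS a y = wt a y := rfl

theorem tqS_eq : TQS K n J P = TQ K n J P := rfl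

theorem rootS_eq (a : ∀ k, Fin (n k) → K k) (y y' : Lt K n J) (u : (P → Lt K n J) → ℂ) :
    rootS a y y' u = root a y y' u := rfl

omit [Fintype P] in
theorem conS_iff (Φ : Ty K n J) (c : ℕ) (u : (P → Lt K n J) → ℂ) : ConS Φ c u ↔ Con Φ c u :=
  Iff.rfl

omit [Fintype P] in
theorem partS_eq (Φ : Ty K n J) (p : ℕ) (u : (P → Lt K n J) → ℂ) : partS Φ p u = part Φ p u := rfl

theorem isSubS_iff (Φ : Ty K n J) (a : ∀ k, Fin (n k) → K k) (s : κ → Bool) (c : ℕ)
    (R : Submodule ℚ ((P → Lt K n J) → ℂ)) : IsSubS Φ a s c R ↔ IsSub Φ a s c R :=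
  ⟨fun h => ⟨h.rat, h.graded, h.lie, h.con⟩, fun h => ⟨h.rat, h.graded, h.lie, h.con⟩⟩

theorem isH11S_iff (Φ : Ty K n J) (a : ∀ k, Fin (n k) → K k) (s : κ → Bool)
    (δ : (Fin 2 → Lt K n J) → ℂ) : IsH11S Φ a s δ ↔ IsH11 Φ a s δ :=
  ⟨fun h => ⟨h.rat, h.con, h.lie⟩, fun h => ⟨h.rat, h.con, h.lie⟩⟩

end letters

end

end Pool.Agent.U21
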