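import Pool.Agent.Lib.HCM.Stat

/-!
# The generalized Hodge conjecture for products of symplectic, unitary and CM factors: statement

`K k`, `k : κ`, are finitely many CM fields.  `A k` is an abelian variety with
`H_1(A k, ℚ) = (K k)^(n k)` and the form `∑ g, a k g * x g * conj (y g)` with values in `K k`.  If
`s k` is true, all `τ (a k g)` are purely imaginary, and `A k` is an abelian variety with
multiplication by the maximal real subfield of `K k` and the symplectic form `Tr` of this form.  If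
`s k` is false, all `τ (a k g)` are real, the form is hermitian, and `A k` has multiplication by
`K k`; then `n k` is 2 or 3.  `B` is an abelian variety of CM type, the product of tori over the
fields `K k`: one of them, `E k`, for every `k`, and others, indexed by `J k`.  `X` is the product of
the `A k` and of `B`.

For a line `i` over `K k` (one of the `n k` coordinate lines of `A k`, or a factor of `B`) the letter
`(i, τ)`, `τ : K k → ℂ`, is the linear form `x ↦ τ (x i)` on `H_1(X, ℂ)`.  An element of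
`H_1(X, ℂ)^{⊗ P}`, that is a class in the Künneth component `⊗ H_1` of `H_m(X^m, ℂ)`, `m = |P|`, is
given by its values on the words `P → letters`.
-/

set_option autoImplicit false

open scoped ComplexConjugate
open Complex Pool.Agent.HCM

namespace Pool.Agent.U21

noncomputable section

/-- The lines over `K k`: the `n k` lines of `A k`, the one of `E k` (`none`) and those of the other
factors of `B`. -/
abbrev Ln {κ : Type} (n : κ → ℕ) (J : κ → Type) (k : κ) : Type := Fin (n k) ⊕ Option (J k)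

/-- The letters. -/
abbrev Lt {κ : Type} (K : κ → Type) [∀ k, Field (K k)] (n : κ → ℕ) (J : κ → Type) : Type :=
  Idx fun i : Σ k, Ln n J k => K i.1

/-- The elements of `H_1(X, ℚ)`. -/
abbrev Lp {κ : Type} (K : κ → Type) (n : κ → ℕ) (J : κ → Type) : Type :=
  ∀ i : Σ k, Ln n J k, K i.1

/-- Sets of letters (the letters of type `(1,0)`). -/
abbrev Ty {κ : Type} (K : κ → Type) [∀ k, Field (K k)] (n : κ → ℕ) (J : κ → Type) : Type :=
  ∀ i : Σ k, Ln n J k, Set (K i.1 →+* ℂ)

open Classical in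
/-- The word `t` with the letter `y` at the place `i`. -/
def up {P Y : Type} (t : P → Y) (i : P) (y : Y) : P → Y := fun j => if j = i then y else t j

section letters

variable {κ : Type} {K : κ → Type} [∀ k, Field (K k)] {n : κ → ℕ} {J : κ → Type}

/-- The letter `(g, τ)` of `A k`. -/
def lA (k : κ) (g : Fin (n k)) (τ : K k →+* ℂ) : Lt K n J := ⟨⟨k, Sum.inl g⟩, τ⟩

/-- The letter `τ` of `E k`. -/
def lE (k : κ) (τ : K k →+* ℂ) : Lt K n J := ⟨⟨k, Sum.inr none⟩, τ⟩

/-- `y` is a letter of `B`. -/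
def isB (y : Lt K n J) : Prop := y.1.2.isRight = true

/-- The complex conjugate letter. -/
def bar (y : Lt K n J) : Lt K n J := ⟨y.1, cj y.2⟩

/-- The value `τ (a k g)` at the letter `(g, τ)` of `A k` (and `1` at the letters of `B`). -/
def wt (a : ∀ k, Fin (n k) → K k) (y : Lt K n J) : ℂ :=
  y.2 (Sum.elim (a y.1.1) (fun _ => 1) y.1.2)

/-- `y` and `y'` are letters of one standard representation of the Lie algebra: letters of the same
`A k` with the same `τ` or, if `s k` is true, with conjugate `τ`. -/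
def Sm (s : κ → Bool) (y y' : Lt K n J) : Prop :=
  ∃ (k : κ) (g g' : Fin (n k)) (τ : K k →+* ℂ), y = lA k g τ ∧
    (y' = lA k g' τ ∨ s k = true ∧ y' = lA k g' (cj τ))

/-- The period of the letter `y` over the loop `x`. -/
def lp (x : Lp K n J) (y : Lt K n J) : ℂ := y.2 (x y.1)

/-- The number of the `g` such that the letter `(g, τ)` of `A k` is of type `(1,0)`. -/
def sig (Φ : Ty K n J) (k : κ) (τ : K k →+* ℂ) : ℕ :=
  {g : Fin (n k) | τ ∈ Φ ⟨k, Sum.inl g⟩}.ncard

/-- The conditions on the data: the `Φ i` are CM types; in the hermitian blocks, `A k` has the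
signature `(1,1)` at every `τ`, or `(2,1)` or `(1,2)`, and then `E k` has the type of the
determinant of `H_1(A k)`. -/
structure IsDat (Φ : Ty K n J) (a : ∀ k, Fin (n k) → K k) (s : κ → Bool) : Prop where
  cm : ∀ i, IsCMType (Φ i)
  ne : ∀ k g, a k g ≠ 0
  sgn : ∀ k g (τ : K k →+* ℂ), cj τ (a k g) = if s k then - τ (a k g) else τ (a k g)
  blk : ∀ k, s k = false → (n k = 2 ∧ ∀ τ, sig Φ k τ = 1) ∨
    (n k = 3 ∧ ∀ τ, (sig Φ k τ = 1 ∨ sig Φ k τ = 2) ∧ (τ ∈ Φ ⟨k, Sum.inr none⟩ ↔ sig Φ k τ = 2))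

variable {P : Type}

/-- The number of letters of type `(1,0)`. -/
def nT (Φ : Ty K n J) (t : P → Lt K n J) : ℕ := {i | (t i).2 ∈ Φ (t i).1}.ncard

/-- The number of letters of type `(0,1)`. -/
def nF (Φ : Ty K n J) (t : P → Lt K n J) : ℕ := {i | (t i).2 ∉ Φ (t i).1}.ncard

/-- `u` is of coniveau `c`: its Hodge types `(p, q)` satisfy `p, q ≥ c`. -/
def Con (Φ : Ty K n J) (c : ℕ) (u : (P → Lt K n J) → ℂ) : Prop :=
  ∀ t, u t ≠ 0 → c ≤ nT Φ t ∧ c ≤ nF Φ t

open Classical in
/-- The part of `u` of type `(p, ·)`. -/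
def part (Φ : Ty K n J) (p : ℕ) (u : (P → Lt K n J) → ℂ) (t : P → Lt K n J) : ℂ :=
  if nT Φ t = p then u t else 0

open Classical in
/-- The `K`-determinant of a hermitian block of rank 3, `Λ² V = V' ⊗ H_1(E k)` with `V'` the
conjugate of `V`: the letter of `V'` at the place `i` and the letter of `E k` at the place `j` are
replaced by two letters of `V`. -/
def dt [∀ k, NumberField (K k)] (a : ∀ k, Fin (n k) → K k) (k : κ) (i j : P)
    (u : (P → Lt K n J) → ℂ) (t : P → Lt K n J) : ℂ :=
  ∑ τ : K k →+* ℂ, ∑ g : Fin (n k), ∑ g' : Fin (n k),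
    if t i = lA k g τ ∧ t j = lA k g' τ then
      ∑ z : Fin (n k), ((g : ℂ) - z) * (g' - z) * (g' - g) / 2 * τ (a k z) *
        u (up (up t i (lA k z (cj τ))) j (lE k τ)) else 0

variable [Fintype P]

variable (K n J P) in
/-- `H_1(X, ℚ)^{⊗ P}`. -/
def TQ : Submodule ℚ ((P → Lt K n J) → ℂ) :=
  Submodule.span ℚ (Set.range fun (x : P → Lp K n J) (t : P → Lt K n J) => ∏ i, lp (x i) (t i))

open Classical in
/-- The matrix `e_(y, y')`, acting on tensors as a derivation. -/
def eL {Y : Type} (y y' : Y) (u : (P → Y) → ℂ) (t : P → Y) : ℂ :=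
  ∑ i, if t i = y then u (up t i y') else 0

/-- The element `e_(y, y') - (a y / a y') e_(bar y', bar y)` of the Lie algebra which preserves the
form, acting on tensors. -/
def root (a : ∀ k, Fin (n k) → K k) (y y' : Lt K n J) (u : (P → Lt K n J) → ℂ) :
    (P → Lt K n J) → ℂ :=
  eL y y' u - (wt a y / wt a y') • eL (bar y') (bar y) u

/-- `R` is a rational sub-Hodge structure of coniveau `c`, stable under the complexified Lie algebra
`𝔤`, the sum of the `𝔰𝔭` (`s k` true) and `𝔰𝔲` (`s k` false) of the forms. -/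
structure IsSub (Φ : Ty K n J) (a : ∀ k, Fin (n k) → K k) (s : κ → Bool) (c : ℕ)
    (R : Submodule ℚ ((P → Lt K n J) → ℂ)) : Prop where
  rat : R ≤ TQ K n J P
  graded : ∀ u ∈ R, ∀ p, part Φ p u ∈ Submodule.span ℂ (R : Set ((P → Lt K n J) → ℂ))
  lie : ∀ y y', Sm s y y' → y ≠ y' → ∀ u ∈ R,
    root a y y' u ∈ Submodule.span ℂ (R : Set ((P → Lt K n J) → ℂ))
  con : ∀ u ∈ R, Con Φ c u

/-- `δ` is a rational class of type `(1,1)` in `H_1(X) ⊗ H_1(X)`, killed by `𝔤`. -/
structure IsH11 (Φ : Ty K n J) (a : ∀ k, Fin (n k) → K k) (s : κ → Bool)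
    (δ : (Fin 2 → Lt K n J) → ℂ) : Prop where
  rat : δ ∈ TQ K n J (Fin 2)
  con : Con Φ 1 δ
  lie : ∀ y y', Sm s y y' → y ≠ y' → root a y y' δ = 0

/-- The classes in `H_1(X, ℚ)^{⊗ P}` which come from algebraic subsets of dimension `|P| - c`: the
least class which contains the products of loops and of a class of coniveau `c` on `B`, and is closed
under products with classes of type `(1,1)`, under the `K`-determinants `dt` and under permutations of
the factors. -/
inductive Gen [∀ k, NumberField (K k)] (Φ : Ty K n J) (a : ∀ k, Fin (n k) → K k) (s : κ → Bool) :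
    ℕ → ∀ P : Type, ((P → Lt K n J) → ℂ) → Prop
  | base (c p q : ℕ) (x : Fin p → Lp K n J) (v : (Fin q → Lt K n J) → ℂ)
      (hv : v ∈ TQ K n J (Fin q)) (hB : ∀ t, v t ≠ 0 → ∀ j, isB (t j)) (hc : Con Φ c v) :
      Gen Φ a s c (Fin p ⊕ Fin q) fun t =>
        (∏ i, lp (x i) (t (Sum.inl i))) * v fun j => t (Sum.inr j)
  | mul (c : ℕ) (P : Type) (δ : (Fin 2 → Lt K n J) → ℂ) (u : (P → Lt K n J) → ℂ)
      (hδ : IsH11 Φ a s δ) (hu : Gen Φ a s c P u) :
      Gen Φ a s (c + 1) (Fin 2 ⊕ P) fun t => δ (fun i => t (Sum.inl i)) * u fun j => t (Sum.inr j)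
  | det (c : ℕ) (P : Type) (k : κ) (i j : P) (u : (P → Lt K n J) → ℂ) (hs : s k = false)
      (hn : n k = 3) (hij : i ≠ j) (hu : Gen Φ a s c P u) : Gen Φ a s c P (dt a k i j u)
  | perm (c : ℕ) (P P' : Type) (e : P ≃ P') (u : (P → Lt K n J) → ℂ) (hu : Gen Φ a s c P u) :
      Gen Φ a s c P' fun t => u fun i => t (e i)
  | weak (c : ℕ) (P : Type) (u : (P → Lt K n J) → ℂ) (hu : Gen Φ a s (c + 1) P u) :
      Gen Φ a s c P u

end letters

/-- **The generalized Hodge conjecture for the powers of `X`.** -/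
def GHU : Prop :=
  ∀ (κ : Type) [Finite κ] (K : κ → Type) [∀ k, Field (K k)] [∀ k, NumberField (K k)]
    [∀ k, NumberField.IsCMField (K k)] (n : κ → ℕ) (J : κ → Type) [∀ k, Finite (J k)]
    (Φ : Ty K n J) (a : ∀ k, Fin (n k) → K k) (s : κ → Bool), IsDat Φ a s →
    ∀ (P : Type) [Fintype P] (c : ℕ) (R : Submodule ℚ ((P → Lt K n J) → ℂ)), IsSub Φ a s c R →
      ∀ u ∈ R, u ∈ Submodule.span ℚ {f | Gen Φ a s c P f}

end

end Pool.Agent.U21
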