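import Pool.Agent.Lib.U21.Stat
import Pool.Agent.Lib.GG.Stat

/-!
# The generalized Hodge conjecture for products of symplectic, unitary and CM factors, with the CM part

The classes of coniveau `c` on the powers of `B` are combinations of classes of maps from compact
arithmetic ball quotients, `Pool.Agent.GG.IsCM`.
-/

set_option autoImplicit false

open scoped ComplexConjugate
open Complex Pool.Agent.HCM Pool.Agent.RAT Pool.Agent.GG

namespace Pool.Agent.U21

noncomputable section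

section defs

variable {κ : Type} {K : κ → Type} [∀ k, Field (K k)] {n : κ → ℕ} {J : κ → Type}

/-- The letters of `B`. -/
abbrev LB {κ : Type} (K : κ → Type) [∀ k, Field (K k)] (J : κ → Type) : Type :=
  Idx fun i : Σ k, Option (J k) => K i.1

/-- The letters of `B^q`. -/
abbrev LBq {κ : Type} (K : κ → Type) [∀ k, Field (K k)] (J : κ → Type) (q : ℕ) : Type :=
  Idx fun i : Fin q × Σ k, Option (J k) => K i.2.1

/-- A letter of `B`, as a letter of `X`. -/
def inB (y : LB K J) : Lt K n J := ⟨⟨y.1.1, Sum.inr y.1.2⟩, y.2⟩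

/-- The letter `y` of the factor `j` of `B^q`. -/
def atB {q : ℕ} (j : Fin q) (y : LB K J) : LBq K J q := ⟨(j, y.1), y.2⟩

/-- The part of `Φ` for the factors of `B^q`. -/
def PB (Φ : Ty K n J) (q : ℕ) (i : Fin q × Σ k, Option (J k)) : Set (K i.2.1 →+* ℂ) :=
  Φ ⟨i.2.1, Sum.inr i.2.2⟩

/-- `v`, a class in the Künneth component `⊗ H_1(B)` of `H_q(B^q)`, `q = 2c + l`, comes from an
algebraic subset of `B^q` of dimension `c + l`, see `Pool.Agent.GG.IsCM`. -/
def IsCMB (Φ : Ty K n J) (c l : ℕ) (v : (Fin (2 * c + l) → Lt K n J) → ℂ) : Prop :=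
  (∀ t, v t ≠ 0 → ∀ j, isB (t j)) ∧ ∃ w, IsCM (PB Φ (2 * c + l)) c l w ∧
    ∀ t : Fin (2 * c + l) → LB K J, v (fun j => inB (t j)) = w fun j => atB j (t j)

/-- The classes in `H_1(X, ℚ)^{⊗ P}` which come from algebraic subsets of dimension `|P| - c`: the
least class which contains the products of loops and of a class `v` as in `IsCMB`, and is closed
under products with classes of type `(1,1)`, under the `K`-determinants `dt` and under permutations of
the factors. -/
inductive GenB [∀ k, NumberField (K k)] (Φ : Ty K n J) (a : ∀ k, Fin (n k) → K k) (s : κ → Bool) :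
    ℕ → ∀ P : Type, ((P → Lt K n J) → ℂ) → Prop
  | base (c p l : ℕ) (x : Fin p → Lp K n J) (v : (Fin (2 * c + l) → Lt K n J) → ℂ)
      (hv : IsCMB Φ c l v) : GenB Φ a s c (Fin p ⊕ Fin (2 * c + l)) fun t =>
        (∏ i, lp (x i) (t (Sum.inl i))) * v fun j => t (Sum.inr j)
  | mul (c : ℕ) (P : Type) (δ : (Fin 2 → Lt K n J) → ℂ) (u : (P → Lt K n J) → ℂ)
      (hδ : IsH11 Φ a s δ) (hu : GenB Φ a s c P u) :
      GenB Φ a s (c + 1) (Fin 2 ⊕ P) fun t => δ (fun i => t (Sum.inl i)) * u fun j => t (Sum.inr j)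
  | det (c : ℕ) (P : Type) (k : κ) (i j : P) (u : (P → Lt K n J) → ℂ) (hs : s k = false)
      (hn : n k = 3) (hij : i ≠ j) (hu : GenB Φ a s c P u) : GenB Φ a s c P (dt a k i j u)
  | perm (c : ℕ) (P P' : Type) (e : P ≃ P') (u : (P → Lt K n J) → ℂ) (hu : GenB Φ a s c P u) :
      GenB Φ a s c P' fun t => u fun i => t (e i)
  | weak (c : ℕ) (P : Type) (u : (P → Lt K n J) → ℂ) (hu : GenB Φ a s (c + 1) P u) :
      GenB Φ a s c P u

end defs

/-- **Row CMB**: a rational tensor of coniveau `c` on `B` comes from ball quotients. -/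
def CMB : Prop :=
  ∀ (κ : Type) [Finite κ] (K : κ → Type) [∀ k, Field (K k)] [∀ k, NumberField (K k)]
    [∀ k, NumberField.IsCMField (K k)] (n : κ → ℕ) (J : κ → Type) [∀ k, Finite (J k)]
    (Φ : Ty K n J), (∀ i, IsCMType (Φ i)) → ∀ (c l : ℕ) (v : (Fin (2 * c + l) → Lt K n J) → ℂ),
    v ∈ TQ K n J (Fin (2 * c + l)) → (∀ t, v t ≠ 0 → ∀ j, isB (t j)) → Con Φ c v → IsCMB Φ c l v

/-- **Row GEN**: the classes `Gen` are combinations of the classes `GenB`. -/
def GEN : Prop :=
  ∀ (κ : Type) [Finite κ] (K : κ → Type) [∀ k, Field (K k)] [∀ k, NumberField (K k)]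
    [∀ k, NumberField.IsCMField (K k)] (n : κ → ℕ) (J : κ → Type) [∀ k, Finite (J k)]
    (Φ : Ty K n J) (a : ∀ k, Fin (n k) → K k) (s : κ → Bool), IsDat Φ a s →
    ∀ (c : ℕ) (P : Type) (u : (P → Lt K n J) → ℂ), Gen Φ a s c P u →
      u ∈ Submodule.span ℚ {f | GenB Φ a s c P f}

/-- **The generalized Hodge conjecture for the powers of `X`.** -/
def GHB : Prop :=
  ∀ (κ : Type) [Finite κ] (K : κ → Type) [∀ k, Field (K k)] [∀ k, NumberField (K k)]
    [∀ k, NumberField.IsCMField (K k)] (n : κ → ℕ) (J : κ → Type) [∀ k, Finite (J k)]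
    (Φ : Ty K n J) (a : ∀ k, Fin (n k) → K k) (s : κ → Bool), IsDat Φ a s →
    ∀ (P : Type) [Fintype P] (c : ℕ) (R : Submodule ℚ ((P → Lt K n J) → ℂ)), IsSub Φ a s c R →
      ∀ u ∈ R, u ∈ Submodule.span ℚ {f | GenB Φ a s c P f}

end

end Pool.Agent.U21
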